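import Mathlib

/-!
# H58Q, module A: tube covers of 1-rectifiable sets (definitions)
-/

open MeasureTheory Set Filter Topology
open scoped ENNReal NNReal

namespace H58Q

/-- The Euclidean plane. -/
abbrev E2 := EuclideanSpace ℝ (Fin 2)

/-- Open neighbourhood of radius `ρ` of the segment from `b - V/2` to `b + V/2`. -/
def Tube (b V : E2) (ρ : ℝ) : Set E2 :=
  {x | ∃ t : ℝ, |t| ≤ 1 / 2 ∧ ‖x - (b + t • V)‖ < ρ}

/-- `B` has a countable cover by tubes with all radii and lengths at most `δ`, sum of the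
lengths at most `M`, sum of the radii at most `R`. -/
def HasCover (B : Set E2) (δ : ℝ) (M R : ℝ≥0∞) : Prop :=
  ∃ (b V : ℕ → E2) (ρ : ℕ → ℝ), (∀ j, 0 < ρ j ∧ ρ j ≤ δ ∧ ‖V j‖ ≤ δ) ∧
    ∑' j, ENNReal.ofReal ‖V j‖ ≤ M ∧ ∑' j, ENNReal.ofReal (ρ j) ≤ R ∧
    B ⊆ ⋃ j, Tube (b j) (V j) (ρ j)

theorem HasCover.mono {B B' : Set E2} {δ : ℝ} {M M' R R' : ℝ≥0∞} (h : HasCover B δ M R)
    (hB : B' ⊆ B) (hM : M ≤ M') (hR : R ≤ R') : HasCover B' δ M' R' := by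
  obtain ⟨b, V, ρ, h1, h2, h3, h4⟩ := h
  exact ⟨b, V, ρ, h1, h2.trans hM, h3.trans hR, hB.trans h4⟩

/-- Every straight line `a x + c y = d` which meets the unit square meets `B`. -/
def OpaqueSq (B : Set E2) : Prop :=
  ∀ a c d : ℝ, (a ≠ 0 ∨ c ≠ 0) →
    (∃ x ∈ Set.Icc (0 : ℝ) 1, ∃ y ∈ Set.Icc (0 : ℝ) 1, a * x + c * y = d) →
      ∃ p ∈ B, a * p 0 + c * p 1 = d

/-- A positive sequence of reals with sum at most `ε`. -/
theorem exists_small_seq {ε : ℝ≥0∞} (hε : ε ≠ 0) {δ : ℝ} (hδ : 0 < δ) :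
    ∃ η : ℕ → ℝ, (∀ n, 0 < η n ∧ η n ≤ δ) ∧ ∑' n, ENNReal.ofReal (η n) ≤ ε := by
  obtain ⟨η', h1, h2⟩ := ENNReal.exists_pos_sum_of_countable' hε ℕ
  refine ⟨fun n => min (η' n).toReal δ ⊓ δ, fun n => ?_, ?_⟩
  · have hn : η' n ≠ ∞ := fun h => by
      have := ENNReal.le_tsum (f := η') n
      rw [h] at this
      exact absurd h2 (not_lt.mpr (le_trans le_top this))
    refine ⟨?_, min_le_right _ _⟩
    have := ENNReal.toReal_pos (h1 n).ne' hn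
    simp [this, hδ]
  · refine le_trans (ENNReal.tsum_le_tsum fun n => ?_) h2.le
    refine le_trans (ENNReal.ofReal_le_ofReal ((min_le_left _ _).trans (min_le_left _ _))) ?_
    exact ENNReal.ofReal_toReal_le

end H58Q
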