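import Pool.Agent.Lib.H58Q.A0

open MeasureTheory Set Filter Topology
open scoped ENNReal NNReal

namespace H58Q

/-- **A1 (S).** Covers from the definition of the Hausdorff measure.
PROOF. `hausdorffMeasure_apply 1 S` writes `μH[1] S` as a supremum over `r > 0`; take `r = δ`
(`le_iSup₂`): the infimum over the covers with `ediam ≤ δ` of `∑' n, ⨆ _ : (U n).Nonempty, ediam (U n) ^ 1`
is at most `μH[1] S < μH[1] S + ε` (`ENNReal.lt_add_right hS hε`), so `iInf_lt_iff` (three times) gives `U`.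
For each `n` the term is `ediam (U n)`: if `U n` is empty, both are `0` (`Metric.ediam_empty`; the supremum
over an empty proposition is `⊥`), else `iSup_pos` and `ENNReal.rpow_one`. -/
theorem A1 {X : Type*} [EMetricSpace X] [MeasurableSpace X] [BorelSpace X] (S : Set X)
    (hS : μH[1] S ≠ ∞) {ε δ : ℝ≥0∞} (hε : ε ≠ 0) (hδ : 0 < δ) :
    ∃ U : ℕ → Set X, S ⊆ ⋃ n, U n ∧ (∀ n, Metric.ediam (U n) ≤ δ) ∧
      ∑' n, Metric.ediam (U n) ≤ μH[1] S + ε := by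
  have h1 : (⨅ (t : ℕ → Set X) (_ : S ⊆ ⋃ n, t n) (_ : ∀ n, Metric.ediam (t n) ≤ δ),
      ∑' n, ⨆ _ : (t n).Nonempty, Metric.ediam (t n) ^ (1 : ℝ)) < μH[1] S + ε := by
    refine lt_of_le_of_lt ?_ (ENNReal.lt_add_right hS hε)
    rw [Measure.hausdorffMeasure_apply]
    exact le_iSup₂ (f := fun (r : ℝ≥0∞) (_ : 0 < r) =>
      ⨅ (t : ℕ → Set X) (_ : S ⊆ ⋃ n, t n) (_ : ∀ n, Metric.ediam (t n) ≤ r),
      ∑' n, ⨆ _ : (t n).Nonempty, Metric.ediam (t n) ^ (1 : ℝ)) δ hδ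
  simp only [iInf_lt_iff] at h1
  obtain ⟨U, hU1, hU2, hU3⟩ := h1
  refine ⟨U, hU1, hU2, le_trans (ENNReal.tsum_le_tsum fun n => ?_) hU3.le⟩
  rcases (U n).eq_empty_or_nonempty with h | h
  · rw [h, Metric.ediam_empty]; exact zero_le
  · rw [iSup_pos h, ENNReal.rpow_one]

end H58Q
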