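import Pool.Agent.Lib.H58Q.A0

open MeasureTheory Set Filter Topology
open scoped ENNReal NNReal

namespace H58Q

/-- **A8a (M).** A map which is Lipschitz on a set of reals extends to a Lipschitz map `ℝ → E2`. -/
theorem A8a (g : ℝ → E2) (s : Set ℝ) (hg : LipschitzOnWith 1 g s) :
    ∃ G : ℝ → E2, LipschitzWith 2 G ∧ EqOn g G s := by
  have hc : ∀ i : Fin 2, LipschitzOnWith 1 (fun x => g x i) s := by
    intro i x hx y hy
    refine le_trans ?_ (hg hx hy)
    rw [edist_dist, edist_dist]
    refine ENNReal.ofReal_le_ofReal ?_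
    rw [dist_eq_norm, dist_eq_norm]
    have := PiLp.norm_apply_le (g x - g y) i
    simpa using this
  choose G hG hGs using fun i => (hc i).extend_real
  refine ⟨fun x => WithLp.toLp 2 (fun i => G i x), ?_, ?_⟩
  · refine LipschitzWith.of_dist_le_mul fun x y => ?_
    rw [dist_eq_norm, EuclideanSpace.norm_eq, Fin.sum_univ_two]
    have h0 : |G 0 x - G 0 y| ≤ |x - y| := by
      have := (hG 0).dist_le_mul x y
      simpa [Real.dist_eq] using this
    have h1 : |G 1 x - G 1 y| ≤ |x - y| := by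
      have := (hG 1).dist_le_mul x y
      simpa [Real.dist_eq] using this
    rw [Real.sqrt_le_left (by positivity)]
    simp only [Real.norm_eq_abs, PiLp.sub_apply, sq_abs, NNReal.coe_ofNat, Real.dist_eq]
    have e0 : (G 0 x - G 0 y) ^ 2 ≤ |x - y| ^ 2 := by
      rw [← sq_abs (G 0 x - G 0 y)]
      exact pow_le_pow_left₀ (abs_nonneg _) h0 2
    have e1 : (G 1 x - G 1 y) ^ 2 ≤ |x - y| ^ 2 := by
      rw [← sq_abs (G 1 x - G 1 y)]
      exact pow_le_pow_left₀ (abs_nonneg _) h1 2
    nlinarith [sq_nonneg |x - y|]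
  · intro x hx
    ext i
    exact hGs i hx

/-- **A8 (M).** A curve of finite length is contained in a Lipschitz image of `[0,1]` (continuity is not needed). -/
theorem A8 (f : ℝ → E2) (hv : eVariationOn f (Icc 0 1) ≠ ∞) :
    ∃ (g : ℝ → E2) (K : ℝ≥0), LipschitzWith K g ∧ f '' Icc 0 1 ⊆ g '' Icc 0 1 := by
  set s : Set ℝ := Icc 0 1 with hs
  have hf : LocallyBoundedVariationOn f s := BoundedVariationOn.locallyBoundedVariationOn hv
  have h0 : (0 : ℝ) ∈ s := ⟨le_rfl, zero_le_one⟩
  have h1 : (1 : ℝ) ∈ s := ⟨zero_le_one, le_rfl⟩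
  set φ := variationOnFromTo f s 0 with hφ
  have hmono : MonotoneOn φ s := variationOnFromTo.monotoneOn hf h0
  have hφ0 : φ 0 = 0 := variationOnFromTo.self f s 0
  set L := φ 1 with hL
  have hL0 : 0 ≤ L := by rw [← hφ0]; exact hmono h0 h1 zero_le_one
  set g := naturalParameterization f s 0 with hg
  have hgf : ∀ t ∈ s, g (φ t) = f t := fun t ht =>
    edist_eq_zero.mp (edist_naturalParameterization_eq_zero hf h0 ht)
  have hunit := has_unit_speed_naturalParameterization f hf h0
  have hlip : LipschitzOnWith 1 g (φ '' s) := by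
    have key : ∀ x ∈ φ '' s, ∀ y ∈ φ '' s, x ≤ y → edist (g x) (g y) ≤ edist x y := by
      intro x hx y hy hxy
      have h2 := hunit hx hy
      have h3 : edist (g x) (g y) ≤ eVariationOn g (φ '' s ∩ Icc x y) :=
        eVariationOn.edist_le g ⟨hx, le_rfl, hxy⟩ ⟨hy, hxy, le_rfl⟩
      refine h3.trans ?_
      rw [h2, edist_dist, Real.dist_eq, abs_sub_comm, abs_of_nonneg (by linarith)]
      simp
    intro x hx y hy
    rw [ENNReal.coe_one, one_mul]
    rcases le_total x y with h | h
    · exact key x hx y hy h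
    · rw [edist_comm, edist_comm x y]
      exact key y hy x hx h
  obtain ⟨G, hG, hGs⟩ := A8a g _ hlip
  refine ⟨fun x => G (L * x), 2 * Real.toNNReal L, ?_, ?_⟩
  · refine hG.comp ?_
    refine LipschitzWith.of_dist_le_mul fun x y => ?_
    rw [Real.dist_eq, Real.dist_eq, ← mul_sub, abs_mul, abs_of_nonneg hL0, Real.coe_toNNReal _ hL0]
  · rintro _ ⟨t, ht, rfl⟩
    have hft : f t = G (φ t) := by
      rw [← hgf t ht]; exact hGs ⟨t, ht, rfl⟩
    have hφt : 0 ≤ φ t := by rw [← hφ0]; exact hmono h0 ht ht.1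
    have hφt1 : φ t ≤ L := hmono ht h1 ht.2
    rcases hL0.lt_or_eq with hpos | hzero
    · refine ⟨φ t / L, ⟨by positivity, (div_le_one hpos).mpr hφt1⟩, ?_⟩
      rw [hft]
      simp only
      rw [mul_div_cancel₀ _ hpos.ne']
    · refine ⟨0, h0, ?_⟩
      have : φ t = 0 := le_antisymm (by rw [hzero]; exact hφt1) hφt
      rw [hft, this]
      simp

end H58Q
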