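import Pool.Agent.Lib.H58Q.A0

open MeasureTheory Set Filter Topology
open scoped ENNReal NNReal

namespace H58Q

/-- **A9a (S/M).** A line which meets a tube.
PROOF. Let `p = b + t • V + e`, `|t| ≤ 1/2`, `‖e‖ < ρ` (`e = p - (b + t • V)`). Then
`a p₀ + c p₁ - (a b₀ + c b₁) = t (a V₀ + c V₁) + (a e₀ + c e₁)`, `|t (…)| ≤ |a V₀ + c V₁|/2`, `|e₀|, |e₁| ≤ ‖e‖ < ρ`
(`EuclideanSpace.norm_eq`, or `EuclideanSpace.norm_apply_le`-like lemma `PiLp.norm_apply_le`), and strictness because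
`|a| + |c| > 0`. -/
theorem A9a (b V : E2) (ρ : ℝ) (p : E2) (hp : p ∈ Tube b V ρ) (a c : ℝ) (hac : 0 < |a| + |c|) :
    |a * p 0 + c * p 1 - (a * b 0 + c * b 1)| < |a * V 0 + c * V 1| / 2 + (|a| + |c|) * ρ := by
  obtain ⟨t, ht, hρ⟩ := hp
  set e : E2 := p - (b + t • V) with he
  have h0 : ‖e 0‖ ≤ ‖e‖ := PiLp.norm_apply_le e 0
  have h1 : ‖e 1‖ ≤ ‖e‖ := PiLp.norm_apply_le e 1
  rw [Real.norm_eq_abs] at h0 h1
  have e0 : e 0 = p 0 - (b 0 + t * V 0) := by simp [he]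
  have e1 : e 1 = p 1 - (b 1 + t * V 1) := by simp [he]
  have key : a * p 0 + c * p 1 - (a * b 0 + c * b 1) =
      t * (a * V 0 + c * V 1) + (a * e 0 + c * e 1) := by
    rw [e0, e1]; ring
  rw [key]
  have h2 : |t * (a * V 0 + c * V 1)| ≤ |a * V 0 + c * V 1| / 2 := by
    rw [abs_mul]
    have := abs_nonneg (a * V 0 + c * V 1)
    nlinarith
  have h3 : |a * e 0 + c * e 1| < (|a| + |c|) * ρ := by
    calc |a * e 0 + c * e 1| ≤ |a * e 0| + |c * e 1| := abs_add_le _ _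
      _ = |a| * |e 0| + |c| * |e 1| := by rw [abs_mul, abs_mul]
      _ ≤ |a| * ‖e‖ + |c| * ‖e‖ := by gcongr
      _ = (|a| + |c|) * ‖e‖ := by ring
      _ < (|a| + |c|) * ρ := mul_lt_mul_of_pos_left hρ hac
  calc _ ≤ |t * (a * V 0 + c * V 1)| + |a * e 0 + c * e 1| := abs_add_le _ _
    _ < _ := by linarith

/-- The line `a x + c y = P + (a + c)/2`, with `|a| + |c| = 1` and `|P| ≤ 1/2`, meets the square. -/
theorem A9b (a c P : ℝ) (h : |a| + |c| = 1) (hP : |P| ≤ 1 / 2) :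
    ∃ x ∈ Set.Icc (0 : ℝ) 1, ∃ y ∈ Set.Icc (0 : ℝ) 1, a * x + c * y = P + (a + c) / 2 := by
  have hs : ∀ u : ℝ, ∃ σ : ℝ, σ * u = |u| ∧ |σ| ≤ 1 := by
    intro u
    rcases le_total 0 u with hu | hu
    · exact ⟨1, by rw [one_mul, abs_of_nonneg hu], by simp⟩
    · exact ⟨-1, by rw [abs_of_nonpos hu]; ring, by simp⟩
  obtain ⟨σ, hσ, hσ1⟩ := hs a
  obtain ⟨τ, hτ, hτ1⟩ := hs c
  have hb : ∀ σ : ℝ, |σ| ≤ 1 → 1 / 2 + σ * P ∈ Set.Icc (0 : ℝ) 1 := by
    intro σ hσ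
    have h1 : |σ * P| ≤ 1 / 2 := by
      rw [abs_mul]
      have := abs_nonneg σ
      have := abs_nonneg P
      nlinarith
    have := abs_le.mp h1
    constructor <;> linarith [this.1, this.2]
  refine ⟨1 / 2 + σ * P, hb σ hσ1, 1 / 2 + τ * P, hb τ hτ1, ?_⟩
  have : a * (1 / 2 + σ * P) + c * (1 / 2 + τ * P) = (a + c) / 2 + (σ * a + τ * c) * P := by ring
  rw [this, hσ, hτ, h]
  ring

/-- **A9 (M).** Finite subfamily (compactness of the set of lines which meet the square).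
PROOF. Let `K = {q : ℝ × ℝ × ℝ | |q.1| + |q.2.1| = 1 ∧ |q.2.2| ≤ 1/2}` (compact: closed and bounded, it is contained in
`Icc (-1) 1 ×ˢ Icc (-1) 1 ×ˢ Icc (-1) 1`; `Metric.isCompact_of_isClosed_isBounded` or `IsCompact.of_isClosed_subset`), and for `j`
`U j = {q | |q.2.2 - (q.1 (b j 0 - 1/2) + q.2.1 (b j 1 - 1/2))| < |q.1 V j 0 + q.2.1 V j 1|/2 + (|q.1| + |q.2.1|) ρ j}`,
open (continuous functions). `K ⊆ ⋃ U j`: for `q = (a, c, P) ∈ K` the line `a x + c y = d`, `d = P + (a + c)/2`, meets the square: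
take `x = 1/2 + σ(a) P`, `y = 1/2 + σ(c) P` with `σ(a) a = |a|` , `|σ| ≤ 1`
(`σ(a) = 1` if `0 ≤ a`, else `-1`): `a x + c y = (a + c)/2 + (|a| + |c|) P = d`, and `|P| ≤ 1/2` gives `x, y ∈ [0,1]`.
So `hop` gives `p ∈ B` on the line, `p` is in some tube `j`, and `A9a` is exactly `q ∈ U j`.
`IsCompact.elim_finite_subcover` gives a finite set `t` of indices with `K ⊆ ⋃ j ∈ t, U j`, choose `N` larger than all elements
of `t` (`Finset.exists_nat_subset_range`); `t` is not empty because `K` is not (`(1,0,0)`), so `0 < N`.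
Given `a, c, P` with `|P| ≤ (|a| + |c|)/2`: if `|a| + |c| = 0` then `a = c = P = 0` and `j = 0` works (`0 ≤ 0`; `simp`). Otherwise divide by
`σ = |a| + |c|`: `(a/σ, c/σ, P/σ) ∈ K`, in `U j` with `j < N`; multiply by `σ`. -/
theorem A9 (B : Set E2) (hop : OpaqueSq B) (b V : ℕ → E2) (ρ : ℕ → ℝ)
    (hcov : B ⊆ ⋃ j, Tube (b j) (V j) (ρ j)) :
    ∃ N : ℕ, 0 < N ∧ ∀ a c P : ℝ, |P| ≤ (|a| + |c|) / 2 → ∃ j < N,
      |P - (a * (b j 0 - 1 / 2) + c * (b j 1 - 1 / 2))| ≤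
        |a * V j 0 + c * V j 1| / 2 + (|a| + |c|) * ρ j := by
  set K : Set (ℝ × ℝ × ℝ) := {q | |q.1| + |q.2.1| = 1 ∧ |q.2.2| ≤ 1 / 2} with hK
  have hKc : IsCompact K := by
    have hcl : IsClosed K := by
      refine IsClosed.inter ?_ ?_
      · exact isClosed_eq (f := fun q : ℝ × ℝ × ℝ => |q.1| + |q.2.1|) (by fun_prop) continuous_const
      · exact isClosed_le (f := fun q : ℝ × ℝ × ℝ => |q.2.2|) (by fun_prop) continuous_const
    refine IsCompact.of_isClosed_subset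
      (isCompact_Icc.prod (isCompact_Icc.prod isCompact_Icc) :
        IsCompact (Icc (-1 : ℝ) 1 ×ˢ (Icc (-1 : ℝ) 1 ×ˢ Icc (-1 : ℝ) 1))) hcl ?_
    rintro ⟨a, c, P⟩ ⟨h1, h2⟩
    simp only at h1 h2
    have ha : |a| ≤ 1 := by linarith [abs_nonneg c]
    have hc : |c| ≤ 1 := by linarith [abs_nonneg a]
    have hP : |P| ≤ 1 := by linarith
    exact ⟨abs_le.mp ha, abs_le.mp hc, abs_le.mp hP⟩
  set U : ℕ → Set (ℝ × ℝ × ℝ) := fun j =>
    {q | |q.2.2 - (q.1 * (b j 0 - 1 / 2) + q.2.1 * (b j 1 - 1 / 2))| <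
      |q.1 * V j 0 + q.2.1 * V j 1| / 2 + (|q.1| + |q.2.1|) * ρ j} with hU
  have hUo : ∀ j, IsOpen (U j) := fun j => isOpen_lt (by fun_prop) (by fun_prop)
  have hKU : K ⊆ ⋃ j, U j := by
    rintro ⟨a, c, P⟩ ⟨h1, h2⟩
    simp only at h1 h2
    have hac : a ≠ 0 ∨ c ≠ 0 := by
      by_contra h
      push Not at h
      rw [h.1, h.2] at h1
      simp at h1
    obtain ⟨p, hp, hpe⟩ := hop a c (P + (a + c) / 2) hac (A9b a c P h1 h2)
    obtain ⟨j, hj⟩ := mem_iUnion.mp (hcov hp)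
    have h3 := A9a (b j) (V j) (ρ j) p hj a c (by rw [h1]; norm_num)
    refine mem_iUnion.mpr ⟨j, ?_⟩
    simp only [hU, mem_ofPred_eq]
    rw [hpe] at h3
    have e : P + (a + c) / 2 - (a * b j 0 + c * b j 1) =
        P - (a * (b j 0 - 1 / 2) + c * (b j 1 - 1 / 2)) := by ring
    rwa [e] at h3
  obtain ⟨t, ht⟩ := hKc.elim_finite_subcover U hUo hKU
  obtain ⟨N, hN⟩ := Finset.exists_nat_subset_range t
  have h100 : ((1 : ℝ), (0 : ℝ), (0 : ℝ)) ∈ K := by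
    simp [hK]
  have hN0 : 0 < N := by
    obtain ⟨j, hj⟩ := mem_iUnion.mp (ht h100)
    obtain ⟨hjt, -⟩ := mem_iUnion.mp hj
    exact lt_of_le_of_lt (Nat.zero_le _) (Finset.mem_range.mp (hN hjt))
  refine ⟨N, hN0, fun a c P hP => ?_⟩
  rcases eq_or_lt_of_le (add_nonneg (abs_nonneg a) (abs_nonneg c)) with h0 | h0
  · have ha : a = 0 := by
      have := abs_nonneg a; have := abs_nonneg c
      exact abs_eq_zero.mp (by linarith)
    have hc : c = 0 := by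
      have := abs_nonneg a; have := abs_nonneg c
      exact abs_eq_zero.mp (by linarith)
    have hP0 : P = 0 := by
      rw [ha, hc] at hP
      simpa using hP
    exact ⟨0, hN0, by simp [ha, hc, hP0]⟩
  · set σ := |a| + |c| with hσ
    have hmem : (a / σ, c / σ, P / σ) ∈ K := by
      refine ⟨?_, ?_⟩
      · simp only
        rw [abs_div, abs_div, abs_of_pos h0, ← add_div, ← hσ, div_self h0.ne']
      · simp only
        rw [abs_div, abs_of_pos h0, div_le_iff₀ h0]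
        linarith
    obtain ⟨j, hj⟩ := mem_iUnion.mp (ht hmem)
    obtain ⟨hjt, hj⟩ := mem_iUnion.mp hj
    refine ⟨j, Finset.mem_range.mp (hN hjt), ?_⟩
    simp only [hU, mem_ofPred_eq] at hj
    have h1 : P / σ - (a / σ * (b j 0 - 1 / 2) + c / σ * (b j 1 - 1 / 2)) =
        (P - (a * (b j 0 - 1 / 2) + c * (b j 1 - 1 / 2))) / σ := by ring
    have h2 : a / σ * V j 0 + c / σ * V j 1 = (a * V j 0 + c * V j 1) / σ := by ring
    have h3 : |a / σ| + |c / σ| = (|a| + |c|) / σ := by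
      rw [abs_div, abs_div, abs_of_pos h0]; ring
    rw [h1, h2, h3, abs_div, abs_div, abs_of_pos h0] at hj
    have h4 : |a * V j 0 + c * V j 1| / σ / 2 + (|a| + |c|) / σ * ρ j =
        (|a * V j 0 + c * V j 1| / 2 + (|a| + |c|) * ρ j) / σ := by ring
    rw [h4, div_lt_div_iff_of_pos_right h0] at hj
    exact hj.le

end H58Q
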