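import Pool.Agent.Lib.H58Q.Chk

/-! H58Q (MP_da76ea_co, opaque sets for the square): definitions.
Coordinates: the square is `[-6, 6] ^ 2` (centred, scale 12). A line of the window is
`X = C + m Y` with `|C| <= 6`, `|m| <= 1 / 2`; such a line meets the square. -/

namespace H58Q

open MeasureTheory Set Finset

/-- a tube: centre `(X, Y)`, displacement `(p, q)`, radius `r` -/
structure Tb where
  X : ℝ
  Y : ℝ
  p : ℝ
  q : ℝ
  r : ℝ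

/-- the line `a X + c Y = P` may meet the tube -/
def Meets (t : Tb) (a c P : ℝ) : Prop :=
  |P - (a * t.X + c * t.Y)| ≤ |a * t.p + c * t.q| / 2 + (|a| + |c|) * t.r

/-- every line that meets the square `[-6, 6] ^ 2` meets a tube -/
def COV {n : ℕ} (F : Fin n → Tb) : Prop :=
  ∀ a c P : ℝ, (a ≠ 0 ∨ c ≠ 0) → |P| ≤ 6 * (|a| + |c|) → ∃ j, Meets (F j) a c P

/-- the tubes are short and thin -/
structure Sm {n : ℕ} (F : Fin n → Tb) (ε : ℝ) : Prop where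
  rpos : ∀ j, 0 < (F j).r
  rle : ∀ j, (F j).r ≤ ε
  ple : ∀ j, |(F j).p| ≤ ε
  qle : ∀ j, |(F j).q| ≤ ε
  rsum : ∑ j, (F j).r ≤ ε

noncomputable def len {n : ℕ} (F : Fin n → Tb) : ℝ :=
  ∑ j, Real.sqrt ((F j).p ^ 2 + (F j).q ^ 2)

/-- the finite core: `6099 / 250 = 12 * 2.033` -/
def Core : Prop := ∀ η : ℝ, 0 < η → ∃ ε : ℝ, 0 < ε ∧ ∀ (n : ℕ) (F : Fin n → Tb),
  Sm F ε → COV F → 6099 / 250 - η ≤ len F

/-! ### The twelve normals -/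

def na : Fin 12 → ℤ := ![1, 3, 2, 1, 1, 1, 0, -1, -1, -1, -2, -3]
def nc : Fin 12 → ℤ := ![0, 1, 1, 1, 2, 3, 1, 3, 2, 1, 1, 1]
def nh : Fin 12 → ℕ := ![1, 4, 3, 2, 3, 4, 1, 4, 3, 2, 3, 4]

/-- position of `(X, Y)` in direction `k` -/
def PP (k : Fin 12) (X Y : ℝ) : ℝ := (na k : ℝ) * X + (nc k : ℝ) * Y

/-! ### Piecewise linear functions from tables -/

/-- hat function -/
def hatf (x : ℝ) : ℝ := max 0 (1 - |x|)

/-- the table `T` as a function of `s` in `[0, 12]`: value `fld T (2 i) / 10 ^ 6` at `s = i`,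
lowered by `fld T (2 i + 1) / 10 ^ 6` at `s = i + 1 / 2` -/
noncomputable def plf (T : ℕ) (s : ℝ) : ℝ :=
  ∑ i ∈ range 13, (fld T (2 * i) : ℝ) / 10 ^ 6 * hatf (s - i)
    - ∑ i ∈ range 12, (fld T (2 * i + 1) : ℝ) / 10 ^ 6 * hatf (2 * (s - i) - 1)

/-- the density in the direction `k` -/
noncomputable def psiR (T : Fin 12 → ℕ) (k : Fin 12) (P : ℝ) : ℝ := plf (T k) ((P + 6 * nh k) / nh k)

/-- the density at a point, zero outside of the strip -/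
noncomputable def PsiR (T : Fin 12 → ℕ) (k : Fin 12) (X Y : ℝ) : ℝ :=
  if |PP k X Y| ≤ 6 * nh k then psiR T k (PP k X Y) else 0

/-- tables with convex middle nodes and nonnegative values -/
def okT (T : ℕ) : Prop := ∀ i < 12, 2 * fld T (2 * i + 1) ≤ fld T (2 * i) + fld T (2 * i + 2)

noncomputable def lerp (v : ℕ → ℝ) (s : ℝ) : ℝ := v ⌊s⌋₊ * (1 - (s - ⌊s⌋₊)) + v (⌊s⌋₊ + 1) * (s - ⌊s⌋₊)

/-- the weight: a piecewise linear function above `80 / (40 + Y ^ 2)` -/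
noncomputable def FF (Y : ℝ) : ℝ :=
  if |Y| ≤ 8 then lerp (fun i => (FN3 i : ℝ) / 10 ^ 6) (3 * |Y|)
  else if |Y| ≤ 18 then lerp (fun i => (FN1 i : ℝ) / 10 ^ 6) |Y| else 80 / (40 + Y ^ 2)

/-! ### The rule and the kernel of a class -/

noncomputable def rC (u : ℝ → ℝ → ℝ) : ℝ :=
  (u 6 0 - u (-6) 0) / 24 + (u 3 (1 / 2) + u 3 (-1 / 2) - u (-3) (1 / 2) - u (-3) (-1 / 2)) / 24

noncomputable def rM (u : ℝ → ℝ → ℝ) : ℝ :=
  (u 0 (1 / 2) - u 0 (-1 / 2)) / 2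
    + (u 3 (1 / 2) - u 3 (-1 / 2) + u (-3) (1 / 2) - u (-3) (-1 / 2)) / 4

/-- the functional of the class with vertex `(a, m)` and weights `l` -/
noncomputable def Lam (a m : ℝ) (l : Fin 7 → ℝ) (u : ℝ → ℝ → ℝ) : ℝ :=
  ∑ i : Fin 7, l i * (u a m - u ((i : ℝ) - 3) 0 - rC u * (a - ((i : ℝ) - 3)) - rM u * m)

noncomputable def ee (a m : ℝ) (l : Fin 7 → ℝ) (X Y : ℝ) : ℝ :=
  Lam a m l (fun C M => |C + M * Y - X|) / 2

/-- a certificate for the vertex `(a, m)` with slack `s` -/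
def Cert (a m s : ℝ) : Prop := ∃ (T : Fin 12 → ℕ) (l : Fin 7 → ℝ), (∀ k, okT (T k)) ∧
  (∀ i, 0 ≤ l i) ∧
  (∀ X Y p q : ℝ, ∑ k, PsiR T k X Y * |(na k : ℝ) * p + (nc k : ℝ) * q|
    + ee a m l X Y * FF Y * (|p| + |q| / 2) ≤ Real.sqrt (p ^ 2 + q ^ 2)) ∧
  6099 / 250 ≤ ∑ k, (∫ x in (-6 * (nh k : ℝ))..(6 * (nh k : ℝ)), psiR T k x)
    + ∑ i : Fin 7, l i * (a ^ 2 + 40 * m ^ 2 - ((i : ℝ) - 3) ^ 2 - s)

/-! ### The arrangement -/

/-- the vertical lines are `X = x0 / 2 - 18`, `x0 ∈ xs` -/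
def xs : Finset ℕ := (range 25).image (· + 24) ∪ (range 9).image (2 * · + 6) ∪
  (range 9).image (2 * · + 50) ∪ {0, 72}

/-- the horizontal lines are `Y = y0 / 3 - 18`, `y0 ∈ ys` -/
def ys : Finset ℕ := (range 49).image (· + 30) ∪ (range 10).image (3 * ·) ∪
  (range 10).image (3 * · + 81)

/-- the lines `a X + c Y = P` of the arrangement, as triples `(a, c, P)` -/
def arr : Set (ℝ × ℝ × ℝ) := {l | (∃ x0 ∈ xs, l = (1, 0, (x0 : ℝ) / 2 - 18)) ∨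
  (∃ y0 ∈ ys, l = (0, 1, (y0 : ℝ) / 3 - 18)) ∨
  (∃ k : Fin 12, na k ≠ 0 ∧ nc k ≠ 0 ∧ ∃ i < 13,
    l = ((na k : ℝ), (nc k : ℝ), (nh k : ℝ) * ((i : ℕ) - 6)))}

/-- `(X, Y)` is on the line -/
def onL (l : ℝ × ℝ × ℝ) (X Y : ℝ) : Prop := l.1 * X + l.2.1 * Y = l.2.2

/-- a vertex of the arrangement -/
def Vtx (A : Set (ℝ × ℝ × ℝ)) (X Y : ℝ) : Prop := ∃ l ∈ A, ∃ l' ∈ A,
  l.1 * l'.2.1 - l'.1 * l.2.1 ≠ 0 ∧ onL l X Y ∧ onL l' X Y

/-! ### The integer data -/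

/-- integer coefficients of the kernel, unit `1 / (192 * 10 ^ 7)`: the vertex, the seven points
`(j, 0)`, the points `(6, 0), (-6, 0), (3, 1/2), (3, -1/2), (-3, 1/2), (-3, -1/2), (0, 1/2), (0, -1/2)` -/
def gN (l : Fin 7 → ℕ) (al mu : ℤ) : Fin 16 → ℤ :=
  let LA : ℤ := ∑ i, (l i : ℤ)
  let dl : ℤ := al * LA + 4 * ∑ i : Fin 7, ((i : ℤ) - 3) * (l i : ℤ)
  let s1 : ℤ := if al = 0 ∧ mu = 1 then 48 * LA else 0
  let s2 : ℤ := if al = 24 ∧ mu = 0 then 2 * dl else 0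
  ![192 * LA - s1 - s2, -192 * l 0, -192 * l 1, -192 * l 2, -192 * l 3, -192 * l 4, -192 * l 5,
    -192 * l 6, 2 * dl, -2 * dl + s2, 2 * (dl - 12 * mu * LA), 2 * (dl + 12 * mu * LA),
    -2 * (dl + 12 * mu * LA), 2 * (12 * mu * LA - dl), -48 * mu * LA + s1, 48 * mu * LA]

/-- four times the abscissas of the sixteen points -/
def cN (al : ℤ) : Fin 16 → ℤ := ![-al, -12, -8, -4, 0, 4, 8, 12, 24, -24, 12, 12, -12, -12, 0, 0]

/-- twice the slopes of the sixteen points -/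
def mN (mu : ℤ) : Fin 16 → ℤ := ![mu, 0, 0, 0, 0, 0, 0, 0, 0, 0, 1, -1, 1, -1, 1, -1]

def G0 (l : Fin 7 → ℕ) (al mu : ℤ) : ℕ := ∑ r, (gN l al mu r).natAbs
def G1 (l : Fin 7 → ℕ) (al mu : ℤ) : ℕ := ∑ r, (gN l al mu r).natAbs * (mN mu r).natAbs
def G2 (l : Fin 7 → ℕ) (al mu : ℤ) : ℕ := ∑ r, (gN l al mu r).natAbs * (cN al r).natAbs

/-- bounds for the differences of the weight -/
def LF3 : ℕ := 68336
def LF1 : ℕ := 108073

/-- the conditions on the data of a class (vertex `(- al / 4, mu / 2)`) except the list of checks -/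
structure DatOK (T M : Fin 12 → ℕ) (l : Fin 7 → ℕ) (LA al mu dl eA eB eC eF : ℕ) : Prop where
  okT : ∀ k, okT (T k)
  okM : ∀ k, ∀ i < 13, fld (T k) (2 * i) ≤ fld (M k) (2 * i) ∧ fld (M k) (2 * i) = fld (M k) 0
  okM' : ∀ k, ∀ i < 12, fld (M k) (2 * i + 1) = 0
  mu1 : mu ≤ 1
  al24 : al ≤ 24
  hLA : LA = ∑ i, l i
  hdl : (dl : ℤ) = al * LA + 4 * ∑ i : Fin 7, ((i : ℤ) - 3) * (l i : ℤ)
  hA : (3 * G0 l al mu + G1 l al mu) * LF3 ≤ 48 * 1920000000 * eA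
  hB : (6 * G0 l al mu + G1 l al mu) * LF3 ≤ 48 * 1920000000 * eB
  hC : (2 * G0 l al mu + G1 l al mu) * LF1 ≤ 16 * 1920000000 * eC
  hAB : eA ≤ eB
  hBC : eB ≤ eC
  hF : (G2 l al mu + 36 * G1 l al mu) * 10000000 ≤ 364 * 1920000000 * eF

/-- the checks at all points -/
def DatChk (T M : Fin 12 → ℕ) (l : Fin 7 → ℕ) (LA al mu dl eA eB eC eF : ℕ) : Prop :=
  allV (chk (T 0) (T 1) (T 2) (T 3) (T 4) (T 5) (T 6) (T 7) (T 8) (T 9) (T 10) (T 11) LA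
    (l 0) (l 1) (l 2) (l 3) (l 4) (l 5) (l 6) al mu dl eA eB eC) = true ∧
  farV (chk (M 0) (M 1) (M 2) (M 3) (M 4) (M 5) (M 6) (M 7) (M 8) (M 9) (M 10) (M 11) 0
    0 0 0 0 0 0 0 0 0 0 eF eF eF) = true

/-- the error term at a point, in units of `10 ^ (-6)` -/
noncomputable def erF (eA eB eC : ℕ) (X Y : ℝ) : ℝ :=
  if |Y| < 8 then (if |X| < 6 then (eA : ℝ) else eB) else eC

/-- the inequality at a point of the arrangement -/
def VOK (T : Fin 12 → ℕ) (E : ℝ) (X Y : ℝ) : Prop :=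
  ∀ p q : ℝ, ∑ k, PsiR T k X Y * |(na k : ℝ) * p + (nc k : ℝ) * q| + E * (|p| + |q| / 2)
    ≤ Real.sqrt (p ^ 2 + q ^ 2)

/-! ### Definitions used by the modules -/

/-- the closed cell of the arrangement `A` at `(X, Y)` -/
def cell (A : Set (ℝ × ℝ × ℝ)) (X Y : ℝ) : Set (ℝ × ℝ) := {z | ∀ l ∈ A,
  (l.1 * X + l.2.1 * Y ≤ l.2.2 → l.1 * z.1 + l.2.1 * z.2 ≤ l.2.2) ∧
  (l.2.2 ≤ l.1 * X + l.2.1 * Y → l.2.2 ≤ l.1 * z.1 + l.2.1 * z.2)}

theorem frc_eq (x : ℕ) (k : ℕ → Bool) : frc x k = k x := by cases x <;> rfl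
theorem frn_eq (x : ℕ) (k : ℕ → ℕ) : frn x k = k x := by cases x <;> rfl
theorem cnd_eq (b : Bool) (x y : ℕ) : cnd b x y = if b = true then x else y := by cases b <;> rfl
theorem cndB_eq (b x y : Bool) : cndB b x y = if b = true then x else y := by cases b <;> rfl
theorem band_eq (b c : Bool) : band b c = (b && c) := by cases b <;> rfl

/-- a field has 24 bits -/
theorem fld_le (T i : ℕ) : fld T i ≤ 16777215 := by
  exact Nat.and_le_right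

theorem FF_neg (Y : ℝ) : FF (-Y) = FF Y := by
  simp [FF, abs_neg]

/-- the kernel of the class with natural number data -/
noncomputable def eeN (al mu : ℕ) (l : Fin 7 → ℕ) (X Y : ℝ) : ℝ :=
  ee (-(al : ℝ) / 4) ((mu : ℝ) / 2) (fun i => (l i : ℝ) / 10 ^ 7) X Y

/-- the sixteen affine functions: `c_r + m_r Y - X` -/
noncomputable def wN (al mu : ℕ) (r : Fin 16) (X Y : ℝ) : ℝ :=
  (cN al r : ℝ) / 4 + (mN mu r : ℝ) / 2 * Y - X

/-- the point `(X, Y)` of the box is one of the points where `f` was found true -/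
def Hit (f : ℕ → ℕ → ℕ → Bool) (X Y : ℝ) : Prop := ∃ X' Y' D : ℕ, 0 < D ∧ X' ≤ 36 * D ∧
  Y' ≤ 36 * D ∧ X = (X' : ℝ) / D - 18 ∧ Y = (Y' : ℝ) / D - 18 ∧ f X' Y' D = true

/-- the oblique families: `(ap, am, c)` is the triple of `k` if `ap - am = na k`, `c = nc k` -/
def tr (k : Fin 12) : ℕ × ℕ × ℕ := ((na k).toNat, (-na k).toNat, (nc k).toNat)

/-- twice `10 ^ 6` times the integral of the densities -/
def valA (T : Fin 12 → ℕ) : ℤ := ∑ k : Fin 12, (nh k : ℤ) *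
  (2 * ∑ i ∈ range 13, (fld (T k) (2 * i) : ℤ) - fld (T k) 0 - fld (T k) 24
    - ∑ i ∈ range 12, (fld (T k) (2 * i + 1) : ℤ))

/-- `10 ^ 15` times the second part of the value, for the slack `sn / 10 ^ 8` -/
def valB (l : Fin 7 → ℕ) (al mu : ℕ) (sn : ℤ) : ℤ := ∑ i : Fin 7, (l i : ℤ) *
  ((al : ℤ) ^ 2 * 6250000 + (10 * (mu : ℤ) ^ 2 - ((i : ℤ) - 3) ^ 2) * 100000000 - sn)

/-! ### Bang's argument -/

noncomputable def hq {n : ℕ} (X Y κ : Fin n → ℝ) (l1 l2 C m : ℝ) : ℝ :=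
  C ^ 2 + 40 * m ^ 2 - ∑ j, κ j * |C + m * Y j - X j| - l1 * C - l2 * m

/-- half width of the plank of a tube -/
noncomputable def alT (t : Tb) : ℝ := (|t.p| + |t.q| / 2) / 2 + 2 * t.r

noncomputable def kaT (t : Tb) : ℝ := FF t.Y * alT t

noncomputable def uF {n : ℕ} (F : Fin n → Tb) (C m : ℝ) : ℝ :=
  ∑ j, kaT (F j) * |C + m * (F j).Y - (F j).X|

noncomputable def hF {n : ℕ} (F : Fin n → Tb) (C m : ℝ) : ℝ :=
  C ^ 2 + 40 * m ^ 2 - uF F C m + rC (uF F) * C + rM (uF F) * m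

/-- reflections -/
def refX {n : ℕ} (F : Fin n → Tb) : Fin n → Tb :=
  fun j => ⟨-(F j).X, (F j).Y, -(F j).p, (F j).q, (F j).r⟩

def refY {n : ℕ} (F : Fin n → Tb) : Fin n → Tb :=
  fun j => ⟨(F j).X, -(F j).Y, (F j).p, -(F j).q, (F j).r⟩

/-- the five classes: vertices and square roots of the slacks -/
noncomputable def av : Fin 5 → ℝ := ![0, -7 / 4, -13 / 4, -6, -6]
noncomputable def mv : Fin 5 → ℝ := ![1 / 2, 1 / 2, 1 / 2, 1 / 2, 0]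
noncomputable def rv : Fin 5 → ℝ := ![101 / 100, 74 / 100, 77 / 100, 207 / 100, 10923 / 10000]

end H58Q
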