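import Pool.Agent.Lib.H58Q.A7
import Pool.Agent.Lib.H58Q.A8
import Pool.Agent.Lib.H58Q.A9
import Pool.Agent.Lib.H58Q.Defs

open MeasureTheory Set Filter Topology
open scoped ENNReal NNReal

namespace H58Q

/-- Tube cover of a rectifiable set: a subset of a countable union of curves of finite length, up to a set of
length zero. -/
theorem A10a (γ : ℕ → ℝ → E2) (hγ : ∀ n, eVariationOn (γ n) (Icc 0 1) ≠ ∞) (B : Set E2)
    (hB : μH[1] (B \ ⋃ n, γ n '' Icc 0 1) = 0) (hfin : μH[1] B ≠ ∞) {ε δ : ℝ} (hε : 0 < ε)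
    (hδ : 0 < δ) : HasCover B δ (μH[1] B + ENNReal.ofReal ε) (ENNReal.ofReal ε) := by
  choose g K hg hgs using fun n => A8 (γ n) (hγ n)
  set B1 := B ∩ ⋃ n, γ n '' Icc 0 1 with hB1
  have h1 : B1 ⊆ ⋃ n, g n '' Icc 0 1 := inter_subset_right.trans (iUnion_mono hgs)
  have h2 : μH[1] B1 ≤ μH[1] B := measure_mono inter_subset_left
  have h3 := A7 g K hg B1 h1 (ne_top_of_le_ne_top hfin h2) (ε := ε / 2) (by positivity) hδ
  have h4 := A4 (B \ ⋃ n, γ n '' Icc 0 1) (by rw [hB]; exact ENNReal.zero_ne_top) hδ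
    (ε := ENNReal.ofReal (ε / 2)) (ENNReal.ofReal_pos.mpr (by positivity)).ne'
  rw [hB, zero_add] at h4
  refine (A6b _ _ δ _ _ _ _ h3 h4).mono ?_ ?_ ?_
  · intro x hx
    by_cases h : x ∈ ⋃ n, γ n '' Icc 0 1
    · left; exact ⟨hx, h⟩
    · right; exact ⟨hx, h⟩
  · rw [add_zero]
    exact add_le_add h2 (ENNReal.ofReal_le_ofReal (by linarith))
  · rw [← ENNReal.ofReal_add (by positivity) (by positivity)]
    exact ENNReal.ofReal_le_ofReal (by linarith)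

/-- A finite sum of reals bounded by a sum in `ℝ≥0∞`. -/
theorem A10b (f : ℕ → ℝ) (hf : ∀ n, 0 ≤ f n) (N : ℕ) {M : ℝ} (hM : 0 ≤ M)
    (h : ∑' n, ENNReal.ofReal (f n) ≤ ENNReal.ofReal M) : ∑ j : Fin N, f j ≤ M := by
  have h1 : ∑ j ∈ Finset.range N, ENNReal.ofReal (f j) ≤ ENNReal.ofReal M :=
    (ENNReal.sum_le_tsum _).trans h
  rw [← ENNReal.ofReal_sum_of_nonneg (fun i _ => hf i), ENNReal.ofReal_le_ofReal_iff hM] at h1
  rwa [Fin.sum_univ_eq_sum_range (fun j => f j) N]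

/-- The tubes of a cover, scaled by `12` and centred. -/
noncomputable def a10F (b V : ℕ → E2) (ρ : ℕ → ℝ) (N : ℕ) : Fin N → Tb := fun j =>
  ⟨12 * (b j 0 - 1 / 2), 12 * (b j 1 - 1 / 2), 12 * V j 0, 12 * V j 1, 12 * ρ j⟩

theorem A10c (b V : ℕ → E2) (ρ : ℕ → ℝ) (N : ℕ) : len (a10F b V ρ N) = 12 * ∑ j : Fin N, ‖V j‖ := by
  unfold len a10F
  rw [Finset.mul_sum]
  refine Finset.sum_congr rfl fun j _ => ?_
  rw [EuclideanSpace.norm_eq, Fin.sum_univ_two]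
  simp only [Real.norm_eq_abs, sq_abs]
  rw [show (12 * V j 0) ^ 2 + (12 * V j 1) ^ 2 = 12 ^ 2 * (V j 0 ^ 2 + V j 1 ^ 2) by ring,
    Real.sqrt_mul (by norm_num), Real.sqrt_sq (by norm_num)]

theorem A10d (b V : ℕ → E2) (ρ : ℕ → ℝ) (N : ℕ)
    (h : ∀ a c P : ℝ, |P| ≤ (|a| + |c|) / 2 → ∃ j < N,
      |P - (a * (b j 0 - 1 / 2) + c * (b j 1 - 1 / 2))| ≤
        |a * V j 0 + c * V j 1| / 2 + (|a| + |c|) * ρ j) : COV (a10F b V ρ N) := by
  intro a c P _ hP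
  have hP' : |P / 12| ≤ (|a| + |c|) / 2 := by
    rw [abs_div, abs_of_pos (by norm_num : (0 : ℝ) < 12), div_le_iff₀ (by norm_num)]
    linarith
  obtain ⟨j, hj, h1⟩ := h a c (P / 12) hP'
  refine ⟨⟨j, hj⟩, ?_⟩
  unfold Meets a10F
  simp only
  have e1 : P - (a * (12 * (b j 0 - 1 / 2)) + c * (12 * (b j 1 - 1 / 2))) =
      12 * (P / 12 - (a * (b j 0 - 1 / 2) + c * (b j 1 - 1 / 2))) := by ring
  have e2 : a * (12 * V j 0) + c * (12 * V j 1) = 12 * (a * V j 0 + c * V j 1) := by ring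
  rw [e1, e2, abs_mul, abs_mul, abs_of_pos (by norm_num : (0 : ℝ) < 12)]
  linarith

theorem A10 (hcore : Core) (B : Set E2) (γ : ℕ → ℝ → E2)
    (hγ : ∀ n, eVariationOn (γ n) (Icc 0 1) ≠ ∞)
    (hB : μH[1] (B \ ⋃ n, γ n '' Icc 0 1) = 0) (hop : OpaqueSq B) :
    ENNReal.ofReal (2033 / 1000) ≤ μH[1] B := by
  rcases eq_or_ne (μH[1] B) ∞ with hfin | hfin
  · rw [hfin]; exact le_top
  obtain ⟨L, hL0, hL⟩ : ∃ L : ℝ, 0 ≤ L ∧ μH[1] B = ENNReal.ofReal L :=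
    ⟨(μH[1] B).toReal, ENNReal.toReal_nonneg, (ENNReal.ofReal_toReal hfin).symm⟩
  rw [hL]
  apply ENNReal.ofReal_le_ofReal
  refine le_of_forall_pos_le_add fun η hη => ?_
  obtain ⟨ε, hε, hcore⟩ := hcore (6 * η) (by positivity)
  set ε1 := min (ε / 12) (η / 2) with hε1
  have hε10 : 0 < ε1 := lt_min (by positivity) (by positivity)
  have hε11 : ε1 ≤ ε / 12 := min_le_left _ _
  have hε12 : ε1 ≤ η / 2 := min_le_right _ _
  obtain ⟨b, V, ρ, h1, h2, h3, h4⟩ := A10a γ hγ B hB hfin hε10 (δ := ε / 12) (by positivity)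
  obtain ⟨N, -, hN⟩ := A9 B hop b V ρ h4
  have hρs : ∑ j : Fin N, ρ j ≤ ε1 := A10b ρ (fun n => (h1 n).1.le) N hε10.le h3
  rw [hL, ← ENNReal.ofReal_add hL0 hε10.le] at h2
  have hVs : ∑ j : Fin N, ‖V j‖ ≤ L + ε1 := A10b (fun j => ‖V j‖) (fun n => norm_nonneg _) N
    (by positivity) h2
  have hc : ∀ (j : ℕ) (i : Fin 2), |12 * V j i| ≤ ε := by
    intro j i
    rw [abs_mul, abs_of_pos (by norm_num : (0 : ℝ) < 12)]
    have := PiLp.norm_apply_le (V j) i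
    rw [Real.norm_eq_abs] at this
    linarith [(h1 j).2.2]
  have hS : Sm (a10F b V ρ N) ε := by
    refine ⟨fun j => ?_, fun j => ?_, fun j => hc j 0, fun j => hc j 1, ?_⟩
    · have := (h1 j).1
      show 0 < 12 * ρ j
      positivity
    · show 12 * ρ j ≤ ε
      linarith [(h1 j).2.1]
    · show ∑ j : Fin N, 12 * ρ j ≤ ε
      rw [← Finset.mul_sum]
      linarith
  have h5 := hcore N _ hS (A10d b V ρ N hN)
  rw [A10c] at h5
  linarith

end H58Q
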