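import Pool.Agent.Lib.H58Q.A0

open MeasureTheory Set Filter Topology
open scoped ENNReal NNReal

namespace H58Q

/-- **A2 (M).** A piece of a curve which is nearly affine lies in a thin tube.
PROOF. Put `w = ‖v‖ - r > 0` and `I = D / w`. For `s, t ∈ T`: `‖(s - t) • v‖ ≤ ‖γ s - γ t‖ + r |s - t|`,
hence `w |s - t| ≤ D`, `|s - t| ≤ I`. Fix `t₀ ∈ T`, let `a = sInf T` (`T` is bounded: it is contained in
`[t₀ - I, t₀ + I]`); then `a ≤ t ≤ a + I` for all `t ∈ T` (for the upper bound: `t - I ≤ s` for all `s ∈ T`, so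
`t - I ≤ a` by `le_csInf`). Put `m = a + I/2`, `b = γ t₀ + (m - t₀) • v`, `V = I • v`. For `t ∈ T` let
`θ = (t - m)/I`, `|θ| ≤ 1/2`, and `γ t - (b + θ • V) = γ t - γ t₀ - (t - t₀) • v`
(`θ I = t - m`), of norm `≤ r |t - t₀| ≤ r I < 2 r I = 2 r D/w`. -/
theorem A2 (γ : ℝ → E2) (v : E2) (S T : Set ℝ) (r D : ℝ) (hr : 0 < r) (hrv : r < ‖v‖)
    (happ : ∀ s ∈ S, ∀ t ∈ S, ‖γ s - γ t - (s - t) • v‖ ≤ r * |s - t|)
    (hTS : T ⊆ S) (hT : T.Nonempty) (hD : 0 < D)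
    (hdiam : ∀ s ∈ T, ∀ t ∈ T, ‖γ s - γ t‖ ≤ D) :
    ∃ b V : E2, ‖V‖ = ‖v‖ * D / (‖v‖ - r) ∧
      ∀ t ∈ T, γ t ∈ Tube b V (2 * r * D / (‖v‖ - r)) := by
  set w := ‖v‖ - r with hw
  have hw0 : 0 < w := by linarith
  set I := D / w with hI
  have hI0 : 0 < I := div_pos hD hw0
  have hIw : I * w = D := by rw [hI]; field_simp
  have hst : ∀ s ∈ T, ∀ t ∈ T, |s - t| ≤ I := by
    intro s hs t ht
    have h1 := happ s (hTS hs) t (hTS ht)
    have h2 := hdiam s hs t ht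
    have h3 : ‖(s - t) • v‖ ≤ ‖γ s - γ t‖ + ‖γ s - γ t - (s - t) • v‖ := by
      have : (s - t) • v = (γ s - γ t) - (γ s - γ t - (s - t) • v) := by abel
      calc ‖(s - t) • v‖ = ‖(γ s - γ t) - (γ s - γ t - (s - t) • v)‖ := by rw [← this]
        _ ≤ _ := norm_sub_le _ _
    rw [norm_smul, Real.norm_eq_abs] at h3
    rw [hI, le_div_iff₀ hw0, hw]
    nlinarith
  obtain ⟨t₀, ht₀⟩ := hT
  have hbdd : BddBelow T := ⟨t₀ - I, fun t ht => by
    have := abs_le.mp (hst t₀ ht₀ t ht); linarith [this.1, this.2]⟩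
  set a := sInf T with ha
  have ha1 : ∀ t ∈ T, a ≤ t := fun t ht => csInf_le hbdd ht
  have ha2 : ∀ t ∈ T, t ≤ a + I := by
    intro t ht
    have : t - I ≤ a := by
      refine le_csInf ⟨t₀, ht₀⟩ fun s hs => ?_
      have := abs_le.mp (hst t ht s hs); linarith [this.1, this.2]
    linarith
  refine ⟨γ t₀ + (a + I / 2 - t₀) • v, I • v, ?_, fun t ht => ⟨(t - (a + I / 2)) / I, ?_, ?_⟩⟩
  · rw [norm_smul, Real.norm_eq_abs, abs_of_pos hI0, hI]; ring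
  · rw [abs_div, abs_of_pos hI0, div_le_iff₀ hI0, abs_le]
    constructor <;> linarith [ha1 t ht, ha2 t ht]
  · have e : γ t - (γ t₀ + (a + I / 2 - t₀) • v + ((t - (a + I / 2)) / I) • I • v)
        = γ t - γ t₀ - (t - t₀) • v := by
      rw [smul_smul, div_mul_cancel₀ _ hI0.ne']
      module
    rw [e]
    refine lt_of_le_of_lt (happ t (hTS ht) t₀ (hTS ht₀)) ?_
    have h4 : r * |t - t₀| ≤ r * I := mul_le_mul_of_nonneg_left (hst t ht t₀ ht₀) hr.le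
    have h5 : 2 * r * D / w = 2 * (r * I) := by rw [hI]; ring
    rw [h5]
    have : 0 < r * I := mul_pos hr hI0
    linarith

end H58Q
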