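import Pool.Agent.Lib.H58Q.A1
import Pool.Agent.Lib.H58Q.A2

open MeasureTheory Set Filter Topology
open scoped ENNReal NNReal

namespace H58Q

/-- **A3 (M).** Tube cover of a subset `G` of one nearly affine piece of a curve.
PROOF. `obtain ⟨η, hη, hηs⟩ := exists_small_seq (ε := ε/4) _ (δ/4 > 0)` and `A1 G hGf (ε := ε/4) (δ := ofReal (δ/4))`
give `U`. For `n` put `D n = (ediam (U n)).toReal + η n > 0`; `D n ≤ δ/2`,
`∑' ofReal (D n) ≤ μH[1] G + ε/2`. For each `n` choose (`choose`) `b n, V n, ρ n`: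
* if `G ∩ U n` is empty: `b = 0, V = 0, ρ = η n`;
* else `T = {t ∈ S | γ t ∈ G ∩ U n}` is nonempty, and for `s, t ∈ T`: `‖γ s - γ t‖ ≤ D n`
  (`dist_eq_norm`, `edist ≤ ediam`, finite). `A2 γ v S T r (D n)` (`r < ‖v‖` because `r ≤ κ‖v‖`, `κ ≤ 1/2`, `r > 0`)
  gives `b n, V n`, and `ρ n = 2 r D/(‖v‖ - r)`.
In all cases `‖V n‖ ≤ (1 + 2κ) D n` (since `‖v‖ - r ≥ (1 - κ)‖v‖` and `1 ≤ (1 + 2κ)(1 - κ)`),
`ρ n ≤ 4 κ D n + η n`, `ρ n > 0`, and every point of `G ∩ U n` is in the tube.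
Hence `‖V n‖ ≤ 2 D n ≤ δ`, `ρ n ≤ δ` (in the second case `ρ n ≤ 4κ D n ≤ 2 D n`), and the two sums follow by
`ENNReal.tsum_le_tsum`, `ENNReal.tsum_mul_left`, `ENNReal.tsum_add`. -/
theorem A3 (γ : ℝ → E2) (S : Set ℝ) (v : E2) (r κ : ℝ) (hκ : 0 < κ) (hκ1 : κ ≤ 1 / 2)
    (hr : 0 < r) (hrv : r ≤ κ * ‖v‖)
    (happ : ∀ s ∈ S, ∀ t ∈ S, ‖γ s - γ t - (s - t) • v‖ ≤ r * |s - t|)
    (G : Set E2) (hG : G ⊆ γ '' S) (hGf : μH[1] G ≠ ∞) {δ : ℝ} (hδ : 0 < δ)
    {ε : ℝ≥0∞} (hε : ε ≠ 0) :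
    HasCover G δ (ENNReal.ofReal (1 + 2 * κ) * (μH[1] G + ε))
      (ENNReal.ofReal (4 * κ) * (μH[1] G + ε) + ε) := by
  classical
  have hε4 : ε / 4 ≠ 0 := by
    simp [hε]
  obtain ⟨η, hη, hηs⟩ := exists_small_seq (ε := ε / 4) hε4 (δ := δ / 4) (by positivity)
  obtain ⟨U, hU, hUd, hUs⟩ := A1 G hGf (ε := ε / 4) (δ := ENNReal.ofReal (δ / 4)) hε4
    (ENNReal.ofReal_pos.mpr (by positivity))
  have hfin : ∀ n, Metric.ediam (U n) ≠ ∞ := fun n => ne_top_of_le_ne_top ENNReal.ofReal_ne_top (hUd n)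
  have hdn : ∀ n, (Metric.ediam (U n)).toReal ≤ δ / 4 := fun n =>
    ENNReal.toReal_le_of_le_ofReal (by positivity) (hUd n)
  set D : ℕ → ℝ := fun n => (Metric.ediam (U n)).toReal + η n with hD
  have hD0 : ∀ n, 0 < D n := fun n => by
    have := (hη n).1
    have := ENNReal.toReal_nonneg (a := Metric.ediam (U n))
    simp only [hD]; linarith
  have hDd : ∀ n, D n ≤ δ / 2 := fun n => by
    simp only [hD]; linarith [hdn n, (hη n).2]
  have hDs : ∑' n, ENNReal.ofReal (D n) ≤ μH[1] G + ε := by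
    calc ∑' j, ENNReal.ofReal (D j)
        ≤ ∑' j, (Metric.ediam (U j) + ENNReal.ofReal (η j)) := by
          refine ENNReal.tsum_le_tsum fun n => ?_
          rw [hD]
          simp only
          rw [ENNReal.ofReal_add ENNReal.toReal_nonneg (hη n).1.le, ENNReal.ofReal_toReal (hfin n)]
      _ = ∑' j, Metric.ediam (U j) + ∑' j, ENNReal.ofReal (η j) := ENNReal.tsum_add
      _ ≤ (μH[1] G + ε / 4) + ε / 4 := add_le_add hUs hηs
      _ ≤ μH[1] G + ε := by
        rw [add_assoc]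
        gcongr
        calc ε / 4 + ε / 4 ≤ (ε / 4 + ε / 4) + (ε / 4 + ε / 4) := le_add_of_nonneg_right zero_le
          _ = ε := by
            rw [← two_mul, ← two_mul, ← mul_assoc, ENNReal.div_eq_inv_mul, ← mul_assoc]
            rw [show (2 * 2 : ℝ≥0∞) = 4 by norm_num, ENNReal.mul_inv_cancel (by norm_num) (by norm_num),
              one_mul]
  have hv : 0 < ‖v‖ := by
    by_contra h
    have : ‖v‖ = 0 := le_antisymm (not_lt.mp h) (norm_nonneg _)
    rw [this] at hrv; linarith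
  have hrv' : r < ‖v‖ := by nlinarith
  have hw : (1 - κ) * ‖v‖ ≤ ‖v‖ - r := by linarith
  have hw0 : 0 < ‖v‖ - r := by linarith
  have key : ∀ n, ∃ (b V : E2) (ρ : ℝ), ‖V‖ ≤ (1 + 2 * κ) * D n ∧ ρ ≤ 4 * κ * D n + η n ∧
      0 < ρ ∧ ρ ≤ δ ∧ G ∩ U n ⊆ Tube b V ρ := by
    intro n
    by_cases hne : (G ∩ U n).Nonempty
    · set T : Set ℝ := {t | t ∈ S ∧ γ t ∈ G ∩ U n} with hT
      have hTne : T.Nonempty := by
        obtain ⟨x, hx⟩ := hne
        obtain ⟨t, ht, rfl⟩ := hG hx.1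
        exact ⟨t, ht, hx⟩
      obtain ⟨b, V, hV, hcovV⟩ := A2 γ v S T r (D n) hr hrv' happ (fun t ht => ht.1) hTne (hD0 n)
        (fun s hs t ht => by
          have h1 : edist (γ s) (γ t) ≤ Metric.ediam (U n) :=
            Metric.edist_le_ediam_of_mem hs.2.2 ht.2.2
          have h2 : ‖γ s - γ t‖ ≤ (Metric.ediam (U n)).toReal := by
            rw [← dist_eq_norm, dist_edist]
            exact ENNReal.toReal_mono (hfin n) h1
          simp only [hD]; linarith [(hη n).1])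
      have hρ : 2 * r * D n / (‖v‖ - r) ≤ 4 * κ * D n := by
        rw [div_le_iff₀ hw0]
        have h1 : 2 * r * D n ≤ 2 * (κ * ‖v‖) * D n := by
          have := hD0 n; gcongr
        have h2 : (1 / 2) * ‖v‖ ≤ ‖v‖ - r := by nlinarith
        have h3 : 4 * κ * D n * ((1 / 2) * ‖v‖) ≤ 4 * κ * D n * (‖v‖ - r) :=
          mul_le_mul_of_nonneg_left h2 (by have := hD0 n; positivity)
        linarith
      refine ⟨b, V, 2 * r * D n / (‖v‖ - r), ?_, ?_, ?_, ?_, ?_⟩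
      · rw [hV, div_le_iff₀ hw0]
        have h1 : 1 ≤ (1 + 2 * κ) * (1 - κ) := by nlinarith
        have h2 : ‖v‖ * D n ≤ (1 + 2 * κ) * D n * ((1 - κ) * ‖v‖) := by
          have := mul_le_mul_of_nonneg_right h1 (mul_pos hv (hD0 n)).le
          linarith
        refine h2.trans (mul_le_mul_of_nonneg_left hw ?_)
        have := hD0 n; positivity
      · linarith [(hη n).1]
      · have := hD0 n; positivity
      · have := hD0 n
        have := hDd n
        nlinarith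
      · intro x hx
        obtain ⟨t, ht, rfl⟩ := hG hx.1
        exact hcovV t ⟨ht, hx⟩
    · refine ⟨0, 0, η n, ?_, ?_, (hη n).1, ?_, ?_⟩
      · rw [norm_zero]; have := hD0 n; positivity
      · have := hD0 n
        have : 0 ≤ 4 * κ * D n := by positivity
        linarith
      · linarith [(hη n).2]
      · intro x hx
        exact absurd ⟨x, hx⟩ hne
  choose b V ρ hV hρ hρ0 hρδ hcov using key
  refine ⟨b, V, ρ, fun j => ⟨hρ0 j, hρδ j, ?_⟩, ?_, ?_, ?_⟩
  · refine (hV j).trans ?_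
    have := hD0 j
    have := hDd j
    nlinarith
  · calc ∑' j, ENNReal.ofReal ‖V j‖ ≤ ∑' j, ENNReal.ofReal (1 + 2 * κ) * ENNReal.ofReal (D j) := by
          refine ENNReal.tsum_le_tsum fun n => ?_
          rw [← ENNReal.ofReal_mul (by positivity)]
          exact ENNReal.ofReal_le_ofReal (hV n)
      _ = ENNReal.ofReal (1 + 2 * κ) * ∑' j, ENNReal.ofReal (D j) := ENNReal.tsum_mul_left
      _ ≤ _ := by gcongr
  · calc ∑' j, ENNReal.ofReal (ρ j) ≤
          ∑' j, (ENNReal.ofReal (4 * κ) * ENNReal.ofReal (D j) + ENNReal.ofReal (η j)) := by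
          refine ENNReal.tsum_le_tsum fun n => ?_
          rw [← ENNReal.ofReal_mul (by positivity), ← ENNReal.ofReal_add
            (by have := hD0 n; positivity) (hη n).1.le]
          exact ENNReal.ofReal_le_ofReal (hρ n)
      _ = ENNReal.ofReal (4 * κ) * ∑' j, ENNReal.ofReal (D j) + ∑' j, ENNReal.ofReal (η j) := by
          rw [ENNReal.tsum_add, ENNReal.tsum_mul_left]
      _ ≤ ENNReal.ofReal (4 * κ) * (μH[1] G + ε) + ε := by
          gcongr
          refine hηs.trans ?_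
          exact ENNReal.div_le_of_le_mul (by
            calc ε = ε * 1 := (mul_one _).symm
              _ ≤ ε * 4 := by gcongr; norm_num)
  · intro x hx
    obtain ⟨n, hn⟩ := mem_iUnion.mp (hU hx)
    exact mem_iUnion.mpr ⟨n, hcov n ⟨hx, hn⟩⟩

end H58Q
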