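import Pool.Agent.Lib.H58Q.A1

open MeasureTheory Set Filter Topology
open scoped ENNReal NNReal

namespace H58Q

/-- **A4 (S/M).** Cover of an arbitrary set by balls (tubes with `V = 0`).
PROOF. `obtain ⟨η, hη, hηs⟩ := exists_small_seq (ε := ε/2) _ (δ/2 > 0)`, and `A1 Z hZ (ε := ε/2) (δ := ofReal (δ/2))`
give `U`. If `U n` is empty take `b n = 0`, else `b n ∈ U n`; `V n = 0`,
`ρ n = (ediam (U n)).toReal + η n`, `0 < ρ n ≤ δ`. A point `x ∈ U n` satisfies `‖x - b n‖ ≤ (ediam (U n)).toReal < ρ n`, so it is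
in the tube (`t = 0`). `∑' ofReal (ρ n) ≤ ∑' ediam (U n) + ∑' ofReal (η n) ≤ μH[1] Z + ε`; `∑' ofReal ‖0‖ = 0`. -/
theorem A4 (Z : Set E2) (hZ : μH[1] Z ≠ ∞) {δ : ℝ} (hδ : 0 < δ) {ε : ℝ≥0∞} (hε : ε ≠ 0) :
    HasCover Z δ 0 (μH[1] Z + ε) := by
  classical
  have hε2 : ε / 2 ≠ 0 := by
    simp [hε]
  obtain ⟨η, hη, hηs⟩ := exists_small_seq (ε := ε / 2) hε2 (δ := δ / 2) (by positivity)
  obtain ⟨U, hU, hUd, hUs⟩ := A1 Z hZ (ε := ε / 2) (δ := ENNReal.ofReal (δ / 2)) hε2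
    (ENNReal.ofReal_pos.mpr (by positivity))
  have hfin : ∀ n, Metric.ediam (U n) ≠ ∞ := fun n => ne_top_of_le_ne_top ENNReal.ofReal_ne_top (hUd n)
  have hdn : ∀ n, (Metric.ediam (U n)).toReal ≤ δ / 2 := fun n =>
    ENNReal.toReal_le_of_le_ofReal (by positivity) (hUd n)
  refine ⟨fun n => if h : (U n).Nonempty then h.some else 0, fun _ => 0,
    fun n => (Metric.ediam (U n)).toReal + η n, fun n => ⟨?_, ?_, ?_⟩, ?_, ?_, ?_⟩
  · have := (hη n).1
    have := ENNReal.toReal_nonneg (a := Metric.ediam (U n))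
    linarith
  · linarith [(hη n).2, hdn n]
  · simp [hδ.le]
  · simp
  · calc ∑' j, ENNReal.ofReal ((Metric.ediam (U j)).toReal + η j)
        ≤ ∑' j, (Metric.ediam (U j) + ENNReal.ofReal (η j)) := by
          refine ENNReal.tsum_le_tsum fun n => ?_
          rw [ENNReal.ofReal_add ENNReal.toReal_nonneg (hη n).1.le, ENNReal.ofReal_toReal (hfin n)]
      _ = ∑' j, Metric.ediam (U j) + ∑' j, ENNReal.ofReal (η j) := ENNReal.tsum_add
      _ ≤ (μH[1] Z + ε / 2) + ε / 2 := add_le_add hUs hηs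
      _ = μH[1] Z + ε := by rw [add_assoc, ENNReal.add_halves]
  · intro x hx
    obtain ⟨n, hn⟩ := mem_iUnion.mp (hU hx)
    refine mem_iUnion.mpr ⟨n, 0, by norm_num, ?_⟩
    have hne : (U n).Nonempty := ⟨x, hn⟩
    simp only [dif_pos hne, zero_smul, add_zero]
    have h1 : edist x hne.some ≤ Metric.ediam (U n) := Metric.edist_le_ediam_of_mem hn hne.some_mem
    have h2 : ‖x - hne.some‖ ≤ (Metric.ediam (U n)).toReal := by
      rw [← dist_eq_norm, dist_edist]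
      exact ENNReal.toReal_mono (hfin n) h1
    linarith [(hη n).1]

end H58Q
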