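import Pool.Agent.Lib.H58Q.A5a

open MeasureTheory Set Filter Topology
open scoped ENNReal NNReal

namespace H58Q

theorem a5_choose_c {ζ : ℝ≥0∞} (hζ : ζ ≠ 0) : ∃ c : ℝ, 0 < c ∧ ENNReal.ofReal (2 * c) ≤ ζ := by
  rcases eq_or_ne ζ ∞ with h | h
  · exact ⟨1, one_pos, by rw [h]; exact le_top⟩
  · have hpos := ENNReal.toReal_pos hζ h
    refine ⟨ζ.toReal / 2, by linarith, ?_⟩
    rw [show 2 * (ζ.toReal / 2) = ζ.toReal by ring, ENNReal.ofReal_toReal h]

/-- **A5 (M/L).** Decomposition of a Lipschitz curve into nearly affine pieces and a small remainder. -/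
theorem A5 (γ : ℝ → E2) (K : ℝ≥0) (hγ : LipschitzWith K γ) {κ : ℝ} (hκ : 0 < κ)
    (hκ1 : κ ≤ 1 / 2) {ζ : ℝ≥0∞} (hζ : ζ ≠ 0) :
    ∃ (S : ℕ → Set ℝ) (v : ℕ → E2) (r : ℕ → ℝ),
      (∀ n, 0 < r n ∧ r n ≤ κ * ‖v n‖) ∧
      (∀ n, ∀ s ∈ S n, ∀ t ∈ S n, ‖γ s - γ t - (s - t) • v n‖ ≤ r n * |s - t|) ∧
      (∀ n, MeasurableSet (γ '' S n)) ∧
      μH[1] (γ '' Icc 0 1 \ ⋃ n, γ '' S n) ≤ ζ := by
  classical
  obtain ⟨c, hc, hcζ⟩ := a5_choose_c hζ
  set s : Set ℝ := Icc 0 1 ∩ {t | DifferentiableAt ℝ γ t} with hs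
  have hsm : MeasurableSet s := measurableSet_Icc.inter (measurableSet_of_differentiableAt ℝ γ)
  have hr0 : 0 < κ * c := by positivity
  obtain ⟨k, hk⟩ : ∃ k : ℝ≥0, (k : ℝ) = κ * c := ⟨⟨κ * c, hr0.le⟩, rfl⟩
  obtain ⟨t, A, hdisj, htm, hcov, happ, -⟩ :=
    exists_partition_approximatesLinearOn_of_hasFDerivWithinAt γ s (fderiv ℝ γ)
      (fun x hx => hx.2.hasFDerivAt.hasFDerivWithinAt) (fun _ => k)
      (fun _ h => hr0.ne' (by rw [← hk, h]; rfl))
  set w : ℕ → E2 := fun n => A n 1 with hw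
  have happ' : ∀ n, ∀ x ∈ s ∩ t n, ∀ y ∈ s ∩ t n,
      ‖γ x - γ y - (x - y) • w n‖ ≤ κ * c * |x - y| := by
    intro n x hx y hy
    have h := happ n x hx y hy
    have e : A n (x - y) = (x - y) • w n := by
      rw [hw]
      simp only
      rw [← (A n).map_smul, smul_eq_mul, mul_one]
    rw [e] at h
    rw [hk, Real.norm_eq_abs] at h
    exact h
  set e0 : E2 := EuclideanSpace.single 0 1 with he0
  have hne0 : ‖e0‖ = 1 := by simp [he0]
  refine ⟨fun n => if c ≤ ‖w n‖ then s ∩ t n else ∅, fun n => if c ≤ ‖w n‖ then w n else e0,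
    fun n => if c ≤ ‖w n‖ then κ * c else κ, ?_, ?_, ?_, ?_⟩
  · intro n
    by_cases h : c ≤ ‖w n‖
    · simp only [if_pos h]
      exact ⟨hr0, mul_le_mul_of_nonneg_left h hκ.le⟩
    · simp only [if_neg h]
      rw [hne0]
      exact ⟨hκ, by linarith⟩
  · intro n x hx y hy
    by_cases h : c ≤ ‖w n‖
    · simp only [if_pos h] at hx hy ⊢
      exact happ' n x hx y hy
    · simp only [if_neg h] at hx
      exact absurd hx (by simp)
  · intro n
    by_cases h : c ≤ ‖w n‖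
    · simp only [if_pos h]
      refine A5a'' γ hγ.continuous _ (hsm.inter (htm n)) (w n) (κ * c) ?_ (happ' n)
      nlinarith
    · simp only [if_neg h, image_empty, MeasurableSet.empty]
  · have hsub : (γ '' Icc 0 1 \ ⋃ n, γ '' (if c ≤ ‖w n‖ then s ∩ t n else ∅)) ⊆
        γ '' {x | ¬ DifferentiableAt ℝ γ x} ∪
          ⋃ n, γ '' (if c ≤ ‖w n‖ then ∅ else s ∩ t n) := by
      rintro _ ⟨⟨x, hx, rfl⟩, hx2⟩
      by_cases hd : DifferentiableAt ℝ γ x
      · right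
        have hxs : x ∈ s := ⟨hx, hd⟩
        obtain ⟨n, hn⟩ := mem_iUnion.mp (hcov hxs)
        refine mem_iUnion.mpr ⟨n, ?_⟩
        by_cases h : c ≤ ‖w n‖
        · exact absurd (mem_iUnion.mpr ⟨n, by rw [if_pos h]; exact ⟨x, ⟨hxs, hn⟩, rfl⟩⟩) hx2
        · rw [if_neg h]; exact ⟨x, ⟨hxs, hn⟩, rfl⟩
      · left; exact ⟨x, hd, rfl⟩
    refine (measure_mono hsub).trans ((measure_union_le _ _).trans ?_)
    rw [A5a γ K hγ, zero_add]
    refine (measure_iUnion_le _).trans ?_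
    have hterm : ∀ n, μH[1] (γ '' (if c ≤ ‖w n‖ then ∅ else s ∩ t n)) ≤
        ENNReal.ofReal (2 * c) * volume (s ∩ t n) := by
      intro n
      by_cases h : c ≤ ‖w n‖
      · simp only [if_pos h, image_empty, measure_empty, zero_le]
      · simp only [if_neg h]
        refine (A5a' γ (s ∩ t n) (w n) (κ * c) hr0.le (happ' n)).trans ?_
        gcongr
        push Not at h
        nlinarith
    refine (ENNReal.tsum_le_tsum hterm).trans ?_
    rw [ENNReal.tsum_mul_left]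
    have hsum : ∑' n, volume (s ∩ t n) ≤ 1 := by
      rw [← measure_iUnion (fun i j hij => (hdisj hij).mono inter_subset_right inter_subset_right)
        (fun n => hsm.inter (htm n))]
      refine (measure_mono (iUnion_subset fun n => inter_subset_left.trans inter_subset_left)).trans ?_
      simp
    calc ENNReal.ofReal (2 * c) * ∑' n, volume (s ∩ t n) ≤ ENNReal.ofReal (2 * c) * 1 := by gcongr
      _ ≤ ζ := by rw [mul_one]; exact hcζ

end H58Q
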