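import Pool.Agent.Lib.H58Q.A0

open MeasureTheory Set Filter Topology
open scoped ENNReal NNReal

namespace H58Q

/-- **A5a (S/M).** The points where a Lipschitz curve is not differentiable have an image of measure zero.
PROOF. `LipschitzWith.ae_differentiableAt_real` : `∀ᵐ t, DifferentiableAt ℝ γ t`, so
`N = {t | ¬ DifferentiableAt ℝ γ t}` has `volume N = 0`, i.e. `μH[1] N = 0` (`hausdorffMeasure_real`); then
`LipschitzWith.hausdorffMeasure_image_le` and `measure_mono_null`. -/
theorem A5a (γ : ℝ → E2) (K : ℝ≥0) (hγ : LipschitzWith K γ) :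
    μH[1] (γ '' {t | ¬ DifferentiableAt ℝ γ t}) = 0 := by
  have h1 : volume {t | ¬ DifferentiableAt ℝ γ t} = 0 := hγ.ae_differentiableAt_real
  have h2 : (μH[1] : Measure ℝ) {t | ¬ DifferentiableAt ℝ γ t} = 0 := by
    rw [hausdorffMeasure_real]; exact h1
  have h3 := hγ.hausdorffMeasure_image_le (d := 1) zero_le_one {t | ¬ DifferentiableAt ℝ γ t}
  rw [h2, mul_zero] at h3
  exact le_antisymm h3 zero_le

/-- **A5a' (S/M).** Image of a nearly affine piece.
PROOF. `γ` is `LipschitzOnWith (‖v‖ + r)` on `S` (`LipschitzOnWith.of_dist_le_mul`, with the constant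
`Real.toNNReal (‖v‖ + r)`); `LipschitzOnWith.hausdorffMeasure_image_le` with `d = 1`, `hausdorffMeasure_real`. -/
theorem A5a' (γ : ℝ → E2) (S : Set ℝ) (v : E2) (r : ℝ) (hr : 0 ≤ r)
    (happ : ∀ s ∈ S, ∀ t ∈ S, ‖γ s - γ t - (s - t) • v‖ ≤ r * |s - t|) :
    μH[1] (γ '' S) ≤ ENNReal.ofReal (‖v‖ + r) * volume S := by
  have h1 : LipschitzOnWith (Real.toNNReal (‖v‖ + r)) γ S := by
    refine LipschitzOnWith.of_dist_le_mul fun s hs t ht => ?_
    rw [dist_eq_norm, Real.dist_eq, Real.coe_toNNReal _ (by positivity)]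
    have h := happ s hs t ht
    calc ‖γ s - γ t‖ = ‖(γ s - γ t - (s - t) • v) + (s - t) • v‖ := by rw [sub_add_cancel]
      _ ≤ ‖γ s - γ t - (s - t) • v‖ + ‖(s - t) • v‖ := norm_add_le _ _
      _ ≤ r * |s - t| + |s - t| * ‖v‖ := by
          rw [norm_smul, Real.norm_eq_abs]; gcongr
      _ = (‖v‖ + r) * |s - t| := by ring
  have h2 := h1.hausdorffMeasure_image_le (d := 1) zero_le_one
  rw [hausdorffMeasure_real] at h2
  simpa [ENNReal.ofReal] using h2

/-- **A5a'' (S/M).** Measurability of the image of a good piece: `γ` is injective on `S` (if `γ s = γ t` then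
`‖v‖ |s - t| ≤ r |s - t|`), continuous; `MeasurableSet.image_of_continuousOn_injOn`. -/
theorem A5a'' (γ : ℝ → E2) (hc : Continuous γ) (S : Set ℝ) (hS : MeasurableSet S) (v : E2) (r : ℝ)
    (hrv : r < ‖v‖)
    (happ : ∀ s ∈ S, ∀ t ∈ S, ‖γ s - γ t - (s - t) • v‖ ≤ r * |s - t|) :
    MeasurableSet (γ '' S) := by
  refine hS.image_of_continuousOn_injOn hc.continuousOn ?_
  intro s hs t ht hst
  by_contra hne
  have h := happ s hs t ht
  rw [show γ s = γ t from hst, sub_self, zero_sub, norm_neg, norm_smul, Real.norm_eq_abs] at h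
  have hpos : 0 < |s - t| := abs_pos.mpr (sub_ne_zero.mpr hne)
  nlinarith

end H58Q
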