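import Pool.Agent.Lib.H58Q.A0

open MeasureTheory Set Filter Topology
open scoped ENNReal NNReal

namespace H58Q

/-- **A6 (S/M).** Countable unions of sets with tube covers.
PROOF. `choose b V ρ h using h`; index by `Nat.pairEquiv : ℕ × ℕ ≃ ℕ` (use `Nat.unpair`):
`b' n = b (n.unpair.1) (n.unpair.2)` etc. The sum over `n` is the sum over `ℕ × ℕ`
(`Equiv.tsum_eq Nat.pairEquiv.symm`, or `tsum_eq_tsum...`), `ENNReal.tsum_prod`, `ENNReal.tsum_le_tsum`. -/
theorem A6 (B : ℕ → Set E2) (δ : ℝ) (M R : ℕ → ℝ≥0∞) (h : ∀ i, HasCover (B i) δ (M i) (R i)) :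
    HasCover (⋃ i, B i) δ (∑' i, M i) (∑' i, R i) := by
  choose b V ρ h1 h2 h3 h4 using h
  have key : ∀ (f : ℕ → ℕ → ℝ≥0∞) (g : ℕ → ℝ≥0∞), (∀ i, ∑' j, f i j ≤ g i) →
      ∑' n : ℕ, f n.unpair.1 n.unpair.2 ≤ ∑' i, g i := by
    intro f g hfg
    have e : ∑' n : ℕ, f n.unpair.1 n.unpair.2 = ∑' p : ℕ × ℕ, f p.1 p.2 := by
      have := Nat.pairEquiv.symm.tsum_eq (fun p : ℕ × ℕ => f p.1 p.2)
      rw [← this]
      rfl
    rw [e, ENNReal.tsum_prod]
    exact ENNReal.tsum_le_tsum hfg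
  refine ⟨fun n => b n.unpair.1 n.unpair.2, fun n => V n.unpair.1 n.unpair.2,
    fun n => ρ n.unpair.1 n.unpair.2, fun n => h1 _ _, ?_, ?_, ?_⟩
  · exact key (fun i j => ENNReal.ofReal ‖V i j‖) M h2
  · exact key (fun i j => ENNReal.ofReal (ρ i j)) R h3
  · intro x hx
    obtain ⟨i, hi⟩ := mem_iUnion.mp hx
    obtain ⟨j, hj⟩ := mem_iUnion.mp (h4 i hi)
    refine mem_iUnion.mpr ⟨Nat.pair i j, ?_⟩
    simpa using hj

/-- **A6b (S).** Two sets (from `A6` with the sequence `B 0 = B, B (n+1) = B'`... or directly by interlacing;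
note: a cover of the EMPTY set with `M = R = 0` does not exist, so for `A6` use
`B' (i) = if i = 0 then B else B'` only with finite care; easiest is interlacing: even indices for `B`, odd ones
for `B'`: `b'' n = if n % 2 = 0 then b (n/2) else b' (n/2)`, and `tsum_even_add_odd` (summability is automatic in `ℝ≥0∞`)). -/
theorem A6b (B B' : Set E2) (δ : ℝ) (M M' R R' : ℝ≥0∞) (h : HasCover B δ M R)
    (h' : HasCover B' δ M' R') : HasCover (B ∪ B') δ (M + M') (R + R') := by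
  obtain ⟨b, V, ρ, h1, h2, h3, h4⟩ := h
  obtain ⟨b', V', ρ', h1', h2', h3', h4'⟩ := h'
  have key : ∀ (f g : ℕ → ℝ≥0∞), ∑' n : ℕ, (if n % 2 = 0 then f (n / 2) else g (n / 2)) =
      ∑' n, f n + ∑' n, g n := by
    intro f g
    rw [← tsum_even_add_odd ENNReal.summable ENNReal.summable]
    congr 1
    · refine tsum_congr fun n => ?_
      rw [if_pos (by omega), show 2 * n / 2 = n by omega]
    · refine tsum_congr fun n => ?_
      rw [if_neg (by omega), show (2 * n + 1) / 2 = n by omega]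
  refine ⟨fun n => if n % 2 = 0 then b (n / 2) else b' (n / 2),
    fun n => if n % 2 = 0 then V (n / 2) else V' (n / 2),
    fun n => if n % 2 = 0 then ρ (n / 2) else ρ' (n / 2), fun n => ?_, ?_, ?_, ?_⟩
  · by_cases h : n % 2 = 0
    · simp only [if_pos h]; exact h1 _
    · simp only [if_neg h]; exact h1' _
  · have e : ∀ n : ℕ, ENNReal.ofReal ‖if n % 2 = 0 then V (n / 2) else V' (n / 2)‖ =
        if n % 2 = 0 then ENNReal.ofReal ‖V (n / 2)‖ else ENNReal.ofReal ‖V' (n / 2)‖ := fun n => by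
      split_ifs <;> rfl
    simp only [e]
    rw [key (fun n => ENNReal.ofReal ‖V n‖) (fun n => ENNReal.ofReal ‖V' n‖)]
    exact add_le_add h2 h2'
  · have e : ∀ n : ℕ, ENNReal.ofReal (if n % 2 = 0 then ρ (n / 2) else ρ' (n / 2)) =
        if n % 2 = 0 then ENNReal.ofReal (ρ (n / 2)) else ENNReal.ofReal (ρ' (n / 2)) := fun n => by
      split_ifs <;> rfl
    simp only [e]
    rw [key (fun n => ENNReal.ofReal (ρ n)) (fun n => ENNReal.ofReal (ρ' n))]
    exact add_le_add h3 h3'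
  · rintro x (hx | hx)
    · obtain ⟨n, hn⟩ := mem_iUnion.mp (h4 hx)
      refine mem_iUnion.mpr ⟨2 * n, ?_⟩
      simp only [if_pos (show (2 * n) % 2 = 0 by omega), show 2 * n / 2 = n by omega]
      exact hn
    · obtain ⟨n, hn⟩ := mem_iUnion.mp (h4' hx)
      refine mem_iUnion.mpr ⟨2 * n + 1, ?_⟩
      simp only [if_neg (show ¬ (2 * n + 1) % 2 = 0 by omega), show (2 * n + 1) / 2 = n by omega]
      exact hn

end H58Q
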