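import Pool.Agent.Lib.H58Q.A0

open MeasureTheory Set Filter Topology
open scoped ENNReal NNReal

namespace H58Q

/-- **A7a (S/M).** Disjointification inside an arbitrary set `B`.
PROOF. `H i = toMeasurable μ B ∩ disjointed G i`: measurable, pairwise disjoint (`disjoint_disjointed`),
`H i ⊆ G i` (`disjointed_subset`), `⋃ H i = toMeasurable μ B ∩ ⋃ G i ⊇ B ∩ ⋃ G i` (`iUnion_disjointed`), and
`∑' μ (H i) = μ (⋃ H i) ≤ μ (toMeasurable μ B) = μ B` (`measure_iUnion`, `measure_toMeasurable`). -/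
theorem A7a {X : Type*} [MeasurableSpace X] (μ : Measure X) (B : Set X) (G : ℕ → Set X)
    (hG : ∀ i, MeasurableSet (G i)) :
    ∃ H : ℕ → Set X, (∀ i, H i ⊆ G i) ∧ B ∩ (⋃ i, G i) ⊆ ⋃ i, H i ∧ ∑' i, μ (H i) ≤ μ B := by
  refine ⟨fun i => toMeasurable μ B ∩ disjointed G i, fun i => ?_, ?_, ?_⟩
  · exact inter_subset_right.trans (disjointed_subset G i)
  · rw [← inter_iUnion, iUnion_disjointed]
    exact inter_subset_inter_left _ (subset_toMeasurable μ B)
  · rw [← measure_iUnion (fun i j hij => (disjoint_disjointed G hij).mono inter_subset_right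
      inter_subset_right) (fun i => (measurableSet_toMeasurable μ B).inter
        (MeasurableSet.disjointed hG i))]
    rw [← measure_toMeasurable (μ := μ) B]
    exact measure_mono (iUnion_subset fun i => inter_subset_left)

/-- **A7a' (S).** Pure numbers: a small `κ`.
PROOF. `κ = min (1/2) (ε / (16 * (m.toReal + 1)))`: `ofReal (1 + 2κ) * (m + e) ≤ m + ofReal ε` where `e = ofReal (ε/8)`... write
`m = ofReal m.toReal` and go to the reals: `(1 + 2κ)(m + ε/8) ≤ m + 2κ m + ε/4 ≤ m + ε/8 + ε/4`, and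
`4κ(m + ε/8) + ε/8 ≤ ε/4 + ε/16 + ε/8`. -/
theorem A7a' (m : ℝ≥0∞) (hm : m ≠ ∞) {ε : ℝ} (hε : 0 < ε) :
    ∃ κ : ℝ, 0 < κ ∧ κ ≤ 1 / 2 ∧
      ENNReal.ofReal (1 + 2 * κ) * (m + ENNReal.ofReal (ε / 8)) ≤ m + ENNReal.ofReal ε ∧
      ENNReal.ofReal (4 * κ) * (m + ENNReal.ofReal (ε / 8)) + ENNReal.ofReal (ε / 8)
        ≤ ENNReal.ofReal (ε / 2) := by
  obtain ⟨x, hx0, hx⟩ : ∃ x : ℝ, 0 ≤ x ∧ m = ENNReal.ofReal x :=
    ⟨m.toReal, ENNReal.toReal_nonneg, (ENNReal.ofReal_toReal hm).symm⟩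
  subst hx
  set k : ℝ := min (1 / 4) (ε / (16 * (x + 1))) with hk
  have hx1 : 0 < 16 * (x + 1) := by positivity
  have hk0 : 0 < k := lt_min (by norm_num) (div_pos hε hx1)
  have hk4 : k ≤ 1 / 4 := min_le_left _ _
  have hk1 : k ≤ 1 / 2 := by linarith
  have hk2 : k * (16 * (x + 1)) ≤ ε := by
    have : k ≤ ε / (16 * (x + 1)) := min_le_right _ _
    rwa [le_div_iff₀ hx1] at this
  have hkx : k * x ≤ ε / 16 := by nlinarith
  refine ⟨k, hk0, hk1, ?_, ?_⟩
  · rw [← ENNReal.ofReal_add hx0 (by positivity), ← ENNReal.ofReal_mul (by positivity),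
      ← ENNReal.ofReal_add hx0 hε.le]
    apply ENNReal.ofReal_le_ofReal
    nlinarith
  · rw [← ENNReal.ofReal_add hx0 (by positivity), ← ENNReal.ofReal_mul (by positivity),
      ← ENNReal.ofReal_add (by positivity) (by positivity)]
    apply ENNReal.ofReal_le_ofReal
    have h3 : k * ε ≤ 1 / 4 * ε := mul_le_mul_of_nonneg_right hk4 hε.le
    nlinarith

end H58Q
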