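import Pool.Agent.Lib.H58Q.A3
import Pool.Agent.Lib.H58Q.A4
import Pool.Agent.Lib.H58Q.A5
import Pool.Agent.Lib.H58Q.A6
import Pool.Agent.Lib.H58Q.A7a

open MeasureTheory Set Filter Topology
open scoped ENNReal NNReal

namespace H58Q

/-- **A7 (M/L).** Tube cover of every subset of finite length of a countable union of Lipschitz curves.
PROOF. Let `m = μH[1] B` and `κ` from `A7a' m hfin hε`. Choose `ζ : ℕ → ℝ≥0∞` positive with `∑' ζ n ≤ ofReal (ε/8)`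
(`ENNReal.exists_pos_sum_of_countable'`). `A5 (γ n) (K n) (hγ n) κ (ζ n)` gives `S n k, v n k, r n k` (choose). Index the pairs by
`i ↦ (i.unpair.1, i.unpair.2)`; `G i = γ _ '' S _ _` (measurable). `A7a μH[1] B G` gives `H i ⊆ G i` with `∑' μH[1] (H i) ≤ m`.
Each `H i` has finite measure, and (`A3` with `G := H i`, `ε := e i`, where `e i > 0`, `∑' e i ≤ ofReal (ε/8)`)
`HasCover (H i) δ (ofReal (1+2κ) * (μH[1] (H i) + e i)) (ofReal (4κ) * (μH[1] (H i) + e i) + e i)`. By `A6` and `HasCover.mono`: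
`⋃ H i` has a cover with `M = ofReal (1+2κ) * (m + ofReal (ε/8)) ≤ m + ofReal ε` and `R ≤ ofReal (ε/2)`
(`ENNReal.tsum_mul_left`, `ENNReal.tsum_add`).
The rest: `B \ ⋃ G i ⊆ Z := ⋃ n, (γ n '' Icc 0 1 \ ⋃ k, γ n '' S n k)`, `μH[1] Z ≤ ∑' ζ n ≤ ofReal (ε/8)`;
`A4 Z _ hδ (ε := ofReal (ε/8))` gives `HasCover Z δ 0 (ofReal (ε/4))`. Combine with `A6b` and `mono`
(`ε/2 + ε/4 ≤ ε`, `M + 0`). -/
theorem A7 (γ : ℕ → ℝ → E2) (K : ℕ → ℝ≥0) (hγ : ∀ n, LipschitzWith (K n) (γ n)) (B : Set E2)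
    (hB : B ⊆ ⋃ n, γ n '' Icc 0 1) (hfin : μH[1] B ≠ ∞) {ε δ : ℝ} (hε : 0 < ε) (hδ : 0 < δ) :
    HasCover B δ (μH[1] B + ENNReal.ofReal ε) (ENNReal.ofReal ε) := by
  classical
  set m := μH[1] B with hm
  obtain ⟨κ, hκ, hκ1, hκ2, hκ3⟩ := A7a' m hfin hε
  have he8 : ENNReal.ofReal (ε / 8) ≠ 0 := (ENNReal.ofReal_pos.mpr (by positivity)).ne'
  obtain ⟨ζ, hζ, hζs⟩ := ENNReal.exists_pos_sum_of_countable' he8 ℕ
  choose S v r hr happ hmeas hrest using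
    fun n => A5 (γ n) (K n) (hγ n) hκ hκ1 (ζ := ζ n) (hζ n).ne'
  obtain ⟨H, hHG, hHB, hHs⟩ := A7a μH[1] B (fun i : ℕ => γ i.unpair.1 '' S i.unpair.1 i.unpair.2)
    (fun i => hmeas _ _)
  obtain ⟨e, he, hes⟩ := ENNReal.exists_pos_sum_of_countable' he8 ℕ
  have hHfin : ∀ i, μH[1] (H i) ≠ ∞ := fun i =>
    ne_top_of_le_ne_top hfin ((ENNReal.le_tsum i).trans hHs)
  have h1 : ∀ i, HasCover (H i) δ (ENNReal.ofReal (1 + 2 * κ) * (μH[1] (H i) + e i))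
      (ENNReal.ofReal (4 * κ) * (μH[1] (H i) + e i) + e i) := fun i =>
    A3 (γ i.unpair.1) (S i.unpair.1 i.unpair.2) (v i.unpair.1 i.unpair.2) (r i.unpair.1 i.unpair.2)
      κ hκ hκ1 (hr _ _).1 (hr _ _).2 (happ _ _) (H i) (hHG i) (hHfin i) hδ (he i).ne'
  have h2 := A6 H δ _ _ h1
  simp only [ENNReal.tsum_mul_left, ENNReal.tsum_add] at h2
  have hsum : ∑' i, μH[1] (H i) + ∑' i, e i ≤ m + ENNReal.ofReal (ε / 8) := add_le_add hHs hes.le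
  have h3 : HasCover (⋃ i, H i) δ (m + ENNReal.ofReal ε) (ENNReal.ofReal (ε / 2)) := by
    refine h2.mono subset_rfl ?_ ?_
    · refine le_trans ?_ hκ2
      gcongr
    · refine le_trans ?_ hκ3
      gcongr
  set Z : Set E2 := ⋃ n, (γ n '' Icc 0 1 \ ⋃ k, γ n '' S n k) with hZ
  have hZm : μH[1] Z ≤ ENNReal.ofReal (ε / 8) :=
    (measure_iUnion_le _).trans ((ENNReal.tsum_le_tsum hrest).trans hζs.le)
  have h4 := A4 Z (ne_top_of_le_ne_top ENNReal.ofReal_ne_top hZm) hδ (ε := ENNReal.ofReal (ε / 8)) he8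
  have h5 := A6b _ _ δ _ _ _ _ h3 h4
  refine h5.mono ?_ ?_ ?_
  · intro x hx
    by_cases h : x ∈ ⋃ i : ℕ, γ i.unpair.1 '' S i.unpair.1 i.unpair.2
    · left; exact hHB ⟨hx, h⟩
    · right
      obtain ⟨n, hn⟩ := mem_iUnion.mp (hB hx)
      refine mem_iUnion.mpr ⟨n, hn, fun h' => h ?_⟩
      obtain ⟨k, hk⟩ := mem_iUnion.mp h'
      refine mem_iUnion.mpr ⟨Nat.pair n k, ?_⟩
      simpa using hk
  · rw [add_zero]
  · calc ENNReal.ofReal (ε / 2) + (μH[1] Z + ENNReal.ofReal (ε / 8))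
        ≤ ENNReal.ofReal (ε / 2) + (ENNReal.ofReal (ε / 8) + ENNReal.ofReal (ε / 8)) := by gcongr
      _ = ENNReal.ofReal (ε / 2 + (ε / 8 + ε / 8)) := by
        rw [ENNReal.ofReal_add (by positivity) (by positivity),
          ENNReal.ofReal_add (by positivity) (by positivity)]
      _ ≤ ENNReal.ofReal ε := ENNReal.ofReal_le_ofReal (by linarith)

end H58Q
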