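import Pool.Agent.Lib.H58Q.Defs

/-! H58Q B1A -/

namespace H58Q

open Set Finset MeasureTheory

/-- CHUNK B1A (Bang). Let `(C, m)` minimise the continuous function `hq` on the compact window
`|C| ≤ 6, |m| ≤ 1 / 2`, and suppose `|C| < 6 - δ` and `|m| < 1 / 2 - δ`. Let `e_j = 1` or `-1` be the sign
of `w_j = C + m Y_j - X_j` and `H (C', m') = C'^2 + 40 m'^2 - sum κ_j e_j (C' + m' Y_j - X_j) - l1 C' - l2 m'`.
Then `H ≥ hq` in the window with equality at `(C, m)`: `(C, m)` is an interior minimum of the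
quadratic polynomial `H`, hence `H (C + c, m + μ) = H (C, m) + c^2 + 40 μ^2` for all `c, μ` (the linear
part `L` vanishes: `t L + t^2 q ≥ 0` for small `t` of both signs). Choose `k` with `|w_k| < α_k` and put
`c = - κ_k e_k`, `μ = - κ_k e_k Y_k / 40` (so `(C + c, m + μ)` is in the window by `h1`, `h2`). Flip the sign
`k`: `hq (C + c, m + μ) ≤ H (C + c, m + μ) + 2 κ_k e_k (w_k + c + μ Y_k)
 = hq (C, m) + κ^2 G + 2 κ |w_k| - 2 κ^2 G`, `G = 1 + Y_k^2 / 40`. Minimality gives `|w_k| ≥ κ G / 2`,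
which is `≥ α_k` by `hκ`: contradiction (`κ > 0`). -/
theorem bang {n : ℕ} (X Y α κ : Fin n → ℝ) (l1 l2 δ : ℝ) (hδ : 0 ≤ δ)
    (hα : ∀ j, 0 < α j) (hκ : ∀ j, 80 / (40 + Y j ^ 2) * α j ≤ κ j)
    (h1 : ∀ j, κ j ≤ δ) (h2 : ∀ j, κ j * |Y j| / 40 ≤ δ)
    (hcov : ∀ C m : ℝ, |C| ≤ 6 → |m| ≤ 1 / 2 → ∃ j, |C + m * Y j - X j| < α j) :
    ∃ C m : ℝ, |C| ≤ 6 ∧ |m| ≤ 1 / 2 ∧ (6 - δ ≤ |C| ∨ 1 / 2 - δ ≤ |m|) ∧
      ∀ C' m' : ℝ, |C'| ≤ 6 → |m'| ≤ 1 / 2 → hq X Y κ l1 l2 C m ≤ hq X Y κ l1 l2 C' m' := by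
  have hκ0 : ∀ j, 0 < κ j := by
    intro j
    have h3 : 0 < 80 / (40 + Y j ^ 2) * α j := mul_pos (by positivity) (hα j)
    exact lt_of_lt_of_le h3 (hκ j)
  have hcont : Continuous fun z : ℝ × ℝ => hq X Y κ l1 l2 z.1 z.2 := by
    unfold hq
    fun_prop
  have hK : IsCompact (Icc (-6 : ℝ) 6 ×ˢ Icc (-(1 / 2) : ℝ) (1 / 2)) := isCompact_Icc.prod isCompact_Icc
  have hne : (Icc (-6 : ℝ) 6 ×ˢ Icc (-(1 / 2) : ℝ) (1 / 2)).Nonempty :=
    ⟨(0, 0), ⟨by constructor <;> norm_num, by constructor <;> norm_num⟩⟩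
  obtain ⟨⟨C, m⟩, hmem, hmin⟩ := hK.exists_isMinOn hne hcont.continuousOn
  have hC : |C| ≤ 6 := abs_le.2 hmem.1
  have hm : |m| ≤ 1 / 2 := abs_le.2 hmem.2
  have hmin' : ∀ C' m' : ℝ, |C'| ≤ 6 → |m'| ≤ 1 / 2 → hq X Y κ l1 l2 C m ≤ hq X Y κ l1 l2 C' m' := by
    intro C' m' h3 h4
    exact hmin (show ((C', m') : ℝ × ℝ) ∈ Icc (-6 : ℝ) 6 ×ˢ Icc (-(1 / 2) : ℝ) (1 / 2) from
      ⟨abs_le.1 h3, abs_le.1 h4⟩)
  refine ⟨C, m, hC, hm, ?_, hmin'⟩
  by_contra hcon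
  push Not at hcon
  obtain ⟨hC2, hm2⟩ := hcon
  obtain ⟨k, hk⟩ := hcov C m hC hm
  obtain ⟨e, he⟩ : ∃ e : Fin n → ℝ, e = fun j => if 0 ≤ C + m * Y j - X j then 1 else -1 := ⟨_, rfl⟩
  have he1 : ∀ j, e j * (C + m * Y j - X j) = |C + m * Y j - X j| := by
    intro j
    rw [he]
    by_cases h3 : 0 ≤ C + m * Y j - X j
    · simp only [if_pos h3]
      rw [abs_of_nonneg h3, one_mul]
    · simp only [if_neg h3]
      rw [abs_of_neg (not_le.1 h3)]
      ring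
  have he2 : ∀ j, e j * e j = 1 := by
    intro j
    rw [he]
    by_cases h3 : 0 ≤ C + m * Y j - X j
    · simp only [if_pos h3]
      norm_num
    · simp only [if_neg h3]
      norm_num
  have he3 : ∀ j (x : ℝ), e j * x ≤ |x| ∧ -(e j * x) ≤ |x| := by
    intro j x
    have h4 := neg_abs_le x
    have h5 := le_abs_self x
    rw [he]
    by_cases h3 : 0 ≤ C + m * Y j - X j
    · simp only [if_pos h3]
      constructor <;> linarith
    · simp only [if_neg h3]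
      constructor <;> linarith
  obtain ⟨S1, hS1⟩ : ∃ S, S = ∑ j, κ j * e j := ⟨_, rfl⟩
  obtain ⟨S2, hS2⟩ : ∃ S, S = ∑ j, κ j * e j * Y j := ⟨_, rfl⟩
  obtain ⟨S3, hS3⟩ : ∃ S, S = ∑ j, κ j * e j * X j := ⟨_, rfl⟩
  have hsum : ∀ C' m' : ℝ, ∑ j, κ j * (e j * (C' + m' * Y j - X j)) = C' * S1 + m' * S2 - S3 := by
    intro C' m'
    rw [hS1, hS2, hS3, Finset.mul_sum, Finset.mul_sum, ← Finset.sum_add_distrib, ← Finset.sum_sub_distrib]
    refine Finset.sum_congr rfl fun j _ => ?_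
    ring
  have key2 : ∑ j, κ j * |C + m * Y j - X j| = C * S1 + m * S2 - S3 := by
    rw [← hsum]
    refine Finset.sum_congr rfl fun j _ => ?_
    rw [he1]
  have key1 : ∀ C' m' : ℝ, hq X Y κ l1 l2 C' m' ≤
      C' ^ 2 + 40 * m' ^ 2 - (C' * S1 + m' * S2 - S3) - l1 * C' - l2 * m' := by
    intro C' m'
    have h3 : C' * S1 + m' * S2 - S3 ≤ ∑ j, κ j * |C' + m' * Y j - X j| := by
      rw [← hsum]
      refine Finset.sum_le_sum fun j _ => ?_
      exact mul_le_mul_of_nonneg_left (he3 j _).1 (hκ0 j).le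
    unfold hq
    linarith
  have key3 : ∀ C' m' : ℝ, hq X Y κ l1 l2 C' m' ≤
      C' ^ 2 + 40 * m' ^ 2 - (C' * S1 + m' * S2 - S3) - l1 * C' - l2 * m' +
        2 * (κ k * (e k * (C' + m' * Y k - X k))) := by
    intro C' m'
    have h3 : κ k * |C' + m' * Y k - X k| - κ k * (e k * (C' + m' * Y k - X k)) ≤
        ∑ j, (κ j * |C' + m' * Y j - X j| - κ j * (e j * (C' + m' * Y j - X j))) := by
      refine Finset.single_le_sum (f := fun j => κ j * |C' + m' * Y j - X j| - κ j * (e j * (C' + m' * Y j - X j)))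
        (fun j _ => ?_) (Finset.mem_univ k)
      have := mul_le_mul_of_nonneg_left (he3 j (C' + m' * Y j - X j)).1 (hκ0 j).le
      exact sub_nonneg.2 this
    rw [Finset.sum_sub_distrib, hsum] at h3
    have h4 := mul_le_mul_of_nonneg_left (he3 k (C' + m' * Y k - X k)).2 (hκ0 k).le
    unfold hq
    linarith
  have keq : hq X Y κ l1 l2 C m = C ^ 2 + 40 * m ^ 2 - (C * S1 + m * S2 - S3) - l1 * C - l2 * m := by
    unfold hq
    rw [key2]
  have hL1 : 2 * C - S1 - l1 = 0 := by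
    by_contra hL
    have h5 : 0 < |2 * C - S1 - l1| := abs_pos.2 hL
    have h6 : 0 < 6 - |C| := by linarith
    obtain ⟨s, hs0, hs1, hs2⟩ : ∃ s : ℝ, 0 < s ∧ s < |2 * C - S1 - l1| ∧ s ≤ 6 - |C| := by
      refine ⟨min (|2 * C - S1 - l1| / 2) (6 - |C|), lt_min (by linarith) h6, ?_, min_le_right _ _⟩
      exact lt_of_le_of_lt (min_le_left _ _) (by linarith)
    obtain ⟨σ, hσ, hσ1⟩ : ∃ σ : ℝ, |σ| = 1 ∧ σ * (2 * C - S1 - l1) = -|2 * C - S1 - l1| := by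
      rcases le_total 0 (2 * C - S1 - l1) with h | h
      · exact ⟨-1, by norm_num, by rw [abs_of_nonneg h]; ring⟩
      · exact ⟨1, by norm_num, by rw [abs_of_nonpos h]; ring⟩
    have h7 : |C + s * σ| ≤ 6 := by
      have := abs_add_le C (s * σ)
      rw [abs_mul, hσ, abs_of_pos hs0, mul_one] at this
      linarith
    have h8 := hmin' (C + s * σ) m h7 hm
    have h9 := key1 (C + s * σ) m
    have h10 : σ ^ 2 = 1 := by rw [← sq_abs, hσ, one_pow]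
    rw [keq] at h8
    have h11 : 0 ≤ s * (σ * (2 * C - S1 - l1)) + s ^ 2 * σ ^ 2 := by linarith
    rw [hσ1, h10] at h11
    have h12 : s * s < s * |2 * C - S1 - l1| := mul_lt_mul_of_pos_left hs1 hs0
    linarith
  have hL2 : 80 * m - S2 - l2 = 0 := by
    by_contra hL
    have h5 : 0 < |80 * m - S2 - l2| := abs_pos.2 hL
    have h6 : 0 < 1 / 2 - |m| := by linarith
    obtain ⟨s, hs0, hs1, hs2⟩ : ∃ s : ℝ, 0 < s ∧ 40 * s < |80 * m - S2 - l2| ∧ s ≤ 1 / 2 - |m| := by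
      refine ⟨min (|80 * m - S2 - l2| / 80) (1 / 2 - |m|), lt_min (by linarith) h6, ?_, min_le_right _ _⟩
      have := min_le_left (|80 * m - S2 - l2| / 80) (1 / 2 - |m|)
      linarith
    obtain ⟨σ, hσ, hσ1⟩ : ∃ σ : ℝ, |σ| = 1 ∧ σ * (80 * m - S2 - l2) = -|80 * m - S2 - l2| := by
      rcases le_total 0 (80 * m - S2 - l2) with h | h
      · exact ⟨-1, by norm_num, by rw [abs_of_nonneg h]; ring⟩
      · exact ⟨1, by norm_num, by rw [abs_of_nonpos h]; ring⟩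
    have h7 : |m + s * σ| ≤ 1 / 2 := by
      have := abs_add_le m (s * σ)
      rw [abs_mul, hσ, abs_of_pos hs0, mul_one] at this
      linarith
    have h8 := hmin' C (m + s * σ) hC h7
    have h9 := key1 C (m + s * σ)
    have h10 : σ ^ 2 = 1 := by rw [← sq_abs, hσ, one_pow]
    rw [keq] at h8
    have h11 : 0 ≤ s * (σ * (80 * m - S2 - l2)) + 40 * (s ^ 2 * σ ^ 2) := by linarith
    rw [hσ1, h10] at h11
    have h12 : s * (40 * s) < s * |80 * m - S2 - l2| := mul_lt_mul_of_pos_left hs1 hs0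
    linarith
  -- the flip
  have hκk := hκ0 k
  have hek : |e k| = 1 := by
    have h3 : |e k| * |e k| = 1 := by rw [← abs_mul, he2, abs_one]
    nlinarith [abs_nonneg (e k)]
  obtain ⟨c, hc⟩ : ∃ c, c = -(κ k * e k) := ⟨_, rfl⟩
  obtain ⟨μ, hμ⟩ : ∃ μ, μ = -(κ k * e k * Y k / 40) := ⟨_, rfl⟩
  have hcabs : |c| ≤ δ := by
    rw [hc, abs_neg, abs_mul, hek, mul_one, abs_of_pos hκk]
    exact h1 k
  have hμabs : |μ| ≤ δ := by
    rw [hμ, abs_neg, abs_div, abs_mul, abs_mul, hek, mul_one, abs_of_pos hκk, abs_of_pos (by norm_num : (0 : ℝ) < 40)]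
    exact h2 k
  have h7 : |C + c| ≤ 6 := by
    have := abs_add_le C c
    linarith
  have h8 : |m + μ| ≤ 1 / 2 := by
    have := abs_add_le m μ
    linarith
  have h9 := hmin' (C + c) (m + μ) h7 h8
  have h10 := key3 (C + c) (m + μ)
  rw [keq] at h9
  have h11 : e k * (C + c + (m + μ) * Y k - X k) = |C + m * Y k - X k| - κ k * (1 + Y k ^ 2 / 40) := by
    rw [← he1 k, hc, hμ]
    have := he2 k
    linear_combination (-(κ k) - κ k * Y k ^ 2 / 40) * this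
  rw [h11] at h10
  have h12 : c ^ 2 + 40 * μ ^ 2 = κ k ^ 2 * (1 + Y k ^ 2 / 40) := by
    rw [hc, hμ]
    have := he2 k
    linear_combination (κ k ^ 2 + κ k ^ 2 * Y k ^ 2 / 40) * this
  have h13 : 0 ≤ 2 * (κ k * |C + m * Y k - X k|) - κ k ^ 2 * (1 + Y k ^ 2 / 40) := by
    have h14 : (C + c) ^ 2 + 40 * (m + μ) ^ 2 - ((C + c) * S1 + (m + μ) * S2 - S3) - l1 * (C + c) - l2 * (m + μ) =
        C ^ 2 + 40 * m ^ 2 - (C * S1 + m * S2 - S3) - l1 * C - l2 * m + κ k ^ 2 * (1 + Y k ^ 2 / 40) := by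
      linear_combination c * hL1 + μ * hL2 + h12
    rw [h14] at h10
    linarith
  have h15 : κ k * (1 + Y k ^ 2 / 40) ≤ 2 * |C + m * Y k - X k| := by
    by_contra hcon
    push Not at hcon
    nlinarith
  have h16 := hκ k
  have h17 : 0 < 40 + Y k ^ 2 := by positivity
  rw [div_mul_eq_mul_div, div_le_iff₀ h17] at h16
  nlinarith

end H58Q
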