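import Pool.Agent.Lib.H58Q.K3A

/-! H58Q K3B -/

namespace H58Q

open Set Finset MeasureTheory

theorem k3b_cell {a N : ℕ} (hN : a < N) {s : ℝ} (h0 : (a : ℝ) ≤ s) (h1 : s ≤ N) :
    ∃ i, a ≤ i ∧ i < N ∧ (i : ℝ) ≤ s ∧ s ≤ i + 1 := by
  rcases lt_or_eq_of_le h1 with h | h
  · have h2 : (0 : ℝ) ≤ s := le_trans (Nat.cast_nonneg a) h0
    refine ⟨⌊s⌋₊, Nat.le_floor h0, ?_, Nat.floor_le h2, (Nat.lt_floor_add_one s).le⟩
    exact (Nat.floor_lt h2).mpr h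
  · refine ⟨N - 1, by omega, by omega, ?_, ?_⟩
    · rw [h]
      exact_mod_cast Nat.sub_le N 1
    · rw [h]
      have : ((N - 1 + 1 : ℕ) : ℝ) = N := by congr 1; omega
      rw [← this]; push_cast; rfl

theorem k3b_div (a b : ℕ) (hb : 0 < b) : (a : ℝ) / b - 1 ≤ ((a / b : ℕ) : ℝ) := by
  have h := Nat.div_add_mod a b
  have h2 := Nat.mod_lt a hb
  have hb' : (0 : ℝ) < b := by exact_mod_cast hb
  rw [sub_le_iff_le_add, div_le_iff₀ hb']
  have h3 : a ≤ (a / b + 1) * b := by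
    have : (a / b + 1) * b = b * (a / b) + b := by ring
    rw [this]; omega
  exact_mod_cast h3

theorem k3b_FN3 (i : ℕ) : 80 / (40 + ((i : ℝ) / 3) ^ 2) + 1391 / 10 ^ 6 ≤ (FN3 i : ℝ) / 10 ^ 6 := by
  have h := k3b_div 720000000 (360 + i * i) (by omega)
  have e : (FN3 i : ℝ) = ((720000000 / (360 + i * i) : ℕ) : ℝ) + 1392 := by
    have : FN3 i = 720000000 / (360 + i * i) + 1392 := rfl
    rw [this]; push_cast; rfl
  rw [e]
  have e2 : 80 / (40 + ((i : ℝ) / 3) ^ 2) = (((720000000 : ℕ) : ℝ) / ((360 + i * i : ℕ) : ℝ)) / 10 ^ 6 := by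
    push_cast
    have h1 : (40 + ((i : ℝ) / 3) ^ 2) ≠ 0 := by positivity
    have h2 : (360 + (i : ℝ) * i) ≠ 0 := by positivity
    field_simp
    ring
  rw [e2]
  linarith

theorem k3b_FN1 (i : ℕ) : 80 / (40 + (i : ℝ) ^ 2) + 1391 / 10 ^ 6 ≤ (FN1 i : ℝ) / 10 ^ 6 := by
  have h := k3b_div 80000000 (40 + i * i) (by omega)
  have e : (FN1 i : ℝ) = ((80000000 / (40 + i * i) : ℕ) : ℝ) + 1392 := by
    have : FN1 i = 80000000 / (40 + i * i) + 1392 := rfl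
    rw [this]; push_cast; rfl
  rw [e]
  have e2 : 80 / (40 + (i : ℝ) ^ 2) = (((80000000 : ℕ) : ℝ) / ((40 + i * i : ℕ) : ℝ)) / 10 ^ 6 := by
    push_cast
    have h1 : (40 + (i : ℝ) ^ 2) ≠ 0 := by positivity
    have h2 : (40 + (i : ℝ) * i) ≠ 0 := by positivity
    field_simp
    ring
  rw [e2]
  linarith

theorem k3b_id (A B y : ℝ) : (B - A) * (80 / (40 + y ^ 2)) - ((B - y) * (80 / (40 + A ^ 2)) +
      (y - A) * (80 / (40 + B ^ 2))) = (B - A) * ((y - A) * (B - y)) *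
      (80 * (40 - A * B - A * y - B * y) / ((40 + A ^ 2) * (40 + B ^ 2) * (40 + y ^ 2))) := by
  have h1 : (40 + A ^ 2) ≠ 0 := by positivity
  have h2 : (40 + B ^ 2) ≠ 0 := by positivity
  have h3 : (40 + y ^ 2) ≠ 0 := by positivity
  field_simp
  ring

theorem k3b_chord {A B y : ℝ} (hA : 0 ≤ A) (h1 : A ≤ y) (h2 : y ≤ B) :
    (B - A) * (80 / (40 + y ^ 2)) - (B - A) * ((y - A) * (B - y)) / 20 ≤
      (B - y) * (80 / (40 + A ^ 2)) + (y - A) * (80 / (40 + B ^ 2)) := by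
  have h := k3b_id A B y
  have h3 : 80 * (40 - A * B - A * y - B * y) / ((40 + A ^ 2) * (40 + B ^ 2) * (40 + y ^ 2)) ≤ 1 / 20 := by
    rw [div_le_div_iff₀ (by positivity) (by norm_num)]
    have h4 : 0 ≤ A * B := mul_nonneg hA (by linarith)
    have h5 : 0 ≤ A * y := mul_nonneg hA (by linarith)
    have h6 : 0 ≤ B * y := mul_nonneg (by linarith) (by linarith)
    have h7 : (40 : ℝ) * 40 * 40 ≤ (40 + A ^ 2) * (40 + B ^ 2) * (40 + y ^ 2) := by
      have := sq_nonneg A; have := sq_nonneg B; have := sq_nonneg y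
      gcongr <;> linarith
    nlinarith
  have h4 : 0 ≤ (B - A) * ((y - A) * (B - y)) :=
    mul_nonneg (by linarith) (mul_nonneg (by linarith) (by linarith))
  have h5 := mul_le_mul_of_nonneg_left h3 h4
  linarith

theorem k3b_chord2 {A B y : ℝ} (hA : 8 ≤ A) (h1 : A ≤ y) (h2 : y ≤ B) :
    (B - A) * (80 / (40 + y ^ 2)) ≤
      (B - y) * (80 / (40 + A ^ 2)) + (y - A) * (80 / (40 + B ^ 2)) := by
  have h := k3b_id A B y
  have h3 : 80 * (40 - A * B - A * y - B * y) / ((40 + A ^ 2) * (40 + B ^ 2) * (40 + y ^ 2)) ≤ 0 := by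
    apply div_nonpos_of_nonpos_of_nonneg _ (by positivity)
    nlinarith
  have h4 : 0 ≤ (B - A) * ((y - A) * (B - y)) :=
    mul_nonneg (by linarith) (mul_nonneg (by linarith) (by linarith))
  have h5 := mul_le_mul_of_nonneg_left h3 h4
  linarith

/-- the three regions of `FF` -/
theorem k3b_cases (Y : ℝ) : (∃ i : ℕ, i < 24 ∧ (i : ℝ) / 3 ≤ |Y| ∧ |Y| ≤ ((i : ℝ) + 1) / 3) ∨
    (∃ n : ℕ, 8 ≤ n ∧ n < 18 ∧ (n : ℝ) ≤ |Y| ∧ |Y| ≤ n + 1) ∨ (18 < |Y| ∧ FF Y = 80 / (40 + Y ^ 2)) := by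
  rcases le_or_gt |Y| 8 with h | h
  · left
    obtain ⟨i, -, hi, h1, h2⟩ := k3b_cell (a := 0) (N := 24) (by norm_num) (s := 3 * |Y|)
      (by push_cast; have := abs_nonneg Y; linarith) (by push_cast; linarith)
    exact ⟨i, hi, by linarith, by linarith⟩
  · right
    rcases le_or_gt |Y| 18 with h' | h'
    · left
      obtain ⟨i, h0, hi, h1, h2⟩ := k3b_cell (a := 8) (N := 18) (by norm_num) (s := |Y|)
        (by push_cast; linarith) (by push_cast; linarith)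
      exact ⟨i, h0, hi, h1, h2⟩
    · right
      refine ⟨h', ?_⟩
      unfold FF
      rw [if_neg (not_le.2 h), if_neg (not_le.2 h')]

/-- CHUNK K3B. `FF ≥ f`, `f (Y) = 80 / (40 + Y ^ 2)`. For the chord of `f` over `[A, B]`, `0 ≤ A ≤ Y ≤ B`:
`f Y - chord = (Y - A) (B - Y) * 80 (40 - A B - A Y - B Y) / ((40 + A^2) (40 + B^2) (40 + Y^2))`
`≤ (Y - A) (B - Y) / 20 ≤ (B - A)^2 / 80`, which is `≤ 1 / 720 < 0.00139` for `B - A = 1 / 3`; for
`A ≥ 8` it is `≤ 0`. The node values are `≥ f + 1391 / 10 ^ 6` (the division loses less than one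
unit: `FN3 i ≥ 720000000 / (360 + i ^ 2) - 1 + 1392`). For `|Y| > 18` equality. -/
theorem FF_ge (Y : ℝ) : 80 / (40 + Y ^ 2) ≤ FF Y := by
  rw [← sq_abs Y]
  rcases k3b_cases Y with ⟨i, hi, h1, h2⟩ | ⟨n, hn, hn', h1, h2⟩ | ⟨-, h⟩
  · rw [FF_inner hi h1 h2]
    set y := |Y| with hy
    have g1 := k3b_FN3 i
    have g2 := k3b_FN3 (i + 1)
    have g3 := k3b_chord (A := (i : ℝ) / 3) (B := ((i : ℝ) + 1) / 3) (y := y) (by positivity) h1 h2
    push_cast at g2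
    have g4 : ((i : ℝ) + 1) / 3 - (i : ℝ) / 3 = 1 / 3 := by ring
    rw [g4] at g3
    have g5 : (y - (i : ℝ) / 3) * (((i : ℝ) + 1) / 3 - y) ≤ 1 / 36 := by
      nlinarith [sq_nonneg ((y - (i : ℝ) / 3) - (((i : ℝ) + 1) / 3 - y))]
    have g6 : 0 ≤ (i : ℝ) + 1 - 3 * y := by linarith
    have g7 : 0 ≤ 3 * y - (i : ℝ) := by linarith
    have g8 := mul_le_mul_of_nonneg_right g1 g6
    have g9 := mul_le_mul_of_nonneg_right g2 g7
    linarith
  · rw [FF_outer hn hn' h1 h2]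
    set y := |Y| with hy
    have g1 := k3b_FN1 n
    have g2 := k3b_FN1 (n + 1)
    have hn8 : (8 : ℝ) ≤ n := by exact_mod_cast hn
    have g3 := k3b_chord2 (A := (n : ℝ)) (B := (n : ℝ) + 1) (y := y) hn8 h1 h2
    push_cast at g2
    have g4 : (n : ℝ) + 1 - n = 1 := by ring
    rw [g4] at g3
    have g6 : 0 ≤ (n : ℝ) + 1 - y := by linarith
    have g7 : 0 ≤ y - (n : ℝ) := by linarith
    have g8 := mul_le_mul_of_nonneg_right g1 g6
    have g9 := mul_le_mul_of_nonneg_right g2 g7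
    linarith
  · rw [h, sq_abs]

theorem FF_nonneg (Y : ℝ) : 0 ≤ FF Y := by
  have h : 0 < 80 / (40 + Y ^ 2) := by positivity
  exact h.le.trans (FF_ge Y)

theorem k3b_num3 : ∀ i < 24, FN3 i ≤ 3000000 ∧ FN3 (i + 1) ≤ 3000000 ∧ FN3 i * (i + 1) ≤ 30000000 ∧
    FN3 (i + 1) * (i + 1) ≤ 30000000 := by decide +kernel

theorem k3b_num1 : ∀ i < 18, FN1 i ≤ 3000000 ∧ FN1 (i + 1) ≤ 3000000 ∧ FN1 i * (i + 1) ≤ 10000000 ∧
    FN1 (i + 1) * (i + 1) ≤ 10000000 := by decide +kernel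

theorem k3b_conv {u v M x y : ℝ} (hu : u ≤ M) (hv : v ≤ M) (hx : 0 ≤ x) (hy : 0 ≤ y)
    (hxy : x + y = 1) : u * x + v * y ≤ M := by
  have h1 := mul_le_mul_of_nonneg_right hu hx
  have h2 := mul_le_mul_of_nonneg_right hv hy
  have h3 : M * x + M * y = M := by rw [← mul_add, hxy, mul_one]
  linarith

/-- node values are at most `2.002` -/
theorem FF_le (Y : ℝ) : FF Y ≤ 3 := by
  rcases k3b_cases Y with ⟨i, hi, h1, h2⟩ | ⟨n, hn, hn', h1, h2⟩ | ⟨-, h⟩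
  · rw [FF_inner hi h1 h2]
    obtain ⟨g1, g2, -, -⟩ := k3b_num3 i hi
    have g1' : (FN3 i : ℝ) ≤ 3000000 := by exact_mod_cast g1
    have g2' : (FN3 (i + 1) : ℝ) ≤ 3000000 := by exact_mod_cast g2
    exact k3b_conv (by linarith) (by linarith) (by linarith) (by linarith) (by ring)
  · rw [FF_outer hn hn' h1 h2]
    obtain ⟨g1, g2, -, -⟩ := k3b_num1 n hn'
    have g1' : (FN1 n : ℝ) ≤ 3000000 := by exact_mod_cast g1
    have g2' : (FN1 (n + 1) : ℝ) ≤ 3000000 := by exact_mod_cast g2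
    exact k3b_conv (by linarith) (by linarith) (by linarith) (by linarith) (by ring)
  · rw [h, div_le_iff₀ (by positivity)]
    nlinarith [sq_nonneg Y]

/-- inside the box `FF ≤ f_chord + 0.0015`; `|Y| * 80 / (40 + Y ^ 2) ≤ 6.4`. The bound 10 is crude:
e.g. `FF Y ≤ FN (n) / 10 ^ 6` and `|Y| ≤ n + 1` on each unit interval, 18 numerical cases. -/
theorem FF_mul_le (Y : ℝ) : FF Y * |Y| ≤ 10 := by
  rcases k3b_cases Y with ⟨i, hi, h1, h2⟩ | ⟨n, hn, hn', h1, h2⟩ | ⟨-, h⟩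
  · have hF := FF_nonneg Y
    have hi0 : (0 : ℝ) < (i : ℝ) + 1 := by positivity
    have hle : FF Y * (((i : ℝ) + 1) / 3) ≤ 10 := by
      rw [FF_inner hi h1 h2]
      obtain ⟨-, -, g1, g2⟩ := k3b_num3 i hi
      have g1' : (FN3 i : ℝ) * ((i : ℝ) + 1) ≤ 30000000 := by exact_mod_cast g1
      have g2' : (FN3 (i + 1) : ℝ) * ((i : ℝ) + 1) ≤ 30000000 := by exact_mod_cast g2
      have := k3b_conv (u := (FN3 i : ℝ) / 10 ^ 6 * (((i : ℝ) + 1) / 3))
        (v := (FN3 (i + 1) : ℝ) / 10 ^ 6 * (((i : ℝ) + 1) / 3)) (M := 10)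
        (x := (i : ℝ) + 1 - 3 * |Y|) (y := 3 * |Y| - i) (by linarith) (by linarith) (by linarith)
        (by linarith) (by ring)
      linarith
    exact (mul_le_mul_of_nonneg_left h2 hF).trans hle
  · have hF := FF_nonneg Y
    have hle : FF Y * ((n : ℝ) + 1) ≤ 10 := by
      rw [FF_outer hn hn' h1 h2]
      obtain ⟨-, -, g1, g2⟩ := k3b_num1 n hn'
      have g1' : (FN1 n : ℝ) * ((n : ℝ) + 1) ≤ 10000000 := by exact_mod_cast g1
      have g2' : (FN1 (n + 1) : ℝ) * ((n : ℝ) + 1) ≤ 10000000 := by exact_mod_cast g2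
      have := k3b_conv (u := (FN1 n : ℝ) / 10 ^ 6 * ((n : ℝ) + 1))
        (v := (FN1 (n + 1) : ℝ) / 10 ^ 6 * ((n : ℝ) + 1)) (M := 10)
        (x := (n : ℝ) + 1 - |Y|) (y := |Y| - n) (by linarith) (by linarith) (by linarith)
        (by linarith) (by ring)
      linarith
    exact (mul_le_mul_of_nonneg_left h2 hF).trans hle
  · rw [h, ← sq_abs Y, div_mul_eq_mul_div, div_le_iff₀ (by positivity)]
    nlinarith [sq_nonneg (|Y| - 4)]

end H58Q
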