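import Pool.Agent.Lib.H58Q.B1A
import Pool.Agent.Lib.H58Q.K3B

/-! H58Q B1B -/

namespace H58Q

open Set Finset MeasureTheory

/-- CHUNK B1B. `COV` for `(a, c, P) = (1, -m, C)`: `|C - (X_j - m Y_j)| ≤ |p_j - m q_j| / 2 + (1 + |m|) r_j`,
which is `< alT (F j)` since `r_j > 0`, `|m| ≤ 1 / 2`. Then `bang` with `κ_j = kaT (F j)` (`FF_ge`),
`δ = 10 ε` (`FF_le`, `FF_mul_le`, `alT ≤ 11 ε / 4`), `l1 = - rC (uF F)`, `l2 = - rM (uF F)`. -/
theorem bangF {n : ℕ} {F : Fin n → Tb} {ε : ℝ} (hε : 0 < ε) (hs : Sm F ε) (hc : COV F) :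
    ∃ C m : ℝ, |C| ≤ 6 ∧ |m| ≤ 1 / 2 ∧ (6 - 10 * ε ≤ |C| ∨ 1 / 2 - 10 * ε ≤ |m|) ∧
      ∀ C' m' : ℝ, |C'| ≤ 6 → |m'| ≤ 1 / 2 → hF F C m ≤ hF F C' m' := by
  have hal : ∀ j, 0 < alT (F j) := by
    intro j
    have := hs.rpos j
    unfold alT
    positivity
  have hal2 : ∀ j, alT (F j) ≤ 11 * ε / 4 := by
    intro j
    have h1 := hs.ple j
    have h2 := hs.qle j
    have h3 := hs.rle j
    unfold alT
    linarith
  have g1 : ∀ j, 80 / (40 + (F j).Y ^ 2) * alT (F j) ≤ kaT (F j) := by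
    intro j
    unfold kaT
    exact mul_le_mul_of_nonneg_right (FF_ge _) (hal j).le
  have g2 : ∀ j, kaT (F j) ≤ 10 * ε := by
    intro j
    unfold kaT
    have h1 := FF_le (F j).Y
    have h2 := FF_nonneg (F j).Y
    have h3 := hal j
    have h4 := hal2 j
    nlinarith
  have g3 : ∀ j, kaT (F j) * |(F j).Y| / 40 ≤ 10 * ε := by
    intro j
    unfold kaT
    have h1 := FF_mul_le (F j).Y
    have h3 := hal j
    have h4 := hal2 j
    have h5 : FF (F j).Y * alT (F j) * |(F j).Y| = (FF (F j).Y * |(F j).Y|) * alT (F j) := by ring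
    rw [h5]
    have h6 : (FF (F j).Y * |(F j).Y|) * alT (F j) ≤ 10 * (11 * ε / 4) :=
      mul_le_mul h1 h4 h3.le (by norm_num)
    linarith
  have g4 : ∀ C m : ℝ, |C| ≤ 6 → |m| ≤ 1 / 2 → ∃ j, |C + m * (F j).Y - (F j).X| < alT (F j) := by
    intro C m hC hm
    obtain ⟨j, hj⟩ := hc 1 (-m) C (Or.inl one_ne_zero) (by
      rw [abs_one]
      have := abs_nonneg (-m)
      linarith)
    refine ⟨j, ?_⟩
    unfold Meets at hj
    rw [abs_one, abs_neg, one_mul, one_mul] at hj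
    have h1 : |C + m * (F j).Y - (F j).X| = |C - ((F j).X + -m * (F j).Y)| := by
      congr 1; ring
    have hr := hs.rpos j
    have h2 : |(F j).p + -m * (F j).q| ≤ |(F j).p| + |(F j).q| / 2 := by
      calc |(F j).p + -m * (F j).q| ≤ |(F j).p| + |-m * (F j).q| := abs_add_le _ _
        _ = |(F j).p| + |m| * |(F j).q| := by rw [abs_mul, abs_neg]
        _ ≤ _ := by
          have := abs_nonneg (F j).q
          nlinarith
    rw [h1]
    unfold alT
    nlinarith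
  obtain ⟨C, m, hC, hm, hbd, hmin⟩ := bang (fun j => (F j).X) (fun j => (F j).Y) (fun j => alT (F j))
    (fun j => kaT (F j)) (-rC (uF F)) (-rM (uF F)) (10 * ε) (by positivity) hal g1 g2 g3 g4
  have hqF : ∀ C m, hq (fun j => (F j).X) (fun j => (F j).Y) (fun j => kaT (F j)) (-rC (uF F))
      (-rM (uF F)) C m = hF F C m := by
    intro C m
    unfold hq hF
    rw [show uF F C m = ∑ j, kaT (F j) * |C + m * (F j).Y - (F j).X| from rfl]
    ring
  refine ⟨C, m, hC, hm, hbd, fun C' m' hC' hm' => ?_⟩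
  rw [← hqF, ← hqF]
  exact hmin C' m' hC' hm'

end H58Q
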