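import Pool.Agent.Lib.H58Q.K3B

/-! H58Q B1C -/

namespace H58Q

open Set Finset MeasureTheory

theorem b1c_alT_nonneg {t : Tb} (h : 0 < t.r) : 0 ≤ alT t := by
  unfold alT
  have h1 := abs_nonneg t.p
  have h2 := abs_nonneg t.q
  linarith

theorem b1c_alT_le (t : Tb) : alT t ≤ 3 / 5 * Real.sqrt (t.p ^ 2 + t.q ^ 2) + 2 * t.r := by
  unfold alT
  have h1 : |t.p| + |t.q| / 2 ≤ 6 / 5 * Real.sqrt (t.p ^ 2 + t.q ^ 2) := by
    have h2 : (5 / 6 * (|t.p| + |t.q| / 2)) ≤ Real.sqrt (t.p ^ 2 + t.q ^ 2) := by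
      apply Real.le_sqrt_of_sq_le
      have e1 : t.p ^ 2 = |t.p| ^ 2 := (sq_abs _).symm
      have e2 : t.q ^ 2 = |t.q| ^ 2 := (sq_abs _).symm
      rw [e1, e2]
      nlinarith [sq_nonneg (|t.p| / 2 - |t.q|), abs_nonneg t.p, abs_nonneg t.q,
        sq_nonneg (|t.p|), sq_nonneg (|t.q|)]
    linarith
  linarith

theorem b1c_sum_alT {n : ℕ} {F : Fin n → Tb} {ε : ℝ} (hε1 : ε ≤ 1) (hs : Sm F ε) :
    ∑ j, alT (F j) ≤ 3 / 5 * len F + 2 := by
  have h1 : ∑ j, alT (F j) ≤ ∑ j, (3 / 5 * Real.sqrt ((F j).p ^ 2 + (F j).q ^ 2) + 2 * (F j).r) :=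
    Finset.sum_le_sum fun j _ => b1c_alT_le (F j)
  rw [Finset.sum_add_distrib, ← Finset.mul_sum, ← Finset.mul_sum] at h1
  have h2 := hs.rsum
  unfold len
  linarith

theorem b1c_u {n : ℕ} {F : Fin n → Tb} {ε : ℝ} (hε1 : ε ≤ 1) (hs : Sm F ε) (C m C' m' : ℝ) :
    |uF F C m - uF F C' m'| ≤ (9 / 5 * len F + 6) * |C - C'| + (6 * len F + 20) * |m - m'| := by
  have hS := b1c_sum_alT hε1 hs
  have h1 : |uF F C m - uF F C' m'| ≤ ∑ j, alT (F j) * (3 * |C - C'| + 10 * |m - m'|) := by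
    unfold uF
    rw [← Finset.sum_sub_distrib]
    refine (Finset.abs_sum_le_sum_abs _ _).trans (Finset.sum_le_sum fun j _ => ?_)
    rw [← mul_sub, abs_mul]
    have ha := b1c_alT_nonneg (hs.rpos j)
    have hF := FF_nonneg (F j).Y
    have hF3 := FF_le (F j).Y
    have hF10 := FF_mul_le (F j).Y
    have hk : 0 ≤ kaT (F j) := mul_nonneg hF ha
    rw [abs_of_nonneg hk]
    have h2 : |(|C + m * (F j).Y - (F j).X| - |C' + m' * (F j).Y - (F j).X|)|
        ≤ |C - C'| + |(F j).Y| * |m - m'| := by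
      refine (abs_abs_sub_abs_le _ _).trans ?_
      have e : C + m * (F j).Y - (F j).X - (C' + m' * (F j).Y - (F j).X)
        = (C - C') + (F j).Y * (m - m') := by ring
      rw [e]
      refine (abs_add_le _ _).trans ?_
      rw [abs_mul]
    refine (mul_le_mul_of_nonneg_left h2 hk).trans ?_
    unfold kaT
    have e : FF (F j).Y * alT (F j) * (|C - C'| + |(F j).Y| * |m - m'|)
      = alT (F j) * (FF (F j).Y * |C - C'| + (FF (F j).Y * |(F j).Y|) * |m - m'|) := by ring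
    rw [e]
    apply mul_le_mul_of_nonneg_left _ ha
    have := mul_le_mul_of_nonneg_right hF3 (abs_nonneg (C - C'))
    have := mul_le_mul_of_nonneg_right hF10 (abs_nonneg (m - m'))
    linarith
  rw [← Finset.sum_mul] at h1
  refine h1.trans ?_
  have h3 : 0 ≤ 3 * |C - C'| + 10 * |m - m'| := by positivity
  refine (mul_le_mul_of_nonneg_right hS h3).trans (le_of_eq ?_)
  ring

/-- CHUNK B1C. `|u(z) - u(z')| ≤ sum κ_j (|C - C'| + |Y_j| |m - m'|) ≤ L (|C - C'| + |m - m'|)` with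
`L = sum κ_j (1 + |Y_j|) ≤ 13 sum alT ≤ 26 (1 + len F)` (`alT ≤ 0.6 sqrt(p^2+q^2) + 2 r`); `|rC u| ≤ L`,
`|rM u| ≤ L`; the quadratic part is `12`-, `40`-Lipschitz. -/
theorem hF_lip {n : ℕ} {F : Fin n → Tb} {ε : ℝ} (hε : 0 < ε) (hε1 : ε ≤ 1) (hs : Sm F ε)
    {C m C' m' : ℝ} (hC : |C| ≤ 6) (hm : |m| ≤ 1 / 2) (hC' : |C'| ≤ 6) (hm' : |m'| ≤ 1 / 2) :
    |hF F C m - hF F C' m'| ≤ 100 * (1 + len F) * (|C - C'| + |m - m'|) := by
  have hlen : 0 ≤ len F := Finset.sum_nonneg fun j _ => Real.sqrt_nonneg _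
  have hu := b1c_u hε1 hs
  have h12 : |(12 : ℝ)| = 12 := by norm_num
  have h6 : |(6 : ℝ)| = 6 := by norm_num
  have h1 : |(1 : ℝ)| = 1 := by norm_num
  have h0 : |(0 : ℝ)| = 0 := by norm_num
  have a1 : |uF F 6 0 - uF F (-6) 0| ≤ (9 / 5 * len F + 6) * 12 := by
    have h := hu 6 0 (-6) 0
    norm_num at h
    linarith
  have a2 : |uF F 3 (1 / 2) - uF F (-3) (1 / 2)| ≤ (9 / 5 * len F + 6) * 6 := by
    have h := hu 3 (1 / 2) (-3) (1 / 2)
    norm_num at h
    norm_num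
    linarith
  have a3 : |uF F 3 (-1 / 2) - uF F (-3) (-1 / 2)| ≤ (9 / 5 * len F + 6) * 6 := by
    have h := hu 3 (-1 / 2) (-3) (-1 / 2)
    norm_num at h
    norm_num
    linarith
  have b1 : |uF F 0 (1 / 2) - uF F 0 (-1 / 2)| ≤ 6 * len F + 20 := by
    have h := hu 0 (1 / 2) 0 (-1 / 2)
    norm_num at h
    norm_num
    linarith
  have b2 : |uF F 3 (1 / 2) - uF F 3 (-1 / 2)| ≤ 6 * len F + 20 := by
    have h := hu 3 (1 / 2) 3 (-1 / 2)
    norm_num at h
    norm_num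
    linarith
  have b3 : |uF F (-3) (1 / 2) - uF F (-3) (-1 / 2)| ≤ 6 * len F + 20 := by
    have h := hu (-3) (1 / 2) (-3) (-1 / 2)
    norm_num at h
    norm_num
    linarith
  have hrC : |rC (uF F)| ≤ 9 / 5 * len F + 6 := by
    unfold rC
    rw [abs_le] at a1 a2 a3 ⊢
    constructor <;> linarith [a1.1, a1.2, a2.1, a2.2, a3.1, a3.2]
  have hrM : |rM (uF F)| ≤ 6 * len F + 20 := by
    unfold rM
    rw [abs_le] at b1 b2 b3 ⊢
    constructor <;> linarith [b1.1, b1.2, b2.1, b2.2, b3.1, b3.2]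
  have e : hF F C m - hF F C' m' = (C + C') * (C - C') + 40 * ((m + m') * (m - m'))
      - (uF F C m - uF F C' m') + rC (uF F) * (C - C') + rM (uF F) * (m - m') := by
    unfold hF
    ring
  rw [e]
  have hd := abs_nonneg (C - C')
  have hd' := abs_nonneg (m - m')
  have c1 : |(C + C') * (C - C')| ≤ 12 * |C - C'| := by
    rw [abs_mul]
    apply mul_le_mul_of_nonneg_right _ hd
    exact (abs_add_le _ _).trans (by linarith)
  have c2 : |40 * ((m + m') * (m - m'))| ≤ 40 * |m - m'| := by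
    rw [abs_mul, abs_mul, abs_of_pos (by norm_num : (0 : ℝ) < 40)]
    have : |m + m'| ≤ 1 := (abs_add_le _ _).trans (by linarith)
    have := mul_le_mul_of_nonneg_right this hd'
    linarith
  have c3 := hu C m C' m'
  have c4 : |rC (uF F) * (C - C')| ≤ (9 / 5 * len F + 6) * |C - C'| := by
    rw [abs_mul]
    exact mul_le_mul_of_nonneg_right hrC hd
  have c5 : |rM (uF F) * (m - m')| ≤ (6 * len F + 20) * |m - m'| := by
    rw [abs_mul]
    exact mul_le_mul_of_nonneg_right hrM hd'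
  have tri : |(C + C') * (C - C') + 40 * ((m + m') * (m - m'))
      - (uF F C m - uF F C' m') + rC (uF F) * (C - C') + rM (uF F) * (m - m')|
      ≤ |(C + C') * (C - C')| + |40 * ((m + m') * (m - m'))| + |uF F C m - uF F C' m'|
        + |rC (uF F) * (C - C')| + |rM (uF F) * (m - m')| := by
    refine (abs_add_le _ _).trans (add_le_add_left ?_ _)
    refine (abs_add_le _ _).trans (add_le_add_left ?_ _)
    refine (abs_sub _ _).trans (add_le_add_left ?_ _)
    exact abs_add_le _ _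
  refine tri.trans ?_
  have p1 := mul_nonneg hlen hd
  have p2 := mul_nonneg hlen hd'
  have e2 : 100 * (1 + len F) * (|C - C'| + |m - m'|) = 100 * |C - C'| + 100 * (len F * |C - C'|)
    + 100 * |m - m'| + 100 * (len F * |m - m'|) := by ring
  rw [e2]
  have e3 : (9 / 5 * len F + 6) * |C - C'| = 9 / 5 * (len F * |C - C'|) + 6 * |C - C'| := by ring
  have e4 : (6 * len F + 20) * |m - m'| = 6 * (len F * |m - m'|) + 20 * |m - m'| := by ring
  rw [e3] at c3 c4
  rw [e4] at c3 c5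
  linarith

end H58Q
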