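import Pool.Agent.Lib.H58Q.K3B

/-! H58Q B1D -/

namespace H58Q

open Set Finset MeasureTheory

theorem b1d_ka {n : ℕ} (F : Fin n → Tb) (hr : ∀ j, 0 ≤ (F j).r) (j : Fin n) : 0 ≤ kaT (F j) := by
  unfold kaT alT
  have h1 : 0 ≤ FF (F j).Y := FF_nonneg _
  have h2 := hr j
  positivity

theorem b1d_conv {n : ℕ} (F : Fin n → Tb) (hr : ∀ j, 0 ≤ (F j).r) {t : ℝ} (h0 : 0 ≤ t) (h1 : t ≤ 1)
    (C m C' m' : ℝ) :
    uF F ((1 - t) * C + t * C') ((1 - t) * m + t * m') ≤ (1 - t) * uF F C m + t * uF F C' m' := by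
  unfold uF
  rw [Finset.mul_sum, Finset.mul_sum, ← Finset.sum_add_distrib]
  refine Finset.sum_le_sum fun j _ => ?_
  have h2 := b1d_ka F hr j
  have h3 : |(1 - t) * C + t * C' + ((1 - t) * m + t * m') * (F j).Y - (F j).X| ≤
      (1 - t) * |C + m * (F j).Y - (F j).X| + t * |C' + m' * (F j).Y - (F j).X| := by
    have e : (1 - t) * C + t * C' + ((1 - t) * m + t * m') * (F j).Y - (F j).X =
        (1 - t) * (C + m * (F j).Y - (F j).X) + t * (C' + m' * (F j).Y - (F j).X) := by ring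
    rw [e]
    refine (abs_add_le _ _).trans ?_
    rw [abs_mul, abs_mul, abs_of_nonneg h0, abs_of_nonneg (by linarith : (0 : ℝ) ≤ 1 - t)]
  calc kaT (F j) * |(1 - t) * C + t * C' + ((1 - t) * m + t * m') * (F j).Y - (F j).X|
      ≤ kaT (F j) * ((1 - t) * |C + m * (F j).Y - (F j).X| + t * |C' + m' * (F j).Y - (F j).X|) :=
        mul_le_mul_of_nonneg_left h3 h2
    _ = _ := by ring

/-- CHUNK B1D. `uF F` is convex and the quadratic form satisfies the parallelogram identity. -/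
theorem hF_chord {n : ℕ} (F : Fin n → Tb) (hr : ∀ j, 0 ≤ (F j).r) {t : ℝ} (h0 : 0 ≤ t) (h1 : t ≤ 1)
    (C m C' m' : ℝ) :
    (1 - t) * hF F C m + t * hF F C' m' - t * (1 - t) * ((C - C') ^ 2 + 40 * (m - m') ^ 2) ≤
      hF F ((1 - t) * C + t * C') ((1 - t) * m + t * m') := by
  have h2 := b1d_conv F hr h0 h1 C m C' m'
  unfold hF
  nlinarith

/-- if both alternatives fail then `hF_chord` and
`(1 - t) r^2 + t r'^2 - t (1 - t) (r + r')^2 = ((1 - t) r - t r')^2 ≥ 0` give a contradiction -/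
theorem hF_vstep {n : ℕ} (F : Fin n → Tb) (hr : ∀ j, 0 ≤ (F j).r) {t : ℝ} (h0 : 0 ≤ t) (h1 : t ≤ 1)
    {C m C' m' r r' : ℝ} (hr0 : 0 ≤ r) (hr0' : 0 ≤ r')
    (hQ : (C - C') ^ 2 + 40 * (m - m') ^ 2 ≤ (r + r') ^ 2) :
    hF F C m ≤ hF F ((1 - t) * C + t * C') ((1 - t) * m + t * m') + r ^ 2 ∨
    hF F C' m' ≤ hF F ((1 - t) * C + t * C') ((1 - t) * m + t * m') + r' ^ 2 := by
  by_contra hc
  rw [not_or, not_le, not_le] at hc
  obtain ⟨h2, h3⟩ := hc
  have h4 := hF_chord F hr h0 h1 C m C' m'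
  generalize hF F ((1 - t) * C + t * C') ((1 - t) * m + t * m') = z at *
  generalize hF F C m = x at *
  generalize hF F C' m' = y at *
  have h5 : t * (1 - t) * ((C - C') ^ 2 + 40 * (m - m') ^ 2) ≤ t * (1 - t) * (r + r') ^ 2 :=
    mul_le_mul_of_nonneg_left hQ (mul_nonneg h0 (by linarith))
  have h6 : 0 ≤ ((1 - t) * r - t * r') ^ 2 := sq_nonneg _
  have h7 : (1 - t) * (z + r ^ 2) + t * (z + r' ^ 2) < (1 - t) * x + t * y := by
    rcases eq_or_lt_of_le h0 with ht | ht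
    · rw [← ht]
      linarith
    · have h8 : t * (z + r' ^ 2) < t * y := mul_lt_mul_of_pos_left h3 ht
      have h9 : (1 - t) * (z + r ^ 2) ≤ (1 - t) * x := mul_le_mul_of_nonneg_left h2.le (by linarith)
      linarith
  nlinarith

end H58Q
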