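import Pool.Agent.Lib.H58Q.Defs

/-! H58Q B1E -/

namespace H58Q

open Set Finset MeasureTheory

/-- CHUNK B1E. -/
theorem refX_ok {n : ℕ} {F : Fin n → Tb} {ε : ℝ} (hs : Sm F ε) (hc : COV F) :
    Sm (refX F) ε ∧ COV (refX F) ∧ len (refX F) = len F := by
  refine ⟨⟨fun j => hs.rpos j, fun j => hs.rle j, fun j => ?_, fun j => hs.qle j, hs.rsum⟩, ?_, ?_⟩
  · show |-(F j).p| ≤ ε
    rw [abs_neg]; exact hs.ple j
  · intro a c P hac hP
    obtain ⟨j, hj⟩ := hc (-a) c P (by rcases hac with h | h; exacts [Or.inl (neg_ne_zero.2 h), Or.inr h])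
      (by rw [abs_neg]; exact hP)
    refine ⟨j, ?_⟩
    unfold Meets at hj ⊢
    simp only [refX]
    rw [abs_neg] at hj
    rw [show a * -(F j).X = -a * (F j).X by ring, show a * -(F j).p = -a * (F j).p by ring]
    exact hj
  · unfold len
    refine Finset.sum_congr rfl fun j _ => ?_
    simp only [refX]
    rw [neg_sq]

theorem refY_ok {n : ℕ} {F : Fin n → Tb} {ε : ℝ} (hs : Sm F ε) (hc : COV F) :
    Sm (refY F) ε ∧ COV (refY F) ∧ len (refY F) = len F := by
  refine ⟨⟨fun j => hs.rpos j, fun j => hs.rle j, fun j => hs.ple j, fun j => ?_, hs.rsum⟩, ?_, ?_⟩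
  · show |-(F j).q| ≤ ε
    rw [abs_neg]; exact hs.qle j
  · intro a c P hac hP
    obtain ⟨j, hj⟩ := hc a (-c) P (by rcases hac with h | h; exacts [Or.inl h, Or.inr (neg_ne_zero.2 h)])
      (by rw [abs_neg]; exact hP)
    refine ⟨j, ?_⟩
    unfold Meets at hj ⊢
    simp only [refY]
    rw [abs_neg] at hj
    rw [show c * -(F j).Y = -c * (F j).Y by ring, show c * -(F j).q = -c * (F j).q by ring]
    exact hj
  · unfold len
    refine Finset.sum_congr rfl fun j _ => ?_
    simp only [refY]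
    rw [neg_sq]

theorem b1e_uF_refX {n : ℕ} (F : Fin n → Tb) (C m : ℝ) : uF (refX F) C m = uF F (-C) (-m) := by
  unfold uF kaT alT refX
  refine Finset.sum_congr rfl fun j _ => ?_
  simp only
  rw [abs_neg, show C + m * (F j).Y - -(F j).X = -(-C + -m * (F j).Y - (F j).X) by ring, abs_neg]

theorem b1e_uF_refY {n : ℕ} (F : Fin n → Tb) (C m : ℝ) : uF (refY F) C m = uF F C (-m) := by
  unfold uF kaT alT refY
  refine Finset.sum_congr rfl fun j _ => ?_
  simp only
  rw [abs_neg, FF_neg, show C + m * -(F j).Y - (F j).X = C + -m * (F j).Y - (F j).X by ring]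

/-- `uF (refX F) C m = uF F (-C) (-m)`, `rC`, `rM` change sign -/
theorem hF_refX {n : ℕ} (F : Fin n → Tb) (C m : ℝ) : hF (refX F) C m = hF F (-C) (-m) := by
  unfold hF rC rM
  simp only [b1e_uF_refX, neg_neg, neg_zero]
  rw [show (-(-1 / 2 : ℝ)) = 1 / 2 by norm_num, show (-(1 / 2) : ℝ) = -1 / 2 by norm_num]
  ring

/-- `uF (refY F) C m = uF F C (-m)` -/
theorem hF_refY {n : ℕ} (F : Fin n → Tb) (C m : ℝ) : hF (refY F) C m = hF F C (-m) := by
  unfold hF rC rM
  simp only [b1e_uF_refY, neg_neg, neg_zero]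
  rw [show (-(-1 / 2 : ℝ)) = 1 / 2 by norm_num, show (-(1 / 2) : ℝ) = -1 / 2 by norm_num]
  ring

end H58Q
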