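import Pool.Agent.Lib.H58Q.B1B
import Pool.Agent.Lib.H58Q.B1C
import Pool.Agent.Lib.H58Q.B1D
import Pool.Agent.Lib.H58Q.B1E

/-! H58Q B1F -/

namespace H58Q

open Set Finset MeasureTheory

/-- `(C, m)` is a minimiser near the boundary of the window -/
def b1f_P {n : ℕ} (F : Fin n → Tb) (ε C m : ℝ) : Prop :=
  |C| ≤ 6 ∧ |m| ≤ 1 / 2 ∧ (6 - 10 * ε ≤ |C| ∨ 1 / 2 - 10 * ε ≤ |m|) ∧
    ∀ C' m' : ℝ, |C'| ≤ 6 → |m'| ≤ 1 / 2 → hF F C m ≤ hF F C' m'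

theorem b1f_X {n : ℕ} {F : Fin n → Tb} {ε C m : ℝ} (h : b1f_P F ε C m) : b1f_P (refX F) ε (-C) (-m) := by
  obtain ⟨h1, h2, h3, h4⟩ := h
  refine ⟨by rwa [abs_neg], by rwa [abs_neg], by rwa [abs_neg, abs_neg], fun C' m' h5 h6 => ?_⟩
  rw [hF_refX, hF_refX, neg_neg, neg_neg]
  exact h4 (-C') (-m') (by rwa [abs_neg]) (by rwa [abs_neg])

theorem b1f_Y {n : ℕ} {F : Fin n → Tb} {ε C m : ℝ} (h : b1f_P F ε C m) : b1f_P (refY F) ε C (-m) := by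
  obtain ⟨h1, h2, h3, h4⟩ := h
  refine ⟨h1, by rwa [abs_neg], by rwa [abs_neg], fun C' m' h5 h6 => ?_⟩
  rw [hF_refY, hF_refY, neg_neg]
  exact h4 C' (-m') h5 (by rwa [abs_neg])

theorem b1f_red1 {n : ℕ} {F : Fin n → Tb} {ε C m : ℝ} (hs : Sm F ε) (hc : COV F) (h : b1f_P F ε C m) :
    ∃ F' : Fin n → Tb, Sm F' ε ∧ COV F' ∧ len F' = len F ∧ ∃ C m : ℝ, b1f_P F' ε C m ∧ C ≤ 0 := by
  rcases le_total C 0 with h1 | h1
  · exact ⟨F, hs, hc, rfl, C, m, h, h1⟩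
  · obtain ⟨h2, h3, h4⟩ := refX_ok hs hc
    exact ⟨refX F, h2, h3, h4, -C, -m, b1f_X h, by linarith⟩

theorem b1f_red2 {n : ℕ} {F : Fin n → Tb} {ε C m : ℝ} (hs : Sm F ε) (hc : COV F) (h : b1f_P F ε C m) (hC : C ≤ 0) :
    ∃ F' : Fin n → Tb, Sm F' ε ∧ COV F' ∧ len F' = len F ∧ ∃ C m : ℝ, b1f_P F' ε C m ∧ C ≤ 0 ∧ 0 ≤ m := by
  rcases le_total 0 m with h1 | h1
  · exact ⟨F, hs, hc, rfl, C, m, h, hC, h1⟩
  · obtain ⟨h2, h3, h4⟩ := refY_ok hs hc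
    exact ⟨refY F, h2, h3, h4, C, -m, b1f_Y h, hC, by linarith⟩

/-- the step between two neighbours -/
theorem b1f_seg {n : ℕ} {F : Fin n → Tb} {C m δ : ℝ} (hr : ∀ j, 0 ≤ (F j).r)
    (h : ∀ C' m' : ℝ, |C'| ≤ 6 → |m'| ≤ 1 / 2 → hF F C m ≤ hF F C' m' + δ) (i i' : Fin 5) {t : ℝ} (h0 : 0 ≤ t)
    (h1 : t ≤ 1) (hCt : (1 - t) * av i + t * av i' = C) (hmt : (1 - t) * mv i + t * mv i' = m) (hr0 : 0 ≤ rv i)
    (hr0' : 0 ≤ rv i') (hQ : (av i - av i') ^ 2 + 40 * (mv i - mv i') ^ 2 ≤ (rv i + rv i') ^ 2) :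
    ∃ i : Fin 5, ∀ C m : ℝ, |C| ≤ 6 → |m| ≤ 1 / 2 → hF F (av i) (mv i) ≤ hF F C m + rv i ^ 2 + δ := by
  rcases hF_vstep F hr h0 h1 hr0 hr0' hQ with h2 | h2
  · refine ⟨i, fun C' m' h3 h4 => ?_⟩
    have := h C' m' h3 h4
    rw [hCt, hmt] at h2
    linarith
  · refine ⟨i', fun C' m' h3 h4 => ?_⟩
    have := h C' m' h3 h4
    rw [hCt, hmt] at h2
    linarith

theorem b1f_av0 : av 0 = 0 := rfl
theorem b1f_av1 : av 1 = -7 / 4 := rfl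
theorem b1f_av2 : av 2 = -13 / 4 := rfl
theorem b1f_av3 : av 3 = -6 := rfl
theorem b1f_av4 : av 4 = -6 := rfl
theorem b1f_mv0 : mv 0 = 1 / 2 := rfl
theorem b1f_mv1 : mv 1 = 1 / 2 := rfl
theorem b1f_mv2 : mv 2 = 1 / 2 := rfl
theorem b1f_mv3 : mv 3 = 1 / 2 := rfl
theorem b1f_mv4 : mv 4 = 0 := rfl
theorem b1f_rv0 : rv 0 = 101 / 100 := rfl
theorem b1f_rv1 : rv 1 = 74 / 100 := rfl
theorem b1f_rv2 : rv 2 = 77 / 100 := rfl
theorem b1f_rv3 : rv 3 = 207 / 100 := rfl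
theorem b1f_rv4 : rv 4 = 10923 / 10000 := rfl

theorem b1f_fin {n : ℕ} {F : Fin n → Tb} {ε C m : ℝ} (hε : 0 < ε) (hε1 : ε ≤ 1 / 100) (hs : Sm F ε)
    (h : b1f_P F ε C m) (hC : C ≤ 0) (hm : 0 ≤ m) : ∃ i : Fin 5, ∀ C m : ℝ, |C| ≤ 6 → |m| ≤ 1 / 2 →
      hF F (av i) (mv i) ≤ hF F C m + rv i ^ 2 + 1000 * ε * (1 + len F) := by
  obtain ⟨h1, h2, h3, h4⟩ := h
  have hlen : 0 ≤ len F := Finset.sum_nonneg fun j _ => Real.sqrt_nonneg _
  have hr : ∀ j, 0 ≤ (F j).r := fun j => (hs.rpos j).le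
  have h1' := abs_le.1 h1
  have h2' := abs_le.1 h2
  rcases h3 with h3 | h3
  · rw [abs_of_nonpos hC] at h3
    have h5 := hF_lip hε (by linarith) hs (C := -6) (m := m) (C' := C) (m' := m) (by norm_num) h2 h1 h2
    rw [sub_self, abs_zero, add_zero] at h5
    have h6 : |-6 - C| ≤ 10 * ε := by
      rw [abs_le]
      constructor <;> linarith
    have h7 : 100 * (1 + len F) * |-6 - C| ≤ 100 * (1 + len F) * (10 * ε) :=
      mul_le_mul_of_nonneg_left h6 (by linarith)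
    have h8 : hF F (-6) m ≤ hF F C m + 1000 * ε * (1 + len F) := by
      have := (abs_le.1 h5).2
      linarith
    refine b1f_seg (C := -6) (m := m) hr (fun C' m' h9 h10 => ?_) 3 4 (t := 1 - 2 * m) (by linarith) (by linarith)
      ?_ ?_ ?_ ?_ ?_
    · have := h4 C' m' h9 h10
      linarith
    · rw [b1f_av3, b1f_av4]
      ring
    · rw [b1f_mv3, b1f_mv4]
      ring
    · rw [b1f_rv3]
      norm_num
    · rw [b1f_rv4]
      norm_num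
    · rw [b1f_rv3, b1f_rv4, b1f_av3, b1f_av4, b1f_mv3, b1f_mv4]
      norm_num
  · rw [abs_of_nonneg hm] at h3
    have h5 := hF_lip hε (by linarith) hs (C := C) (m := 1 / 2) (C' := C) (m' := m) h1
      (by rw [abs_of_pos] <;> norm_num) h1 h2
    rw [sub_self, abs_zero, zero_add] at h5
    have h6 : |1 / 2 - m| ≤ 10 * ε := by
      rw [abs_le]
      constructor <;> linarith
    have h7 : 100 * (1 + len F) * |1 / 2 - m| ≤ 100 * (1 + len F) * (10 * ε) :=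
      mul_le_mul_of_nonneg_left h6 (by linarith)
    have h8 : hF F C (1 / 2) ≤ hF F C m + 1000 * ε * (1 + len F) := by
      have := (abs_le.1 h5).2
      linarith
    have h9 : ∀ C' m' : ℝ, |C'| ≤ 6 → |m'| ≤ 1 / 2 → hF F C (1 / 2) ≤ hF F C' m' + 1000 * ε * (1 + len F) := by
      intro C' m' h9 h10
      have := h4 C' m' h9 h10
      linarith
    rcases le_total (-7 / 4) C with h10 | h10
    · refine b1f_seg (C := C) (m := 1 / 2) hr h9 0 1 (t := -(4 * C / 7)) (by linarith) (by linarith) ?_ ?_ ?_ ?_ ?_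
      · rw [b1f_av0, b1f_av1]
        ring
      · rw [b1f_mv0, b1f_mv1]
        ring
      · rw [b1f_rv0]
        norm_num
      · rw [b1f_rv1]
        norm_num
      · rw [b1f_rv0, b1f_rv1, b1f_av0, b1f_av1, b1f_mv0, b1f_mv1]
        norm_num
    rcases le_total (-13 / 4) C with h11 | h11
    · refine b1f_seg (C := C) (m := 1 / 2) hr h9 1 2 (t := -((C + 7 / 4) * 2 / 3)) (by linarith) (by linarith)
        ?_ ?_ ?_ ?_ ?_
      · rw [b1f_av1, b1f_av2]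
        ring
      · rw [b1f_mv1, b1f_mv2]
        ring
      · rw [b1f_rv1]
        norm_num
      · rw [b1f_rv2]
        norm_num
      · rw [b1f_rv1, b1f_rv2, b1f_av1, b1f_av2, b1f_mv1, b1f_mv2]
        norm_num
    · refine b1f_seg (C := C) (m := 1 / 2) hr h9 2 3 (t := -((C + 13 / 4) * 4 / 11)) (by linarith) (by linarith)
        ?_ ?_ ?_ ?_ ?_
      · rw [b1f_av2, b1f_av3]
        ring
      · rw [b1f_mv2, b1f_mv3]
        ring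
      · rw [b1f_rv2]
        norm_num
      · rw [b1f_rv3]
        norm_num
      · rw [b1f_rv2, b1f_rv3, b1f_av2, b1f_av3, b1f_mv2, b1f_mv3]
        norm_num

/-- CHUNK B1F. Take the minimiser `(C, m)` of `bangF`; after `refX` (if `C > 0`) and `refY` (if then
`m < 0`) we have `C ≤ 0`, `m ≥ 0`. Then `-6 ≤ C ≤ -6 + 10 ε` or `1 / 2 - 10 ε ≤ m ≤ 1 / 2`; replace `(C, m)` by
`(-6, m)` or `(C, 1 / 2)`; by `hF_lip` the value increases at most by `1000 ε (1 + len F)`. The point is on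
one of the segments `[av i, av (i + 1)] × {1 / 2}`, `i = 0, 1, 2`, or `{-6} × [0, 1 / 2]`; apply `hF_vstep`:
`(7 / 4)^2 ≤ (rv 0 + rv 1)^2`, `(3 / 2)^2 ≤ (rv 1 + rv 2)^2`, `(11 / 4)^2 ≤ (rv 2 + rv 3)^2`,
`40 / 4 = 10 ≤ (rv 3 + rv 4)^2`. -/
theorem alternatives {n : ℕ} {F : Fin n → Tb} {ε : ℝ} (hε : 0 < ε) (hε1 : ε ≤ 1 / 100) (hs : Sm F ε)
    (hc : COV F) : ∃ F' : Fin n → Tb, Sm F' ε ∧ COV F' ∧ len F' = len F ∧ ∃ i : Fin 5,
      ∀ C m : ℝ, |C| ≤ 6 → |m| ≤ 1 / 2 →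
        hF F' (av i) (mv i) ≤ hF F' C m + rv i ^ 2 + 1000 * ε * (1 + len F) := by
  obtain ⟨C, m, h⟩ := bangF hε hs hc
  obtain ⟨F1, hs1, hc1, hl1, C1, m1, h1, hC1⟩ := b1f_red1 hs hc h
  obtain ⟨F2, hs2, hc2, hl2, C2, m2, h2, hC2, hm2⟩ := b1f_red2 hs1 hc1 h1 hC1
  refine ⟨F2, hs2, hc2, hl2.trans hl1, ?_⟩
  have h3 := b1f_fin hε hε1 hs2 h2 hC2 hm2
  rw [hl2.trans hl1] at h3
  exact h3

end H58Q
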