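import Mathlib

/-! H58Q (MP_da76ea_co, opaque sets for the square): the arithmetic of the kernel checks.
Only raw operations on `Nat` are used, so that the kernel evaluates the checks with its built in
arithmetic. `frc x k = k x`, `frn x k = k x`, `cnd b x y = if b then x else y`,
`band b c = (b && c)`. A point `(X, Y)` of the box `|X|, |Y| <= 18` is represented by
`X' = (X + 18) D`, `Xb = 36 D - X'`, `Y' = (Y + 18) D`, `Yb = 36 D - Y'`. -/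

namespace H58Q

def frc (x : ℕ) (k : ℕ → Bool) : Bool := Nat.rec (k 0) (fun n _ => k (Nat.succ n)) x
def frn (x : ℕ) (k : ℕ → ℕ) : ℕ := Nat.rec (k 0) (fun n _ => k (Nat.succ n)) x
def cnd (b : Bool) (x y : ℕ) : ℕ := Bool.rec y x b
def band (b c : Bool) : Bool := Bool.rec false c b

/-- the field number `i` (24 bits) of the packed table `T` -/
def fld (T i : ℕ) : ℕ := Nat.land (Nat.shiftRight T (Nat.mul 24 i)) 16777215

/-- value on the `i`-th interval, at the fraction `r / den`: even nodes are the fields `2 i`,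
`2 i + 2`, the depth in the middle is the field `2 i + 1`. Rounded up. -/
def psiC (T i r den : ℕ) : ℕ :=
  Nat.succ (Nat.div (Nat.sub (Nat.add (Nat.mul (fld T (Nat.mul 2 i)) (Nat.sub den r))
    (Nat.mul (fld T (Nat.add (Nat.mul 2 i) 2)) r))
    (Nat.mul (fld T (Nat.add (Nat.mul 2 i) 1))
      (Nat.sub den (Nat.add (Nat.sub den (Nat.mul 2 r)) (Nat.sub (Nat.mul 2 r) den))))) den)

/-- `num = (P + 18 h) D`, `off = 12 h D`, `den = h D`: the value of the table at `P`, rounded up,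
and `0` outside of the strip `|P| <= 6 h` -/
def psi (T num off den : ℕ) : ℕ :=
  cnd (Nat.ble off num) (cnd (Nat.ble (Nat.sub num off) (Nat.mul 12 den))
    (frn (Nat.div (Nat.sub num off) den) fun i =>
      frn (Nat.mod (Nat.sub num off) den) fun r => psiC T i r den) 0) 0

/-- nodes of the weight `F`, spacing `1/3` and spacing `1` -/
def FN3 (i : ℕ) : ℕ := Nat.add (Nat.div 720000000 (Nat.add 360 (Nat.mul i i))) 1392
def FN1 (i : ℕ) : ℕ := Nat.add (Nat.div 80000000 (Nat.add 40 (Nat.mul i i))) 1392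

/-- `10 ^ 6 * D * F (y / D)` for `y <= 18 D` -/
def FNum (y D : ℕ) : ℕ :=
  cnd (Nat.ble y (Nat.mul 8 D))
    (frn (Nat.div (Nat.mul 3 y) D) fun i => frn (Nat.mod (Nat.mul 3 y) D) fun r =>
      Nat.add (Nat.mul (FN3 i) (Nat.sub D r)) (Nat.mul (FN3 (Nat.succ i)) r))
    (frn (Nat.div y D) fun i => frn (Nat.mod y D) fun r =>
      Nat.add (Nat.mul (FN1 i) (Nat.sub D r)) (Nat.mul (FN1 (Nat.succ i)) r))

/-- positive part of the kernel (times `192 * D * 10 ^ 7`) -/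
def ePos (LA al mu dl X Y Yb D : ℕ) : ℕ :=
  Nat.add (Nat.mul (Nat.mul 48 LA) (Nat.sub (Nat.add (Nat.mul (Nat.mul 2 mu) Y) (Nat.mul 72 D))
      (Nat.add (Nat.mul 4 X) (Nat.mul (Nat.add al (Nat.mul 36 mu)) D))))
  (Nat.add (Nat.mul (Nat.mul 2 dl) (Nat.sub (Nat.mul 24 D) X))
  (Nat.add (Nat.mul dl (Nat.sub (Nat.add (Nat.mul 24 D) Y) (Nat.mul 2 X)))
  (Nat.add (Nat.mul (Nat.add dl (Nat.mul 12 (Nat.mul mu LA)))
    (Nat.sub (Nat.add (Nat.mul 24 D) Yb) (Nat.mul 2 X)))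
  (Nat.add (Nat.mul (Nat.mul 12 (Nat.mul mu LA)) (Nat.sub (Nat.add (Nat.mul 12 D) Yb) (Nat.mul 2 X)))
    (Nat.mul (Nat.mul 24 (Nat.mul mu LA)) (Nat.sub (Nat.add (Nat.mul 18 D) Yb) (Nat.mul 2 X)))))))

/-- negative part of the kernel (times `192 * D * 10 ^ 7`) -/
def eNeg (LA l0 l1 l2 l3 l4 l5 l6 mu dl X Y Yb D : ℕ) : ℕ :=
  Nat.add (Nat.mul 192
    (Nat.add (Nat.mul l0 (Nat.sub (Nat.mul 15 D) X)) (Nat.add (Nat.mul l1 (Nat.sub (Nat.mul 16 D) X))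
    (Nat.add (Nat.mul l2 (Nat.sub (Nat.mul 17 D) X)) (Nat.add (Nat.mul l3 (Nat.sub (Nat.mul 18 D) X))
    (Nat.add (Nat.mul l4 (Nat.sub (Nat.mul 19 D) X)) (Nat.add (Nat.mul l5 (Nat.sub (Nat.mul 20 D) X))
      (Nat.mul l6 (Nat.sub (Nat.mul 21 D) X)))))))))
  (Nat.add (Nat.mul (Nat.mul 2 dl) (Nat.sub (Nat.mul 12 D) X))
  (Nat.add (Nat.mul (Nat.mul 12 (Nat.mul mu LA)) (Nat.sub (Nat.add (Nat.mul 24 D) Y) (Nat.mul 2 X)))
  (Nat.add (Nat.mul (Nat.add dl (Nat.mul 12 (Nat.mul mu LA)))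
    (Nat.sub (Nat.add (Nat.mul 12 D) Y) (Nat.mul 2 X)))
  (Nat.add (Nat.mul dl (Nat.sub (Nat.add (Nat.mul 12 D) Yb) (Nat.mul 2 X)))
    (Nat.mul (Nat.mul 24 (Nat.mul mu LA)) (Nat.sub (Nat.add (Nat.mul 18 D) Y) (Nat.mul 2 X)))))))

def sq (a b : ℕ) : ℕ := Nat.add (Nat.mul (Nat.sub a b) (Nat.sub a b)) (Nat.mul (Nat.sub b a) (Nat.sub b a))

/-- the zonotope with the generators `a_k n_k` lies in the disc of radius `10 ^ 6` -/
def zon (a0 a1 a2 a3 a4 a5 a6 a7 a8 a9 a10 a11 : ℕ) : Bool :=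
  frc (Nat.add (Nat.add (Nat.add (Nat.add a7 a8) a9) (Nat.mul 2 a10)) (Nat.mul 3 a11)) fun p0 =>
  frc (Nat.add (Nat.add (Nat.add (Nat.add (Nat.add a0 (Nat.mul 3 a1)) (Nat.mul 2 a2)) a3) a4) a5) fun m0 =>
  frc (Nat.add (Nat.add (Nat.add (Nat.add (Nat.add (Nat.add (Nat.add (Nat.add (Nat.add (Nat.add a1 a2) a3) (Nat.mul 2 a4)) (Nat.mul 3 a5)) a6) (Nat.mul 3 a7)) (Nat.mul 2 a8)) a9) a10) a11) fun ty =>
  band (Nat.ble (Nat.add (sq p0 m0) (Nat.mul ty ty)) 1000000000000) (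
  frc (Nat.add p0 (Nat.mul 2 a0)) fun p1 =>
  band (Nat.ble (Nat.add (sq p1 m0) (sq 0 ty)) 1000000000000) (
  frc (Nat.add p1 (Nat.mul 6 a1)) fun p2 =>
  frc (Nat.add 0 (Nat.mul 2 a1)) fun q2 =>
  band (Nat.ble (Nat.add (sq p2 m0) (sq q2 ty)) 1000000000000) (
  frc (Nat.add p2 (Nat.mul 4 a2)) fun p3 =>
  frc (Nat.add q2 (Nat.mul 2 a2)) fun q3 =>
  band (Nat.ble (Nat.add (sq p3 m0) (sq q3 ty)) 1000000000000) (
  frc (Nat.add p3 (Nat.mul 2 a3)) fun p4 =>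
  frc (Nat.add q3 (Nat.mul 2 a3)) fun q4 =>
  band (Nat.ble (Nat.add (sq p4 m0) (sq q4 ty)) 1000000000000) (
  frc (Nat.add p4 (Nat.mul 2 a4)) fun p5 =>
  frc (Nat.add q4 (Nat.mul 4 a4)) fun q5 =>
  band (Nat.ble (Nat.add (sq p5 m0) (sq q5 ty)) 1000000000000) (
  frc (Nat.add p5 (Nat.mul 2 a5)) fun p6 =>
  frc (Nat.add q5 (Nat.mul 6 a5)) fun q6 =>
  band (Nat.ble (Nat.add (sq p6 m0) (sq q6 ty)) 1000000000000) (
  frc (Nat.add q6 (Nat.mul 2 a6)) fun q7 =>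
  band (Nat.ble (Nat.add (sq p6 m0) (sq q7 ty)) 1000000000000) (
  frc (Nat.add m0 (Nat.mul 2 a7)) fun m8 =>
  frc (Nat.add q7 (Nat.mul 6 a7)) fun q8 =>
  band (Nat.ble (Nat.add (sq p6 m8) (sq q8 ty)) 1000000000000) (
  frc (Nat.add m8 (Nat.mul 2 a8)) fun m9 =>
  frc (Nat.add q8 (Nat.mul 4 a8)) fun q9 =>
  band (Nat.ble (Nat.add (sq p6 m9) (sq q9 ty)) 1000000000000) (
  frc (Nat.add m9 (Nat.mul 2 a9)) fun m10 =>
  frc (Nat.add q9 (Nat.mul 2 a9)) fun q10 =>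
  band (Nat.ble (Nat.add (sq p6 m10) (sq q10 ty)) 1000000000000) (
  frc (Nat.add m10 (Nat.mul 4 a10)) fun m11 =>
  frc (Nat.add q10 (Nat.mul 2 a10)) fun q11 =>
  band (Nat.ble (Nat.add (sq p6 m11) (sq q11 ty)) 1000000000000) (
  true))))))))))))

/-- the check at one point. The scale of the tables is `10 ^ 6`, of the weights `l_j` it is `10 ^ 7`. -/
def chk (T0 T1 T2 T3 T4 T5 T6 T7 T8 T9 T10 T11 LA l0 l1 l2 l3 l4 l5 l6 al mu dl eA eB eC : ℕ)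
    (X Y D : ℕ) : Bool :=
  frc (Nat.sub (Nat.mul 36 D) X) fun Xb =>
  frc (Nat.sub (Nat.mul 36 D) Y) fun Yb =>
  frc (psi T0 X (Nat.mul 12 D) (Nat.mul 1 D)) fun a0 =>
  frc (psi T1 (Nat.add (Nat.mul 3 X) Y) (Nat.mul 48 D) (Nat.mul 4 D)) fun a1 =>
  frc (psi T2 (Nat.add (Nat.mul 2 X) Y) (Nat.mul 36 D) (Nat.mul 3 D)) fun a2 =>
  frc (psi T3 (Nat.add X Y) (Nat.mul 24 D) (Nat.mul 2 D)) fun a3 =>
  frc (psi T4 (Nat.add X (Nat.mul 2 Y)) (Nat.mul 36 D) (Nat.mul 3 D)) fun a4 =>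
  frc (psi T5 (Nat.add X (Nat.mul 3 Y)) (Nat.mul 48 D) (Nat.mul 4 D)) fun a5 =>
  frc (psi T6 Y (Nat.mul 12 D) (Nat.mul 1 D)) fun a6 =>
  frc (psi T7 (Nat.add Xb (Nat.mul 3 Y)) (Nat.mul 48 D) (Nat.mul 4 D)) fun a7 =>
  frc (psi T8 (Nat.add Xb (Nat.mul 2 Y)) (Nat.mul 36 D) (Nat.mul 3 D)) fun a8 =>
  frc (psi T9 (Nat.add Xb Y) (Nat.mul 24 D) (Nat.mul 2 D)) fun a9 =>
  frc (psi T10 (Nat.add (Nat.mul 2 Xb) Y) (Nat.mul 36 D) (Nat.mul 3 D)) fun a10 =>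
  frc (psi T11 (Nat.add (Nat.mul 3 Xb) Y) (Nat.mul 48 D) (Nat.mul 4 D)) fun a11 =>
  frc (ePos LA al mu dl X Y Yb D) fun ep =>
  frc (eNeg LA l0 l1 l2 l3 l4 l5 l6 mu dl X Y Yb D) fun en =>
  frc (FNum (Nat.add (Nat.sub Y (Nat.mul 18 D)) (Nat.sub (Nat.mul 18 D) Y)) D) fun F =>
  frc (cnd (Nat.ble Y (Nat.mul 10 D)) eC (cnd (Nat.ble (Nat.mul 26 D) Y) eC
    (cnd (Nat.ble X (Nat.mul 12 D)) eB (cnd (Nat.ble (Nat.mul 24 D) X) eB eA)))) fun er =>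
  frc (Nat.sub (Nat.add (Nat.add a0 er) (Nat.succ (Nat.div (Nat.mul (Nat.sub ep en) F)
      (Nat.mul 1920000000 (Nat.mul D D)))))
    (Nat.div (Nat.mul (Nat.sub en ep) F) (Nat.mul 1920000000 (Nat.mul D D)))) fun b0 =>
  frc (Nat.sub (Nat.add (Nat.add a6 (Nat.succ (Nat.div er 2))) (Nat.succ (Nat.div (Nat.mul (Nat.sub ep en) F)
      (Nat.mul 3840000000 (Nat.mul D D)))))
    (Nat.div (Nat.mul (Nat.sub en ep) F) (Nat.mul 3840000000 (Nat.mul D D)))) fun b6 =>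
  zon b0 a1 a2 a3 a4 a5 b6 a7 a8 a9 a10 a11

def cndB (b : Bool) (x y : Bool) : Bool := Bool.rec y x b

def allB (n : ℕ) (g : ℕ → Bool) : Bool := Nat.rec true (fun k r => band (g k) r) n

/-- `f` at the point with shifted numerators `LX - RX`, `LY - RY` and denominator `D`, if the point
is in the box -/
def tst (f : ℕ → ℕ → ℕ → Bool) (LX RX LY RY D : ℕ) : Bool :=
  frc LX fun LX => frc RX fun RX => frc LY fun LY => frc RY fun RY =>
  cndB (Nat.ble RX LX) (cndB (Nat.ble LX (Nat.add RX (Nat.mul 36 D))) (cndB (Nat.ble RY LY)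
    (cndB (Nat.ble LY (Nat.add RY (Nat.mul 36 D)))
      (frc (Nat.sub LX RX) fun X => frc (Nat.sub LY RY) fun Y => f X Y D) true) true) true) true

/-- the point lies on one of the lines `Y = i / 3`, `|Y| <= 8` -/
def onY (Y D : ℕ) : Bool :=
  band (Nat.ble (Nat.mul 10 D) Y) (band (Nat.ble Y (Nat.mul 26 D))
    (Nat.beq (Nat.mod (Nat.mul 3 Y) D) 0))

/-- the point lies on one of the lines `X = i / 2`, `|X| <= 6` -/
def onX (X D : ℕ) : Bool :=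
  band (Nat.ble (Nat.mul 12 D) X) (band (Nat.ble X (Nat.mul 24 D))
    (Nat.beq (Nat.mod (Nat.mul 2 X) D) 0))

def skY (f : ℕ → ℕ → ℕ → Bool) (X Y D : ℕ) : Bool := cndB (onY Y D) true (f X Y D)
def skX (f : ℕ → ℕ → ℕ → Bool) (X Y D : ℕ) : Bool := cndB (onX X D) true (f X Y D)

/-- the point `X = x0 / 2 - 18`, `Y = y0 / 3 - 18` -/
def ptXY (f : ℕ → ℕ → ℕ → Bool) (x0 y0 : ℕ) : Bool :=
  frc (Nat.mul 3 x0) fun X => frc (Nat.mul 2 y0) fun Y => f X Y 6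

/-- the line `Y = y0 / 3 - 18` with the line `a X + c Y = h (i - 6)`, `h = a + c`, `a > 0` -/
def ptYp (f : ℕ → ℕ → ℕ → Bool) (a c y0 i : ℕ) : Bool :=
  tst f (Nat.mul (Nat.add a c) (Nat.add (Nat.mul 3 i) 36)) (Nat.mul c y0) (Nat.mul a y0) 0
    (Nat.mul 3 a)

/-- the line `Y = y0 / 3 - 18` with the line `- a X + c Y = h (i - 6)`, `h = a + c`, `a > 0` -/
def ptYm (f : ℕ → ℕ → ℕ → Bool) (a c y0 i : ℕ) : Bool :=
  tst f (Nat.add (Nat.mul c y0) (Nat.mul 72 a))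
    (Nat.add (Nat.mul 36 c) (Nat.mul (Nat.add a c) (Nat.mul 3 i))) (Nat.mul a y0) 0 (Nat.mul 3 a)

/-- the line `X = x0 / 2 - 18` with the line `a X + c Y = h (i - 6)`, `a = ap - am`, `c > 0` -/
def ptX (f : ℕ → ℕ → ℕ → Bool) (ap am c x0 i : ℕ) : Bool :=
  tst f (Nat.mul c x0) 0
    (Nat.add (Nat.mul (Nat.mul 2 (Nat.add (Nat.add ap am) c)) i)
      (Nat.add (Nat.mul am x0) (Nat.mul 36 (Nat.add ap c))))
    (Nat.add (Nat.mul 12 (Nat.add (Nat.add ap am) c)) (Nat.add (Nat.mul ap x0) (Nat.mul 36 am)))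
    (Nat.mul 2 c)

/-- the lines `a X + c Y = h (i - 6)` and `a' X + c' Y = h' (j - 6)`, `D = a c' - a' c > 0` -/
def ptO (f : ℕ → ℕ → ℕ → Bool) (ap am c ap' am' c' D i j : ℕ) : Bool :=
  tst f
    (Nat.add (Nat.mul (Nat.mul c' (Nat.add (Nat.add ap am) c)) i)
      (Nat.add (Nat.mul 6 (Nat.mul c (Nat.add (Nat.add ap' am') c'))) (Nat.mul 18 D)))
    (Nat.add (Nat.mul (Nat.mul c (Nat.add (Nat.add ap' am') c')) j)
      (Nat.mul 6 (Nat.mul c' (Nat.add (Nat.add ap am) c))))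
    (Nat.add (Nat.mul (Nat.mul ap (Nat.add (Nat.add ap' am') c')) j)
      (Nat.add (Nat.mul 6 (Nat.mul am (Nat.add (Nat.add ap' am') c')))
        (Nat.add (Nat.mul (Nat.mul am' (Nat.add (Nat.add ap am) c)) i)
          (Nat.add (Nat.mul 6 (Nat.mul ap' (Nat.add (Nat.add ap am) c))) (Nat.mul 18 D)))))
    (Nat.add (Nat.mul 6 (Nat.mul ap (Nat.add (Nat.add ap' am') c')))
      (Nat.add (Nat.mul (Nat.mul am (Nat.add (Nat.add ap' am') c')) j)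
        (Nat.add (Nat.mul (Nat.mul ap' (Nat.add (Nat.add ap am) c)) i)
          (Nat.mul 6 (Nat.mul am' (Nat.add (Nat.add ap am) c)))))) D

/-- the oblique families with `a > 0` -/
def forP (g : ℕ → ℕ → Bool) : Bool :=
  band (g 3 1) (band (g 2 1) (band (g 1 1) (band (g 1 2) (g 1 3))))

/-- all the oblique families `(ap, am, c)` -/
def forO (g : ℕ → ℕ → ℕ → Bool) : Bool :=
  band (forP fun a c => g a 0 c) (forP fun a c => g 0 a c)

/-- the horizontal lines `Y = y0 / 3 - 18` -/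
def forY (g : ℕ → Bool) : Bool :=
  band (allB 49 fun i => frc (Nat.add i 30) g)
    (band (allB 10 fun i => frc (Nat.mul 3 i) g) (allB 10 fun i => frc (Nat.add (Nat.mul 3 i) 81) g))

/-- the vertical lines `X = x0 / 2 - 18` -/
def forX (g : ℕ → Bool) : Bool :=
  band (allB 25 fun i => frc (Nat.add i 24) g)
    (band (allB 9 fun i => frc (Nat.add (Nat.mul 2 i) 6) g)
      (band (allB 9 fun i => frc (Nat.add (Nat.mul 2 i) 50) g) (band (g 0) (g 72))))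

def rowY (f : ℕ → ℕ → ℕ → Bool) (y0 : ℕ) : Bool :=
  band (forX fun x0 => ptXY f x0 y0)
    (band (forP fun a c => allB 13 fun i => ptYp f a c y0 i)
      (forP fun a c => allB 13 fun i => ptYm f a c y0 i))

def rowX (f : ℕ → ℕ → ℕ → Bool) (x0 : ℕ) : Bool :=
  forO fun ap am c => allB 13 fun i => ptX f ap am c x0 i

def rowO (f : ℕ → ℕ → ℕ → Bool) : Bool :=
  forO fun ap am c => forO fun ap' am' c' =>
    frc (Nat.sub (Nat.add (Nat.mul ap c') (Nat.mul am' c)) (Nat.add (Nat.mul am c') (Nat.mul ap' c)))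
      fun D => cndB (Nat.ble 1 D)
        (allB 13 fun i => allB 13 fun j => ptO f ap am c ap' am' c' D i j) true

/-- `f` at all the vertices of the arrangement -/
def allV (f : ℕ → ℕ → ℕ → Bool) : Bool :=
  band (forY (rowY f)) (band (forX (rowX (skY f))) (rowO (skX (skY f))))

/-- `f` at all the vertices on the sides of the box -/
def farV (f : ℕ → ℕ → ℕ → Bool) : Bool :=
  band (rowY f 0) (band (rowY f 108) (band (rowX f 0) (band (rowX f 72)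
    (band (forY fun y0 => ptXY f 0 y0) (forY fun y0 => ptXY f 72 y0)))))

end H58Q
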