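import Pool.Agent.Lib.H58Q.Defs

/-! H58Q K1A -/

namespace H58Q

open Set Finset MeasureTheory

/-- CHUNK K1A. The cell is an intersection of closed half planes; it is contained in the box because
the four sides of the box are lines of `A`, hence compact. -/
theorem cell_convex (A : Set (ℝ × ℝ × ℝ)) (X Y : ℝ) : Convex ℝ (cell A X Y) := by
  intro x hx y hy a b ha hb hab l hl
  have e1 : (a • x + b • y).1 = a * x.1 + b * y.1 := rfl
  have e2 : (a • x + b • y).2 = a * x.2 + b * y.2 := rfl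
  have e3 : l.1 * (a • x + b • y).1 + l.2.1 * (a • x + b • y).2 =
      a * (l.1 * x.1 + l.2.1 * x.2) + b * (l.1 * y.1 + l.2.1 * y.2) := by
    rw [e1, e2]
    ring
  have e4 : l.2.2 = a * l.2.2 + b * l.2.2 := by rw [← add_mul, hab, one_mul]
  rw [e3]
  constructor
  · intro hc
    have h1 := mul_le_mul_of_nonneg_left ((hx l hl).1 hc) ha
    have h2 := mul_le_mul_of_nonneg_left ((hy l hl).1 hc) hb
    linarith
  · intro hc
    have h1 := mul_le_mul_of_nonneg_left ((hx l hl).2 hc) ha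
    have h2 := mul_le_mul_of_nonneg_left ((hy l hl).2 hc) hb
    linarith

theorem k1a_closed (A : Set (ℝ × ℝ × ℝ)) (X Y : ℝ) : IsClosed (cell A X Y) := by
  have h : cell A X Y = ⋂ l ∈ A, {z : ℝ × ℝ | (l.1 * X + l.2.1 * Y ≤ l.2.2 → l.1 * z.1 + l.2.1 * z.2 ≤ l.2.2) ∧
      (l.2.2 ≤ l.1 * X + l.2.1 * Y → l.2.2 ≤ l.1 * z.1 + l.2.1 * z.2)} := by
    ext z
    simp only [mem_iInter]
    rfl
  rw [h]
  refine isClosed_biInter fun l _ => IsClosed.inter ?_ ?_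
  · by_cases h1 : l.1 * X + l.2.1 * Y ≤ l.2.2
    · have h2 : {z : ℝ × ℝ | l.1 * X + l.2.1 * Y ≤ l.2.2 → l.1 * z.1 + l.2.1 * z.2 ≤ l.2.2} =
          {z : ℝ × ℝ | l.1 * z.1 + l.2.1 * z.2 ≤ l.2.2} := by
        ext z
        exact ⟨fun h3 => h3 h1, fun h3 _ => h3⟩
      change IsClosed {z : ℝ × ℝ | l.1 * X + l.2.1 * Y ≤ l.2.2 → l.1 * z.1 + l.2.1 * z.2 ≤ l.2.2}
      rw [h2]
      exact isClosed_le (by fun_prop) continuous_const
    · have h2 : {z : ℝ × ℝ | l.1 * X + l.2.1 * Y ≤ l.2.2 → l.1 * z.1 + l.2.1 * z.2 ≤ l.2.2} = univ := by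
        ext z
        exact ⟨fun _ => mem_univ z, fun _ h3 => absurd h3 h1⟩
      change IsClosed {z : ℝ × ℝ | l.1 * X + l.2.1 * Y ≤ l.2.2 → l.1 * z.1 + l.2.1 * z.2 ≤ l.2.2}
      rw [h2]
      exact isClosed_univ
  · by_cases h1 : l.2.2 ≤ l.1 * X + l.2.1 * Y
    · have h2 : {z : ℝ × ℝ | l.2.2 ≤ l.1 * X + l.2.1 * Y → l.2.2 ≤ l.1 * z.1 + l.2.1 * z.2} =
          {z : ℝ × ℝ | l.2.2 ≤ l.1 * z.1 + l.2.1 * z.2} := by
        ext z
        exact ⟨fun h3 => h3 h1, fun h3 _ => h3⟩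
      change IsClosed {z : ℝ × ℝ | l.2.2 ≤ l.1 * X + l.2.1 * Y → l.2.2 ≤ l.1 * z.1 + l.2.1 * z.2}
      rw [h2]
      exact isClosed_le continuous_const (by fun_prop)
    · have h2 : {z : ℝ × ℝ | l.2.2 ≤ l.1 * X + l.2.1 * Y → l.2.2 ≤ l.1 * z.1 + l.2.1 * z.2} = univ := by
        ext z
        exact ⟨fun _ => mem_univ z, fun _ h3 => absurd h3 h1⟩
      change IsClosed {z : ℝ × ℝ | l.2.2 ≤ l.1 * X + l.2.1 * Y → l.2.2 ≤ l.1 * z.1 + l.2.1 * z.2}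
      rw [h2]
      exact isClosed_univ

theorem cell_compact (A : Set (ℝ × ℝ × ℝ)) (X Y : ℝ)
    (hb : ((1, 0, 18) : ℝ × ℝ × ℝ) ∈ A ∧ ((1, 0, -18) : ℝ × ℝ × ℝ) ∈ A ∧
      ((0, 1, 18) : ℝ × ℝ × ℝ) ∈ A ∧ ((0, 1, -18) : ℝ × ℝ × ℝ) ∈ A)
    (hX : |X| ≤ 18) (hY : |Y| ≤ 18) :
    IsCompact (cell A X Y) ∧ ∀ z ∈ cell A X Y, |z.1| ≤ 18 ∧ |z.2| ≤ 18 := by
  obtain ⟨h1, h2, h3, h4⟩ := hb
  rw [abs_le] at hX hY
  have hbd : ∀ z ∈ cell A X Y, |z.1| ≤ 18 ∧ |z.2| ≤ 18 := by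
    intro z hz
    have a1 := (hz _ h1).1 (by simp only; linarith)
    have a2 := (hz _ h2).2 (by simp only; linarith)
    have a3 := (hz _ h3).1 (by simp only; linarith)
    have a4 := (hz _ h4).2 (by simp only; linarith)
    simp only at a1 a2 a3 a4
    rw [abs_le, abs_le]
    constructor <;> constructor <;> linarith
  refine ⟨?_, hbd⟩
  have hK : IsCompact (Icc (-18 : ℝ) 18 ×ˢ Icc (-18 : ℝ) 18) := isCompact_Icc.prod isCompact_Icc
  refine hK.of_isClosed_subset (k1a_closed A X Y) fun z hz => ?_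
  exact ⟨abs_le.1 (hbd z hz).1, abs_le.1 (hbd z hz).2⟩

end H58Q
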