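import Pool.Agent.Lib.H58Q.K1A

/-! H58Q K1B -/

namespace H58Q

open Set Finset MeasureTheory

/-- CHUNK K1B. Let `z` be an extreme point of the cell. If the active lines (those of `A` through
`z`) were all parallel to one direction `d = (d1, d2) ≠ 0` (i.e. `l.1 * d1 + l.2.1 * d2 = 0` for
all active `l`), then `z + t d` and `z - t d` belong to the cell for small `t > 0`: for an active
line the value does not change, for an inactive one the inequality of the cell at `z` is strict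
(if both inequalities of the cell are required, i.e. `(X, Y)` is on the line, then `z` is on it:
active), `A` is finite. This contradicts extremality. If there is no active line at all take
`d = (1, 0)`; if there is an active line `l` take `d = (-l.2.1, l.1)`: then some active `l'` has
`l.1 * l'.2.1 - l'.1 * l.2.1 ≠ 0`. -/
theorem extreme_vtx (A : Set (ℝ × ℝ × ℝ)) (hfin : A.Finite) (hnd : ∀ l ∈ A, l.1 ≠ 0 ∨ l.2.1 ≠ 0)
    (X Y : ℝ) {z : ℝ × ℝ} (hz : z ∈ (cell A X Y).extremePoints ℝ) : Vtx A z.1 z.2 := by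
  by_contra hcon
  have hpar : ∀ l ∈ A, ∀ l' ∈ A, onL l z.1 z.2 → onL l' z.1 z.2 → l.1 * l'.2.1 - l'.1 * l.2.1 = 0 := by
    intro l hl l' hl' h1 h2
    by_contra h3
    exact hcon ⟨l, hl, l', hl', h3, h1, h2⟩
  obtain ⟨d1, d2, hd, hact⟩ : ∃ d1 d2 : ℝ, (d1 ≠ 0 ∨ d2 ≠ 0) ∧ ∀ l ∈ A, onL l z.1 z.2 → l.1 * d1 + l.2.1 * d2 = 0 := by
    by_cases h : ∃ l ∈ A, onL l z.1 z.2
    · obtain ⟨l0, hl0, h0⟩ := h
      refine ⟨-l0.2.1, l0.1, ?_, ?_⟩
      · rcases hnd l0 hl0 with h1 | h1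
        · exact Or.inr h1
        · exact Or.inl (neg_ne_zero.2 h1)
      · intro l hl h1
        have := hpar l0 hl0 l hl h0 h1
        linarith
    · exact ⟨1, 0, Or.inl one_ne_zero, fun l hl h1 => absurd ⟨l, hl, h1⟩ h⟩
  have hzc : z ∈ cell A X Y := hz.1
  have hev : ∀ᶠ t in nhds (0 : ℝ), ∀ l ∈ A,
      (l.1 * X + l.2.1 * Y ≤ l.2.2 → l.1 * (z.1 + t * d1) + l.2.1 * (z.2 + t * d2) ≤ l.2.2) ∧
      (l.2.2 ≤ l.1 * X + l.2.1 * Y → l.2.2 ≤ l.1 * (z.1 + t * d1) + l.2.1 * (z.2 + t * d2)) := by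
    rw [Filter.eventually_all_finite hfin]
    intro l hl
    have hcont : Continuous fun t : ℝ => l.1 * (z.1 + t * d1) + l.2.1 * (z.2 + t * d2) := by fun_prop
    have hv : l.1 * (z.1 + 0 * d1) + l.2.1 * (z.2 + 0 * d2) = l.1 * z.1 + l.2.1 * z.2 := by ring
    rcases lt_trichotomy (l.1 * z.1 + l.2.1 * z.2) l.2.2 with h1 | h1 | h1
    · have h2 : ∀ᶠ t in nhds (0 : ℝ), l.1 * (z.1 + t * d1) + l.2.1 * (z.2 + t * d2) < l.2.2 :=
        hcont.continuousAt.eventually_lt continuousAt_const (by rw [hv]; exact h1)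
      filter_upwards [h2] with t ht
      exact ⟨fun _ => ht.le, fun h3 => absurd ((hzc l hl).2 h3) (not_le.2 h1)⟩
    · refine Filter.Eventually.of_forall fun t => ?_
      have h2 := hact l hl h1
      have h3 : l.1 * (z.1 + t * d1) + l.2.1 * (z.2 + t * d2) = l.2.2 := by
        linear_combination h1 + t * h2
      rw [h3]
      exact ⟨fun _ => le_rfl, fun _ => le_rfl⟩
    · have h2 : ∀ᶠ t in nhds (0 : ℝ), l.2.2 < l.1 * (z.1 + t * d1) + l.2.1 * (z.2 + t * d2) :=
        continuousAt_const.eventually_lt hcont.continuousAt (by rw [hv]; exact h1)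
      filter_upwards [h2] with t ht
      exact ⟨fun h3 => absurd ((hzc l hl).1 h3) (not_le.2 h1), fun _ => ht.le⟩
  rw [Metric.eventually_nhds_iff] at hev
  obtain ⟨ε, hε, hev⟩ := hev
  have hp : (z.1 + ε / 2 * d1, z.2 + ε / 2 * d2) ∈ cell A X Y := by
    refine hev ?_
    rw [Real.dist_eq, sub_zero, abs_of_pos (by linarith)]
    linarith
  have hm : (z.1 + -(ε / 2) * d1, z.2 + -(ε / 2) * d2) ∈ cell A X Y := by
    refine hev ?_
    rw [Real.dist_eq, sub_zero, abs_neg, abs_of_pos (by linarith)]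
    linarith
  have hseg : z ∈ openSegment ℝ (z.1 + ε / 2 * d1, z.2 + ε / 2 * d2) (z.1 + -(ε / 2) * d1, z.2 + -(ε / 2) * d2) := by
    refine ⟨1 / 2, 1 / 2, by norm_num, by norm_num, by norm_num, ?_⟩
    refine Prod.ext ?_ ?_
    · change 1 / 2 * (z.1 + ε / 2 * d1) + 1 / 2 * (z.1 + -(ε / 2) * d1) = z.1
      ring
    · change 1 / 2 * (z.2 + ε / 2 * d2) + 1 / 2 * (z.2 + -(ε / 2) * d2) = z.2
      ring
  have heq := hz.2 hp hm hseg
  have h1 : z.1 + ε / 2 * d1 = z.1 := congrArg Prod.fst heq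
  have h2 : z.2 + ε / 2 * d2 = z.2 := congrArg Prod.snd heq
  rcases hd with h3 | h3
  · have : ε / 2 * d1 = 0 := by linarith
    rcases mul_eq_zero.1 this with h4 | h4
    · linarith
    · exact h3 h4
  · have : ε / 2 * d2 = 0 := by linarith
    rcases mul_eq_zero.1 this with h4 | h4
    · linarith
    · exact h3 h4

end H58Q
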