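import Pool.Agent.Lib.H58Q.K1A
import Pool.Agent.Lib.H58Q.K1B

/-! H58Q K1C -/

namespace H58Q

open Set Finset MeasureTheory

/-- CHUNK K1C. Krein-Milman (`closure_convexHull_extremePoints`) for the cell of `(X, Y)`, which
contains `(X, Y)`. The set of extreme points is finite, because by `extreme_vtx` each is the
intersection of two lines of the finite set `A` that are not parallel (at most one point for each
pair); so its convex hull is closed (`Set.Finite.isCompact_convexHull` or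
`Set.Finite.isClosed_convexHull`), and `(X, Y)` is a convex combination of extreme points
(`mem_convexHull_iff_exists_fintype` or `convexHull_eq`; transport the index type to `Fin m`). -/
theorem vertex_hull (A : Set (ℝ × ℝ × ℝ)) (hfin : A.Finite) (hnd : ∀ l ∈ A, l.1 ≠ 0 ∨ l.2.1 ≠ 0)
    (hb : ((1, 0, 18) : ℝ × ℝ × ℝ) ∈ A ∧ ((1, 0, -18) : ℝ × ℝ × ℝ) ∈ A ∧
      ((0, 1, 18) : ℝ × ℝ × ℝ) ∈ A ∧ ((0, 1, -18) : ℝ × ℝ × ℝ) ∈ A)
    {X Y : ℝ} (hX : |X| ≤ 18) (hY : |Y| ≤ 18) :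
    ∃ (m : ℕ) (θ x y : Fin m → ℝ), (∀ i, 0 ≤ θ i) ∧ ∑ i, θ i = 1 ∧ ∑ i, θ i * x i = X ∧
      ∑ i, θ i * y i = Y ∧ (∀ i, Vtx A (x i) (y i)) ∧ ∀ i, (x i, y i) ∈ cell A X Y := by
  obtain ⟨hcomp, -⟩ := cell_compact A X Y hb hX hY
  have hsub : (cell A X Y).extremePoints ℝ ⊆ {z | Vtx A z.1 z.2} := fun z hz => extreme_vtx A hfin hnd X Y hz
  have hfinV : {z : ℝ × ℝ | Vtx A z.1 z.2}.Finite := by
    have h1 : {z : ℝ × ℝ | Vtx A z.1 z.2} ⊆ ⋃ l ∈ A, ⋃ l' ∈ A,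
        {z : ℝ × ℝ | l.1 * l'.2.1 - l'.1 * l.2.1 ≠ 0 ∧ onL l z.1 z.2 ∧ onL l' z.1 z.2} := by
      rintro z ⟨l, hl, l', hl', h2⟩
      simp only [mem_iUnion]
      exact ⟨l, hl, l', hl', h2⟩
    refine (Set.Finite.biUnion hfin fun l _ => Set.Finite.biUnion hfin fun l' _ => ?_).subset h1
    refine Set.Subsingleton.finite ?_
    rintro z ⟨h2, h3, h4⟩ w ⟨_, h5, h6⟩
    have e1 : l.1 * z.1 + l.2.1 * z.2 = l.2.2 := h3
    have e2 : l'.1 * z.1 + l'.2.1 * z.2 = l'.2.2 := h4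
    have e3 : l.1 * w.1 + l.2.1 * w.2 = l.2.2 := h5
    have e4 : l'.1 * w.1 + l'.2.1 * w.2 = l'.2.2 := h6
    refine Prod.ext ?_ ?_
    · refine mul_left_cancel₀ h2 ?_
      linear_combination l'.2.1 * (e1 - e3) - l.2.1 * (e2 - e4)
    · refine mul_left_cancel₀ h2 ?_
      linear_combination l.1 * (e2 - e4) - l'.1 * (e1 - e3)
  have hfinE := hfinV.subset hsub
  have hmem : ((X, Y) : ℝ × ℝ) ∈ cell A X Y := fun l _ => ⟨fun h => h, fun h => h⟩
  rw [← closure_convexHull_extremePoints hcomp (cell_convex A X Y),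
    (hfinE.isClosed_convexHull ℝ).closure_eq, mem_convexHull_iff_exists_fintype] at hmem
  obtain ⟨ι, _, w, z, hw0, hw1, hz, hwz⟩ := hmem
  obtain ⟨φ⟩ : Nonempty (Fin (Fintype.card ι) ≃ ι) := ⟨(Fintype.equivFin ι).symm⟩
  refine ⟨Fintype.card ι, fun i => w (φ i), fun i => (z (φ i)).1, fun i => (z (φ i)).2, fun i => hw0 _, ?_, ?_, ?_,
    fun i => hsub (hz (φ i)), fun i => (hz (φ i)).1⟩
  · rw [← hw1]
    exact Equiv.sum_comp φ w
  · have h1 : ∑ i, w i * (z i).1 = X := by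
      have h2 := congrArg Prod.fst hwz
      rw [Prod.fst_sum] at h2
      exact h2
    rw [← h1]
    exact Equiv.sum_comp φ fun i => w i * (z i).1
  · have h1 : ∑ i, w i * (z i).2 = Y := by
      have h2 := congrArg Prod.snd hwz
      rw [Prod.snd_sum] at h2
      exact h2
    rw [← h1]
    exact Equiv.sum_comp φ fun i => w i * (z i).2

end H58Q
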