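import Pool.Agent.Lib.H58Q.Defs

/-! H58Q K2A -/

namespace H58Q

open Set Finset MeasureTheory

theorem k2a_hat_zero {x : ℝ} (h : 1 ≤ |x|) : hatf x = 0 := by
  unfold hatf
  rw [max_eq_left]
  linarith

theorem k2a_hat_in {x : ℝ} (h : |x| ≤ 1) : hatf x = 1 - |x| := by
  unfold hatf
  rw [max_eq_right]
  linarith

theorem k2a_hat_nonneg (x : ℝ) : 0 ≤ hatf x := le_max_left _ _

theorem k2a_hat_le (x : ℝ) : hatf x ≤ 1 := by
  unfold hatf
  apply max_le zero_le_one
  have := abs_nonneg x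
  linarith

theorem k2a_hat_lip (x y : ℝ) : |hatf x - hatf y| ≤ |x - y| := by
  unfold hatf
  have h1 := abs_max_sub_max_le_abs (1 - |x|) (1 - |y|) 0
  rw [max_comm 0, max_comm 0]
  refine h1.trans ?_
  have h2 : 1 - |x| - (1 - |y|) = |y| - |x| := by ring
  rw [h2, abs_sub_comm x y]
  exact abs_abs_sub_abs_le_abs_sub y x

/-- CHUNK K2A. On `[i, i + 1]` only the hats number `i`, `i + 1` and the tent number `i` are not
zero. (`hatf x = 0` for `|x| >= 1`.) -/
theorem plf_eq (T : ℕ) {i : ℕ} (hi : i < 12) {s : ℝ} (h1 : (i : ℝ) ≤ s) (h2 : s ≤ i + 1) :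
    plf T s = (fld T (2 * i) : ℝ) / 10 ^ 6 * (i + 1 - s) + (fld T (2 * i + 2) : ℝ) / 10 ^ 6 * (s - i)
      - (fld T (2 * i + 1) : ℝ) / 10 ^ 6 * (1 - |2 * (s - i) - 1|) := by
  have e1 : ∑ j ∈ range 13, (fld T (2 * j) : ℝ) / 10 ^ 6 * hatf (s - j) =
      (fld T (2 * i) : ℝ) / 10 ^ 6 * (i + 1 - s) + (fld T (2 * i + 2) : ℝ) / 10 ^ 6 * (s - i) := by
    have hsub : ({i, i + 1} : Finset ℕ) ⊆ range 13 := by
      intro j hj
      rw [Finset.mem_insert, Finset.mem_singleton] at hj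
      rw [Finset.mem_range]
      omega
    rw [← Finset.sum_subset hsub, Finset.sum_pair (by omega)]
    · have e2 : hatf (s - i) = i + 1 - s := by
        rw [k2a_hat_in, abs_of_nonneg (by linarith)]
        · ring
        · rw [abs_of_nonneg (by linarith)]
          linarith
      have e3 : hatf (s - ((i + 1 : ℕ) : ℝ)) = s - i := by
        push_cast
        rw [k2a_hat_in, abs_of_nonpos (by linarith)]
        · ring
        · rw [abs_of_nonpos (by linarith)]
          linarith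
      rw [e2, e3]
      rfl
    · intro j _ hj
      rw [Finset.mem_insert, Finset.mem_singleton, not_or] at hj
      rw [k2a_hat_zero, mul_zero]
      rcases Nat.lt_or_gt_of_ne hj.1 with hji | hji
      · have h3 : (j : ℝ) + 1 ≤ i := by exact_mod_cast hji
        rw [abs_of_nonneg (by linarith)]
        linarith
      · have h3 : (i : ℝ) + 2 ≤ j := by
          have : i + 2 ≤ j := by omega
          exact_mod_cast this
        rw [abs_of_nonpos (by linarith)]
        linarith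
  have e2 : ∑ j ∈ range 12, (fld T (2 * j + 1) : ℝ) / 10 ^ 6 * hatf (2 * (s - j) - 1) =
      (fld T (2 * i + 1) : ℝ) / 10 ^ 6 * (1 - |2 * (s - i) - 1|) := by
    rw [Finset.sum_eq_single i]
    · rw [k2a_hat_in]
      rw [abs_le]
      constructor <;> linarith
    · intro j _ hj
      rw [k2a_hat_zero, mul_zero]
      rcases Nat.lt_or_gt_of_ne hj with hji | hji
      · have h3 : (j : ℝ) + 1 ≤ i := by exact_mod_cast hji
        rw [abs_of_nonneg (by linarith)]
        linarith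
      · have h3 : (i : ℝ) + 1 ≤ j := by exact_mod_cast hji
        rw [abs_of_nonpos (by linarith)]
        linarith
    · intro hj
      exact absurd (Finset.mem_range.2 hi) hj
  unfold plf
  rw [e1, e2]

/-- outside of `[0, 12]` the tents vanish: `plf T s ≥ 0`; inside use `plf_eq`, `okT` and
`1 - |2 x - 1| ≤ 2 min (x, 1 - x)` -/
theorem plf_nonneg {T : ℕ} (hT : okT T) (s : ℝ) : 0 ≤ plf T s := by
  have hout : (∀ j ∈ range 12, hatf (2 * (s - (j : ℝ)) - 1) = 0) → 0 ≤ plf T s := by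
    intro hj
    unfold plf
    have e1 : ∑ i ∈ range 12, (fld T (2 * i + 1) : ℝ) / 10 ^ 6 * hatf (2 * (s - i) - 1) = 0 :=
      Finset.sum_eq_zero fun j hj' => by rw [hj j hj', mul_zero]
    rw [e1, sub_zero]
    exact Finset.sum_nonneg fun j _ => mul_nonneg (by positivity) (k2a_hat_nonneg _)
  rcases lt_or_ge s 0 with hs | hs
  · refine hout fun j _ => k2a_hat_zero ?_
    have : (0 : ℝ) ≤ j := Nat.cast_nonneg j
    rw [abs_of_nonpos (by linarith)]
    linarith
  rcases lt_or_ge 12 s with hs' | hs'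
  · refine hout fun j hj => k2a_hat_zero ?_
    have h1 : (j : ℝ) + 1 ≤ 12 := by
      have := Finset.mem_range.1 hj
      exact_mod_cast this
    rw [abs_of_nonneg (by linarith)]
    linarith
  obtain ⟨i, hi, h1, h2⟩ : ∃ i : ℕ, i < 12 ∧ (i : ℝ) ≤ s ∧ s ≤ i + 1 := by
    rcases eq_or_lt_of_le hs' with h12 | h12
    · exact ⟨11, by norm_num, by rw [h12]; norm_num, by rw [h12]; norm_num⟩
    · refine ⟨⌊s⌋₊, ?_, Nat.floor_le hs, (Nat.lt_floor_add_one s).le⟩
      rw [Nat.floor_lt hs]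
      exact_mod_cast h12
  rw [plf_eq T hi h1 h2]
  have hb : (2 : ℝ) * fld T (2 * i + 1) ≤ fld T (2 * i) + fld T (2 * i + 2) := by
    exact_mod_cast hT i hi
  have ha0 : (0 : ℝ) ≤ fld T (2 * i) := Nat.cast_nonneg _
  have hb0 : (0 : ℝ) ≤ fld T (2 * i + 1) := Nat.cast_nonneg _
  have hc0 : (0 : ℝ) ≤ fld T (2 * i + 2) := Nat.cast_nonneg _
  generalize hu : s - (i : ℝ) = u at *
  have hu0 : 0 ≤ u := by linarith
  have hu1 : u ≤ 1 := by linarith
  have h3 : (i : ℝ) + 1 - s = 1 - u := by linarith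
  rw [h3]
  generalize (fld T (2 * i) : ℝ) = a at *
  generalize (fld T (2 * i + 1) : ℝ) = b at *
  generalize (fld T (2 * i + 2) : ℝ) = c at *
  rcases le_total u (1 / 2) with h4 | h4
  · rw [abs_of_nonpos (by linarith)]
    have h5 : b * (2 * u) ≤ (a + c) * u := by nlinarith
    have h6 : a * u ≤ a * (1 - u) := by nlinarith
    have h7 : a / 10 ^ 6 * (1 - u) + c / 10 ^ 6 * u - b / 10 ^ 6 * (1 - -(2 * u - 1)) =
      (a * (1 - u) + c * u - b * (2 * u)) / 10 ^ 6 := by ring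
    rw [h7]
    apply div_nonneg _ (by norm_num)
    linarith
  · rw [abs_of_nonneg (by linarith)]
    have h5 : b * (2 * (1 - u)) ≤ (a + c) * (1 - u) := by nlinarith
    have h6 : c * (1 - u) ≤ c * u := by nlinarith
    have h7 : a / 10 ^ 6 * (1 - u) + c / 10 ^ 6 * u - b / 10 ^ 6 * (1 - (2 * u - 1)) =
      (a * (1 - u) + c * u - b * (2 * (1 - u))) / 10 ^ 6 := by ring
    rw [h7]
    apply div_nonneg _ (by norm_num)
    linarith

theorem k2a_fld (T i : ℕ) : (fld T i : ℝ) / 10 ^ 6 ≤ 16.777215 := by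
  have h : (fld T i : ℝ) ≤ 16777215 := by exact_mod_cast fld_le T i
  rw [div_le_iff₀ (by norm_num)]
  linarith

/-- `hatf ≤ 1`, the tents are subtracted, 13 fields -/
theorem plf_le (T : ℕ) (s : ℝ) : plf T s ≤ 300 := by
  unfold plf
  have h1 : ∑ i ∈ range 13, (fld T (2 * i) : ℝ) / 10 ^ 6 * hatf (s - i) ≤ ∑ _i ∈ range 13, (16.777215 : ℝ) := by
    refine Finset.sum_le_sum fun i _ => ?_
    have h2 := k2a_fld T (2 * i)
    have h3 := k2a_hat_le (s - i)
    have h4 := k2a_hat_nonneg (s - i)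
    have h5 : (0 : ℝ) ≤ (fld T (2 * i) : ℝ) / 10 ^ 6 := by positivity
    nlinarith
  have h2 : 0 ≤ ∑ i ∈ range 12, (fld T (2 * i + 1) : ℝ) / 10 ^ 6 * hatf (2 * (s - i) - 1) :=
    Finset.sum_nonneg fun j _ => mul_nonneg (by positivity) (k2a_hat_nonneg _)
  rw [Finset.sum_const, Finset.card_range, nsmul_eq_mul] at h1
  norm_num at h1 ⊢
  linarith

/-- `hatf` is 1-Lipschitz -/
theorem plf_lip (T : ℕ) (s s' : ℝ) : |plf T s - plf T s'| ≤ 700 * |s - s'| := by
  unfold plf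
  have e : (∑ i ∈ range 13, (fld T (2 * i) : ℝ) / 10 ^ 6 * hatf (s - i)
    - ∑ i ∈ range 12, (fld T (2 * i + 1) : ℝ) / 10 ^ 6 * hatf (2 * (s - i) - 1)) -
    (∑ i ∈ range 13, (fld T (2 * i) : ℝ) / 10 ^ 6 * hatf (s' - i)
    - ∑ i ∈ range 12, (fld T (2 * i + 1) : ℝ) / 10 ^ 6 * hatf (2 * (s' - i) - 1)) =
    ∑ i ∈ range 13, (fld T (2 * i) : ℝ) / 10 ^ 6 * (hatf (s - i) - hatf (s' - i)) -
    ∑ i ∈ range 12, (fld T (2 * i + 1) : ℝ) / 10 ^ 6 * (hatf (2 * (s - i) - 1) - hatf (2 * (s' - i) - 1)) := by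
    simp only [mul_sub, Finset.sum_sub_distrib]
    ring
  rw [e]
  have h0 : 0 ≤ |s - s'| := abs_nonneg _
  have h1 : |∑ i ∈ range 13, (fld T (2 * i) : ℝ) / 10 ^ 6 * (hatf (s - i) - hatf (s' - i))| ≤
      ∑ _i ∈ range 13, (16.777215 : ℝ) * |s - s'| := by
    refine (Finset.abs_sum_le_sum_abs _ _).trans (Finset.sum_le_sum fun i _ => ?_)
    rw [abs_mul, abs_of_nonneg (by positivity : (0 : ℝ) ≤ (fld T (2 * i) : ℝ) / 10 ^ 6)]
    have h2 := k2a_fld T (2 * i)
    have h3 := k2a_hat_lip (s - i) (s' - i)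
    rw [show s - (i : ℝ) - (s' - i) = s - s' by ring] at h3
    exact mul_le_mul h2 h3 (abs_nonneg _) (by norm_num)
  have h2 : |∑ i ∈ range 12, (fld T (2 * i + 1) : ℝ) / 10 ^ 6 * (hatf (2 * (s - i) - 1) - hatf (2 * (s' - i) - 1))| ≤
      ∑ _i ∈ range 12, (16.777215 : ℝ) * (2 * |s - s'|) := by
    refine (Finset.abs_sum_le_sum_abs _ _).trans (Finset.sum_le_sum fun i _ => ?_)
    rw [abs_mul, abs_of_nonneg (by positivity : (0 : ℝ) ≤ (fld T (2 * i + 1) : ℝ) / 10 ^ 6)]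
    have h2 := k2a_fld T (2 * i + 1)
    have h3 := k2a_hat_lip (2 * (s - i) - 1) (2 * (s' - i) - 1)
    rw [show 2 * (s - (i : ℝ)) - 1 - (2 * (s' - i) - 1) = 2 * (s - s') by ring, abs_mul, abs_two] at h3
    exact mul_le_mul h2 h3 (abs_nonneg _) (by norm_num)
  rw [Finset.sum_const, Finset.card_range, nsmul_eq_mul] at h1 h2
  refine (abs_sub _ _).trans ?_
  norm_num at h1 h2 ⊢
  linarith

end H58Q
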