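import Pool.Agent.Lib.H58Q.K2A

/-! H58Q K2B -/

namespace H58Q

open Set Finset MeasureTheory

theorem k2b_cont (T : ℕ) : Continuous (plf T) := by
  have h : LipschitzWith 700 (plf T) := by
    refine LipschitzWith.of_dist_le_mul fun x y => ?_
    rw [Real.dist_eq, Real.dist_eq]
    exact plf_lip T x y
  exact h.continuous

theorem k2b_abs : ∫ u in (0 : ℝ)..1, |2 * u - 1| = 1 / 2 := by
  have hc : Continuous fun u : ℝ => |2 * u - 1| := by fun_prop
  rw [← intervalIntegral.integral_add_adjacent_intervals (b := 1 / 2)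
    (hc.intervalIntegrable _ _) (hc.intervalIntegrable _ _)]
  have e1 : ∫ u in (0 : ℝ)..(1 / 2), |2 * u - 1| = ∫ u in (0 : ℝ)..(1 / 2), (1 - 2 * u) := by
    refine intervalIntegral.integral_congr fun u hu => ?_
    rw [Set.uIcc_of_le (by norm_num)] at hu
    show |2 * u - 1| = 1 - 2 * u
    rw [abs_of_nonpos (by linarith [hu.2])]
    ring
  have e2 : ∫ u in (1 / 2 : ℝ)..1, |2 * u - 1| = ∫ u in (1 / 2 : ℝ)..1, (2 * u - 1) := by
    refine intervalIntegral.integral_congr fun u hu => ?_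
    rw [Set.uIcc_of_le (by norm_num)] at hu
    show |2 * u - 1| = 2 * u - 1
    rw [abs_of_nonneg (by linarith [hu.1])]
  rw [e1, e2, intervalIntegral.integral_sub (Continuous.intervalIntegrable (by fun_prop) _ _)
      (Continuous.intervalIntegrable (by fun_prop) _ _),
    intervalIntegral.integral_sub (Continuous.intervalIntegrable (by fun_prop) _ _)
      (Continuous.intervalIntegrable (by fun_prop) _ _),
    intervalIntegral.integral_const_mul, intervalIntegral.integral_const_mul]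
  simp only [integral_id, intervalIntegral.integral_const]
  norm_num

theorem k2b_piece (T : ℕ) {i : ℕ} (hi : i < 12) : ∫ s in (i : ℝ)..((i + 1 : ℕ) : ℝ), plf T s =
    ((fld T (2 * i) : ℝ) / 10 ^ 6 + (fld T (2 * i + 2) : ℝ) / 10 ^ 6) / 2
      - (fld T (2 * i + 1) : ℝ) / 10 ^ 6 / 2 := by
  obtain ⟨A, hA⟩ : ∃ A, A = (fld T (2 * i) : ℝ) / 10 ^ 6 := ⟨_, rfl⟩
  obtain ⟨B, hB⟩ : ∃ B, B = (fld T (2 * i + 2) : ℝ) / 10 ^ 6 := ⟨_, rfl⟩
  obtain ⟨C, hC⟩ : ∃ C, C = (fld T (2 * i + 1) : ℝ) / 10 ^ 6 := ⟨_, rfl⟩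
  have e1 : ∫ s in (i : ℝ)..((i + 1 : ℕ) : ℝ), plf T s =
      ∫ s in (i : ℝ)..((i + 1 : ℕ) : ℝ),
        (fun u => A * (1 - u) + B * u - C * (1 - |2 * u - 1|)) (s - i) := by
    refine intervalIntegral.integral_congr fun s hs => ?_
    rw [Set.uIcc_of_le (by push_cast; linarith)] at hs
    have h2 := hs.2
    push_cast at h2
    show plf T s = A * (1 - (s - i)) + B * (s - i) - C * (1 - |2 * (s - i) - 1|)
    rw [plf_eq T hi hs.1 h2, hA, hB, hC]
    ring
  rw [e1, intervalIntegral.integral_comp_sub_right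
    (fun u => A * (1 - u) + B * u - C * (1 - |2 * u - 1|)) (i : ℝ), ← hA, ← hB, ← hC]
  have e2 : (i : ℝ) - i = 0 := sub_self _
  have e3 : ((i + 1 : ℕ) : ℝ) - i = 1 := by push_cast; ring
  rw [e2, e3]
  have e4 : ∀ u : ℝ, A * (1 - u) + B * u - C * (1 - |2 * u - 1|) =
      (A - C) + (B - A) * u + C * |2 * u - 1| := fun u => by ring
  simp only [e4]
  have c1 : Continuous fun u : ℝ => |2 * u - 1| := by fun_prop
  rw [intervalIntegral.integral_add (Continuous.intervalIntegrable (by fun_prop) _ _)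
      (Continuous.intervalIntegrable (by fun_prop) _ _),
    intervalIntegral.integral_add (Continuous.intervalIntegrable (by fun_prop) _ _)
      (Continuous.intervalIntegrable (by fun_prop) _ _),
    intervalIntegral.integral_const_mul, intervalIntegral.integral_const_mul, k2b_abs]
  simp only [integral_id, intervalIntegral.integral_const]
  norm_num
  ring

/-- CHUNK K2B. The integral of `hatf (s - i)` over `[0, 12]` is `1` for `0 < i < 12` and `1 / 2` for
`i = 0, 12`; that of `hatf (2 (s - i) - 1)` is `1 / 2`. Alternatively split `[0, 12]` into the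
intervals `[i, i + 1]` (`intervalIntegral.sum_integral_adjacent_intervals`) and use `plf_eq`. -/
theorem plf_int (T : ℕ) : ∫ s in (0 : ℝ)..12, plf T s =
    ∑ i ∈ range 13, (fld T (2 * i) : ℝ) / 10 ^ 6
      - ((fld T 0 : ℝ) / 10 ^ 6 + (fld T 24 : ℝ) / 10 ^ 6) / 2
      - (∑ i ∈ range 12, (fld T (2 * i + 1) : ℝ) / 10 ^ 6) / 2 := by
  have h1 := intervalIntegral.sum_integral_adjacent_intervals (f := plf T) (μ := volume)
    (a := fun i : ℕ => (i : ℝ)) (n := 12) fun k _ => (k2b_cont T).intervalIntegrable _ _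
  have h2 : ((12 : ℕ) : ℝ) = 12 := by norm_num
  rw [Nat.cast_zero, h2] at h1
  rw [← h1, Finset.sum_congr rfl fun i hi => k2b_piece T (Finset.mem_range.1 hi)]
  simp only [Finset.sum_range_succ, Finset.sum_range_zero]
  norm_num
  ring

/-- substitution `s = (x + 6 h) / h` in `plf_int` -/
theorem psiR_int (T : Fin 12 → ℕ) (k : Fin 12) :
    ∫ x in (-6 * (nh k : ℝ))..(6 * (nh k : ℝ)), psiR T k x = (nh k : ℝ) *
    (∑ i ∈ range 13, (fld (T k) (2 * i) : ℝ) / 10 ^ 6
      - ((fld (T k) 0 : ℝ) / 10 ^ 6 + (fld (T k) 24 : ℝ) / 10 ^ 6) / 2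
      - (∑ i ∈ range 12, (fld (T k) (2 * i + 1) : ℝ) / 10 ^ 6) / 2) := by
  have hn : ∀ k : Fin 12, 0 < nh k := by decide
  have hh : (0 : ℝ) < nh k := by exact_mod_cast hn k
  rw [← plf_int]
  have e1 : ∀ x : ℝ, psiR T k x = plf (T k) (x / (nh k : ℝ) + 6) := by
    intro x
    unfold psiR
    congr 1
    field_simp
  simp only [e1]
  rw [intervalIntegral.integral_comp_div_add (fun s => plf (T k) s) hh.ne' 6, smul_eq_mul]
  congr 2
  · field_simp
    ring
  · field_simp
    ring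

theorem psiR_nonneg {T : Fin 12 → ℕ} (hT : ∀ k, okT (T k)) (k : Fin 12) (P : ℝ) :
    0 ≤ psiR T k P := plf_nonneg (hT k) _

theorem psiR_le (T : Fin 12 → ℕ) (k : Fin 12) (P : ℝ) : psiR T k P ≤ 300 := plf_le _ _

/-- `nh k ≥ 1` -/
theorem psiR_lip (T : Fin 12 → ℕ) (k : Fin 12) (P P' : ℝ) :
    |psiR T k P - psiR T k P'| ≤ 700 * |P - P'| := by
  have hn : ∀ k : Fin 12, 1 ≤ nh k := by decide
  have hh : (1 : ℝ) ≤ nh k := by exact_mod_cast hn k
  unfold psiR
  refine (plf_lip _ _ _).trans ?_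
  have e1 : (P + 6 * (nh k : ℝ)) / nh k - (P' + 6 * (nh k : ℝ)) / nh k = (P - P') / nh k := by ring
  rw [e1, abs_div, abs_of_pos (show (0 : ℝ) < nh k by linarith)]
  have h2 : |P - P'| / (nh k : ℝ) ≤ |P - P'| := div_le_self (abs_nonneg _) hh
  linarith

end H58Q
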