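import Pool.Agent.Lib.H58Q.K2A

/-! H58Q K2C -/

namespace H58Q

open Set Finset MeasureTheory

theorem k2c_idx {s : ℝ} (hs : 0 ≤ s) (hs' : s ≤ 12) : ∃ i : ℕ, i < 12 ∧ (i : ℝ) ≤ s ∧ s ≤ (i : ℝ) + 1 := by
  by_cases h : s < 12
  · refine ⟨⌊s⌋₊, ?_, Nat.floor_le hs, (Nat.lt_floor_add_one s).le⟩
    exact (Nat.floor_lt hs).2 (by exact_mod_cast h)
  · refine ⟨11, by norm_num, ?_, ?_⟩
    · push Not at h
      push_cast
      linarith
    · push_cast
      linarith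

/-- CHUNK K2C. Jensen on the cell. Let `P = sum θ_i Q_i` and let every node `nh k * (j - 6)`, `j ≤ 12`,
separate weakly `P` and all the `Q_i` on the same side. Cases: `P` strictly outside of the strip:
the left side is `0`, the right side is nonnegative. `|P| ≤ 6 h`: there is `j < 12` with
`h (j - 6) ≤ P ≤ h (j - 5)`; then all `Q_i` are in the same interval (so `|Q_i| ≤ 6 h`), and there by
`plf_eq` the function is `affine - d (1 - |2 (s - j) - 1|)` with `d ≥ 0`, which is convex: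
`|2 (s - j) - 1|` at `s = sum θ_i s_i` is at most `sum θ_i |2 (s_i - j) - 1|`. -/
theorem plf_cell {T : ℕ} (hT : okT T) (h : ℕ) (hh : 0 < h) {m : ℕ} (θ : Fin m → ℝ)
    (hθ : ∀ i, 0 ≤ θ i) (hs : ∑ i, θ i = 1) (P : ℝ) (Q : Fin m → ℝ) (hP : ∑ i, θ i * Q i = P)
    (hcell : ∀ j : ℕ, j < 13 → ((h : ℝ) * (j - 6) ≤ P → ∀ i, (h : ℝ) * (j - 6) ≤ Q i) ∧
      (P ≤ (h : ℝ) * (j - 6) → ∀ i, Q i ≤ (h : ℝ) * (j - 6))) :
    (if |P| ≤ 6 * h then plf T ((P + 6 * h) / h) else 0) ≤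
      ∑ i, θ i * (if |Q i| ≤ 6 * h then plf T ((Q i + 6 * h) / h) else 0) := by
  have hh' : (0 : ℝ) < h := by exact_mod_cast hh
  by_cases hPa : |P| ≤ 6 * h
  · rw [if_pos hPa]
    obtain ⟨hp1, hp2⟩ := abs_le.1 hPa
    obtain ⟨j, hj, h1, h2⟩ := k2c_idx (s := (P + 6 * h) / h)
      (div_nonneg (by linarith) hh'.le) (by rw [div_le_iff₀ hh']; linarith)
    have h1' : (h : ℝ) * (j - 6) ≤ P := by
      rw [le_div_iff₀ hh'] at h1
      linarith
    have h2' : P ≤ (h : ℝ) * (((j + 1 : ℕ) : ℝ) - 6) := by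
      rw [div_le_iff₀ hh'] at h2
      push_cast
      linarith
    have hq1 := (hcell j (by omega)).1 h1'
    have hq2 := (hcell (j + 1) (by omega)).2 h2'
    have hq3 : ∀ i, (j : ℝ) ≤ (Q i + 6 * h) / h := fun i => by
      rw [le_div_iff₀ hh']
      linarith [hq1 i]
    have hq4 : ∀ i, (Q i + 6 * h) / h ≤ (j : ℝ) + 1 := fun i => by
      rw [div_le_iff₀ hh']
      have := hq2 i
      push_cast at this
      linarith
    have hj1 : (j : ℝ) + 1 ≤ 12 := by exact_mod_cast hj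
    have hj0 : (0 : ℝ) ≤ j := Nat.cast_nonneg _
    have hqa : ∀ i, |Q i| ≤ 6 * h := fun i => by
      have h3 := hq3 i
      have h4 := hq4 i
      rw [le_div_iff₀ hh'] at h3
      rw [div_le_iff₀ hh'] at h4
      rw [abs_le]
      constructor <;> nlinarith
    obtain ⟨A, hA⟩ : ∃ A, A = (fld T (2 * j) : ℝ) / 10 ^ 6 := ⟨_, rfl⟩
    obtain ⟨B, hB⟩ : ∃ B, B = (fld T (2 * j + 2) : ℝ) / 10 ^ 6 := ⟨_, rfl⟩
    obtain ⟨C, hC⟩ : ∃ C, C = (fld T (2 * j + 1) : ℝ) / 10 ^ 6 := ⟨_, rfl⟩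
    have hC0 : 0 ≤ C := by rw [hC]; positivity
    have e1 := plf_eq T hj h1 h2
    rw [← hA, ← hB, ← hC] at e1
    have e2 : ∀ i, θ i * (if |Q i| ≤ 6 * h then plf T ((Q i + 6 * h) / h) else 0) =
        θ i * (A * (j + 1) - B * j - C) + (B - A) * (θ i * ((Q i + 6 * h) / h)) +
          C * (θ i * |2 * ((Q i + 6 * h) / h - j) - 1|) := by
      intro i
      rw [if_pos (hqa i), plf_eq T hj (hq3 i) (hq4 i), ← hA, ← hB, ← hC]
      ring
    have e3 : ∑ i, θ i * ((Q i + 6 * h) / h) = (P + 6 * h) / h := by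
      have : ∀ i, θ i * ((Q i + 6 * h) / h) = (θ i * Q i + θ i * (6 * h)) / h := fun i => by ring
      simp only [this]
      rw [← Finset.sum_div, Finset.sum_add_distrib, hP, ← Finset.sum_mul, hs, one_mul]
    have e4 : |2 * ((P + 6 * h) / h - j) - 1| ≤ ∑ i, θ i * |2 * ((Q i + 6 * h) / h - j) - 1| := by
      have e5 : 2 * ((P + 6 * h) / h - j) - 1 = ∑ i, θ i * (2 * ((Q i + 6 * h) / h - j) - 1) := by
        have : ∀ i, θ i * (2 * ((Q i + 6 * h) / h - j) - 1) =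
            2 * (θ i * ((Q i + 6 * h) / h)) - θ i * (2 * j + 1) := fun i => by ring
        simp only [this]
        rw [Finset.sum_sub_distrib, ← Finset.mul_sum, e3, ← Finset.sum_mul, hs]
        ring
      rw [e5]
      refine (Finset.abs_sum_le_sum_abs _ _).trans (Finset.sum_le_sum fun i _ => ?_)
      rw [abs_mul, abs_of_nonneg (hθ i)]
    simp only [e2]
    rw [Finset.sum_add_distrib, Finset.sum_add_distrib, ← Finset.sum_mul, hs, ← Finset.mul_sum, e3,
      ← Finset.mul_sum, e1]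
    have e6 := mul_le_mul_of_nonneg_left e4 hC0
    linarith
  · rw [if_neg hPa]
    refine Finset.sum_nonneg fun i _ => mul_nonneg (hθ i) ?_
    split_ifs
    · exact plf_nonneg hT _
    · exact le_rfl

end H58Q
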