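import Pool.Agent.Lib.H58Q.K2A

/-! H58Q K2D -/

namespace H58Q

open Set Finset MeasureTheory

theorem k2d_idx {s : ℝ} (hs : 0 ≤ s) (hs' : s ≤ 12) : ∃ i : ℕ, i < 12 ∧ (i : ℝ) ≤ s ∧ s ≤ (i : ℝ) + 1 := by
  by_cases h : s < 12
  · refine ⟨⌊s⌋₊, ?_, Nat.floor_le hs, (Nat.lt_floor_add_one s).le⟩
    exact (Nat.floor_lt hs).2 (by exact_mod_cast h)
  · refine ⟨11, by norm_num, ?_, ?_⟩
    · push Not at h
      push_cast
      linarith
    · push_cast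
      linarith

/-- CHUNK K2D. Constant tables. If all even fields `≤ 24` of `M` are equal to `fld M 0` and the odd ones
are zero then `plf M s = fld M 0 / 10 ^ 6` on `[0, 12]`; with `fld T (2 i) ≤ fld M (2 i)` we get
`plf T ≤ plf M` on `[0, 12]`. -/
theorem plf_const {M : ℕ} (h1 : ∀ i < 13, fld M (2 * i) = fld M 0) (h2 : ∀ i < 12, fld M (2 * i + 1) = 0)
    {s : ℝ} (hs : 0 ≤ s) (hs' : s ≤ 12) : plf M s = (fld M 0 : ℝ) / 10 ^ 6 := by
  obtain ⟨i, hi, h3, h4⟩ := k2d_idx hs hs'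
  rw [plf_eq M hi h3 h4, h1 i (by omega), h2 i hi]
  have h5 : fld M (2 * i + 2) = fld M 0 := h1 (i + 1) (by omega)
  rw [h5]
  push_cast
  ring

theorem plf_le_const {T M : ℕ} (h0 : ∀ i < 13, fld T (2 * i) ≤ fld M (2 * i))
    (h1 : ∀ i < 13, fld M (2 * i) = fld M 0)
    {s : ℝ} (hs : 0 ≤ s) (hs' : s ≤ 12) : plf T s ≤ (fld M 0 : ℝ) / 10 ^ 6 := by
  obtain ⟨i, hi, h3, h4⟩ := k2d_idx hs hs'
  rw [plf_eq T hi h3 h4]
  have e1 : fld T (2 * i) ≤ fld M 0 := by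
    rw [← h1 i (by omega)]
    exact h0 i (by omega)
  have e2 : fld T (2 * i + 2) ≤ fld M 0 := by
    rw [← h1 (i + 1) (by omega)]
    exact h0 (i + 1) (by omega)
  have f1 : (fld T (2 * i) : ℝ) / 10 ^ 6 ≤ (fld M 0 : ℝ) / 10 ^ 6 := by
    have : (fld T (2 * i) : ℝ) ≤ fld M 0 := by exact_mod_cast e1
    gcongr
  have f2 : (fld T (2 * i + 2) : ℝ) / 10 ^ 6 ≤ (fld M 0 : ℝ) / 10 ^ 6 := by
    have : (fld T (2 * i + 2) : ℝ) ≤ fld M 0 := by exact_mod_cast e2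
    gcongr
  have f3 : 0 ≤ (fld T (2 * i + 1) : ℝ) / 10 ^ 6 := by positivity
  have f4 : |2 * (s - i) - 1| ≤ 1 := by
    rw [abs_le]
    constructor <;> linarith
  have g1 := mul_le_mul_of_nonneg_right f1 (show (0 : ℝ) ≤ i + 1 - s by linarith)
  have g2 := mul_le_mul_of_nonneg_right f2 (show (0 : ℝ) ≤ s - i by linarith)
  have g3 := mul_nonneg f3 (show (0 : ℝ) ≤ 1 - |2 * (s - i) - 1| by linarith)
  linarith

end H58Q
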