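import Pool.Agent.Lib.H58Q.Defs

/-! H58Q K3A -/

namespace H58Q

open Set Finset MeasureTheory

/-- CHUNK K3A. `lerp v s` on `[i, i + 1]` (at `s = i + 1` the floor is `i + 1` and the fraction `0`). -/
theorem lerp_eq (v : ℕ → ℝ) {i : ℕ} {s : ℝ} (h1 : (i : ℝ) ≤ s) (h2 : s ≤ i + 1) :
    lerp v s = v i * (i + 1 - s) + v (i + 1) * (s - i) := by
  unfold lerp
  rcases lt_or_eq_of_le h2 with h | h
  · have hf : ⌊s⌋₊ = i := (Nat.floor_eq_iff (le_trans (Nat.cast_nonneg i) h1)).mpr ⟨h1, h⟩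
    rw [hf]
    ring
  · have hf : ⌊s⌋₊ = i + 1 := by
      rw [h]
      have : (i : ℝ) + 1 = ((i + 1 : ℕ) : ℝ) := by push_cast; ring
      rw [this, Nat.floor_natCast]
    rw [hf, h]
    push_cast
    ring

theorem FF_inner {i : ℕ} (hi : i < 24) {Y : ℝ} (h1 : (i : ℝ) / 3 ≤ |Y|) (h2 : |Y| ≤ ((i : ℝ) + 1) / 3) :
    FF Y = (FN3 i : ℝ) / 10 ^ 6 * (i + 1 - 3 * |Y|) + (FN3 (i + 1) : ℝ) / 10 ^ 6 * (3 * |Y| - i) := by
  have h8 : |Y| ≤ 8 := by
    have : (i : ℝ) + 1 ≤ 24 := by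
      have : i + 1 ≤ 24 := hi
      exact_mod_cast this
    linarith
  unfold FF
  rw [if_pos h8, lerp_eq _ (i := i) (by linarith) (by linarith)]

/-- at `|Y| = 8` both formulas give `FN3 24 = FN1 8 = 770622` -/
theorem FF_outer {n : ℕ} (hn : 8 ≤ n) (hn' : n < 18) {Y : ℝ} (h1 : (n : ℝ) ≤ |Y|) (h2 : |Y| ≤ n + 1) :
    FF Y = (FN1 n : ℝ) / 10 ^ 6 * (n + 1 - |Y|) + (FN1 (n + 1) : ℝ) / 10 ^ 6 * (|Y| - n) := by
  have hn8 : (8 : ℝ) ≤ n := by exact_mod_cast hn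
  by_cases h8 : |Y| ≤ 8
  · have hY : |Y| = 8 := le_antisymm h8 (le_trans hn8 h1)
    have hnr : (n : ℝ) = 8 := le_antisymm (by rw [← hY]; exact h1) hn8
    have hn0 : n = 8 := by exact_mod_cast hnr
    subst hn0
    unfold FF
    rw [if_pos h8, lerp_eq _ (i := 24) (by push_cast; linarith) (by push_cast; linarith), hY]
    have e1 : FN3 24 = FN1 8 := by decide
    rw [e1]
    push_cast
    ring
  · have h18 : |Y| ≤ 18 := by
      have : (n : ℝ) + 1 ≤ 18 := by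
        have : n + 1 ≤ 18 := hn'
        exact_mod_cast this
      linarith
    unfold FF
    rw [if_neg h8, if_pos h18, lerp_eq _ h1 h2]

end H58Q
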