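import Pool.Agent.Lib.H58Q.K3A
import Pool.Agent.Lib.H58Q.K3B

/-! H58Q K3C -/

namespace H58Q

open Set Finset MeasureTheory

theorem k3c_affine {m : ℕ} (θ : Fin m → ℝ) (hs : ∑ i, θ i = 1) {Y : ℝ}
    (y : Fin m → ℝ) (hY : ∑ i, θ i * y i = Y) (σ : ℝ)
    (hYσ : |Y| = σ * Y) (hyσ : ∀ i, |y i| = σ * y i) (a b : ℝ)
    (hFY : FF Y = a + b * |Y|) (hFy : ∀ i, FF (y i) = a + b * |y i|) :
    FF Y = ∑ i, θ i * FF (y i) := by
  have e : ∀ i, θ i * FF (y i) = a * θ i + b * σ * (θ i * y i) := by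
    intro i
    rw [hFy i, hyσ i]
    ring
  rw [Finset.sum_congr rfl (fun i _ => e i), Finset.sum_add_distrib, ← Finset.mul_sum,
    ← Finset.mul_sum, hs, hY, hFY, hYσ]
  ring

theorem k3c_N3 : ∀ i < 24, ((FN3 i : ℤ) - FN3 (i + 1)).natAbs ≤ LF3 := by decide

theorem k3c_N1 : ∀ n < 18, 8 ≤ n → ((FN1 n : ℤ) - FN1 (n + 1)).natAbs ≤ LF1 := by decide

theorem k3c_N3r {i : ℕ} (hi : i < 24) :
    |(FN3 (i + 1) : ℝ) / 10 ^ 6 - (FN3 i : ℝ) / 10 ^ 6| ≤ (LF3 : ℝ) / 10 ^ 6 := by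
  have h := k3c_N3 i hi
  have h1 : |((FN3 i : ℤ) - FN3 (i + 1))| ≤ (LF3 : ℤ) := by
    rw [Int.abs_eq_natAbs]
    exact_mod_cast h
  have h2 : |((FN3 i : ℝ) - FN3 (i + 1))| ≤ (LF3 : ℝ) := by exact_mod_cast h1
  rw [← sub_div, abs_div, abs_sub_comm, abs_of_pos (by norm_num : (0 : ℝ) < 10 ^ 6)]
  gcongr

theorem k3c_N1r {n : ℕ} (hn : 8 ≤ n) (hn' : n < 18) :
    |(FN1 (n + 1) : ℝ) / 10 ^ 6 - (FN1 n : ℝ) / 10 ^ 6| ≤ (LF1 : ℝ) / 10 ^ 6 := by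
  have h := k3c_N1 n hn' hn
  have h1 : |((FN1 n : ℤ) - FN1 (n + 1))| ≤ (LF1 : ℤ) := by
    rw [Int.abs_eq_natAbs]
    exact_mod_cast h
  have h2 : |((FN1 n : ℝ) - FN1 (n + 1))| ≤ (LF1 : ℝ) := by exact_mod_cast h1
  rw [← sub_div, abs_div, abs_sub_comm, abs_of_pos (by norm_num : (0 : ℝ) < 10 ^ 6)]
  gcongr

theorem k3c_ys1 {j : ℕ} (hj : j ≤ 48) : 30 + j ∈ ys := by
  unfold ys
  rw [Finset.mem_union, Finset.mem_union, Finset.mem_image]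
  exact Or.inl (Or.inl ⟨j, Finset.mem_range.2 (by omega), by omega⟩)

theorem k3c_ys2 {j : ℕ} (hj : j ≤ 10) : 3 * j ∈ ys := by
  rcases Nat.lt_or_ge j 10 with h | h
  · unfold ys
    rw [Finset.mem_union, Finset.mem_union, Finset.mem_image, Finset.mem_image]
    exact Or.inl (Or.inr ⟨j, Finset.mem_range.2 h, by omega⟩)
  · have : j = 10 := by omega
    subst this
    exact k3c_ys1 (j := 0) (by omega)

theorem k3c_ys3 {j : ℕ} (hj : j ≤ 10) : 78 + 3 * j ∈ ys := by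
  rcases Nat.eq_zero_or_pos j with h | h
  · subst h
    exact k3c_ys1 (j := 48) (by omega)
  · unfold ys
    rw [Finset.mem_union, Finset.mem_image]
    exact Or.inr ⟨j - 1, Finset.mem_range.2 (by omega), by omega⟩

/-- in both cases: the cell is inside `[A, B]` in absolute value, all of the same sign -/
theorem k3c_loc {m : ℕ} {Y : ℝ} (y : Fin m → ℝ)
    (hcell : ∀ y0 ∈ ys, ((y0 : ℝ) / 3 - 18 ≤ Y → ∀ i, (y0 : ℝ) / 3 - 18 ≤ y i) ∧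
      (Y ≤ (y0 : ℝ) / 3 - 18 → ∀ i, y i ≤ (y0 : ℝ) / 3 - 18)) {u v : ℕ} (huv : u ≤ v)
    (hv : v ≤ 54)
    (hu1 : 54 + u ∈ ys) (hu2 : 54 - u ∈ ys) (hv1 : 54 + v ∈ ys) (hv2 : 54 - v ∈ ys)
    (h1 : (u : ℝ) / 3 ≤ |Y|) (h2 : |Y| ≤ (v : ℝ) / 3) :
    ∃ σ : ℝ, (σ = 1 ∨ σ = -1) ∧ |Y| = σ * Y ∧ ∀ i, |y i| = σ * y i ∧ (u : ℝ) / 3 ≤ |y i| ∧
      |y i| ≤ (v : ℝ) / 3 := by
  have hu0 : (0 : ℝ) ≤ (u : ℝ) / 3 := by positivity
  rcases le_total 0 Y with h | h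
  · rw [abs_of_nonneg h] at h1 h2
    refine ⟨1, Or.inl rfl, by rw [abs_of_nonneg h, one_mul], fun i => ?_⟩
    have a1 := (hcell _ hu1).1 (by push_cast; linarith) i
    have a2 := (hcell _ hv1).2 (by push_cast; linarith) i
    push_cast at a1 a2
    have hy : 0 ≤ y i := by linarith
    rw [abs_of_nonneg hy]
    exact ⟨by ring, by linarith, by linarith⟩
  · rw [abs_of_nonpos h] at h1 h2
    refine ⟨-1, Or.inr rfl, by rw [abs_of_nonpos h]; ring, fun i => ?_⟩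
    have c1 : ((54 - u : ℕ) : ℝ) = 54 - u := by
      rw [Nat.cast_sub (by omega)]; norm_num
    have c2 : ((54 - v : ℕ) : ℝ) = 54 - v := by
      rw [Nat.cast_sub (by omega)]; norm_num
    have a1 := (hcell _ hu2).2 (by rw [c1]; linarith) i
    have a2 := (hcell _ hv2).1 (by rw [c2]; linarith) i
    rw [c1] at a1
    rw [c2] at a2
    have hy : y i ≤ 0 := by linarith
    rw [abs_of_nonpos hy]
    exact ⟨by ring, by linarith, by linarith⟩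

/-- the distance of two points of the same sign -/
theorem k3c_dist {σ x y : ℝ} (hσ : σ = 1 ∨ σ = -1) (hx : |x| = σ * x) (hy : |y| = σ * y) :
    |x - y| = |(|x| - |y|)| := by
  rw [hx, hy, ← mul_sub, abs_mul]
  rcases hσ with rfl | rfl <;> simp

/-- CHUNK K3C. On a cell of the arrangement `FF` is affine, with small oscillation. `0 ∈ ys - 54`, so
all `y i` have the sign of `Y`; if `|Y| < 8` there is `j < 24` with `j / 3 ≤ |Y| ≤ (j + 1) / 3` and all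
`|y i|` are in the same interval (the lines `± j / 3`, `± (j + 1) / 3` are in `ys`), use `FF_inner`;
if `8 ≤ |Y|` use `FF_outer` with the lines `± n`. Oscillation: `|FN3 j - FN3 (j + 1)| ≤ LF3`,
`|FN1 n - FN1 (n + 1)| ≤ LF1` for `8 ≤ n < 18` (decide). -/
theorem FF_cell {m : ℕ} (θ : Fin m → ℝ) (hθ : ∀ i, 0 ≤ θ i) (hs : ∑ i, θ i = 1) {Y : ℝ}
    (y : Fin m → ℝ) (hY : ∑ i, θ i * y i = Y) (hY18 : |Y| ≤ 18)
    (hcell : ∀ y0 ∈ ys, ((y0 : ℝ) / 3 - 18 ≤ Y → ∀ i, (y0 : ℝ) / 3 - 18 ≤ y i) ∧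
      (Y ≤ (y0 : ℝ) / 3 - 18 → ∀ i, y i ≤ (y0 : ℝ) / 3 - 18)) :
    FF Y = ∑ i, θ i * FF (y i) ∧
    (|Y| < 8 → ∀ i j, |FF (y i) - FF (y j)| ≤ (LF3 : ℝ) / 10 ^ 6 ∧ |y i - y j| ≤ 1 / 3) ∧
    (8 ≤ |Y| → ∀ i j, |FF (y i) - FF (y j)| ≤ (LF1 : ℝ) / 10 ^ 6 ∧ |y i - y j| ≤ 1 ∧ 8 ≤ |y i|) := by
  have hY0 := abs_nonneg Y
  rcases lt_or_ge (|Y|) 8 with h8 | h8
  · obtain ⟨j, hj, g1, g2⟩ : ∃ j : ℕ, j < 24 ∧ (j : ℝ) / 3 ≤ |Y| ∧ |Y| ≤ ((j : ℝ) + 1) / 3 := by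
      refine ⟨⌊3 * |Y|⌋₊, ?_, ?_, ?_⟩
      · rw [Nat.floor_lt (by positivity)]
        push_cast
        linarith
      · have := Nat.floor_le (show 0 ≤ 3 * |Y| by positivity)
        linarith
      · have := Nat.lt_floor_add_one (3 * |Y|)
        linarith
    have m1 : 54 + j ∈ ys := by
      have := k3c_ys1 (j := 24 + j) (by omega)
      rwa [show 30 + (24 + j) = 54 + j by omega] at this
    have m2 : 54 - j ∈ ys := by
      have := k3c_ys1 (j := 24 - j) (by omega)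
      rwa [show 30 + (24 - j) = 54 - j by omega] at this
    have m3 : 54 + (j + 1) ∈ ys := by
      have := k3c_ys1 (j := 24 + (j + 1)) (by omega)
      rwa [show 30 + (24 + (j + 1)) = 54 + (j + 1) by omega] at this
    have m4 : 54 - (j + 1) ∈ ys := by
      have := k3c_ys1 (j := 24 - (j + 1)) (by omega)
      rwa [show 30 + (24 - (j + 1)) = 54 - (j + 1) by omega] at this
    obtain ⟨σ, hσ, hYσ, hy⟩ := k3c_loc y hcell (u := j) (v := j + 1) (by omega) (by omega)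
      m1 m2 m3 m4 g1 (by push_cast; exact g2)
    have hF : ∀ z : ℝ, (j : ℝ) / 3 ≤ |z| → |z| ≤ ((j : ℝ) + 1) / 3 →
        FF z = ((FN3 j : ℝ) / 10 ^ 6 * (j + 1) - (FN3 (j + 1) : ℝ) / 10 ^ 6 * j)
          + 3 * ((FN3 (j + 1) : ℝ) / 10 ^ 6 - (FN3 j : ℝ) / 10 ^ 6) * |z| := by
      intro z z1 z2
      rw [FF_inner hj z1 z2]
      ring
    have hy2 : ∀ i, |y i| ≤ ((j : ℝ) + 1) / 3 := by
      intro i
      have := (hy i).2.2
      push_cast at this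
      exact this
    refine ⟨k3c_affine θ hs y hY σ hYσ (fun i => (hy i).1) _ _ (hF Y g1 g2)
      (fun i => hF (y i) (hy i).2.1 (hy2 i)), fun _ i i' => ?_, fun h => absurd h (not_le.2 h8)⟩
    have d := k3c_dist hσ (hy i).1 (hy i').1
    have d3 : |(|y i| - |y i'|)| ≤ 1 / 3 := by
      rw [abs_le]
      constructor <;> linarith [(hy i).2.1, (hy i').2.1, hy2 i, hy2 i']
    refine ⟨?_, by rw [d]; exact d3⟩
    rw [hF (y i) (hy i).2.1 (hy2 i), hF (y i') (hy i').2.1 (hy2 i')]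
    have e : ((FN3 j : ℝ) / 10 ^ 6 * (j + 1) - (FN3 (j + 1) : ℝ) / 10 ^ 6 * j)
          + 3 * ((FN3 (j + 1) : ℝ) / 10 ^ 6 - (FN3 j : ℝ) / 10 ^ 6) * |y i|
        - (((FN3 j : ℝ) / 10 ^ 6 * (j + 1) - (FN3 (j + 1) : ℝ) / 10 ^ 6 * j)
          + 3 * ((FN3 (j + 1) : ℝ) / 10 ^ 6 - (FN3 j : ℝ) / 10 ^ 6) * |y i'|)
        = ((FN3 (j + 1) : ℝ) / 10 ^ 6 - (FN3 j : ℝ) / 10 ^ 6) * (3 * (|y i| - |y i'|)) := by
      ring
    rw [e, abs_mul, abs_mul, abs_of_pos (by norm_num : (0 : ℝ) < 3)]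
    have l1 : 3 * |(|y i| - |y i'|)| ≤ 1 := by linarith
    have l2 := k3c_N3r hj
    calc |(FN3 (j + 1) : ℝ) / 10 ^ 6 - (FN3 j : ℝ) / 10 ^ 6| * (3 * |(|y i| - |y i'|)|)
        ≤ (LF3 : ℝ) / 10 ^ 6 * 1 := by
          apply mul_le_mul l2 l1 (by positivity) (by positivity)
      _ = (LF3 : ℝ) / 10 ^ 6 := mul_one _
  · obtain ⟨n, hn, hn', g1, g2⟩ : ∃ n : ℕ, 8 ≤ n ∧ n < 18 ∧ (n : ℝ) ≤ |Y| ∧ |Y| ≤ (n : ℝ) + 1 := by
      rcases lt_or_ge (|Y|) 18 with h18 | h18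
      · refine ⟨⌊|Y|⌋₊, ?_, ?_, ?_, ?_⟩
        · exact Nat.le_floor (by push_cast; exact h8)
        · rw [Nat.floor_lt hY0]
          push_cast
          exact h18
        · exact Nat.floor_le hY0
        · exact (Nat.lt_floor_add_one _).le
      · refine ⟨17, by norm_num, by norm_num, ?_, ?_⟩
        · push_cast; linarith
        · push_cast; linarith
    have m1 : 54 + 3 * n ∈ ys := by
      have := k3c_ys3 (j := n - 8) (by omega)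
      rwa [show 78 + 3 * (n - 8) = 54 + 3 * n by omega] at this
    have m2 : 54 - 3 * n ∈ ys := by
      have := k3c_ys2 (j := 18 - n) (by omega)
      rwa [show 3 * (18 - n) = 54 - 3 * n by omega] at this
    have m3 : 54 + 3 * (n + 1) ∈ ys := by
      have := k3c_ys3 (j := n + 1 - 8) (by omega)
      rwa [show 78 + 3 * (n + 1 - 8) = 54 + 3 * (n + 1) by omega] at this
    have m4 : 54 - 3 * (n + 1) ∈ ys := by
      have := k3c_ys2 (j := 18 - (n + 1)) (by omega)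
      rwa [show 3 * (18 - (n + 1)) = 54 - 3 * (n + 1) by omega] at this
    obtain ⟨σ, hσ, hYσ, hy⟩ := k3c_loc y hcell (u := 3 * n) (v := 3 * (n + 1)) (by omega)
      (by omega) m1 m2 m3 m4 (by push_cast; linarith) (by push_cast; linarith)
    have hy1 : ∀ i, (n : ℝ) ≤ |y i| := by
      intro i
      have := (hy i).2.1
      push_cast at this
      linarith
    have hy2 : ∀ i, |y i| ≤ (n : ℝ) + 1 := by
      intro i
      have := (hy i).2.2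
      push_cast at this
      linarith
    have hF : ∀ z : ℝ, (n : ℝ) ≤ |z| → |z| ≤ (n : ℝ) + 1 →
        FF z = ((FN1 n : ℝ) / 10 ^ 6 * (n + 1) - (FN1 (n + 1) : ℝ) / 10 ^ 6 * n)
          + ((FN1 (n + 1) : ℝ) / 10 ^ 6 - (FN1 n : ℝ) / 10 ^ 6) * |z| := by
      intro z z1 z2
      rw [FF_outer hn hn' z1 z2]
      ring
    refine ⟨k3c_affine θ hs y hY σ hYσ (fun i => (hy i).1) _ _ (hF Y g1 g2)
      (fun i => hF (y i) (hy1 i) (hy2 i)), fun h => absurd h8 (not_le.2 h), fun _ i i' => ?_⟩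
    have d := k3c_dist hσ (hy i).1 (hy i').1
    have d3 : |(|y i| - |y i'|)| ≤ 1 := by
      rw [abs_le]
      constructor <;> linarith [hy1 i, hy1 i', hy2 i, hy2 i']
    have hn8 : (8 : ℝ) ≤ n := by exact_mod_cast hn
    refine ⟨?_, by rw [d]; exact d3, by linarith [hy1 i]⟩
    rw [hF (y i) (hy1 i) (hy2 i), hF (y i') (hy1 i') (hy2 i')]
    have e : ((FN1 n : ℝ) / 10 ^ 6 * (n + 1) - (FN1 (n + 1) : ℝ) / 10 ^ 6 * n)
          + ((FN1 (n + 1) : ℝ) / 10 ^ 6 - (FN1 n : ℝ) / 10 ^ 6) * |y i|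
        - (((FN1 n : ℝ) / 10 ^ 6 * (n + 1) - (FN1 (n + 1) : ℝ) / 10 ^ 6 * n)
          + ((FN1 (n + 1) : ℝ) / 10 ^ 6 - (FN1 n : ℝ) / 10 ^ 6) * |y i'|)
        = ((FN1 (n + 1) : ℝ) / 10 ^ 6 - (FN1 n : ℝ) / 10 ^ 6) * (|y i| - |y i'|) := by
      ring
    rw [e, abs_mul]
    calc |(FN1 (n + 1) : ℝ) / 10 ^ 6 - (FN1 n : ℝ) / 10 ^ 6| * |(|y i| - |y i'|)|
        ≤ (LF1 : ℝ) / 10 ^ 6 * 1 := by
          apply mul_le_mul (k3c_N1r hn hn') d3 (abs_nonneg _) (by positivity)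
      _ = (LF1 : ℝ) / 10 ^ 6 := mul_one _

end H58Q
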