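import Pool.Agent.Lib.H58Q.K3A

/-! H58Q K3D -/

namespace H58Q

open Set Finset MeasureTheory

theorem lerp_nat (v : ℕ → ℕ) (z D : ℕ) (hD : 0 < D) :
    ((v (z / D) * (D - z % D) + v (z / D + 1) * (z % D) : ℕ) : ℝ) =
      10 ^ 6 * D * lerp (fun i => (v i : ℝ) / 10 ^ 6) ((z : ℝ) / D) := by
  have hD' : (0 : ℝ) < D := by exact_mod_cast hD
  have hr : z % D < D := Nat.mod_lt _ hD
  have hz : (z : ℝ) = D * ((z / D : ℕ) : ℝ) + ((z % D : ℕ) : ℝ) := by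
    exact_mod_cast (Nat.div_add_mod z D).symm
  have hr' : ((z % D : ℕ) : ℝ) < D := by exact_mod_cast hr
  have hr0 : (0 : ℝ) ≤ ((z % D : ℕ) : ℝ) := Nat.cast_nonneg _
  have hs : (z : ℝ) / D = ((z / D : ℕ) : ℝ) + ((z % D : ℕ) : ℝ) / D := by
    rw [div_eq_iff hD'.ne', add_mul, div_mul_cancel₀ _ hD'.ne', hz]
    ring_nf
  have h1 : ((z / D : ℕ) : ℝ) ≤ (z : ℝ) / D := by
    rw [hs]; have := div_nonneg hr0 hD'.le; linarith
  have h2 : (z : ℝ) / D ≤ ((z / D : ℕ) : ℝ) + 1 := by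
    rw [hs]
    have : ((z % D : ℕ) : ℝ) / D ≤ 1 := by rw [div_le_one hD']; exact hr'.le
    linarith
  rw [lerp_eq _ h1 h2, hs]
  push_cast [Nat.cast_sub hr.le]
  field_simp
  ring

/-- CHUNK K3D. -/
theorem FNum_sound (y D : ℕ) (hD : 0 < D) (hy : y ≤ 18 * D) :
    (FNum y D : ℝ) = 10 ^ 6 * D * FF ((y : ℝ) / D) := by
  have hD' : (0 : ℝ) < D := by exact_mod_cast hD
  have habs : |(y : ℝ) / D| = (y : ℝ) / D := abs_of_nonneg (by positivity)
  have h18 : (y : ℝ) / D ≤ 18 := by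
    rw [div_le_iff₀ hD']; exact_mod_cast hy
  unfold FNum FF
  simp only [cnd_eq, frn_eq, Nat.ble_eq, Nat.mul_eq, habs]
  by_cases h : y ≤ 8 * D
  · have h' : (y : ℝ) / D ≤ 8 := by rw [div_le_iff₀ hD']; exact_mod_cast h
    rw [if_pos h, if_pos h']
    have := lerp_nat FN3 (3 * y) D hD
    have e : (((3 * y : ℕ) : ℝ)) / D = 3 * ((y : ℝ) / D) := by push_cast; ring
    rw [e] at this
    exact this
  · have h' : ¬ ((y : ℝ) / D ≤ 8) := by
      rw [div_le_iff₀ hD']; intro hc; exact h (by exact_mod_cast hc)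
    rw [if_neg h, if_neg h', if_pos h18]
    exact lerp_nat FN1 y D hD

end H58Q
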