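import Pool.Agent.Lib.H58Q.Defs

/-! H58Q K4A -/

namespace H58Q

open Set Finset MeasureTheory

theorem k4a_sum (f : Fin 16 → ℝ) : ∑ r, f r = f 0 + f 1 + f 2 + f 3 + f 4 + f 5 + f 6 + f 7 + f 8 +
    f 9 + f 10 + f 11 + f 12 + f 13 + f 14 + f 15 := by
  simp only [Fin.sum_univ_castSucc, Fin.sum_univ_zero, zero_add]
  rfl

theorem k4a_mu {mu : ℕ} (hmu : mu ≤ 1) : mu = 0 ∨ mu = 1 := by omega

theorem k4a_g (al mu : ℕ) (l : Fin 7 → ℕ) :
    ((gN l al mu 1 : ℤ) : ℝ) = -192 * (l 0 : ℝ) ∧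
    ((gN l al mu 2 : ℤ) : ℝ) = -192 * (l 1 : ℝ) ∧
    ((gN l al mu 3 : ℤ) : ℝ) = -192 * (l 2 : ℝ) ∧
    ((gN l al mu 4 : ℤ) : ℝ) = -192 * (l 3 : ℝ) ∧
    ((gN l al mu 5 : ℤ) : ℝ) = -192 * (l 4 : ℝ) ∧
    ((gN l al mu 6 : ℤ) : ℝ) = -192 * (l 5 : ℝ) ∧
    ((gN l al mu 7 : ℤ) : ℝ) = -192 * (l 6 : ℝ) ∧
    ((gN l al mu 8 : ℤ) : ℝ) = 2 * (al * (∑ i, (l i : ℝ)) + 4 * ∑ i : Fin 7, ((i : ℝ) - 3) * (l i : ℝ)) ∧
    ((gN l al mu 10 : ℤ) : ℝ) = 2 * ((al * (∑ i, (l i : ℝ)) + 4 * ∑ i : Fin 7, ((i : ℝ) - 3) * (l i : ℝ)) - 12 * mu * (∑ i, (l i : ℝ))) ∧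
    ((gN l al mu 11 : ℤ) : ℝ) = 2 * ((al * (∑ i, (l i : ℝ)) + 4 * ∑ i : Fin 7, ((i : ℝ) - 3) * (l i : ℝ)) + 12 * mu * (∑ i, (l i : ℝ))) ∧
    ((gN l al mu 12 : ℤ) : ℝ) = -2 * ((al * (∑ i, (l i : ℝ)) + 4 * ∑ i : Fin 7, ((i : ℝ) - 3) * (l i : ℝ)) + 12 * mu * (∑ i, (l i : ℝ))) ∧
    ((gN l al mu 13 : ℤ) : ℝ) = 2 * (12 * mu * (∑ i, (l i : ℝ)) - (al * (∑ i, (l i : ℝ)) + 4 * ∑ i : Fin 7, ((i : ℝ) - 3) * (l i : ℝ))) ∧
    ((gN l al mu 15 : ℤ) : ℝ) = 48 * mu * (∑ i, (l i : ℝ)) := by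
  refine ⟨?_, ?_, ?_, ?_, ?_, ?_, ?_, ?_, ?_, ?_, ?_, ?_, ?_⟩
  · have : gN l al mu 1 = -192 * (l 0 : ℤ) := rfl
    rw [this]
    push_cast
    rfl
  · have : gN l al mu 2 = -192 * (l 1 : ℤ) := rfl
    rw [this]
    push_cast
    rfl
  · have : gN l al mu 3 = -192 * (l 2 : ℤ) := rfl
    rw [this]
    push_cast
    rfl
  · have : gN l al mu 4 = -192 * (l 3 : ℤ) := rfl
    rw [this]
    push_cast
    rfl
  · have : gN l al mu 5 = -192 * (l 4 : ℤ) := rfl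
    rw [this]
    push_cast
    rfl
  · have : gN l al mu 6 = -192 * (l 5 : ℤ) := rfl
    rw [this]
    push_cast
    rfl
  · have : gN l al mu 7 = -192 * (l 6 : ℤ) := rfl
    rw [this]
    push_cast
    rfl
  · have : gN l al mu 8 = 2 * ((al : ℤ) * (∑ i, (l i : ℤ)) + 4 * ∑ i : Fin 7, ((i : ℤ) - 3) * (l i : ℤ)) := rfl
    rw [this]
    push_cast
    rfl
  · have : gN l al mu 10 = 2 * (((al : ℤ) * (∑ i, (l i : ℤ)) + 4 * ∑ i : Fin 7, ((i : ℤ) - 3) * (l i : ℤ)) - 12 * mu * (∑ i, (l i : ℤ))) := rfl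
    rw [this]
    push_cast
    rfl
  · have : gN l al mu 11 = 2 * (((al : ℤ) * (∑ i, (l i : ℤ)) + 4 * ∑ i : Fin 7, ((i : ℤ) - 3) * (l i : ℤ)) + 12 * mu * (∑ i, (l i : ℤ))) := rfl
    rw [this]
    push_cast
    rfl
  · have : gN l al mu 12 = -2 * (((al : ℤ) * (∑ i, (l i : ℤ)) + 4 * ∑ i : Fin 7, ((i : ℤ) - 3) * (l i : ℤ)) + 12 * mu * (∑ i, (l i : ℤ))) := rfl
    rw [this]
    push_cast
    rfl
  · have : gN l al mu 13 = 2 * (12 * mu * (∑ i, (l i : ℤ)) - ((al : ℤ) * (∑ i, (l i : ℤ)) + 4 * ∑ i : Fin 7, ((i : ℤ) - 3) * (l i : ℤ))) := rfl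
    rw [this]
    push_cast
    rfl
  · have : gN l al mu 15 = 48 * mu * (∑ i, (l i : ℤ)) := rfl
    rw [this]
    push_cast
    rfl

/-- the two exceptional terms -/
theorem k4a_gs (al mu : ℕ) (l : Fin 7 → ℕ) : ∃ S1 S2 : ℝ,
    ((gN l al mu 0 : ℤ) : ℝ) = 192 * (∑ i, (l i : ℝ)) - S1 - S2 ∧
    ((gN l al mu 9 : ℤ) : ℝ) =
      -2 * (al * (∑ i, (l i : ℝ)) + 4 * ∑ i : Fin 7, ((i : ℝ) - 3) * (l i : ℝ)) + S2 ∧
    ((gN l al mu 14 : ℤ) : ℝ) = -48 * mu * (∑ i, (l i : ℝ)) + S1 ∧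
    (S1 = 0 ∨ (al = 0 ∧ mu = 1)) ∧ (S2 = 0 ∨ (al = 24 ∧ mu = 0)) := by
  obtain ⟨S1, hS1⟩ : ∃ S1 : ℝ, S1 = if ((al : ℤ) = 0 ∧ (mu : ℤ) = 1) then
      (48 * (∑ i, (l i : ℝ))) else 0 := ⟨_, rfl⟩
  obtain ⟨S2, hS2⟩ : ∃ S2 : ℝ, S2 = if ((al : ℤ) = 24 ∧ (mu : ℤ) = 0) then
      (2 * (al * (∑ i, (l i : ℝ)) + 4 * ∑ i : Fin 7, ((i : ℝ) - 3) * (l i : ℝ))) else 0 := ⟨_, rfl⟩
  refine ⟨S1, S2, ?_, ?_, ?_, ?_, ?_⟩
  · rw [hS1, hS2]
    simp only [gN, Matrix.cons_val_zero]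
    push_cast
    congr 2
  · rw [hS2]
    have : gN l al mu 9 = -2 * ((al : ℤ) * (∑ i, (l i : ℤ)) + 4 * ∑ i : Fin 7, ((i : ℤ) - 3) * (l i : ℤ)) +
      (if ((al : ℤ) = 24 ∧ (mu : ℤ) = 0) then
      (2 * (al * (∑ i, (l i : ℤ)) + 4 * ∑ i : Fin 7, ((i : ℤ) - 3) * (l i : ℤ))) else 0) := rfl
    rw [this]
    push_cast
    congr 2
  · rw [hS1]
    have : gN l al mu 14 = -48 * mu * (∑ i, (l i : ℤ)) +
      (if ((al : ℤ) = 0 ∧ (mu : ℤ) = 1) then (48 * (∑ i, (l i : ℤ))) else 0) := rfl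
    rw [this]
    push_cast
    congr 2
  · rw [hS1]
    split_ifs with h
    · right
      exact ⟨by exact_mod_cast h.1, by exact_mod_cast h.2⟩
    · left
      rfl
  · rw [hS2]
    split_ifs with h
    · right
      exact ⟨by exact_mod_cast h.1, by exact_mod_cast h.2⟩
    · left
      rfl

/-- CHUNK K4A. Expand both sides: `Fin.sum_univ_succ`, `gN`, `cN`, `mN`, `Lam`, `rC`, `rM`; the cases
`al = 0, mu = 1` (then `wN 0 = wN 14`) and `al = 24, mu = 0` (then `wN 0 = wN 9`) of the definition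
of `gN` separately (`mu = 0` or `mu = 1`), then `ring_nf` / `linear_combination` with the sixteen
absolute values as atoms. -/
theorem eeN_eq (al mu : ℕ) (hmu : mu ≤ 1) (l : Fin 7 → ℕ) (X Y : ℝ) :
    eeN al mu l X Y = (∑ r, (gN l al mu r : ℝ) * |wN al mu r X Y|) / (2 * 1920000000) := by
  obtain ⟨A, hA⟩ : ∃ A : Fin 16 → ℝ, A = fun r => |wN al mu r X Y| := ⟨_, rfl⟩
  have hAr : ∀ r, |wN al mu r X Y| = A r := fun r => by rw [hA]
  obtain ⟨S1, S2, g0, g9, g14, hS1, hS2⟩ := k4a_gs al mu l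
  obtain ⟨g1, g2, g3, g4, g5, g6, g7, g8, g10, g11, g12, g13, g15⟩ := k4a_g al mu l
  have k1 : S1 * (A 14 - A 0) = 0 := by
    rcases hS1 with h | ⟨h0, h1⟩
    · rw [h, zero_mul]
    · have : A 14 = A 0 := by
        rw [hA, h0, h1]
        simp [wN, cN, mN]
      rw [this]
      ring
  have k2 : S2 * (A 9 - A 0) = 0 := by
    rcases hS2 with h | ⟨h0, h1⟩
    · rw [h, zero_mul]
    · have : A 9 = A 0 := by
        rw [hA, h0, h1]
        simp [wN, cN, mN]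
      rw [this]
      ring
  have u0 : |(-(al : ℝ) / 4) + (mu : ℝ) / 2 * Y - X| = A 0 := by
    have ec : cN al 0 = -(al:ℤ) := rfl
    have em : mN mu 0 = (mu:ℤ) := rfl
    rw [hA]
    simp only [wN, ec, em]
    congr 1
    push_cast
    norm_num
  have u1 : |((((0 : Fin 7) : ℕ) : ℝ) - 3) + 0 * Y - X| = A 1 := by
    have ec : cN al 1 = -12 := rfl
    have em : mN mu 1 = 0 := rfl
    rw [hA]
    simp only [wN, ec, em]
    congr 1
    push_cast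
    norm_num
  have u2 : |((((1 : Fin 7) : ℕ) : ℝ) - 3) + 0 * Y - X| = A 2 := by
    have ec : cN al 2 = -8 := rfl
    have em : mN mu 2 = 0 := rfl
    rw [hA]
    simp only [wN, ec, em]
    congr 1
    push_cast
    norm_num
  have u3 : |((((2 : Fin 7) : ℕ) : ℝ) - 3) + 0 * Y - X| = A 3 := by
    have ec : cN al 3 = -4 := rfl
    have em : mN mu 3 = 0 := rfl
    rw [hA]
    simp only [wN, ec, em]
    congr 1
    push_cast
    norm_num
  have u4 : |((((3 : Fin 7) : ℕ) : ℝ) - 3) + 0 * Y - X| = A 4 := by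
    have ec : cN al 4 = 0 := rfl
    have em : mN mu 4 = 0 := rfl
    rw [hA]
    simp only [wN, ec, em]
    congr 1
    push_cast
    norm_num
  have u5 : |((((4 : Fin 7) : ℕ) : ℝ) - 3) + 0 * Y - X| = A 5 := by
    have ec : cN al 5 = 4 := rfl
    have em : mN mu 5 = 0 := rfl
    rw [hA]
    simp only [wN, ec, em]
    congr 1
    push_cast
    norm_num
  have u6 : |((((5 : Fin 7) : ℕ) : ℝ) - 3) + 0 * Y - X| = A 6 := by
    have ec : cN al 6 = 8 := rfl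
    have em : mN mu 6 = 0 := rfl
    rw [hA]
    simp only [wN, ec, em]
    congr 1
    push_cast
    norm_num
  have u7 : |((((6 : Fin 7) : ℕ) : ℝ) - 3) + 0 * Y - X| = A 7 := by
    have ec : cN al 7 = 12 := rfl
    have em : mN mu 7 = 0 := rfl
    rw [hA]
    simp only [wN, ec, em]
    congr 1
    push_cast
    norm_num
  have u8 : |(6 : ℝ) + 0 * Y - X| = A 8 := by
    have ec : cN al 8 = 24 := rfl
    have em : mN mu 8 = 0 := rfl
    rw [hA]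
    simp only [wN, ec, em]
    congr 1
    push_cast
    norm_num
  have u9 : |(-6 : ℝ) + 0 * Y - X| = A 9 := by
    have ec : cN al 9 = -24 := rfl
    have em : mN mu 9 = 0 := rfl
    rw [hA]
    simp only [wN, ec, em]
    congr 1
    push_cast
    norm_num
  have u10 : |(3 : ℝ) + 1 / 2 * Y - X| = A 10 := by
    have ec : cN al 10 = 12 := rfl
    have em : mN mu 10 = 1 := rfl
    rw [hA]
    simp only [wN, ec, em]
    congr 1
    push_cast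
    norm_num
  have u11 : |(3 : ℝ) + -1 / 2 * Y - X| = A 11 := by
    have ec : cN al 11 = 12 := rfl
    have em : mN mu 11 = -1 := rfl
    rw [hA]
    simp only [wN, ec, em]
    congr 1
    push_cast
    norm_num
  have u12 : |(-3 : ℝ) + 1 / 2 * Y - X| = A 12 := by
    have ec : cN al 12 = -12 := rfl
    have em : mN mu 12 = 1 := rfl
    rw [hA]
    simp only [wN, ec, em]
    congr 1
    push_cast
    norm_num
  have u13 : |(-3 : ℝ) + -1 / 2 * Y - X| = A 13 := by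
    have ec : cN al 13 = -12 := rfl
    have em : mN mu 13 = -1 := rfl
    rw [hA]
    simp only [wN, ec, em]
    congr 1
    push_cast
    norm_num
  have u14 : |(0 : ℝ) + 1 / 2 * Y - X| = A 14 := by
    have ec : cN al 14 = 0 := rfl
    have em : mN mu 14 = 1 := rfl
    rw [hA]
    simp only [wN, ec, em]
    congr 1
    push_cast
    norm_num
  have u15 : |(0 : ℝ) + -1 / 2 * Y - X| = A 15 := by
    have ec : cN al 15 = 0 := rfl
    have em : mN mu 15 = -1 := rfl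
    rw [hA]
    simp only [wN, ec, em]
    congr 1
    push_cast
    norm_num
  simp only [hAr, k4a_sum, g0, g1, g2, g3, g4, g5, g6, g7, g8, g9, g10, g11, g12, g13, g14, g15]
  simp only [eeN, ee, Lam, rC, rM, Fin.sum_univ_seven]
  rw [u0, u1, u2, u3, u4, u5, u6, u7, u8, u9, u10, u11, u12, u13, u14, u15]
  have f0 : (((0 : Fin 7) : ℕ) : ℝ) = 0 := by norm_num
  have f1 : (((1 : Fin 7) : ℕ) : ℝ) = 1 := by norm_num
  have f2 : (((2 : Fin 7) : ℕ) : ℝ) = 2 := by norm_num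
  have f3 : (((3 : Fin 7) : ℕ) : ℝ) = 3 := by norm_num
  have f4 : (((4 : Fin 7) : ℕ) : ℝ) = 4 := by norm_num
  have f5 : (((5 : Fin 7) : ℕ) : ℝ) = 5 := by norm_num
  have f6 : (((6 : Fin 7) : ℕ) : ℝ) = 6 := by norm_num
  rw [f0, f1, f2, f3, f4, f5, f6]
  linear_combination (-1 / (2 * 1920000000)) * k1 + (-1 / (2 * 1920000000)) * k2

/-- the coefficients kill the affine functions -/
theorem gN_sum (al mu : ℕ) (hmu : mu ≤ 1) (l : Fin 7 → ℕ) :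
    ∑ r, (gN l al mu r : ℝ) = 0 ∧ ∑ r, (gN l al mu r : ℝ) * (cN al r : ℝ) = 0 ∧
      ∑ r, (gN l al mu r : ℝ) * (mN mu r : ℝ) = 0 := by
  obtain ⟨S1, S2, g0, g9, g14, hS1, hS2⟩ := k4a_gs al mu l
  obtain ⟨g1, g2, g3, g4, g5, g6, g7, g8, g10, g11, g12, g13, g15⟩ := k4a_g al mu l
  have c0 : cN al 0 = -(al:ℤ) := rfl
  have m0 : mN mu 0 = (mu:ℤ) := rfl
  have c1 : cN al 1 = -12 := rfl
  have m1 : mN mu 1 = 0 := rfl
  have c2 : cN al 2 = -8 := rfl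
  have m2 : mN mu 2 = 0 := rfl
  have c3 : cN al 3 = -4 := rfl
  have m3 : mN mu 3 = 0 := rfl
  have c4 : cN al 4 = 0 := rfl
  have m4 : mN mu 4 = 0 := rfl
  have c5 : cN al 5 = 4 := rfl
  have m5 : mN mu 5 = 0 := rfl
  have c6 : cN al 6 = 8 := rfl
  have m6 : mN mu 6 = 0 := rfl
  have c7 : cN al 7 = 12 := rfl
  have m7 : mN mu 7 = 0 := rfl
  have c8 : cN al 8 = 24 := rfl
  have m8 : mN mu 8 = 0 := rfl
  have c9 : cN al 9 = -24 := rfl
  have m9 : mN mu 9 = 0 := rfl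
  have c10 : cN al 10 = 12 := rfl
  have m10 : mN mu 10 = 1 := rfl
  have c11 : cN al 11 = 12 := rfl
  have m11 : mN mu 11 = -1 := rfl
  have c12 : cN al 12 = -12 := rfl
  have m12 : mN mu 12 = 1 := rfl
  have c13 : cN al 13 = -12 := rfl
  have m13 : mN mu 13 = -1 := rfl
  have c14 : cN al 14 = 0 := rfl
  have m14 : mN mu 14 = 1 := rfl
  have c15 : cN al 15 = 0 := rfl
  have m15 : mN mu 15 = -1 := rfl
  have k1 : S1 * al = 0 := by
    rcases hS1 with h | ⟨h0, h1⟩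
    · rw [h, zero_mul]
    · rw [h0]; simp
  have k2 : S1 * ((mu : ℝ) - 1) = 0 := by
    rcases hS1 with h | ⟨h0, h1⟩
    · rw [h, zero_mul]
    · rw [h1]; simp
  have k3 : S2 * ((al : ℝ) - 24) = 0 := by
    rcases hS2 with h | ⟨h0, h1⟩
    · rw [h, zero_mul]
    · rw [h0]; simp
  have k4 : S2 * (mu : ℝ) = 0 := by
    rcases hS2 with h | ⟨h0, h1⟩
    · rw [h, zero_mul]
    · rw [h1]; simp
  have f0 : (((0 : Fin 7) : ℕ) : ℝ) = 0 := by norm_num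
  have f1 : (((1 : Fin 7) : ℕ) : ℝ) = 1 := by norm_num
  have f2 : (((2 : Fin 7) : ℕ) : ℝ) = 2 := by norm_num
  have f3 : (((3 : Fin 7) : ℕ) : ℝ) = 3 := by norm_num
  have f4 : (((4 : Fin 7) : ℕ) : ℝ) = 4 := by norm_num
  have f5 : (((5 : Fin 7) : ℕ) : ℝ) = 5 := by norm_num
  have f6 : (((6 : Fin 7) : ℕ) : ℝ) = 6 := by norm_num
  refine ⟨?_, ?_, ?_⟩
  · rw [k4a_sum, g0, g1, g2, g3, g4, g5, g6, g7, g8, g9, g10, g11, g12, g13, g14, g15]
    simp only [Fin.sum_univ_seven]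
    ring
  · rw [k4a_sum, g0, g1, g2, g3, g4, g5, g6, g7, g8, g9, g10, g11, g12, g13, g14, g15, c0, c1, c2, c3,
      c4, c5, c6, c7, c8, c9, c10, c11, c12, c13, c14, c15]
    simp only [Fin.sum_univ_seven, f0, f1, f2, f3, f4, f5, f6]
    push_cast
    linear_combination k1 + k3
  · rw [k4a_sum, g0, g1, g2, g3, g4, g5, g6, g7, g8, g9, g10, g11, g12, g13, g14, g15, m0, m1, m2, m3,
      m4, m5, m6, m7, m8, m9, m10, m11, m12, m13, m14, m15]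
    simp only [Fin.sum_univ_seven]
    push_cast
    linear_combination (-1 : ℝ) * k2 - k4

end H58Q
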