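import Pool.Agent.Lib.H58Q.K4A

/-! H58Q K4B -/

namespace H58Q

open Set Finset MeasureTheory

/-- the sum of the `g_r w_r` is zero -/
theorem k4b_sum (al mu : ℕ) (hmu : mu ≤ 1) (l : Fin 7 → ℕ) (X Y : ℝ) :
    ∑ r, (gN l al mu r : ℝ) * wN al mu r X Y = 0 := by
  obtain ⟨h0, h1, h2⟩ := gN_sum al mu hmu l
  have h : ∑ r, (gN l al mu r : ℝ) * wN al mu r X Y =
      (∑ r, (gN l al mu r : ℝ) * (cN al r : ℝ)) / 4 +
      (∑ r, (gN l al mu r : ℝ) * (mN mu r : ℝ)) / 2 * Y - (∑ r, (gN l al mu r : ℝ)) * X := by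
    rw [Finset.sum_div, Finset.sum_div, Finset.sum_mul, Finset.sum_mul, ← Finset.sum_add_distrib,
      ← Finset.sum_sub_distrib]
    refine Finset.sum_congr rfl fun r _ => ?_
    unfold wN
    ring
  rw [h, h0, h1, h2]
  ring

/-- CHUNK K4B. `|w| = 2 max 0 w - w`, and the sum of the `g_r w_r` is zero by `gN_sum`. -/
theorem eeN_pos (al mu : ℕ) (hmu : mu ≤ 1) (l : Fin 7 → ℕ) (X Y : ℝ) :
    eeN al mu l X Y = (∑ r, (gN l al mu r : ℝ) * max 0 (wN al mu r X Y)) / 1920000000 := by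
  rw [eeN_eq al mu hmu]
  have h : ∑ r, (gN l al mu r : ℝ) * |wN al mu r X Y| =
      2 * (∑ r, (gN l al mu r : ℝ) * max 0 (wN al mu r X Y)) -
        ∑ r, (gN l al mu r : ℝ) * wN al mu r X Y := by
    rw [Finset.mul_sum, ← Finset.sum_sub_distrib]
    refine Finset.sum_congr rfl fun r _ => ?_
    rcases le_total 0 (wN al mu r X Y) with h | h
    · rw [abs_of_nonneg h, max_eq_right h]
      ring
    · rw [abs_of_nonpos h, max_eq_left h]
      ring
  rw [h, k4b_sum al mu hmu, sub_zero]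
  ring

theorem k4b_c (al : ℕ) (hal : al ≤ 24) (r : Fin 16) : |(cN al r : ℝ)| ≤ 24 := by
  have h : (al : ℝ) ≤ 24 := by exact_mod_cast hal
  have h0 : (0 : ℝ) ≤ al := Nat.cast_nonneg _
  have h1 : (cN al r = -(al : ℤ)) ∨ (|cN al r| ≤ 24) := by
    have h2 : ∀ r : Fin 16, r ≠ 0 → cN al r = cN 0 r ∧ |cN 0 r| ≤ 24 := by
      intro r hr
      refine ⟨?_, ?_⟩
      · fin_cases r
        · exact absurd rfl hr
        all_goals rfl
      · revert r
        decide
    by_cases hr : r = 0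
    · left
      rw [hr]
      rfl
    · right
      rw [(h2 r hr).1]
      exact (h2 r hr).2
  rcases h1 with h1 | h1
  · rw [h1, Int.cast_neg, Int.cast_natCast, abs_neg, abs_of_nonneg h0]
    exact h
  · rw [← Int.cast_abs]
    exact_mod_cast h1

theorem k4b_m (mu : ℕ) (hmu : mu ≤ 1) (r : Fin 16) : |(mN mu r : ℝ)| ≤ 1 := by
  have h : (mu : ℝ) ≤ 1 := by exact_mod_cast hmu
  have h0 : (0 : ℝ) ≤ mu := Nat.cast_nonneg _
  have h1 : (mN mu r = (mu : ℤ)) ∨ (|mN mu r| ≤ 1) := by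
    have h2 : ∀ r : Fin 16, r ≠ 0 → mN mu r = mN 0 r ∧ |mN 0 r| ≤ 1 := by
      intro r hr
      refine ⟨?_, ?_⟩
      · fin_cases r
        · exact absurd rfl hr
        all_goals rfl
      · revert r
        decide
    by_cases hr : r = 0
    · left
      rw [hr]
      rfl
    · right
      rw [(h2 r hr).1]
      exact (h2 r hr).2
  rcases h1 with h1 | h1
  · rw [h1, Int.cast_natCast, abs_of_nonneg h0]
    exact h
  · rw [← Int.cast_abs]
    exact_mod_cast h1

/-- all `|c_r| ≤ 6`, `|m_r| ≤ 1 / 2`: for `X ≥ 6 + |Y| / 2` all `w_r ≤ 0`; for `X ≤ - 6 - |Y| / 2` all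
`w_r ≥ 0` -/
theorem eeN_zero (al mu : ℕ) (hal : al ≤ 24) (hmu : mu ≤ 1) (l : Fin 7 → ℕ) {X Y : ℝ}
    (h : 6 + |Y| / 2 ≤ |X|) : eeN al mu l X Y = 0 := by
  rw [eeN_eq al mu hmu]
  have hb : ∀ r, |(cN al r : ℝ) / 4 + (mN mu r : ℝ) / 2 * Y| ≤ 6 + |Y| / 2 := by
    intro r
    have h1 := k4b_c al hal r
    have h2 := k4b_m mu hmu r
    have h3 : |(mN mu r : ℝ) / 2 * Y| ≤ |Y| / 2 := by
      rw [abs_mul, abs_div, abs_two]
      have := mul_le_mul_of_nonneg_right h2 (abs_nonneg Y)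
      nlinarith
    have h4 : |(cN al r : ℝ) / 4| ≤ 6 := by
      rw [abs_div, abs_of_pos (by norm_num : (0 : ℝ) < 4)]
      linarith
    exact (abs_add_le _ _).trans (add_le_add h4 h3)
  have hs := k4b_sum al mu hmu l X Y
  rcases le_total 0 X with hX | hX
  · rw [abs_of_nonneg hX] at h
    have h1 : ∑ r, (gN l al mu r : ℝ) * |wN al mu r X Y| =
        -∑ r, (gN l al mu r : ℝ) * wN al mu r X Y := by
      rw [← Finset.sum_neg_distrib]
      refine Finset.sum_congr rfl fun r _ => ?_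
      have h2 := (abs_le.1 (hb r)).2
      have h3 : wN al mu r X Y ≤ 0 := by
        unfold wN
        linarith
      rw [abs_of_nonpos h3]
      ring
    rw [h1, hs]
    simp
  · rw [abs_of_nonpos hX] at h
    have h1 : ∑ r, (gN l al mu r : ℝ) * |wN al mu r X Y| =
        ∑ r, (gN l al mu r : ℝ) * wN al mu r X Y := by
      refine Finset.sum_congr rfl fun r _ => ?_
      have h2 := (abs_le.1 (hb r)).1
      have h3 : 0 ≤ wN al mu r X Y := by
        unfold wN
        linarith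
      rw [abs_of_nonneg h3]
    rw [h1, hs]
    simp

theorem k4b_abs (z : ℤ) : ((z.natAbs : ℕ) : ℝ) = |(z : ℝ)| := by
  rw [Nat.cast_natAbs, Int.cast_abs]

theorem k4b_G0 (l : Fin 7 → ℕ) (al mu : ℤ) : (G0 l al mu : ℝ) = ∑ r, |(gN l al mu r : ℝ)| := by
  unfold G0
  rw [Nat.cast_sum]
  exact Finset.sum_congr rfl fun r _ => k4b_abs _

theorem k4b_G1 (l : Fin 7 → ℕ) (al mu : ℤ) :
    (G1 l al mu : ℝ) = ∑ r, |(gN l al mu r : ℝ)| * |(mN mu r : ℝ)| := by
  unfold G1
  rw [Nat.cast_sum]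
  refine Finset.sum_congr rfl fun r _ => ?_
  rw [Nat.cast_mul, k4b_abs, k4b_abs]

theorem k4b_G2 (l : Fin 7 → ℕ) (al mu : ℤ) :
    (G2 l al mu : ℝ) = ∑ r, |(gN l al mu r : ℝ)| * |(cN al r : ℝ)| := by
  unfold G2
  rw [Nat.cast_sum]
  refine Finset.sum_congr rfl fun r _ => ?_
  rw [Nat.cast_mul, k4b_abs, k4b_abs]

/-- `||w_r(X, Y)| - |w_r(X', Y')|| ≤ |X - X'| + |m_r| |Y - Y'|` in `eeN_eq` -/
theorem eeN_osc (al mu : ℕ) (hmu : mu ≤ 1) (l : Fin 7 → ℕ) (X Y X' Y' : ℝ) :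
    |eeN al mu l X Y - eeN al mu l X' Y'| ≤
      ((G0 l al mu : ℝ) * |X - X'| + (G1 l al mu : ℝ) / 2 * |Y - Y'|) / (2 * 1920000000) := by
  rw [eeN_eq al mu hmu, eeN_eq al mu hmu, ← sub_div, abs_div,
    abs_of_pos (by norm_num : (0 : ℝ) < 2 * 1920000000)]
  refine div_le_div_of_nonneg_right ?_ (by norm_num)
  rw [← Finset.sum_sub_distrib, k4b_G0, k4b_G1]
  calc |∑ r, ((gN l al mu r : ℝ) * |wN al mu r X Y| - (gN l al mu r : ℝ) * |wN al mu r X' Y'|)|
      ≤ ∑ r, |((gN l al mu r : ℝ) * |wN al mu r X Y| - (gN l al mu r : ℝ) * |wN al mu r X' Y'|)| :=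
        Finset.abs_sum_le_sum_abs _ _
    _ ≤ ∑ r, (|(gN l al mu r : ℝ)| * |X - X'| +
          |(gN l al mu r : ℝ)| * |(mN mu r : ℝ)| * (|Y - Y'| / 2)) := by
        refine Finset.sum_le_sum fun r _ => ?_
        rw [← mul_sub, abs_mul]
        have h1 : |(|wN al mu r X Y| - |wN al mu r X' Y'|)| ≤
            |X - X'| + |(mN mu r : ℝ)| * (|Y - Y'| / 2) := by
          refine (abs_abs_sub_abs_le _ _).trans ?_
          have h2 : wN al mu r X Y - wN al mu r X' Y' =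
              (mN mu r : ℝ) / 2 * (Y - Y') - (X - X') := by
            unfold wN
            ring
          rw [h2]
          refine (abs_sub _ _).trans ?_
          rw [abs_mul, abs_div, abs_two]
          linarith
        have h3 := mul_le_mul_of_nonneg_left h1 (abs_nonneg (gN l al mu r : ℝ))
        linarith
    _ = (∑ r, |(gN l al mu r : ℝ)|) * |X - X'| +
          (∑ r, |(gN l al mu r : ℝ)| * |(mN mu r : ℝ)|) / 2 * |Y - Y'| := by
        rw [Finset.sum_add_distrib, Finset.sum_mul, Finset.sum_div, Finset.sum_mul]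
        congr 1
        refine Finset.sum_congr rfl fun r _ => ?_
        ring

/-- as the sum of the `g_r` is zero, `|w_r|` may be replaced by `|w_r| - |X|`, which is at most
`|c_r| + |m_r| |Y|` -/
theorem eeN_far (al mu : ℕ) (hmu : mu ≤ 1) (l : Fin 7 → ℕ) (X Y : ℝ) :
    |eeN al mu l X Y| ≤
      ((G2 l al mu : ℝ) / 4 + (G1 l al mu : ℝ) / 2 * |Y|) / (2 * 1920000000) := by
  rw [eeN_eq al mu hmu, abs_div, abs_of_pos (by norm_num : (0 : ℝ) < 2 * 1920000000)]
  refine div_le_div_of_nonneg_right ?_ (by norm_num)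
  have h0 : ∑ r, (gN l al mu r : ℝ) * |wN al mu r X Y| =
      ∑ r, (gN l al mu r : ℝ) * (|wN al mu r X Y| - |X|) := by
    have h1 := (gN_sum al mu hmu l).1
    simp only [mul_sub]
    rw [Finset.sum_sub_distrib, ← Finset.sum_mul, h1, zero_mul, sub_zero]
  rw [h0, k4b_G1, k4b_G2]
  calc |∑ r, (gN l al mu r : ℝ) * (|wN al mu r X Y| - |X|)|
      ≤ ∑ r, |(gN l al mu r : ℝ) * (|wN al mu r X Y| - |X|)| := Finset.abs_sum_le_sum_abs _ _
    _ ≤ ∑ r, (|(gN l al mu r : ℝ)| * |(cN al r : ℝ)| / 4 +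
          |(gN l al mu r : ℝ)| * |(mN mu r : ℝ)| * (|Y| / 2)) := by
        refine Finset.sum_le_sum fun r _ => ?_
        rw [abs_mul]
        have h1 : |(|wN al mu r X Y| - |X|)| ≤
            |(cN al r : ℝ)| / 4 + |(mN mu r : ℝ)| * (|Y| / 2) := by
          have h2 := abs_abs_sub_abs_le (wN al mu r X Y) (-X)
          rw [abs_neg] at h2
          refine h2.trans ?_
          have h3 : wN al mu r X Y - -X = (cN al r : ℝ) / 4 + (mN mu r : ℝ) / 2 * Y := by
            unfold wN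
            ring
          rw [h3]
          refine (abs_add_le _ _).trans ?_
          rw [abs_mul, abs_div, abs_div, abs_two, abs_of_pos (by norm_num : (0 : ℝ) < 4)]
          linarith
        have h3 := mul_le_mul_of_nonneg_left h1 (abs_nonneg (gN l al mu r : ℝ))
        linarith
    _ = (∑ r, |(gN l al mu r : ℝ)| * |(cN al r : ℝ)|) / 4 +
          (∑ r, |(gN l al mu r : ℝ)| * |(mN mu r : ℝ)|) / 2 * |Y| := by
        rw [Finset.sum_add_distrib, Finset.sum_div, Finset.sum_div, Finset.sum_mul]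
        congr 1
        refine Finset.sum_congr rfl fun r _ => ?_
        ring

end H58Q
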