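import Pool.Agent.Lib.H58Q.Defs

/-! H58Q K4C -/

namespace H58Q

open Set Finset MeasureTheory

/-- CHUNK K4C. Only the coefficient number `0` can be positive together with a kink that is not a
line of the arrangement. `gN l al mu 0 ≥ 0`: `s1 = 48 LA`; `s2 = 2 dl ≤ 72 LA` because
`dl = 24 LA + 4 sum (i - 3) l_i ≤ 36 LA`. -/
theorem gN_zero_nonneg (al mu : ℕ) (l : Fin 7 → ℕ) : 0 ≤ gN l al mu 0 := by
  have h0 : gN l al mu 0 = 192 * (∑ i, (l i : ℤ)) -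
      (if (al : ℤ) = 0 ∧ (mu : ℤ) = 1 then 48 * (∑ i, (l i : ℤ)) else 0) -
      (if (al : ℤ) = 24 ∧ (mu : ℤ) = 0 then
        2 * ((al : ℤ) * (∑ i, (l i : ℤ)) + 4 * ∑ i : Fin 7, ((i : ℤ) - 3) * (l i : ℤ)) else 0) := rfl
  have hLA : 0 ≤ ∑ i, (l i : ℤ) := Finset.sum_nonneg fun i _ => Int.natCast_nonneg _
  have hS : ∑ i : Fin 7, ((i : ℤ) - 3) * (l i : ℤ) ≤ 3 * ∑ i, (l i : ℤ) := by
    rw [Finset.mul_sum]
    refine Finset.sum_le_sum fun i _ => ?_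
    refine mul_le_mul_of_nonneg_right ?_ (Int.natCast_nonneg _)
    have := i.2
    omega
  rw [h0]
  split_ifs with h1 h2 h2
  · exfalso
    obtain ⟨h3, -⟩ := h1
    obtain ⟨h4, -⟩ := h2
    omega
  · linarith
  · rw [h2.1]
    linarith
  · linarith

/-- vertical lines -/
theorem k4c_v {al mu : ℕ} {r : Fin 16} {P : ℝ} (hw : ∀ X Y, wN al mu r X Y = P - X)
    (hP : ((1 : ℝ), (0 : ℝ), P) ∈ arr) {m : ℕ} {X Y : ℝ} (x y : Fin m → ℝ)
    (hcell : ∀ i, ∀ l ∈ arr,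
      (l.1 * X + l.2.1 * Y ≤ l.2.2 → l.1 * x i + l.2.1 * y i ≤ l.2.2) ∧
      (l.2.2 ≤ l.1 * X + l.2.1 * Y → l.2.2 ≤ l.1 * x i + l.2.1 * y i)) :
    (0 ≤ wN al mu r X Y → ∀ i, 0 ≤ wN al mu r (x i) (y i)) ∧
    (wN al mu r X Y ≤ 0 → ∀ i, wN al mu r (x i) (y i) ≤ 0) := by
  refine ⟨fun h i => ?_, fun h i => ?_⟩
  · have h1 := (hcell i _ hP).1
    simp only [one_mul, zero_mul, add_zero] at h1
    rw [hw] at h ⊢
    have := h1 (by linarith)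
    linarith
  · have h1 := (hcell i _ hP).2
    simp only [one_mul, zero_mul, add_zero] at h1
    rw [hw] at h ⊢
    have := h1 (by linarith)
    linarith

/-- lines `2 X + Y = P` -/
theorem k4c_d {al mu : ℕ} {r : Fin 16} {P : ℝ} (hw : ∀ X Y, wN al mu r X Y = (P - (2 * X + Y)) / 2)
    (hP : ((2 : ℝ), (1 : ℝ), P) ∈ arr) {m : ℕ} {X Y : ℝ} (x y : Fin m → ℝ)
    (hcell : ∀ i, ∀ l ∈ arr,
      (l.1 * X + l.2.1 * Y ≤ l.2.2 → l.1 * x i + l.2.1 * y i ≤ l.2.2) ∧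
      (l.2.2 ≤ l.1 * X + l.2.1 * Y → l.2.2 ≤ l.1 * x i + l.2.1 * y i)) :
    (0 ≤ wN al mu r X Y → ∀ i, 0 ≤ wN al mu r (x i) (y i)) ∧
    (wN al mu r X Y ≤ 0 → ∀ i, wN al mu r (x i) (y i) ≤ 0) := by
  refine ⟨fun h i => ?_, fun h i => ?_⟩
  · have h1 := (hcell i _ hP).1
    simp only [one_mul] at h1
    rw [hw] at h ⊢
    have := h1 (by linarith)
    linarith
  · have h1 := (hcell i _ hP).2
    simp only [one_mul] at h1
    rw [hw] at h ⊢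
    have := h1 (by linarith)
    linarith

/-- lines `- 2 X + Y = P` -/
theorem k4c_u {al mu : ℕ} {r : Fin 16} {P : ℝ} (hw : ∀ X Y, wN al mu r X Y = (-2 * X + Y - P) / 2)
    (hP : ((-2 : ℝ), (1 : ℝ), P) ∈ arr) {m : ℕ} {X Y : ℝ} (x y : Fin m → ℝ)
    (hcell : ∀ i, ∀ l ∈ arr,
      (l.1 * X + l.2.1 * Y ≤ l.2.2 → l.1 * x i + l.2.1 * y i ≤ l.2.2) ∧
      (l.2.2 ≤ l.1 * X + l.2.1 * Y → l.2.2 ≤ l.1 * x i + l.2.1 * y i)) :
    (0 ≤ wN al mu r X Y → ∀ i, 0 ≤ wN al mu r (x i) (y i)) ∧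
    (wN al mu r X Y ≤ 0 → ∀ i, wN al mu r (x i) (y i) ≤ 0) := by
  refine ⟨fun h i => ?_, fun h i => ?_⟩
  · have h1 := (hcell i _ hP).2
    simp only [one_mul] at h1
    rw [hw] at h ⊢
    have := h1 (by linarith)
    linarith
  · have h1 := (hcell i _ hP).1
    simp only [one_mul] at h1
    rw [hw] at h ⊢
    have := h1 (by linarith)
    linarith

theorem k4c_arr_v (x0 : ℕ) (h1 : 24 ≤ x0) (h2 : x0 ≤ 48) {P : ℝ} (hP : P = (x0 : ℝ) / 2 - 18) :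
    ((1 : ℝ), (0 : ℝ), P) ∈ arr := by
  left
  refine ⟨x0, ?_, by rw [hP]⟩
  unfold xs
  refine Finset.mem_union_left _ (Finset.mem_union_left _ (Finset.mem_union_left _ ?_))
  exact Finset.mem_image.2 ⟨x0 - 24, Finset.mem_range.2 (by omega), by omega⟩

theorem k4c_arr_d (i : ℕ) (hi : i < 13) {P : ℝ} (hP : P = 3 * ((i : ℝ) - 6)) :
    ((2 : ℝ), (1 : ℝ), P) ∈ arr := by
  right
  right
  refine ⟨2, by decide, by decide, i, hi, ?_⟩
  have e1 : (na 2 : ℝ) = 2 := by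
    have : na 2 = 2 := rfl
    rw [this]
    norm_num
  have e2 : (nc 2 : ℝ) = 1 := by
    have : nc 2 = 1 := rfl
    rw [this]
    norm_num
  have e3 : (nh 2 : ℝ) = 3 := by
    have : nh 2 = 3 := rfl
    rw [this]
    norm_num
  rw [e1, e2, e3, hP]

theorem k4c_arr_u (i : ℕ) (hi : i < 13) {P : ℝ} (hP : P = 3 * ((i : ℝ) - 6)) :
    ((-2 : ℝ), (1 : ℝ), P) ∈ arr := by
  right
  right
  refine ⟨10, by decide, by decide, i, hi, ?_⟩
  have e1 : (na 10 : ℝ) = -2 := by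
    have : na 10 = -2 := rfl
    rw [this]
    norm_num
  have e2 : (nc 10 : ℝ) = 1 := by
    have : nc 10 = 1 := rfl
    rw [this]
    norm_num
  have e3 : (nh 10 : ℝ) = 3 := by
    have : nh 10 = 3 := rfl
    rw [this]
    norm_num
  rw [e1, e2, e3, hP]

theorem k4c_w {al mu : ℕ} {r : Fin 16} {c m : ℤ} (hc : cN al r = c) (hm : mN mu r = m) (X Y : ℝ) :
    wN al mu r X Y = (c : ℝ) / 4 + (m : ℝ) / 2 * Y - X := by
  unfold wN
  rw [hc, hm]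

/-- the lines `w_r = 0`, `r ≥ 1`, are lines of the arrangement: if `(X, Y)` and all `(x i, y i)` are on
the same sides of the lines of `arr`, then `w_r (x i, y i)` has weakly the sign of `w_r (X, Y)`. For
`r = 1, ..., 9` the line is `X = c_r`, `c_r ∈ {-3, ..., 3, 6, -6}` (`x0 = 2 c + 36`); for
`r = 10, 12, 14` it is `-2 X + Y = -2 c_r`, the family `k = 10`, `i = 4, 8, 6`; for
`r = 11, 13, 15` it is `2 X + Y = 2 c_r`, the family `k = 2`, `i = 8, 4, 6`. -/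
theorem wN_sign (al mu : ℕ) (r : Fin 16) (hr : r ≠ 0) {m : ℕ} {X Y : ℝ} (x y : Fin m → ℝ)
    (hcell : ∀ i, ∀ l ∈ arr,
      (l.1 * X + l.2.1 * Y ≤ l.2.2 → l.1 * x i + l.2.1 * y i ≤ l.2.2) ∧
      (l.2.2 ≤ l.1 * X + l.2.1 * Y → l.2.2 ≤ l.1 * x i + l.2.1 * y i)) :
    (0 ≤ wN al mu r X Y → ∀ i, 0 ≤ wN al mu r (x i) (y i)) ∧
    (wN al mu r X Y ≤ 0 → ∀ i, wN al mu r (x i) (y i) ≤ 0) := by
  have key : (∃ P : ℝ, ((1 : ℝ), (0 : ℝ), P) ∈ arr ∧ ∀ X Y, wN al mu r X Y = P - X) ∨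
      (∃ P : ℝ, ((2 : ℝ), (1 : ℝ), P) ∈ arr ∧ ∀ X Y, wN al mu r X Y = (P - (2 * X + Y)) / 2) ∨
      (∃ P : ℝ, ((-2 : ℝ), (1 : ℝ), P) ∈ arr ∧ ∀ X Y, wN al mu r X Y = (-2 * X + Y - P) / 2) := by
    have hv : ∀ (r : Fin 16) (x0 : ℕ) (c : ℤ), 24 ≤ x0 → x0 ≤ 48 → c = 2 * (x0 : ℤ) - 72 →
        cN al r = c → mN mu r = 0 →
        (∃ P : ℝ, ((1 : ℝ), (0 : ℝ), P) ∈ arr ∧ ∀ X Y, wN al mu r X Y = P - X) := by
      intro r x0 c h1 h2 h3 h4 h5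
      refine ⟨(x0 : ℝ) / 2 - 18, k4c_arr_v x0 h1 h2 rfl, fun X Y => ?_⟩
      rw [k4c_w h4 h5, h3]
      push_cast
      ring
    have hd : ∀ (r : Fin 16) (i : ℕ) (c : ℤ), i < 13 → c = 6 * (i : ℤ) - 36 →
        cN al r = c → mN mu r = -1 →
        (∃ P : ℝ, ((2 : ℝ), (1 : ℝ), P) ∈ arr ∧ ∀ X Y, wN al mu r X Y = (P - (2 * X + Y)) / 2) := by
      intro r i c h1 h3 h4 h5
      refine ⟨3 * ((i : ℝ) - 6), k4c_arr_d i h1 rfl, fun X Y => ?_⟩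
      rw [k4c_w h4 h5, h3]
      push_cast
      ring
    have hu : ∀ (r : Fin 16) (i : ℕ) (c : ℤ), i < 13 → c = 36 - 6 * (i : ℤ) →
        cN al r = c → mN mu r = 1 →
        (∃ P : ℝ, ((-2 : ℝ), (1 : ℝ), P) ∈ arr ∧ ∀ X Y, wN al mu r X Y = (-2 * X + Y - P) / 2) := by
      intro r i c h1 h3 h4 h5
      refine ⟨3 * ((i : ℝ) - 6), k4c_arr_u i h1 rfl, fun X Y => ?_⟩
      rw [k4c_w h4 h5, h3]
      push_cast
      ring
    fin_cases r
    · exact absurd rfl hr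
    · exact Or.inl (hv 1 30 (-12) (by norm_num) (by norm_num) (by norm_num) rfl rfl)
    · exact Or.inl (hv 2 32 (-8) (by norm_num) (by norm_num) (by norm_num) rfl rfl)
    · exact Or.inl (hv 3 34 (-4) (by norm_num) (by norm_num) (by norm_num) rfl rfl)
    · exact Or.inl (hv 4 36 0 (by norm_num) (by norm_num) (by norm_num) rfl rfl)
    · exact Or.inl (hv 5 38 4 (by norm_num) (by norm_num) (by norm_num) rfl rfl)
    · exact Or.inl (hv 6 40 8 (by norm_num) (by norm_num) (by norm_num) rfl rfl)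
    · exact Or.inl (hv 7 42 12 (by norm_num) (by norm_num) (by norm_num) rfl rfl)
    · exact Or.inl (hv 8 48 24 (by norm_num) (by norm_num) (by norm_num) rfl rfl)
    · exact Or.inl (hv 9 24 (-24) (by norm_num) (by norm_num) (by norm_num) rfl rfl)
    · exact Or.inr (Or.inr (hu 10 4 12 (by norm_num) (by norm_num) rfl rfl))
    · exact Or.inr (Or.inl (hd 11 8 12 (by norm_num) (by norm_num) rfl rfl))
    · exact Or.inr (Or.inr (hu 12 8 (-12) (by norm_num) (by norm_num) rfl rfl))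
    · exact Or.inr (Or.inl (hd 13 4 (-12) (by norm_num) (by norm_num) rfl rfl))
    · exact Or.inr (Or.inr (hu 14 6 0 (by norm_num) (by norm_num) rfl rfl))
    · exact Or.inr (Or.inl (hd 15 6 0 (by norm_num) (by norm_num) rfl rfl))
  rcases key with ⟨P, hP, hw⟩ | ⟨P, hP, hw⟩ | ⟨P, hP, hw⟩
  · exact k4c_v hw hP x y hcell
  · exact k4c_d hw hP x y hcell
  · exact k4c_u hw hP x y hcell

end H58Q
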