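import Pool.Agent.Lib.H58Q.K4A
import Pool.Agent.Lib.H58Q.K4C

/-! H58Q K4D -/

namespace H58Q

open Set Finset MeasureTheory

/-- CHUNK K4D. `w_r` is affine, so `w_r(X, Y) = sum θ_i w_r(x i, y i)`. For `r ≠ 0` the signs agree and
`|w_r(X, Y)| = sum θ_i |w_r(x i, y i)|`; for `r = 0` we have `≤` and the coefficient is `≥ 0`. -/
theorem eeN_cell (al mu : ℕ) (hmu : mu ≤ 1) (l : Fin 7 → ℕ) {m : ℕ} (θ x y : Fin m → ℝ)
    (hθ : ∀ i, 0 ≤ θ i) (hs : ∑ i, θ i = 1) {X Y : ℝ} (hX : ∑ i, θ i * x i = X)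
    (hY : ∑ i, θ i * y i = Y)
    (hcell : ∀ i, ∀ l ∈ arr,
      (l.1 * X + l.2.1 * Y ≤ l.2.2 → l.1 * x i + l.2.1 * y i ≤ l.2.2) ∧
      (l.2.2 ≤ l.1 * X + l.2.1 * Y → l.2.2 ≤ l.1 * x i + l.2.1 * y i)) :
    eeN al mu l X Y ≤ ∑ i, θ i * eeN al mu l (x i) (y i) := by
  have haff : ∀ r, wN al mu r X Y = ∑ i, θ i * wN al mu r (x i) (y i) := by
    intro r
    have e : ∀ i, θ i * wN al mu r (x i) (y i) =
        θ i * ((cN al r : ℝ) / 4) + (mN mu r : ℝ) / 2 * (θ i * y i) - θ i * x i := fun i => by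
      unfold wN
      ring
    rw [Finset.sum_congr rfl fun i _ => e i, Finset.sum_sub_distrib, Finset.sum_add_distrib,
      ← Finset.sum_mul, ← Finset.mul_sum, hs, hX, hY]
    unfold wN
    ring
  have hle : ∀ r, |wN al mu r X Y| ≤ ∑ i, θ i * |wN al mu r (x i) (y i)| := by
    intro r
    rw [haff r]
    refine (Finset.abs_sum_le_sum_abs _ _).trans (le_of_eq ?_)
    exact Finset.sum_congr rfl fun i _ => by rw [abs_mul, abs_of_nonneg (hθ i)]
  have heq : ∀ r : Fin 16, r ≠ 0 → |wN al mu r X Y| = ∑ i, θ i * |wN al mu r (x i) (y i)| := by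
    intro r hr
    obtain ⟨h1, h2⟩ := wN_sign al mu r hr x y hcell
    rcases le_total 0 (wN al mu r X Y) with h | h
    · rw [abs_of_nonneg h, haff r]
      exact Finset.sum_congr rfl fun i _ => by rw [abs_of_nonneg (h1 h i)]
    · rw [abs_of_nonpos h, haff r, ← Finset.sum_neg_distrib]
      exact Finset.sum_congr rfl fun i _ => by rw [abs_of_nonpos (h2 h i)]; ring
  have hterm : ∀ r, (gN l al mu r : ℝ) * |wN al mu r X Y| ≤
      (gN l al mu r : ℝ) * ∑ i, θ i * |wN al mu r (x i) (y i)| := by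
    intro r
    by_cases hr : r = 0
    · subst hr
      refine mul_le_mul_of_nonneg_left (hle 0) ?_
      exact_mod_cast gN_zero_nonneg al mu l
    · rw [heq r hr]
  have h1 : ∑ r, (gN l al mu r : ℝ) * |wN al mu r X Y| ≤
      ∑ i, θ i * ∑ r, (gN l al mu r : ℝ) * |wN al mu r (x i) (y i)| := by
    refine (Finset.sum_le_sum fun r _ => hterm r).trans (le_of_eq ?_)
    simp only [Finset.mul_sum]
    rw [Finset.sum_comm]
    exact Finset.sum_congr rfl fun i _ => Finset.sum_congr rfl fun r _ => by ring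
  rw [eeN_eq al mu hmu]
  have h2 : ∀ i, θ i * eeN al mu l (x i) (y i) =
      (θ i * ∑ r, (gN l al mu r : ℝ) * |wN al mu r (x i) (y i)|) / (2 * 1920000000) := fun i => by
    rw [eeN_eq al mu hmu]
    ring
  rw [Finset.sum_congr rfl fun i _ => h2 i, ← Finset.sum_div]
  exact div_le_div_of_nonneg_right h1 (by norm_num)

end H58Q
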