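import Pool.Agent.Lib.H58Q.Defs

/-! H58Q M1A -/

namespace H58Q

open Set Finset MeasureTheory

theorem m1a_exp {m : ℕ} (θ u : Fin m → ℝ) (hs : ∑ i, θ i = 1) (c : ℝ) :
    ∑ i, θ i * (u i - c) ^ 2 = ∑ i, θ i * u i ^ 2 - 2 * c * ∑ i, θ i * u i + c ^ 2 := by
  have h1 : ∑ i, θ i * (u i - c) ^ 2 = ∑ i, (θ i * u i ^ 2 - 2 * c * (θ i * u i) + c ^ 2 * θ i) :=
    Finset.sum_congr rfl fun i _ => by ring
  rw [h1, Finset.sum_add_distrib, Finset.sum_sub_distrib, ← Finset.mul_sum, ← Finset.mul_sum, hs, mul_one]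

theorem m1a_var0 {m : ℕ} (θ u : Fin m → ℝ) (hθ : ∀ i, 0 ≤ θ i) (hs : ∑ i, θ i = 1) :
    (∑ i, θ i * u i) ^ 2 ≤ ∑ i, θ i * u i ^ 2 := by
  have h1 : 0 ≤ ∑ i, θ i * (u i - ∑ i, θ i * u i) ^ 2 :=
    Finset.sum_nonneg fun i _ => mul_nonneg (hθ i) (sq_nonneg _)
  rw [m1a_exp θ u hs] at h1
  nlinarith

theorem m1a_var {m : ℕ} (θ e : Fin m → ℝ) (hθ : ∀ i, 0 ≤ θ i) (hs : ∑ i, θ i = 1) {A : ℝ}
    (hA : ∀ i j, |e i - e j| ≤ A) : ∑ i, θ i * e i ^ 2 - (∑ i, θ i * e i) ^ 2 ≤ A ^ 2 / 4 := by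
  have hm : Nonempty (Fin m) := by
    by_contra h
    rw [not_nonempty_iff] at h
    rw [Finset.univ_eq_empty, Finset.sum_empty] at hs
    exact zero_ne_one hs
  obtain ⟨i0, hi0⟩ := Finite.exists_min e
  have h1 : ∑ i, θ i * (e i - (e i0 + A / 2)) ^ 2 ≤ A ^ 2 / 4 := by
    have h2 : ∑ i, θ i * (e i - (e i0 + A / 2)) ^ 2 ≤ ∑ i, θ i * (A ^ 2 / 4) := by
      refine Finset.sum_le_sum fun i _ => mul_le_mul_of_nonneg_left ?_ (hθ i)
      have h3 := hi0 i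
      have h4 := (abs_le.1 (hA i i0)).2
      nlinarith
    rwa [← Finset.sum_mul, hs, one_mul] at h2
  rw [m1a_exp θ e hs] at h1
  nlinarith [sq_nonneg (∑ i, θ i * e i - (e i0 + A / 2))]

/-- Grueß: `sum θ e * sum θ F ≤ sum θ (e F + c)` if `c ≥ osc e * osc F / 4`. CHUNK M1A. With the means
`e0`, `F0`: `sum θ (e_i - e0) (F_i - F0) ≥ - sqrt (Var e) sqrt (Var F)` and `Var e ≤ A ^ 2 / 4`
(`Var e = sum θ (e_i - t)^2 - (e0 - t)^2` for `t` the midpoint of an interval of length `A` that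
contains all `e_i`). Elementary alternative: let `e_i ∈ [a, a + A]`, `F_i ∈ [b, b + B]` (minimum and
maximum of finitely many values; `m = 0` is impossible), put `x_i = (e_i - a) / A`. -/
theorem gruss {m : ℕ} (θ e F : Fin m → ℝ) (hθ : ∀ i, 0 ≤ θ i) (hs : ∑ i, θ i = 1) {A B : ℝ}
    (hA : ∀ i j, |e i - e j| ≤ A) (hB : ∀ i j, |F i - F j| ≤ B) :
    (∑ i, θ i * e i) * (∑ i, θ i * F i) ≤ ∑ i, θ i * (e i * F i + A * B / 4) := by
  have hm : Nonempty (Fin m) := by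
    by_contra h
    rw [not_nonempty_iff] at h
    rw [Finset.univ_eq_empty, Finset.sum_empty] at hs
    exact zero_ne_one hs
  obtain ⟨i0⟩ := hm
  have hA0 : 0 ≤ A := (abs_nonneg _).trans (hA i0 i0)
  have hB0 : 0 ≤ B := (abs_nonneg _).trans (hB i0 i0)
  have h1 : ∑ i, θ i * (e i * F i + A * B / 4) = ∑ i, θ i * (e i * F i) + A * B / 4 := by
    have h2 : ∑ i, θ i * (e i * F i + A * B / 4) = ∑ i, (θ i * (e i * F i) + θ i * (A * B / 4)) :=
      Finset.sum_congr rfl fun i _ => by ring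
    rw [h2, Finset.sum_add_distrib, ← Finset.sum_mul, hs, one_mul]
  rw [h1]
  have hdeg : ∀ (u v : Fin m → ℝ), (∀ i, u i = u i0) → (∑ i, θ i * u i) * (∑ i, θ i * v i) = ∑ i, θ i * (u i * v i) := by
    intro u v hu
    have h3 : ∑ i, θ i * u i = u i0 := by
      have h4 : ∑ i, θ i * u i = ∑ i, θ i * u i0 := Finset.sum_congr rfl fun i _ => by rw [hu i]
      rw [h4, ← Finset.sum_mul, hs, one_mul]
    rw [h3, Finset.mul_sum]
    refine Finset.sum_congr rfl fun i _ => ?_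
    rw [hu i]
    ring
  rcases hA0.eq_or_lt with hA1 | hA1
  · have h3 : ∀ i, e i = e i0 := by
      intro i
      have := hA i i0
      rw [← hA1] at this
      exact sub_eq_zero.1 (abs_nonpos_iff.1 this)
    rw [hdeg e F h3, ← hA1]
    linarith
  rcases hB0.eq_or_lt with hB1 | hB1
  · have h3 : ∀ i, F i = F i0 := by
      intro i
      have := hB i i0
      rw [← hB1] at this
      exact sub_eq_zero.1 (abs_nonpos_iff.1 this)
    have h4 : ∑ i, θ i * (e i * F i) = ∑ i, θ i * (F i * e i) := Finset.sum_congr rfl fun i _ => by ring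
    rw [mul_comm, hdeg F e h3, h4, ← hB1]
    linarith
  have h5 := m1a_var0 θ (fun i => B * e i + A * F i) hθ hs
  have h6 : ∑ i, θ i * (B * e i + A * F i) = B * ∑ i, θ i * e i + A * ∑ i, θ i * F i := by
    rw [Finset.mul_sum, Finset.mul_sum, ← Finset.sum_add_distrib]
    exact Finset.sum_congr rfl fun i _ => by ring
  have h7 : ∑ i, θ i * (B * e i + A * F i) ^ 2 = B ^ 2 * ∑ i, θ i * e i ^ 2 + 2 * (A * B) * ∑ i, θ i * (e i * F i) +
      A ^ 2 * ∑ i, θ i * F i ^ 2 := by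
    rw [Finset.mul_sum, Finset.mul_sum, Finset.mul_sum, ← Finset.sum_add_distrib, ← Finset.sum_add_distrib]
    exact Finset.sum_congr rfl fun i _ => by ring
  rw [h6, h7] at h5
  have h8 := mul_le_mul_of_nonneg_left (m1a_var θ e hθ hs hA) (sq_nonneg B)
  have h9 := mul_le_mul_of_nonneg_left (m1a_var θ F hθ hs hB) (sq_nonneg A)
  have hAB : 0 < A * B := mul_pos hA1 hB1
  have h10 : A * B * ((∑ i, θ i * e i) * ∑ i, θ i * F i) ≤ A * B * (∑ i, θ i * (e i * F i) + A * B / 4) := by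
    linarith
  exact le_of_mul_le_mul_left h10 hAB

end H58Q
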