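import Pool.Agent.Lib.H58Q.Defs

/-! H58Q M1X -/

namespace H58Q

open Set Finset MeasureTheory

theorem m1x_mem {x0 : ℕ} (h : (24 ≤ x0 ∧ x0 ≤ 48) ∨ (∃ j, j < 9 ∧ x0 = 2 * j + 6) ∨ (∃ j, j < 9 ∧ x0 = 2 * j + 50)) :
    x0 ∈ xs := by
  unfold xs
  simp only [Finset.mem_union, Finset.mem_image, Finset.mem_range, Finset.mem_insert, Finset.mem_singleton]
  rcases h with h | ⟨j, hj, rfl⟩ | ⟨j, hj, rfl⟩
  · exact Or.inl (Or.inl (Or.inl ⟨x0 - 24, by omega, by omega⟩))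
  · exact Or.inl (Or.inl (Or.inr ⟨j, hj, rfl⟩))
  · exact Or.inl (Or.inr ⟨j, hj, rfl⟩)

/-- the line `X = v` -/
theorem m1x_int {v : ℤ} (h1 : -15 ≤ v) (h2 : v ≤ 15) : ∃ x0 ∈ xs, (x0 : ℝ) / 2 - 18 = v := by
  obtain ⟨a, ha⟩ : ∃ a : ℕ, (a : ℤ) = v + 18 := ⟨(v + 18).toNat, by omega⟩
  refine ⟨2 * a, m1x_mem ?_, ?_⟩
  · by_cases h3 : a ≤ 11
    · exact Or.inr (Or.inl ⟨a - 3, by omega, by omega⟩)
    · by_cases h4 : a ≤ 24
      · exact Or.inl ⟨by omega, by omega⟩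
      · exact Or.inr (Or.inr ⟨a - 25, by omega, by omega⟩)
  · have h5 : (a : ℝ) = v + 18 := by exact_mod_cast ha
    push_cast
    rw [h5]
    ring

/-- the line `X = v / 2` -/
theorem m1x_half {v : ℤ} (h1 : -12 ≤ v) (h2 : v ≤ 12) : ∃ x0 ∈ xs, (x0 : ℝ) / 2 - 18 = v / 2 := by
  obtain ⟨a, ha⟩ : ∃ a : ℕ, (a : ℤ) = v + 36 := ⟨(v + 36).toNat, by omega⟩
  refine ⟨a, m1x_mem (Or.inl ⟨by omega, by omega⟩), ?_⟩
  have h5 : (a : ℝ) = v + 36 := by exact_mod_cast ha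
  rw [h5]
  ring

/-- CHUNK M1X. Horizontal step of the arrangement: the lines `X = i / 2`, `|i| ≤ 12`, and `X = i`,
`|i| ≤ 15`. Let `j` be the integer with `j ≤ X < j + 1` (half integers if `|X| < 6`). -/
theorem xs_cell {m : ℕ} (x : Fin m → ℝ) {X : ℝ} (hX : |X| ≤ 15)
    (hcell : ∀ x0 ∈ xs, ((x0 : ℝ) / 2 - 18 ≤ X → ∀ i, (x0 : ℝ) / 2 - 18 ≤ x i) ∧
      (X ≤ (x0 : ℝ) / 2 - 18 → ∀ i, x i ≤ (x0 : ℝ) / 2 - 18)) :
    (∀ i j, |x i - x j| ≤ 1) ∧ (|X| < 6 → ∀ i j, |x i - x j| ≤ 1 / 2) ∧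
    (6 ≤ |X| → ∀ i, 6 ≤ |x i|) := by
  have hX' := abs_le.1 hX
  have hI : ∀ v : ℤ, -15 ≤ v → v ≤ 15 → ((v : ℝ) ≤ X → ∀ i, (v : ℝ) ≤ x i) ∧ (X ≤ v → ∀ i, x i ≤ v) := by
    intro v h1 h2
    obtain ⟨x0, h3, h4⟩ := m1x_int h1 h2
    have h5 := hcell x0 h3
    rw [h4] at h5
    exact h5
  have hH : ∀ v : ℤ, -12 ≤ v → v ≤ 12 → ((v : ℝ) / 2 ≤ X → ∀ i, (v : ℝ) / 2 ≤ x i) ∧
      (X ≤ (v : ℝ) / 2 → ∀ i, x i ≤ (v : ℝ) / 2) := by
    intro v h1 h2
    obtain ⟨x0, h3, h4⟩ := m1x_half h1 h2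
    have h5 := hcell x0 h3
    rw [h4] at h5
    exact h5
  refine ⟨?_, ?_, ?_⟩
  · intro i j
    rcases hX'.2.eq_or_lt with h1 | h1
    · have h2 := hI 15 (by norm_num) (by norm_num)
      push_cast at h2
      have h3 := h2.1 (by linarith)
      have h4 := h2.2 (by linarith)
      have a1 := h3 i
      have a2 := h3 j
      have a3 := h4 i
      have a4 := h4 j
      rw [abs_le]
      constructor <;> linarith
    · have h2 : -15 ≤ ⌊X⌋ := by
        rw [Int.le_floor]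
        push_cast
        exact hX'.1
      have h3 : ⌊X⌋ < 15 := by
        rw [Int.floor_lt]
        push_cast
        exact h1
      have h4 := (hI ⌊X⌋ h2 (by omega)).1 (Int.floor_le X)
      have h5 := (hI (⌊X⌋ + 1) (by omega) (by omega)).2 (by
        push_cast
        exact (Int.lt_floor_add_one X).le)
      have a1 := h4 i
      have a2 := h4 j
      have a3 := h5 i
      have a4 := h5 j
      push_cast at a3 a4
      rw [abs_le]
      constructor <;> linarith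
  · intro h0 i j
    have h0' := abs_lt.1 h0
    have h2 : -12 ≤ ⌊2 * X⌋ := by
      rw [Int.le_floor]
      push_cast
      linarith
    have h3 : ⌊2 * X⌋ < 12 := by
      rw [Int.floor_lt]
      push_cast
      linarith
    have h6 := Int.floor_le (2 * X)
    have h7 := Int.lt_floor_add_one (2 * X)
    have h4 := (hH ⌊2 * X⌋ h2 (by omega)).1 (by linarith)
    have h5 := (hH (⌊2 * X⌋ + 1) (by omega) (by omega)).2 (by
      push_cast
      linarith)
    have a1 := h4 i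
    have a2 := h4 j
    have a3 := h5 i
    have a4 := h5 j
    push_cast at a3 a4
    rw [abs_le]
    constructor <;> linarith
  · intro h0 i
    rcases le_abs.1 h0 with h1 | h1
    · have h2 := hI 6 (by norm_num) (by norm_num)
      push_cast at h2
      exact (h2.1 h1 i).trans (le_abs_self _)
    · have h2 := hI (-6) (by norm_num) (by norm_num)
      push_cast at h2
      have h3 := h2.2 (by linarith) i
      have h4 := neg_le_abs (x i)
      linarith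

end H58Q
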