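import Pool.Agent.Lib.H58Q.K4B

/-! H58Q N1B -/

namespace H58Q

open Set Finset MeasureTheory

theorem nsub_cast (a b : ℕ) : ((a - b : ℕ) : ℝ) = max 0 ((a : ℝ) - b) := by
  rcases le_total a b with h | h
  · have h' : (a : ℝ) ≤ b := by exact_mod_cast h
    rw [Nat.sub_eq_zero_of_le h, max_eq_left (by linarith)]; simp
  · have h' : (b : ℝ) ≤ a := by exact_mod_cast h
    rw [Nat.cast_sub h, max_eq_right (by linarith)]

theorem max_scale {c v w : ℝ} (hc : 0 ≤ c) (h : v = c * w) : max 0 v = c * max 0 w := by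
  rw [h, mul_max_of_nonneg _ _ hc, mul_zero]

/-- CHUNK N1B. -/
theorem e_sound (l : Fin 7 → ℕ) (LA al mu dl X' Y' D : ℕ) (hD : 0 < D) (hmu : mu ≤ 1)
    (hX : X' ≤ 36 * D) (hY : Y' ≤ 36 * D) (hLA : LA = ∑ i, l i)
    (hdl : (dl : ℤ) = al * LA + 4 * ∑ i : Fin 7, ((i : ℤ) - 3) * (l i : ℤ)) :
    (ePos LA al mu dl X' Y' (36 * D - Y') D : ℝ)
      - (eNeg LA (l 0) (l 1) (l 2) (l 3) (l 4) (l 5) (l 6) mu dl X' Y' (36 * D - Y') D : ℝ) =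
      1920000000 * D * eeN al mu l ((X' : ℝ) / D - 18) ((Y' : ℝ) / D - 18) := by
  have hD' : (0 : ℝ) < D := by exact_mod_cast hD
  have hD0 : (D : ℝ) ≠ 0 := hD'.ne'
  have hYb : ((36 * D - Y' : ℕ) : ℝ) = 36 * D - Y' := by push_cast [Nat.cast_sub hY]; ring
  rw [eeN_pos al mu hmu l]
  set X : ℝ := (X' : ℝ) / D - 18 with hXd
  set Y : ℝ := (Y' : ℝ) / D - 18 with hYd
  have hX1 : (X' : ℝ) = D * X + 18 * D := by rw [hXd]; field_simp; ring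
  have hY1 : (Y' : ℝ) = D * Y + 18 * D := by rw [hYd]; field_simp; ring
  -- the sixteen positive parts
  have w0 : ((2 * mu * Y' + 72 * D - (4 * X' + (al + 36 * mu) * D) : ℕ) : ℝ) =
      (4 * D) * max 0 (wN al mu 0 X Y) := by
    rw [nsub_cast]
    refine max_scale (by positivity) ?_
    have e : wN al mu 0 X Y = ((-(al : ℤ) : ℤ) : ℝ) / 4 + (((mu : ℤ) : ℤ) : ℝ) / 2 * Y - X := rfl
    rw [e]; push_cast; rw [hX1, hY1]; ring
  have wx : ∀ (c : ℕ) (r : Fin 16) (d : ℝ), cN al r / 4 = d → (mN mu r : ℝ) = 0 →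
      (c : ℝ) = 18 + d → ((c * D - X' : ℕ) : ℝ) = D * max 0 (wN al mu r X Y) := by
    intro c r d h1 h2 h3
    rw [nsub_cast]
    refine max_scale hD'.le ?_
    unfold wN
    rw [h1, h2]; push_cast; rw [h3, hX1]; ring
  have w1 := wx 15 1 (-3) (by show ((-12 : ℤ) : ℝ) / 4 = _; norm_num) (by show ((0 : ℤ) : ℝ) = _; norm_num) (by norm_num)
  have w2 := wx 16 2 (-2) (by show ((-8 : ℤ) : ℝ) / 4 = _; norm_num) (by show ((0 : ℤ) : ℝ) = _; norm_num) (by norm_num)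
  have w3 := wx 17 3 (-1) (by show ((-4 : ℤ) : ℝ) / 4 = _; norm_num) (by show ((0 : ℤ) : ℝ) = _; norm_num) (by norm_num)
  have w4 := wx 18 4 0 (by show ((0 : ℤ) : ℝ) / 4 = _; norm_num) (by show ((0 : ℤ) : ℝ) = _; norm_num) (by norm_num)
  have w5 := wx 19 5 1 (by show ((4 : ℤ) : ℝ) / 4 = _; norm_num) (by show ((0 : ℤ) : ℝ) = _; norm_num) (by norm_num)
  have w6 := wx 20 6 2 (by show ((8 : ℤ) : ℝ) / 4 = _; norm_num) (by show ((0 : ℤ) : ℝ) = _; norm_num) (by norm_num)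
  have w7 := wx 21 7 3 (by show ((12 : ℤ) : ℝ) / 4 = _; norm_num) (by show ((0 : ℤ) : ℝ) = _; norm_num) (by norm_num)
  have w8 := wx 24 8 6 (by show ((24 : ℤ) : ℝ) / 4 = _; norm_num) (by show ((0 : ℤ) : ℝ) = _; norm_num) (by norm_num)
  have w9 := wx 12 9 (-6) (by show ((-24 : ℤ) : ℝ) / 4 = _; norm_num) (by show ((0 : ℤ) : ℝ) = _; norm_num) (by norm_num)
  have wp : ∀ (c : ℕ) (r : Fin 16) (d : ℝ), cN al r / 4 = d → (mN mu r : ℝ) = 1 →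
      (c : ℝ) = 18 + 2 * d → ((c * D + Y' - 2 * X' : ℕ) : ℝ) = (2 * D) * max 0 (wN al mu r X Y) := by
    intro c r d h1 h2 h3
    rw [nsub_cast]
    refine max_scale (by positivity) ?_
    unfold wN
    rw [h1, h2]; push_cast; rw [h3, hX1, hY1]; ring
  have wm : ∀ (c : ℕ) (r : Fin 16) (d : ℝ), cN al r / 4 = d → (mN mu r : ℝ) = -1 →
      (c : ℝ) = 18 + 2 * d →
      ((c * D + (36 * D - Y') - 2 * X' : ℕ) : ℝ) = (2 * D) * max 0 (wN al mu r X Y) := by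
    intro c r d h1 h2 h3
    rw [nsub_cast]
    refine max_scale (by positivity) ?_
    unfold wN
    rw [h1, h2, Nat.cast_add, hYb]; push_cast; rw [h3, hX1, hY1]; ring
  have w10 := wp 24 10 3 (by show ((12 : ℤ) : ℝ) / 4 = _; norm_num) (by show ((1 : ℤ) : ℝ) = _; norm_num) (by norm_num)
  have w11 := wm 24 11 3 (by show ((12 : ℤ) : ℝ) / 4 = _; norm_num) (by show ((-1 : ℤ) : ℝ) = _; norm_num) (by norm_num)
  have w12 := wp 12 12 (-3) (by show ((-12 : ℤ) : ℝ) / 4 = _; norm_num) (by show ((1 : ℤ) : ℝ) = _; norm_num) (by norm_num)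
  have w13 := wm 12 13 (-3) (by show ((-12 : ℤ) : ℝ) / 4 = _; norm_num) (by show ((-1 : ℤ) : ℝ) = _; norm_num) (by norm_num)
  have w14 := wp 18 14 0 (by show ((0 : ℤ) : ℝ) / 4 = _; norm_num) (by show ((1 : ℤ) : ℝ) = _; norm_num) (by norm_num)
  have w15 := wm 18 15 0 (by show ((0 : ℤ) : ℝ) / 4 = _; norm_num) (by show ((-1 : ℤ) : ℝ) = _; norm_num) (by norm_num)
  -- unfold the natural number expressions
  have hP : (ePos LA al mu dl X' Y' (36 * D - Y') D : ℝ) =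
      48 * LA * ((2 * mu * Y' + 72 * D - (4 * X' + (al + 36 * mu) * D) : ℕ) : ℝ) +
      (2 * dl * ((24 * D - X' : ℕ) : ℝ) + (dl * ((24 * D + Y' - 2 * X' : ℕ) : ℝ) +
      ((dl + 12 * (mu * LA)) * ((24 * D + (36 * D - Y') - 2 * X' : ℕ) : ℝ) +
      (12 * (mu * LA) * ((12 * D + (36 * D - Y') - 2 * X' : ℕ) : ℝ) +
      24 * (mu * LA) * ((18 * D + (36 * D - Y') - 2 * X' : ℕ) : ℝ))))) := by
    unfold ePos
    simp only [Nat.add_eq, Nat.mul_eq, Nat.sub_eq]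
    rw [Nat.cast_add, Nat.cast_mul, Nat.cast_mul, Nat.cast_add, Nat.cast_mul, Nat.cast_mul,
      Nat.cast_add, Nat.cast_mul, Nat.cast_add, Nat.cast_mul, Nat.cast_add, Nat.cast_add]
    simp only [Nat.cast_mul, Nat.cast_ofNat]
  have hN : (eNeg LA (l 0) (l 1) (l 2) (l 3) (l 4) (l 5) (l 6) mu dl X' Y' (36 * D - Y') D : ℝ) =
      192 * (l 0 * ((15 * D - X' : ℕ) : ℝ) + (l 1 * ((16 * D - X' : ℕ) : ℝ) +
      (l 2 * ((17 * D - X' : ℕ) : ℝ) + (l 3 * ((18 * D - X' : ℕ) : ℝ) +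
      (l 4 * ((19 * D - X' : ℕ) : ℝ) + (l 5 * ((20 * D - X' : ℕ) : ℝ) +
      l 6 * ((21 * D - X' : ℕ) : ℝ))))))) +
      (2 * dl * ((12 * D - X' : ℕ) : ℝ) + (12 * (mu * LA) * ((24 * D + Y' - 2 * X' : ℕ) : ℝ) +
      ((dl + 12 * (mu * LA)) * ((12 * D + Y' - 2 * X' : ℕ) : ℝ) +
      (dl * ((12 * D + (36 * D - Y') - 2 * X' : ℕ) : ℝ) +
      24 * (mu * LA) * ((18 * D + Y' - 2 * X' : ℕ) : ℝ))))) := by
    unfold eNeg
    simp only [Nat.add_eq, Nat.mul_eq, Nat.sub_eq]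
    simp only [Nat.cast_mul, Nat.cast_add, Nat.cast_ofNat]
  rw [hP, hN, w0, w1, w2, w3, w4, w5, w6, w7, w8, w9, w10, w11, w12, w13, w14, w15]
  have hs : ∀ f : Fin 16 → ℝ, ∑ k, f k = f 0 + f 1 + f 2 + f 3 + f 4 + f 5 + f 6 + f 7 + f 8 + f 9
      + f 10 + f 11 + f 12 + f 13 + f 14 + f 15 := by
    intro f
    simp only [Fin.sum_univ_succ, Fin.sum_univ_zero]
    simp only [Fin.succ_zero_eq_one, Fin.succ_one_eq_two]
    ring_nf
    rfl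
  obtain ⟨LZ, hLZ⟩ : ∃ LZ : ℤ, LZ = ∑ i, (l i : ℤ) := ⟨_, rfl⟩
  obtain ⟨DZ, hDZ⟩ : ∃ DZ : ℤ, DZ = (al : ℤ) * LZ + 4 * ∑ i : Fin 7, ((i : ℤ) - 3) * (l i : ℤ) :=
    ⟨_, rfl⟩
  obtain ⟨S1, hS1⟩ : ∃ S1 : ℤ, S1 = if (al : ℤ) = 0 ∧ (mu : ℤ) = 1 then 48 * LZ else 0 := ⟨_, rfl⟩
  obtain ⟨S2, hS2⟩ : ∃ S2 : ℤ, S2 = if (al : ℤ) = 24 ∧ (mu : ℤ) = 0 then 2 * DZ else 0 := ⟨_, rfl⟩
  have g0 : gN l al mu 0 = 192 * LZ - S1 - S2 := by subst hS1 hS2 hDZ hLZ; rfl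
  have g1 : gN l al mu 1 = -192 * l 0 := rfl
  have g2 : gN l al mu 2 = -192 * l 1 := rfl
  have g3 : gN l al mu 3 = -192 * l 2 := rfl
  have g4 : gN l al mu 4 = -192 * l 3 := rfl
  have g5 : gN l al mu 5 = -192 * l 4 := rfl
  have g6 : gN l al mu 6 = -192 * l 5 := rfl
  have g7 : gN l al mu 7 = -192 * l 6 := rfl
  have g8 : gN l al mu 8 = 2 * DZ := by subst hDZ hLZ; rfl
  have g9 : gN l al mu 9 = -2 * DZ + S2 := by subst hS2 hDZ hLZ; rfl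
  have g10 : gN l al mu 10 = 2 * (DZ - 12 * mu * LZ) := by subst hDZ hLZ; rfl
  have g11 : gN l al mu 11 = 2 * (DZ + 12 * mu * LZ) := by subst hDZ hLZ; rfl
  have g12 : gN l al mu 12 = -2 * (DZ + 12 * mu * LZ) := by subst hDZ hLZ; rfl
  have g13 : gN l al mu 13 = 2 * (12 * mu * LZ - DZ) := by subst hDZ hLZ; rfl
  have g14 : gN l al mu 14 = -48 * mu * LZ + S1 := by subst hS1 hLZ; rfl
  have g15 : gN l al mu 15 = 48 * mu * LZ := by subst hLZ; rfl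
  have hLAr : (LA : ℝ) = (LZ : ℝ) := by
    rw [hLZ, hLA]; push_cast; rfl
  have hdlr : (dl : ℝ) = (DZ : ℝ) := by
    have h1 : (dl : ℤ) = DZ := by
      rw [hdl, hDZ, hLZ, hLA]; push_cast; rfl
    exact_mod_cast h1
  have hx1 : (S1 : ℝ) * (max 0 (wN al mu 14 X Y) - max 0 (wN al mu 0 X Y)) = 0 := by
    rw [hS1]
    split_ifs with hc
    · have e : wN al mu 0 X Y = wN al mu 14 X Y := by
        show ((-(al : ℤ) : ℤ) : ℝ) / 4 + (((mu : ℤ) : ℤ) : ℝ) / 2 * Y - X =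
          ((0 : ℤ) : ℝ) / 4 + ((1 : ℤ) : ℝ) / 2 * Y - X
        rw [hc.1, hc.2]; norm_num
      rw [e, sub_self, mul_zero]
    · simp
  have hx2 : (S2 : ℝ) * (max 0 (wN al mu 9 X Y) - max 0 (wN al mu 0 X Y)) = 0 := by
    rw [hS2]
    split_ifs with hc
    · have e : wN al mu 0 X Y = wN al mu 9 X Y := by
        show ((-(al : ℤ) : ℤ) : ℝ) / 4 + (((mu : ℤ) : ℤ) : ℝ) / 2 * Y - X =
          ((-24 : ℤ) : ℝ) / 4 + ((0 : ℤ) : ℝ) / 2 * Y - X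
        rw [hc.1, hc.2]
      rw [e, sub_self, mul_zero]
    · simp
  rw [hs, g0, g1, g2, g3, g4, g5, g6, g7, g8, g9, g10, g11, g12, g13, g14, g15, hLAr, hdlr]
  push_cast
  have hm : ∀ S : ℝ, 1920000000 * (D : ℝ) * (S / 1920000000) = D * S := by intro S; ring
  rw [hm]
  linear_combination (-(D : ℝ)) * hx1 + (-(D : ℝ)) * hx2

end H58Q
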