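import Pool.Agent.Lib.H58Q.Defs

/-! H58Q N1C -/

namespace H58Q

open Set Finset MeasureTheory

theorem n1c_aux (c ep en F K : ℕ) (hK : 0 < K) : (c : ℝ) + ((ep : ℝ) - en) * F / K ≤
    (((c + ((ep - en) * F / K + 1)) - ((en - ep) * F / K) : ℕ) : ℝ) := by
  have hK' : (0 : ℝ) < K := by exact_mod_cast hK
  rcases le_total en ep with h | h
  · have h0 : en - ep = 0 := Nat.sub_eq_zero_of_le h
    rw [h0, Nat.zero_mul, Nat.zero_div, Nat.sub_zero]
    push_cast
    have h1 : (((ep - en) * F : ℕ) : ℝ) = ((ep : ℝ) - en) * F := by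
      rw [Nat.cast_mul, Nat.cast_sub h]
    have h2 : ((ep - en) * F : ℕ) < ((ep - en) * F / K + 1) * K := by
      rw [Nat.mul_comm (_ + 1) K]
      exact Nat.lt_mul_div_succ _ hK
    have h3 : (((ep - en) * F : ℕ) : ℝ) < (((ep - en) * F / K : ℕ) + 1 : ℝ) * K := by
      exact_mod_cast h2
    rw [h1] at h3
    have h4 : ((ep : ℝ) - en) * F / K ≤ (((ep - en) * F / K : ℕ) + 1 : ℝ) := by
      rw [div_le_iff₀ hK']
      exact h3.le
    linarith
  · have h0 : ep - en = 0 := Nat.sub_eq_zero_of_le h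
    rw [h0, Nat.zero_mul, Nat.zero_div]
    have h1 : (((en - ep) * F : ℕ) : ℝ) = ((en : ℝ) - ep) * F := by
      rw [Nat.cast_mul, Nat.cast_sub h]
    have h2 : ((en - ep) * F / K) * K ≤ (en - ep) * F := Nat.div_mul_le_self _ _
    have h3 : (((en - ep) * F / K : ℕ) : ℝ) * K ≤ (((en - ep) * F : ℕ) : ℝ) := by
      exact_mod_cast h2
    rw [h1] at h3
    have h4 : (((en - ep) * F / K : ℕ) : ℝ) ≤ ((en : ℝ) - ep) * F / K := by
      rw [le_div_iff₀ hK']
      exact h3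
    have h5 : c + (0 + 1) ≤ (c + (0 + 1) - (en - ep) * F / K) + (en - ep) * F / K := le_tsub_add
    have h6 : (c : ℝ) + 1 ≤ ((c + (0 + 1) - (en - ep) * F / K : ℕ) : ℝ)
        + (((en - ep) * F / K : ℕ) : ℝ) := by exact_mod_cast h5
    have h7 : ((ep : ℝ) - en) * F / K = - (((en : ℝ) - ep) * F / K) := by ring
    rw [h7]
    linarith

/-- CHUNK N1C. Sound rounding: `E = (ep - en) * F / (1920000000 * D * D * 10 ^ 6)` is the value of
`ee * FF`. -/
theorem net_sound (a0 a6 er ep en F D : ℕ) (hD : 0 < D) (p0 p6 E : ℝ)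
    (h0 : 10 ^ 6 * p0 ≤ (a0 : ℝ)) (h6 : 10 ^ 6 * p6 ≤ (a6 : ℝ))
    (hE : E * (1920000000 * D * (10 ^ 6 * D)) = ((ep : ℝ) - en) * F) :
    10 ^ 6 * (p0 + (E + er / 10 ^ 6)) ≤ (((a0 + er + ((ep - en) * F / (1920000000 * (D * D)) + 1))
      - ((en - ep) * F / (1920000000 * (D * D))) : ℕ) : ℝ) ∧
    10 ^ 6 * (p6 + (E + er / 10 ^ 6) / 2) ≤
      (((a6 + (er / 2 + 1) + ((ep - en) * F / (3840000000 * (D * D)) + 1))
      - ((en - ep) * F / (3840000000 * (D * D))) : ℕ) : ℝ) := by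
  have hD' : (0 : ℝ) < D := by exact_mod_cast hD
  constructor
  · refine le_trans ?_ (n1c_aux (a0 + er) ep en F (1920000000 * (D * D)) (by positivity))
    rw [← hE]
    push_cast
    have e : E * (1920000000 * D * (10 ^ 6 * D)) / (1920000000 * ((D : ℝ) * D)) = 10 ^ 6 * E := by
      field_simp
    rw [e]
    linarith
  · refine le_trans ?_ (n1c_aux (a6 + (er / 2 + 1)) ep en F (3840000000 * (D * D)) (by positivity))
    rw [← hE]
    push_cast
    have e : E * (1920000000 * D * (10 ^ 6 * D)) / (3840000000 * ((D : ℝ) * D)) = 10 ^ 6 * E / 2 := by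
      field_simp
      ring
    rw [e]
    have h2 : (er : ℝ) / 2 ≤ ((er / 2 : ℕ) : ℝ) + 1 := by
      have : er ≤ 2 * (er / 2 + 1) := by omega
      have h : (er : ℝ) ≤ 2 * (((er / 2 : ℕ) : ℝ) + 1) := by exact_mod_cast this
      linarith
    linarith

end H58Q
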