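import Pool.Agent.Lib.H58Q.Defs

/-! H58Q N1E -/

namespace H58Q

open Set Finset MeasureTheory

theorem n1e_aux {x σ s : ℝ} (h : 0 ≤ σ * s * x) (hσ : σ = 1 ∨ σ = -1) (hs : s = 1 ∨ s = -1) :
    |x| = σ * s * x := by
  rcases hσ with rfl | rfl <;> rcases hs with rfl | rfl
  · rw [abs_of_nonneg (by linarith)]; ring
  · rw [abs_of_nonpos (by linarith)]; ring
  · rw [abs_of_nonpos (by linarith)]; ring
  · rw [abs_of_nonneg (by linarith)]; ring

theorem n1e_pos (p q : ℝ) (hp : 0 ≤ p) : ∃ (j : Fin 12) (σ : ℝ), (σ = 1 ∨ σ = -1) ∧ ∀ k : Fin 12,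
    0 ≤ σ * (if k < j then 1 else -1) * ((na k : ℝ) * p + (nc k : ℝ) * q) := by
  rcases lt_or_ge (3 * p + q) 0 with h1 | h1
  · refine ⟨1, 1, Or.inl rfl, fun k => ?_⟩
    fin_cases k <;> norm_num [na, nc, Fin.lt_def] <;> linarith
  rcases lt_or_ge (2 * p + q) 0 with h2 | h2
  · refine ⟨2, 1, Or.inl rfl, fun k => ?_⟩
    fin_cases k <;> norm_num [na, nc, Fin.lt_def] <;> linarith
  rcases lt_or_ge (p + q) 0 with h3 | h3
  · refine ⟨3, 1, Or.inl rfl, fun k => ?_⟩
    fin_cases k <;> norm_num [na, nc, Fin.lt_def] <;> linarith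
  rcases lt_or_ge (p + 2 * q) 0 with h4 | h4
  · refine ⟨4, 1, Or.inl rfl, fun k => ?_⟩
    fin_cases k <;> norm_num [na, nc, Fin.lt_def] <;> linarith
  rcases lt_or_ge (p + 3 * q) 0 with h5 | h5
  · refine ⟨5, 1, Or.inl rfl, fun k => ?_⟩
    fin_cases k <;> norm_num [na, nc, Fin.lt_def] <;> linarith
  rcases lt_or_ge q 0 with h6 | h6
  · refine ⟨6, 1, Or.inl rfl, fun k => ?_⟩
    fin_cases k <;> norm_num [na, nc, Fin.lt_def] <;> linarith
  rcases lt_or_ge (-p + 3 * q) 0 with h7 | h7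
  · refine ⟨7, 1, Or.inl rfl, fun k => ?_⟩
    fin_cases k <;> norm_num [na, nc, Fin.lt_def] <;> linarith
  rcases lt_or_ge (-p + 2 * q) 0 with h8 | h8
  · refine ⟨8, 1, Or.inl rfl, fun k => ?_⟩
    fin_cases k <;> norm_num [na, nc, Fin.lt_def] <;> linarith
  rcases lt_or_ge (-p + q) 0 with h9 | h9
  · refine ⟨9, 1, Or.inl rfl, fun k => ?_⟩
    fin_cases k <;> norm_num [na, nc, Fin.lt_def] <;> linarith
  rcases lt_or_ge (-2 * p + q) 0 with h10 | h10
  · refine ⟨10, 1, Or.inl rfl, fun k => ?_⟩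
    fin_cases k <;> norm_num [na, nc, Fin.lt_def] <;> linarith
  rcases lt_or_ge (-3 * p + q) 0 with h11 | h11
  · refine ⟨11, 1, Or.inl rfl, fun k => ?_⟩
    fin_cases k <;> norm_num [na, nc, Fin.lt_def] <;> linarith
  · refine ⟨0, -1, Or.inr rfl, fun k => ?_⟩
    fin_cases k <;> norm_num [na, nc, Fin.lt_def] <;> linarith

/-- CHUNK N1E. The normals are ordered by their angle in `[0, pi)`: `na i * nc k - na k * nc i > 0` for
`i < k`. So the signs of `n_k . v` (`v = (p, q)`) change at most once: there are `j : Fin 12` and a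
sign `σ = 1` or `σ = -1` with `|n_k . v| = σ n_k . v` for `k < j` and `|n_k . v| = - σ n_k . v` for
`k ≥ j`. (For `i < k < l`: `det(n_i, n_l) n_k = det(n_k, n_l) n_i + det(n_i, n_k) n_l` with positive
determinants, so `n_i . v ≥ 0`, `n_l . v ≥ 0` imply `n_k . v ≥ 0`, with strictness; take for `j` the
first index where the sign changes, or argue by the slope of `v`: 12 cases.) -/
theorem sign_pattern (p q : ℝ) : ∃ (j : Fin 12) (σ : ℝ), (σ = 1 ∨ σ = -1) ∧ ∀ k : Fin 12,
    |(na k : ℝ) * p + (nc k : ℝ) * q| =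
      σ * (if k < j then 1 else -1) * ((na k : ℝ) * p + (nc k : ℝ) * q) := by
  rcases le_total 0 p with hp | hp
  · obtain ⟨j, σ, hσ, h⟩ := n1e_pos p q hp
    refine ⟨j, σ, hσ, fun k => n1e_aux (h k) hσ ?_⟩
    by_cases hk : k < j
    · left; simp [hk]
    · right; simp [hk]
  · obtain ⟨j, σ, hσ, h⟩ := n1e_pos (-p) (-q) (by linarith)
    refine ⟨j, -σ, ?_, fun k => n1e_aux ?_ ?_ ?_⟩
    · rcases hσ with rfl | rfl
      · right; rfl
      · left; norm_num
    · have := h k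
      have e : -σ * (if k < j then (1 : ℝ) else -1) * ((na k : ℝ) * p + (nc k : ℝ) * q)
        = σ * (if k < j then 1 else -1) * ((na k : ℝ) * -p + (nc k : ℝ) * -q) := by ring
      rw [e]; exact this
    · rcases hσ with rfl | rfl
      · right; rfl
      · left; norm_num
    · by_cases hk : k < j
      · left; simp [hk]
      · right; simp [hk]

end H58Q
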