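import Pool.Agent.Lib.H58Q.N1D
import Pool.Agent.Lib.H58Q.N1E

/-! H58Q N1F -/

namespace H58Q

open Set Finset MeasureTheory

/-- CHUNK N1F. -/
theorem zon_sound (a : Fin 12 → ℕ)
    (h : zon (a 0) (a 1) (a 2) (a 3) (a 4) (a 5) (a 6) (a 7) (a 8) (a 9) (a 10) (a 11) = true)
    (p q : ℝ) : ∑ k : Fin 12, (a k : ℝ) * |(na k : ℝ) * p + (nc k : ℝ) * q| ≤
      10 ^ 6 * Real.sqrt (p ^ 2 + q ^ 2) := by
  obtain ⟨j, σ, hσ, hk⟩ := sign_pattern p q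
  have hz := zon_facts a h j
  set SX : ℤ := ∑ k : Fin 12, (if k < j then (a k : ℤ) else -(a k : ℤ)) * na k with hSX
  set SY : ℤ := ∑ k : Fin 12, (if k < j then (a k : ℤ) else -(a k : ℤ)) * nc k with hSY
  have hzr : (SX : ℝ) ^ 2 + (SY : ℝ) ^ 2 ≤ 10 ^ 12 := by exact_mod_cast hz
  have hsum : ∑ k : Fin 12, (a k : ℝ) * |(na k : ℝ) * p + (nc k : ℝ) * q| =
      σ * ((SX : ℝ) * p + (SY : ℝ) * q) := by
    rw [hSX, hSY]
    push_cast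
    rw [Finset.sum_mul, Finset.sum_mul, ← Finset.sum_add_distrib, Finset.mul_sum]
    refine Finset.sum_congr rfl fun k _ => ?_
    rw [hk k]
    split_ifs <;> ring
  rw [hsum]
  have hσ2 : σ ^ 2 = 1 := by rcases hσ with h | h <;> rw [h] <;> norm_num
  have hcs : (σ * ((SX : ℝ) * p + (SY : ℝ) * q)) ^ 2 ≤ (10 ^ 6 * Real.sqrt (p ^ 2 + q ^ 2)) ^ 2 := by
    have e1 : (σ * ((SX : ℝ) * p + (SY : ℝ) * q)) ^ 2 = ((SX : ℝ) * p + (SY : ℝ) * q) ^ 2 := by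
      rw [mul_pow, hσ2, one_mul]
    have e2 : (10 ^ 6 * Real.sqrt (p ^ 2 + q ^ 2)) ^ 2 = 10 ^ 12 * (p ^ 2 + q ^ 2) := by
      rw [mul_pow, Real.sq_sqrt (by positivity)]; norm_num
    rw [e1, e2]
    have e3 : ((SX : ℝ) * p + (SY : ℝ) * q) ^ 2 ≤ ((SX : ℝ) ^ 2 + (SY : ℝ) ^ 2) * (p ^ 2 + q ^ 2) := by
      nlinarith [sq_nonneg ((SX : ℝ) * q - (SY : ℝ) * p)]
    exact e3.trans (mul_le_mul_of_nonneg_right hzr (by positivity))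
  exact le_of_sq_le_sq hcs (by positivity)

end H58Q
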