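import Pool.Agent.Lib.H58Q.N1A
import Pool.Agent.Lib.H58Q.N1B
import Pool.Agent.Lib.H58Q.N1C
import Pool.Agent.Lib.H58Q.N1F
import Pool.Agent.Lib.H58Q.K3D
import Pool.Agent.Lib.H58Q.K2A
import Pool.Agent.Lib.H58Q.K3B

/-! H58Q N1G -/

namespace H58Q

open Set Finset MeasureTheory

/-- the error field chosen by `chk` -/
def erN (X Y D eA eB eC : ℕ) : ℕ :=
  cnd (Nat.ble Y (Nat.mul 10 D)) eC (cnd (Nat.ble (Nat.mul 26 D) Y) eC
    (cnd (Nat.ble X (Nat.mul 12 D)) eB (cnd (Nat.ble (Nat.mul 24 D) X) eB eA)))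

theorem erN_eq (X' Y' D eA eB eC : ℕ) (hD : 0 < D) :
    (erN X' Y' D eA eB eC : ℝ) = erF eA eB eC ((X' : ℝ) / D - 18) ((Y' : ℝ) / D - 18) := by
  have hD' : (0 : ℝ) < D := by exact_mod_cast hD
  have hY1 : |(Y' : ℝ) / D - 18| < 8 ↔ (¬ Y' ≤ 10 * D ∧ ¬ 26 * D ≤ Y') := by
    rw [abs_lt]
    constructor
    · rintro ⟨h1, h2⟩
      constructor
      · intro h
        have : (Y' : ℝ) ≤ 10 * D := by exact_mod_cast h
        have : (Y' : ℝ) / D ≤ 10 := by rw [div_le_iff₀ hD']; exact this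
        linarith
      · intro h
        have : (26 : ℝ) * D ≤ Y' := by exact_mod_cast h
        have : (26 : ℝ) ≤ Y' / D := by rw [le_div_iff₀ hD']; exact this
        linarith
    · rintro ⟨h1, h2⟩
      push Not at h1 h2
      have e1 : (10 : ℝ) * D < Y' := by exact_mod_cast h1
      have e2 : (Y' : ℝ) < 26 * D := by exact_mod_cast h2
      have e3 : (10 : ℝ) < Y' / D := by rw [lt_div_iff₀ hD']; exact e1
      have e4 : (Y' : ℝ) / D < 26 := by rw [div_lt_iff₀ hD']; exact e2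
      constructor <;> linarith
  have hX1 : |(X' : ℝ) / D - 18| < 6 ↔ (¬ X' ≤ 12 * D ∧ ¬ 24 * D ≤ X') := by
    rw [abs_lt]
    constructor
    · rintro ⟨h1, h2⟩
      constructor
      · intro h
        have : (X' : ℝ) ≤ 12 * D := by exact_mod_cast h
        have : (X' : ℝ) / D ≤ 12 := by rw [div_le_iff₀ hD']; exact this
        linarith
      · intro h
        have : (24 : ℝ) * D ≤ X' := by exact_mod_cast h
        have : (24 : ℝ) ≤ X' / D := by rw [le_div_iff₀ hD']; exact this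
        linarith
    · rintro ⟨h1, h2⟩
      push Not at h1 h2
      have e1 : (12 : ℝ) * D < X' := by exact_mod_cast h1
      have e2 : (X' : ℝ) < 24 * D := by exact_mod_cast h2
      have e3 : (12 : ℝ) < X' / D := by rw [lt_div_iff₀ hD']; exact e1
      have e4 : (X' : ℝ) / D < 24 := by rw [div_lt_iff₀ hD']; exact e2
      constructor <;> linarith
  unfold erF erN
  simp only [cnd_eq, hY1, hX1, Nat.ble_eq, Nat.mul_eq]
  by_cases c1 : Y' ≤ 10 * D <;> by_cases c2 : 26 * D ≤ Y' <;> by_cases c3 : X' ≤ 12 * D <;>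
    by_cases c4 : 24 * D ≤ X' <;> simp [c1, c2, c3, c4]

theorem psi_k (T : Fin 12 → ℕ) (k : Fin 12) (num D : ℕ) (hD : 0 < D) (X Y : ℝ)
    (h : PP k X Y = (num : ℝ) / D - 18 * (nh k : ℝ)) :
    (10 : ℝ) ^ 6 * PsiR T k X Y ≤ (psi (T k) num (12 * nh k * D) (nh k * D) : ℝ) := by
  have hh : 0 < nh k := by fin_cases k <;> decide
  exact psi_sound (T k) (nh k) num D hh hD (PP k X Y) h

/-- CHUNK N1G. -/
theorem chk_sound (T : Fin 12 → ℕ) (l : Fin 7 → ℕ) (LA al mu dl eA eB eC X' Y' D : ℕ) (hD : 0 < D)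
    (hmu : mu ≤ 1) (hX : X' ≤ 36 * D) (hY : Y' ≤ 36 * D) (hLA : LA = ∑ i, l i)
    (hdl : (dl : ℤ) = al * LA + 4 * ∑ i : Fin 7, ((i : ℤ) - 3) * (l i : ℤ))
    (h : chk (T 0) (T 1) (T 2) (T 3) (T 4) (T 5) (T 6) (T 7) (T 8) (T 9) (T 10) (T 11) LA
      (l 0) (l 1) (l 2) (l 3) (l 4) (l 5) (l 6) al mu dl eA eB eC X' Y' D = true) :
    VOK T (eeN al mu l ((X' : ℝ) / D - 18) ((Y' : ℝ) / D - 18) * FF ((Y' : ℝ) / D - 18) +
      erF eA eB eC ((X' : ℝ) / D - 18) ((Y' : ℝ) / D - 18) / 10 ^ 6)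
      ((X' : ℝ) / D - 18) ((Y' : ℝ) / D - 18) := by
  have hD' : (0 : ℝ) < D := by exact_mod_cast hD
  have hXb : ((36 * D - X' : ℕ) : ℝ) = 36 * D - X' := by push_cast [Nat.cast_sub hX]; ring
  have hYb : ((36 * D - Y' : ℕ) : ℝ) = 36 * D - Y' := by push_cast [Nat.cast_sub hY]; ring
  obtain ⟨ep, hep⟩ : ∃ ep, ep = ePos LA al mu dl X' Y' (36 * D - Y') D := ⟨_, rfl⟩
  obtain ⟨en, hen⟩ : ∃ en, en = eNeg LA (l 0) (l 1) (l 2) (l 3) (l 4) (l 5) (l 6) mu dl X' Y'
    (36 * D - Y') D := ⟨_, rfl⟩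
  obtain ⟨F, hF⟩ : ∃ F, F = FNum ((Y' - 18 * D) + (18 * D - Y')) D := ⟨_, rfl⟩
  obtain ⟨er, her⟩ : ∃ er, er = erN X' Y' D eA eB eC := ⟨_, rfl⟩
  obtain ⟨a, ha⟩ : ∃ a : Fin 12 → ℕ, a = ![psi (T 0) X' (12 * 1 * D) (1 * D),
    psi (T 1) (3 * X' + Y') (12 * 4 * D) (4 * D), psi (T 2) (2 * X' + Y') (12 * 3 * D) (3 * D),
    psi (T 3) (X' + Y') (12 * 2 * D) (2 * D), psi (T 4) (X' + 2 * Y') (12 * 3 * D) (3 * D),
    psi (T 5) (X' + 3 * Y') (12 * 4 * D) (4 * D), psi (T 6) Y' (12 * 1 * D) (1 * D),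
    psi (T 7) ((36 * D - X') + 3 * Y') (12 * 4 * D) (4 * D),
    psi (T 8) ((36 * D - X') + 2 * Y') (12 * 3 * D) (3 * D),
    psi (T 9) ((36 * D - X') + Y') (12 * 2 * D) (2 * D),
    psi (T 10) (2 * (36 * D - X') + Y') (12 * 3 * D) (3 * D),
    psi (T 11) (3 * (36 * D - X') + Y') (12 * 4 * D) (4 * D)] := ⟨_, rfl⟩
  obtain ⟨b0, hb0⟩ : ∃ b0, b0 = (a 0 + er + ((ep - en) * F / (1920000000 * (D * D)) + 1))
      - ((en - ep) * F / (1920000000 * (D * D))) := ⟨_, rfl⟩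
  obtain ⟨b6, hb6⟩ : ∃ b6, b6 = (a 6 + (er / 2 + 1) + ((ep - en) * F / (3840000000 * (D * D)) + 1))
      - ((en - ep) * F / (3840000000 * (D * D))) := ⟨_, rfl⟩
  have hz : zon b0 (a 1) (a 2) (a 3) (a 4) (a 5) b6 (a 7) (a 8) (a 9) (a 10) (a 11) = true := by
    rw [hb0, hb6, ha, hep, hen, hF, her]
    simp only [chk, frc_eq] at h
    exact h
  set X : ℝ := (X' : ℝ) / D - 18 with hXd
  set Y : ℝ := (Y' : ℝ) / D - 18 with hYd
  have hFr : (F : ℝ) = 10 ^ 6 * D * FF Y := by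
    have hy : (Y' - 18 * D) + (18 * D - Y') ≤ 18 * D := by omega
    have h1 := FNum_sound _ D hD hy
    rw [hF, h1]
    congr 1
    have h2 : (((Y' - 18 * D) + (18 * D - Y') : ℕ) : ℝ) / D = |Y| := by
      rcases le_total Y' (18 * D) with hle | hle
      · have e1 : Y' - 18 * D = 0 := by omega
        have e2 : (Y' : ℝ) ≤ 18 * D := by exact_mod_cast hle
        have e3 : Y ≤ 0 := by
          rw [hYd]
          have : (Y' : ℝ) / D ≤ 18 := by rw [div_le_iff₀ hD']; exact e2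
          linarith
        rw [e1, abs_of_nonpos e3, Nat.zero_add, Nat.cast_sub hle, hYd]
        push_cast
        field_simp
        ring
      · have e1 : 18 * D - Y' = 0 := by omega
        have e2 : (18 : ℝ) * D ≤ Y' := by exact_mod_cast hle
        have e3 : 0 ≤ Y := by
          rw [hYd]
          have : (18 : ℝ) ≤ Y' / D := by rw [le_div_iff₀ hD']; exact e2
          linarith
        rw [e1, abs_of_nonneg e3, Nat.add_zero, Nat.cast_sub hle, hYd]
        push_cast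
        field_simp
    rw [h2]
    rcases abs_choice Y with h3 | h3 <;> rw [h3]
    rw [FF_neg]
  have he : (ep : ℝ) - en = 1920000000 * D * eeN al mu l X Y := by
    rw [hep, hen]; exact e_sound l LA al mu dl X' Y' D hD hmu hX hY hLA hdl
  have hE : (eeN al mu l X Y * FF Y) * (1920000000 * D * (10 ^ 6 * D)) = ((ep : ℝ) - en) * F := by
    rw [he, hFr]; ring
  have her' : (er : ℝ) = erF eA eB eC X Y := by rw [her]; exact erN_eq X' Y' D eA eB eC hD
  have hk : ∀ k, (10 : ℝ) ^ 6 * PsiR T k X Y ≤ a k := by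
    rw [ha]
    intro k
    fin_cases k
    · refine psi_k T 0 X' D hD X Y ?_
      simp only [PP, na, nc, nh, hXd, hYd]; norm_num
    · refine psi_k T 1 (3 * X' + Y') D hD X Y ?_
      show (3 : ℤ) * X + ((1 : ℤ) : ℝ) * Y = _ - 18 * ((4 : ℕ) : ℝ)
      rw [hXd, hYd]; push_cast; field_simp; ring
    · refine psi_k T 2 (2 * X' + Y') D hD X Y ?_
      show (2 : ℤ) * X + ((1 : ℤ) : ℝ) * Y = _ - 18 * ((3 : ℕ) : ℝ)
      rw [hXd, hYd]; push_cast; field_simp; ring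
    · refine psi_k T 3 (X' + Y') D hD X Y ?_
      show (1 : ℤ) * X + ((1 : ℤ) : ℝ) * Y = _ - 18 * ((2 : ℕ) : ℝ)
      rw [hXd, hYd]; push_cast; field_simp; ring
    · refine psi_k T 4 (X' + 2 * Y') D hD X Y ?_
      show (1 : ℤ) * X + ((2 : ℤ) : ℝ) * Y = _ - 18 * ((3 : ℕ) : ℝ)
      rw [hXd, hYd]; push_cast; field_simp; ring
    · refine psi_k T 5 (X' + 3 * Y') D hD X Y ?_
      show (1 : ℤ) * X + ((3 : ℤ) : ℝ) * Y = _ - 18 * ((4 : ℕ) : ℝ)
      rw [hXd, hYd]; push_cast; field_simp; ring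
    · refine psi_k T 6 Y' D hD X Y ?_
      show (0 : ℤ) * X + ((1 : ℤ) : ℝ) * Y = _ - 18 * ((1 : ℕ) : ℝ)
      rw [hYd]; push_cast; ring
    · refine psi_k T 7 ((36 * D - X') + 3 * Y') D hD X Y ?_
      show (-1 : ℤ) * X + ((3 : ℤ) : ℝ) * Y = _ - 18 * ((4 : ℕ) : ℝ)
      rw [Nat.cast_add, hXb, hXd, hYd]; push_cast; field_simp; ring
    · refine psi_k T 8 ((36 * D - X') + 2 * Y') D hD X Y ?_
      show (-1 : ℤ) * X + ((2 : ℤ) : ℝ) * Y = _ - 18 * ((3 : ℕ) : ℝ)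
      rw [Nat.cast_add, hXb, hXd, hYd]; push_cast; field_simp; ring
    · refine psi_k T 9 ((36 * D - X') + Y') D hD X Y ?_
      show (-1 : ℤ) * X + ((1 : ℤ) : ℝ) * Y = _ - 18 * ((2 : ℕ) : ℝ)
      rw [Nat.cast_add, hXb, hXd, hYd]; push_cast; field_simp; ring
    · refine psi_k T 10 (2 * (36 * D - X') + Y') D hD X Y ?_
      show (-2 : ℤ) * X + ((1 : ℤ) : ℝ) * Y = _ - 18 * ((3 : ℕ) : ℝ)
      rw [Nat.cast_add, Nat.cast_mul, hXb, hXd, hYd]; push_cast; field_simp; ring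
    · refine psi_k T 11 (3 * (36 * D - X') + Y') D hD X Y ?_
      show (-3 : ℤ) * X + ((1 : ℤ) : ℝ) * Y = _ - 18 * ((4 : ℕ) : ℝ)
      rw [Nat.cast_add, Nat.cast_mul, hXb, hXd, hYd]; push_cast; field_simp; ring
  have hnet := net_sound (a 0) (a 6) er ep en F D hD (PsiR T 0 X Y) (PsiR T 6 X Y)
    (eeN al mu l X Y * FF Y) (hk 0) (hk 6) hE
  rw [← hb0, ← hb6, her'] at hnet
  set E' : ℝ := eeN al mu l X Y * FF Y + erF eA eB eC X Y / 10 ^ 6 with hE'
  intro p q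
  have hz2 := zon_sound ![b0, a 1, a 2, a 3, a 4, a 5, b6, a 7, a 8, a 9, a 10, a 11] hz p q
  have hlow : (10 : ℝ) ^ 6 * (∑ k, PsiR T k X Y * |(na k : ℝ) * p + (nc k : ℝ) * q|
      + E' * (|p| + |q| / 2)) ≤
      ∑ k : Fin 12, ((![b0, a 1, a 2, a 3, a 4, a 5, b6, a 7, a 8, a 9, a 10, a 11] k : ℕ) : ℝ) *
        |(na k : ℝ) * p + (nc k : ℝ) * q| := by
    have hd : ∀ k : Fin 12, (10 : ℝ) ^ 6 * (PsiR T k X Y + (if k = 0 then E' else if k = 6 then E' / 2
        else 0)) ≤ ((![b0, a 1, a 2, a 3, a 4, a 5, b6, a 7, a 8, a 9, a 10, a 11] k : ℕ) : ℝ) := by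
      intro k
      fin_cases k
      · exact hnet.1
      · have := hk 1; simpa using this
      · have := hk 2; simpa using this
      · have := hk 3; simpa using this
      · have := hk 4; simpa using this
      · have := hk 5; simpa using this
      · exact hnet.2
      · have := hk 7; simpa using this
      · have := hk 8; simpa using this
      · have := hk 9; simpa using this
      · have := hk 10; simpa using this
      · have := hk 11; simpa using this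
    have hsum : (10 : ℝ) ^ 6 * (∑ k, PsiR T k X Y * |(na k : ℝ) * p + (nc k : ℝ) * q|
      + E' * (|p| + |q| / 2)) = ∑ k : Fin 12, (10 : ℝ) ^ 6 * (PsiR T k X Y +
        (if k = 0 then E' else if k = 6 then E' / 2 else 0)) * |(na k : ℝ) * p + (nc k : ℝ) * q| := by
      have e1 : ∀ k : Fin 12, (10 : ℝ) ^ 6 * (PsiR T k X Y +
        (if k = 0 then E' else if k = 6 then E' / 2 else 0)) * |(na k : ℝ) * p + (nc k : ℝ) * q|
        = (10 : ℝ) ^ 6 * (PsiR T k X Y * |(na k : ℝ) * p + (nc k : ℝ) * q|) + (10 : ℝ) ^ 6 *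
        ((if k = 0 then E' else if k = 6 then E' / 2 else 0) * |(na k : ℝ) * p + (nc k : ℝ) * q|) := by
        intro k; ring
      rw [Finset.sum_congr rfl (fun k _ => e1 k), Finset.sum_add_distrib, ← Finset.mul_sum,
        ← Finset.mul_sum, mul_add]
      congr 1
      have e2 : ∑ k : Fin 12, (if k = 0 then E' else if k = 6 then E' / 2 else 0) *
          |(na k : ℝ) * p + (nc k : ℝ) * q| = E' * |p| + E' / 2 * |q| := by
        rw [Finset.sum_eq_add (0 : Fin 12) (6 : Fin 12) (by decide)]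
        · have n0 : na 0 = 1 := rfl
          have m0 : nc 0 = 0 := rfl
          have n6 : na 6 = 0 := rfl
          have m6 : nc 6 = 1 := rfl
          rw [n0, m0, n6, m6]
          simp
        · intro k _ hk
          rw [if_neg hk.1, if_neg hk.2, zero_mul]
        · intro h; exact absurd (Finset.mem_univ _) h
        · intro h; exact absurd (Finset.mem_univ _) h
      rw [e2]; ring
    rw [hsum]
    refine Finset.sum_le_sum fun k _ => ?_
    exact mul_le_mul_of_nonneg_right (hd k) (abs_nonneg _)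
  have h6 : (0 : ℝ) < 10 ^ 6 := by positivity
  have := le_trans hlow hz2
  exact le_of_mul_le_mul_left this h6

end H58Q
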