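import Pool.Agent.Lib.H58Q.Defs

/-! H58Q V1B -/

namespace H58Q

open Set Finset MeasureTheory

theorem v1b_le {L R D : ℕ} (hD : 0 < D) {X : ℝ} (hX : |X| ≤ 18)
    (h1 : X = ((L : ℝ) - R) / D - 18) : R ≤ L ∧ L ≤ R + 36 * D := by
  have hD' : (0 : ℝ) < D := by exact_mod_cast hD
  have h2 := abs_le.1 hX
  have h3 : 0 ≤ ((L : ℝ) - R) / D := by linarith [h2.1]
  have h4 : ((L : ℝ) - R) / D ≤ 36 := by linarith [h2.2]
  rw [le_div_iff₀ hD', zero_mul] at h3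
  rw [div_le_iff₀ hD'] at h4
  constructor
  · have : (R : ℝ) ≤ L := by linarith
    exact_mod_cast this
  · have : (L : ℝ) ≤ R + 36 * D := by linarith
    exact_mod_cast this

/-- CHUNK V1B. `tst`: if `(X, Y)` is in the box and `X = (LX - RX) / D - 18` etc. -/
theorem tst_hit {f : ℕ → ℕ → ℕ → Bool} {LX RX LY RY D : ℕ} (hD : 0 < D)
    (h : tst f LX RX LY RY D = true) {X Y : ℝ} (hX : |X| ≤ 18) (hY : |Y| ≤ 18)
    (h1 : X = ((LX : ℝ) - RX) / D - 18) (h2 : Y = ((LY : ℝ) - RY) / D - 18) : Hit f X Y := by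
  obtain ⟨a1, a2⟩ := v1b_le hD hX h1
  obtain ⟨b1, b2⟩ := v1b_le hD hY h2
  unfold tst at h
  simp only [frc_eq, cndB_eq] at h
  have c1 : Nat.ble RX LX = true := Nat.ble_eq_true_of_le a1
  have c2 : Nat.ble LX (Nat.add RX (Nat.mul 36 D)) = true := Nat.ble_eq_true_of_le a2
  have c3 : Nat.ble RY LY = true := Nat.ble_eq_true_of_le b1
  have c4 : Nat.ble LY (Nat.add RY (Nat.mul 36 D)) = true := Nat.ble_eq_true_of_le b2
  rw [if_pos c1, if_pos c2, if_pos c3, if_pos c4] at h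
  refine ⟨LX - RX, LY - RY, D, hD, by omega, by omega, ?_, ?_, h⟩
  · rw [h1, Nat.cast_sub a1]
  · rw [h2, Nat.cast_sub b1]

end H58Q
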