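import Pool.Agent.Lib.H58Q.V1A
import Pool.Agent.Lib.H58Q.V1B

/-! H58Q V1C -/

namespace H58Q

open Set Finset MeasureTheory

theorem v1c_le {x0 : ℕ} (hx : x0 ∈ xs) : x0 ≤ 72 := by
  unfold xs at hx
  simp only [Finset.mem_union, Finset.mem_image, Finset.mem_range, Finset.mem_insert,
    Finset.mem_singleton] at hx
  rcases hx with ((⟨i, hi, rfl⟩ | ⟨i, hi, rfl⟩) | ⟨i, hi, rfl⟩) | (rfl | rfl) <;> omega

/-- CHUNK V1C. The line `Y = y0 / 3 - 18` with the other families. `rowY` contains all the points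
`x0 ∈ xs` and the intersections with the oblique lines (`ptYp` for `na k > 0`, `ptYm` for
`na k < 0`; in both cases `nh k = |na k| + nc k`; solve for `X` and compare:
for `a > 0`: `3 a (X + 18) = (a + c) (3 i + 36) - c y0`;
for `-a < 0`: `3 a (X + 18) = (c y0 + 72 a) - (36 c + (a + c) 3 i)`). -/
theorem rowY_xs {f : ℕ → ℕ → ℕ → Bool} {y0 : ℕ} (h : rowY f y0 = true) (hy : y0 ≤ 108) {x0 : ℕ}
    (hx : x0 ∈ xs) : Hit f ((x0 : ℝ) / 2 - 18) ((y0 : ℝ) / 3 - 18) := by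
  unfold rowY at h
  rw [band_eq, Bool.and_eq_true, forX_iff] at h
  have h1 := h.1 x0 hx
  unfold ptXY at h1
  rw [frc_eq, frc_eq] at h1
  have h2 := v1c_le hx
  refine ⟨3 * x0, 2 * y0, 6, by norm_num, by omega, by omega, ?_, ?_, h1⟩
  · push_cast
    ring
  · push_cast
    ring

theorem v1c_abs {y0 : ℕ} (hy : y0 ≤ 108) : |(y0 : ℝ) / 3 - 18| ≤ 18 := by
  have h1 : (y0 : ℝ) ≤ 108 := by exact_mod_cast hy
  have h2 : (0 : ℝ) ≤ y0 := Nat.cast_nonneg _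
  rw [abs_le]
  constructor <;> linarith

theorem v1c_p {f : ℕ → ℕ → ℕ → Bool} {y0 a c i : ℕ} (ha : 0 < a) (hp : ptYp f a c y0 i = true)
    (hy : y0 ≤ 108) {X : ℝ} (hX : |X| ≤ 18)
    (hl : (a : ℝ) * X + (c : ℝ) * ((y0 : ℝ) / 3 - 18) = ((a : ℝ) + c) * ((i : ℝ) - 6)) :
    Hit f X ((y0 : ℝ) / 3 - 18) := by
  have ha' : (0 : ℝ) < a := by exact_mod_cast ha
  refine tst_hit (Nat.mul_pos (by norm_num) ha) hp hX (v1c_abs hy) ?_ ?_
  · simp only [Nat.add_eq, Nat.mul_eq]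
    push_cast
    rw [eq_sub_iff_add_eq, eq_div_iff (by positivity)]
    linarith
  · simp only [Nat.mul_eq]
    push_cast
    field_simp
    ring

theorem v1c_m {f : ℕ → ℕ → ℕ → Bool} {y0 a c i : ℕ} (ha : 0 < a) (hp : ptYm f a c y0 i = true)
    (hy : y0 ≤ 108) {X : ℝ} (hX : |X| ≤ 18)
    (hl : -(a : ℝ) * X + (c : ℝ) * ((y0 : ℝ) / 3 - 18) = ((a : ℝ) + c) * ((i : ℝ) - 6)) :
    Hit f X ((y0 : ℝ) / 3 - 18) := by
  have ha' : (0 : ℝ) < a := by exact_mod_cast ha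
  refine tst_hit (Nat.mul_pos (by norm_num) ha) hp hX (v1c_abs hy) ?_ ?_
  · simp only [Nat.add_eq, Nat.mul_eq]
    push_cast
    rw [eq_sub_iff_add_eq, eq_div_iff (by positivity)]
    linarith
  · simp only [Nat.mul_eq]
    push_cast
    field_simp
    ring

theorem rowY_obl {f : ℕ → ℕ → ℕ → Bool} {y0 : ℕ} (h : rowY f y0 = true) (hy : y0 ≤ 108)
    {k : Fin 12} (h1 : na k ≠ 0) (h2 : nc k ≠ 0) {i : ℕ} (hi : i < 13) {X : ℝ} (hX : |X| ≤ 18)
    (hl : (na k : ℝ) * X + (nc k : ℝ) * ((y0 : ℝ) / 3 - 18) = (nh k : ℝ) * ((i : ℝ) - 6)) :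
    Hit f X ((y0 : ℝ) / 3 - 18) := by
  unfold rowY at h
  rw [band_eq, Bool.and_eq_true, band_eq, Bool.and_eq_true, forP_iff, forP_iff] at h
  simp only [allB_iff] at h
  obtain ⟨-, ⟨p1, p2, p3, p4, p5⟩, m1, m2, m3, m4, m5⟩ := h
  fin_cases k
  · exact absurd rfl h2
  · refine v1c_p (by norm_num) (p1 i hi) hy hX ?_
    norm_num [na, nc, nh] at hl ⊢
    linarith
  · refine v1c_p (by norm_num) (p2 i hi) hy hX ?_
    norm_num [na, nc, nh] at hl ⊢
    linarith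
  · refine v1c_p (by norm_num) (p3 i hi) hy hX ?_
    norm_num [na, nc, nh] at hl ⊢
    linarith
  · refine v1c_p (by norm_num) (p4 i hi) hy hX ?_
    norm_num [na, nc, nh] at hl ⊢
    linarith
  · refine v1c_p (by norm_num) (p5 i hi) hy hX ?_
    norm_num [na, nc, nh] at hl ⊢
    linarith
  · exact absurd rfl h1
  · refine v1c_m (by norm_num) (m5 i hi) hy hX ?_
    norm_num [na, nc, nh] at hl ⊢
    linarith
  · refine v1c_m (by norm_num) (m4 i hi) hy hX ?_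
    norm_num [na, nc, nh] at hl ⊢
    linarith
  · refine v1c_m (by norm_num) (m3 i hi) hy hX ?_
    norm_num [na, nc, nh] at hl ⊢
    linarith
  · refine v1c_m (by norm_num) (m2 i hi) hy hX ?_
    norm_num [na, nc, nh] at hl ⊢
    linarith
  · refine v1c_m (by norm_num) (m1 i hi) hy hX ?_
    norm_num [na, nc, nh] at hl ⊢
    linarith

end H58Q
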