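import Pool.Agent.Lib.H58Q.V1A
import Pool.Agent.Lib.H58Q.V1B

/-! H58Q V1D -/

namespace H58Q

open Set Finset MeasureTheory

theorem v1d_dat : ∀ k : Fin 12, na k = ((tr k).1 : ℤ) - ((tr k).2.1 : ℤ) ∧ nc k = ((tr k).2.2 : ℤ) ∧
    nh k = (tr k).1 + (tr k).2.1 + (tr k).2.2 := by decide

/-- CHUNK V1D. The line `X = x0 / 2 - 18` with the oblique lines: with `a = ap - am`,
`2 c (Y + 18) = (2 (ap + am + c) i + am x0 + 36 (ap + c)) - (12 (ap + am + c) + ap x0 + 36 am)`. -/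
theorem rowX_obl {f : ℕ → ℕ → ℕ → Bool} {x0 : ℕ} (h : rowX f x0 = true) (hx : x0 ≤ 72)
    {k : Fin 12} (h1 : na k ≠ 0) (h2 : nc k ≠ 0) {i : ℕ} (hi : i < 13) {Y : ℝ} (hY : |Y| ≤ 18)
    (hl : (na k : ℝ) * ((x0 : ℝ) / 2 - 18) + (nc k : ℝ) * Y = (nh k : ℝ) * ((i : ℝ) - 6)) :
    Hit f ((x0 : ℝ) / 2 - 18) Y := by
  unfold rowX at h
  rw [forO_iff] at h
  have h3 := (allB_iff _ _).1 (h k h1 h2) i hi
  obtain ⟨e1, e2, e3⟩ := v1d_dat k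
  obtain ⟨ap, hap⟩ : ∃ ap, ap = (tr k).1 := ⟨_, rfl⟩
  obtain ⟨am, ham⟩ : ∃ am, am = (tr k).2.1 := ⟨_, rfl⟩
  obtain ⟨c, hc⟩ : ∃ c, c = (tr k).2.2 := ⟨_, rfl⟩
  rw [← hap, ← ham, ← hc] at h3
  rw [← hap, ← ham] at e1
  rw [← hc] at e2
  rw [← hap, ← ham, ← hc] at e3
  have hc0 : 0 < c := by
    rw [e2] at h2
    omega
  have hc' : (0 : ℝ) < c := by exact_mod_cast hc0
  have hxa : |(x0 : ℝ) / 2 - 18| ≤ 18 := by
    have h1 : (x0 : ℝ) ≤ 72 := by exact_mod_cast hx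
    have h2 : (0 : ℝ) ≤ x0 := Nat.cast_nonneg _
    rw [abs_le]
    constructor <;> linarith
  rw [e1, e2, e3] at hl
  push_cast at hl
  refine tst_hit (Nat.mul_pos (by norm_num) hc0) h3 hxa hY ?_ ?_
  · simp only [Nat.mul_eq]
    push_cast
    field_simp
    ring
  · simp only [Nat.add_eq, Nat.mul_eq]
    push_cast
    rw [eq_sub_iff_add_eq, eq_div_iff (by positivity)]
    linarith

end H58Q
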