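import Pool.Agent.Lib.H58Q.V1A
import Pool.Agent.Lib.H58Q.V1B

/-! H58Q V1E -/

namespace H58Q

open Set Finset MeasureTheory

theorem v1e_dat : ∀ k : Fin 12, na k = ((tr k).1 : ℤ) - ((tr k).2.1 : ℤ) ∧ nc k = ((tr k).2.2 : ℤ) ∧
    nh k = (tr k).1 + (tr k).2.1 + (tr k).2.2 := by decide

/-- the computation for two oblique lines -/
theorem v1e_pt {f : ℕ → ℕ → ℕ → Bool} {ap am c ap' am' c' i j D : ℕ} (hD : 0 < D)
    (hDe : (D : ℝ) = ((ap : ℝ) - am) * c' - ((ap' : ℝ) - am') * c)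
    (hp : ptO f ap am c ap' am' c' D i j = true) {X Y : ℝ} (hX : |X| ≤ 18) (hY : |Y| ≤ 18)
    (hl : ((ap : ℝ) - am) * X + (c : ℝ) * Y = ((ap : ℝ) + am + c) * ((i : ℝ) - 6))
    (hl' : ((ap' : ℝ) - am') * X + (c' : ℝ) * Y = ((ap' : ℝ) + am' + c') * ((j : ℝ) - 6)) :
    Hit f X Y := by
  have hD' : (0 : ℝ) < D := by exact_mod_cast hD
  refine tst_hit hD hp hX hY ?_ ?_
  · simp only [Nat.add_eq, Nat.mul_eq]
    push_cast
    rw [eq_sub_iff_add_eq, eq_div_iff hD'.ne', hDe]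
    linear_combination (c' : ℝ) * hl - (c : ℝ) * hl'
  · simp only [Nat.add_eq, Nat.mul_eq]
    push_cast
    rw [eq_sub_iff_add_eq, eq_div_iff hD'.ne', hDe]
    linear_combination ((ap : ℝ) - am) * hl' - ((ap' : ℝ) - am') * hl

/-- CHUNK V1E. Two oblique lines that are not parallel; exchange them so that the determinant
`D = a c' - a' c` is positive (it is the natural number of `rowO`). Cramer:
`D X = c' h (i - 6) - c h' (j - 6)`, `D Y = a h' (j - 6) - a' h (i - 6)`. -/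
theorem rowO_hit {f : ℕ → ℕ → ℕ → Bool} (h : rowO f = true) {k k' : Fin 12} (h1 : na k ≠ 0)
    (h2 : nc k ≠ 0) (h1' : na k' ≠ 0) (h2' : nc k' ≠ 0) {i j : ℕ} (hi : i < 13) (hj : j < 13)
    (hdet : 0 < na k * nc k' - na k' * nc k) {X Y : ℝ} (hX : |X| ≤ 18) (hY : |Y| ≤ 18)
    (hl : (na k : ℝ) * X + (nc k : ℝ) * Y = (nh k : ℝ) * ((i : ℝ) - 6))
    (hl' : (na k' : ℝ) * X + (nc k' : ℝ) * Y = (nh k' : ℝ) * ((j : ℝ) - 6)) : Hit f X Y := by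
  unfold rowO at h
  rw [forO_iff] at h
  have h3 := h k h1 h2
  rw [forO_iff] at h3
  have h4 := h3 k' h1' h2'
  rw [frc_eq, cndB_eq] at h4
  obtain ⟨e1, e2, e3⟩ := v1e_dat k
  obtain ⟨e1', e2', e3'⟩ := v1e_dat k'
  obtain ⟨ap, hap⟩ : ∃ ap, ap = (tr k).1 := ⟨_, rfl⟩
  obtain ⟨am, ham⟩ : ∃ am, am = (tr k).2.1 := ⟨_, rfl⟩
  obtain ⟨c, hc⟩ : ∃ c, c = (tr k).2.2 := ⟨_, rfl⟩
  obtain ⟨ap', hap'⟩ : ∃ ap, ap = (tr k').1 := ⟨_, rfl⟩
  obtain ⟨am', ham'⟩ : ∃ am, am = (tr k').2.1 := ⟨_, rfl⟩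
  obtain ⟨c', hc'⟩ : ∃ c, c = (tr k').2.2 := ⟨_, rfl⟩
  rw [← hap, ← ham, ← hc, ← hap', ← ham', ← hc'] at h4
  rw [← hap, ← ham] at e1
  rw [← hc] at e2
  rw [← hap, ← ham, ← hc] at e3
  rw [← hap', ← ham'] at e1'
  rw [← hc'] at e2'
  rw [← hap', ← ham', ← hc'] at e3'
  rw [e1, e2, e1', e2'] at hdet
  rw [e1, e2, e3] at hl
  rw [e1', e2', e3'] at hl'
  push_cast at hl hl'
  have hlt : am * c' + ap' * c < ap * c' + am' * c := by
    zify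
    linarith
  obtain ⟨D, hD⟩ : ∃ D, D = ap * c' + am' * c - (am * c' + ap' * c) := ⟨_, rfl⟩
  have hD0 : 0 < D := by omega
  have hDe : (D : ℝ) = ((ap : ℝ) - am) * c' - ((ap' : ℝ) - am') * c := by
    rw [hD, Nat.cast_sub hlt.le]
    push_cast
    ring
  have h5 : (ap.mul c').add (am'.mul c) - (am.mul c').add (ap'.mul c) = D := hD.symm
  have h6 : Nat.sub ((ap.mul c').add (am'.mul c)) ((am.mul c').add (ap'.mul c)) = D := hD.symm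
  rw [h6, if_pos (Nat.ble_eq_true_of_le hD0)] at h4
  exact v1e_pt hD0 hDe ((allB_iff _ _).1 ((allB_iff _ _).1 h4 i hi) j hj) hX hY hl hl'

end H58Q
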