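import Pool.Agent.Lib.H58Q.Defs

/-! H58Q V1F -/

namespace H58Q

open Set Finset MeasureTheory

/-- CHUNK V1F. The points that are skipped lie on lines of the arrangement: `D ∣ 3 Y'` and
`10 D ≤ Y' ≤ 26 D` give `Y = y0 / 3 - 18` with `y0 = 3 Y' / D ∈ [30, 78]`. -/
theorem skY_hit {f : ℕ → ℕ → ℕ → Bool} {X Y : ℝ} (h : Hit (skY f) X Y) :
    Hit f X Y ∨ ∃ y0 ∈ ys, Y = (y0 : ℝ) / 3 - 18 := by
  obtain ⟨X', Y', D, hD, hX', hY', hX, hY, hf⟩ := h
  unfold skY at hf
  rw [cndB_eq] at hf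
  by_cases ho : onY Y' D = true
  · right
    unfold onY at ho
    rw [band_eq, band_eq, Bool.and_eq_true, Bool.and_eq_true] at ho
    obtain ⟨h1, h2, h3⟩ := ho
    have h1' : 10 * D ≤ Y' := Nat.le_of_ble_eq_true h1
    have h2' : Y' ≤ 26 * D := Nat.le_of_ble_eq_true h2
    have h3' : 3 * Y' % D = 0 := Nat.eq_of_beq_eq_true h3
    obtain ⟨y0, hy0⟩ := Nat.dvd_of_mod_eq_zero h3'
    have h4 : 30 ≤ y0 := by
      by_contra hc
      push Not at hc
      have : D * y0 ≤ D * 29 := Nat.mul_le_mul_left D (by omega)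
      omega
    have h5 : y0 ≤ 78 := by
      by_contra hc
      push Not at hc
      have : D * 79 ≤ D * y0 := Nat.mul_le_mul_left D (by omega)
      omega
    refine ⟨y0, ?_, ?_⟩
    · unfold ys
      refine Finset.mem_union_left _ (Finset.mem_union_left _ (Finset.mem_image.2 ⟨y0 - 30, ?_, ?_⟩))
      · rw [Finset.mem_range]
        omega
      · show y0 - 30 + 30 = y0
        omega
    · rw [hY]
      have hD' : (0 : ℝ) < D := by exact_mod_cast hD
      have h6 : (3 : ℝ) * Y' = D * y0 := by exact_mod_cast hy0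
      have h7 : (Y' : ℝ) / D = (y0 : ℝ) / 3 := by
        rw [div_eq_div_iff hD'.ne' (by norm_num)]
        linarith
      rw [h7]
  · left
    rw [if_neg ho] at hf
    exact ⟨X', Y', D, hD, hX', hY', hX, hY, hf⟩

theorem skX_hit {f : ℕ → ℕ → ℕ → Bool} {X Y : ℝ} (h : Hit (skX f) X Y) :
    Hit f X Y ∨ ∃ x0 ∈ xs, X = (x0 : ℝ) / 2 - 18 := by
  obtain ⟨X', Y', D, hD, hX', hY', hX, hY, hf⟩ := h
  unfold skX at hf
  rw [cndB_eq] at hf
  by_cases ho : onX X' D = true
  · right
    unfold onX at ho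
    rw [band_eq, band_eq, Bool.and_eq_true, Bool.and_eq_true] at ho
    obtain ⟨h1, h2, h3⟩ := ho
    have h1' : 12 * D ≤ X' := Nat.le_of_ble_eq_true h1
    have h2' : X' ≤ 24 * D := Nat.le_of_ble_eq_true h2
    have h3' : 2 * X' % D = 0 := Nat.eq_of_beq_eq_true h3
    obtain ⟨x0, hx0⟩ := Nat.dvd_of_mod_eq_zero h3'
    have h4 : 24 ≤ x0 := by
      by_contra hc
      push Not at hc
      have : D * x0 ≤ D * 23 := Nat.mul_le_mul_left D (by omega)
      omega
    have h5 : x0 ≤ 48 := by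
      by_contra hc
      push Not at hc
      have : D * 49 ≤ D * x0 := Nat.mul_le_mul_left D (by omega)
      omega
    refine ⟨x0, ?_, ?_⟩
    · unfold xs
      refine Finset.mem_union_left _ (Finset.mem_union_left _ (Finset.mem_union_left _
        (Finset.mem_image.2 ⟨x0 - 24, ?_, ?_⟩)))
      · rw [Finset.mem_range]
        omega
      · show x0 - 24 + 24 = x0
        omega
    · rw [hX]
      have hD' : (0 : ℝ) < D := by exact_mod_cast hD
      have h6 : (2 : ℝ) * X' = D * x0 := by exact_mod_cast hx0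
      have h7 : (X' : ℝ) / D = (x0 : ℝ) / 2 := by
        rw [div_eq_div_iff hD'.ne' (by norm_num)]
        linarith
      rw [h7]
  · left
    rw [if_neg ho] at hf
    exact ⟨X', Y', D, hD, hX', hY', hX, hY, hf⟩

end H58Q
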