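import Pool.Agent.Lib.H58Q.V1A
import Pool.Agent.Lib.H58Q.V1C
import Pool.Agent.Lib.H58Q.V1D
import Pool.Agent.Lib.H58Q.V1E
import Pool.Agent.Lib.H58Q.V1F

/-! H58Q V1G -/

namespace H58Q

open Set Finset MeasureTheory

theorem v1g_ys {y0 : ℕ} (hy : y0 ∈ ys) : y0 ≤ 108 := by
  unfold ys at hy
  simp only [Finset.mem_union, Finset.mem_image, Finset.mem_range] at hy
  rcases hy with (⟨i, hi, rfl⟩ | ⟨i, hi, rfl⟩) | ⟨i, hi, rfl⟩ <;> omega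

theorem v1g_A {f : ℕ → ℕ → ℕ → Bool} {y0 : ℕ} (h : rowY f y0 = true) (hy : y0 ≤ 108) {X : ℝ}
    (hX : |X| ≤ 18) {l : ℝ × ℝ × ℝ} (hl : l ∈ arr) (h1 : l.1 ≠ 0)
    (ho : onL l X ((y0 : ℝ) / 3 - 18)) : Hit f X ((y0 : ℝ) / 3 - 18) := by
  unfold onL at ho
  rcases hl with ⟨x0, hx, rfl⟩ | ⟨y1, hy1, rfl⟩ | ⟨k, hk1, hk2, i, hi, rfl⟩
  · have h2 : X = (x0 : ℝ) / 2 - 18 := by
      rw [one_mul, zero_mul, add_zero] at ho
      exact ho
    rw [h2]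
    exact rowY_xs h hy hx
  · exact absurd rfl h1
  · exact rowY_obl h hy hk1 hk2 hi hX ho

theorem v1g_B {f : ℕ → ℕ → ℕ → Bool} {x0 : ℕ} (h : rowX f x0 = true) (hx : x0 ≤ 72) {Y : ℝ}
    (hY : |Y| ≤ 18) {l : ℝ × ℝ × ℝ} (hl : l ∈ arr) (h1 : l.2.1 ≠ 0)
    (ho : onL l ((x0 : ℝ) / 2 - 18) Y) :
    Hit f ((x0 : ℝ) / 2 - 18) Y ∨ ∃ y0 ∈ ys, Y = (y0 : ℝ) / 3 - 18 := by
  unfold onL at ho
  rcases hl with ⟨x0, hx, rfl⟩ | ⟨y1, hy1, rfl⟩ | ⟨k, hk1, hk2, i, hi, rfl⟩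
  · exact absurd rfl h1
  · right
    refine ⟨y1, hy1, ?_⟩
    rw [one_mul, zero_mul, zero_add] at ho
    exact ho
  · left
    exact rowX_obl h hx hk1 hk2 hi hY ho

theorem v1g_xs {x0 : ℕ} (hx : x0 ∈ xs) : x0 ≤ 72 := v1c_le hx

/-- a line which is neither vertical nor horizontal -/
theorem v1g_obl {X Y : ℝ} {l : ℝ × ℝ × ℝ} (hl : l ∈ arr) (ho : onL l X Y)
    (hXs : ¬ ∃ x0 ∈ xs, X = (x0 : ℝ) / 2 - 18) (hYs : ¬ ∃ y0 ∈ ys, Y = (y0 : ℝ) / 3 - 18) :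
    ∃ k : Fin 12, na k ≠ 0 ∧ nc k ≠ 0 ∧ ∃ i : ℕ, i < 13 ∧
      l = ((na k : ℝ), (nc k : ℝ), (nh k : ℝ) * ((i : ℝ) - 6)) := by
  unfold onL at ho
  rcases hl with ⟨x0, hx, rfl⟩ | ⟨y1, hy1, rfl⟩ | ⟨k, hk1, hk2, i, hi, rfl⟩
  · exfalso
    refine hXs ⟨x0, hx, ?_⟩
    rw [one_mul, zero_mul, add_zero] at ho
    exact ho
  · exfalso
    refine hYs ⟨y1, hy1, ?_⟩
    rw [one_mul, zero_mul, zero_add] at ho
    exact ho
  · exact ⟨k, hk1, hk2, i, hi, rfl⟩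

/-- one of the two lines is not horizontal -/
theorem v1g_nh {X Y : ℝ} (hv : Vtx arr X Y) : ∃ l ∈ arr, l.1 ≠ 0 ∧ onL l X Y := by
  obtain ⟨l, hl, l', hl', hd, h1, h2⟩ := hv
  by_cases h3 : l.1 = 0
  · refine ⟨l', hl', fun h4 => hd ?_, h2⟩
    rw [h3, h4]
    ring
  · exact ⟨l, hl, h3, h1⟩

/-- one of the two lines is not vertical -/
theorem v1g_nv {X Y : ℝ} (hv : Vtx arr X Y) : ∃ l ∈ arr, l.2.1 ≠ 0 ∧ onL l X Y := by
  obtain ⟨l, hl, l', hl', hd, h1, h2⟩ := hv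
  by_cases h3 : l.2.1 = 0
  · refine ⟨l', hl', fun h4 => hd ?_, h2⟩
    rw [h3, h4]
    ring
  · exact ⟨l, hl, h3, h1⟩

/-- CHUNK V1G. A vertex `(X, Y)` is on two lines of `arr` that are not parallel. Case 1: `Y` is one of
the values `y0 / 3 - 18`, `y0 ∈ ys`: one of the two lines is not horizontal, and `rowY_xs` or
`rowY_obl` apply. Case 2: not case 1, and `X` is one of the values `x0 / 2 - 18`: one of the two
lines is not vertical, so oblique, and `rowX_obl` for `skY f` with `skY_hit` apply. Case 3: both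
lines are oblique: `rowO_hit` for `skX (skY f)`. -/
theorem allV_sound {f : ℕ → ℕ → ℕ → Bool} (h : allV f = true) {X Y : ℝ} (hX : |X| ≤ 18)
    (hY : |Y| ≤ 18) (hv : Vtx arr X Y) : Hit f X Y := by
  unfold allV at h
  rw [band_eq, Bool.and_eq_true, band_eq, Bool.and_eq_true, forY_iff, forX_iff] at h
  obtain ⟨g1, g2, g3⟩ := h
  by_cases hYs : ∃ y0 ∈ ys, Y = (y0 : ℝ) / 3 - 18
  · obtain ⟨l, hl, h1, h2⟩ := v1g_nh hv
    obtain ⟨y0, hy, rfl⟩ := hYs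
    exact v1g_A (g1 y0 hy) (v1g_ys hy) hX hl h1 h2
  by_cases hXs : ∃ x0 ∈ xs, X = (x0 : ℝ) / 2 - 18
  · obtain ⟨l, hl, h1, h2⟩ := v1g_nv hv
    obtain ⟨x0, hx, rfl⟩ := hXs
    rcases v1g_B (g2 x0 hx) (v1g_xs hx) hY hl h1 h2 with h3 | h3
    · rcases skY_hit h3 with h4 | h4
      · exact h4
      · exact absurd h4 hYs
    · exact absurd h3 hYs
  have key : Hit (skX (skY f)) X Y := by
    obtain ⟨l, hl, l', hl', hd, h1, h2⟩ := hv
    obtain ⟨k, hk1, hk2, i, hi, rfl⟩ := v1g_obl hl h1 hXs hYs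
    obtain ⟨k', hk1', hk2', j, hj, rfl⟩ := v1g_obl hl' h2 hXs hYs
    have h5 : na k * nc k' - na k' * nc k ≠ 0 := by
      intro h6
      apply hd
      have h7 : ((na k * nc k' - na k' * nc k : ℤ) : ℝ) = 0 := by rw [h6, Int.cast_zero]
      push_cast at h7
      exact h7
    rcases lt_or_gt_of_ne h5 with h6 | h6
    · exact rowO_hit g3 hk1' hk2' hk1 hk2 hj hi (by linarith) hX hY h2 h1
    · exact rowO_hit g3 hk1 hk2 hk1' hk2' hi hj h6 hX hY h1 h2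
  rcases skX_hit key with h4 | h4
  · rcases skY_hit h4 with h5 | h5
    · exact h5
    · exact absurd h5 hYs
  · exact absurd h4 hXs

theorem v1g_side {f : ℕ → ℕ → ℕ → Bool} {x0 : ℕ} (hx : x0 ≤ 72) (h : rowX f x0 = true)
    (h' : ∀ y0 ∈ ys, ptXY f x0 y0 = true) {Y : ℝ} (hY : |Y| ≤ 18)
    (hv : Vtx arr ((x0 : ℝ) / 2 - 18) Y) : Hit f ((x0 : ℝ) / 2 - 18) Y := by
  obtain ⟨l, hl, h1, h2⟩ := v1g_nv hv
  rcases v1g_B h hx hY hl h1 h2 with h3 | ⟨y0, hy, rfl⟩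
  · exact h3
  · have h4 := h' y0 hy
    have h5 := v1g_ys hy
    unfold ptXY at h4
    rw [frc_eq, frc_eq] at h4
    refine ⟨3 * x0, 2 * y0, 6, by norm_num, by omega, by omega, ?_, ?_, h4⟩
    · push_cast
      ring
    · push_cast
      ring

/-- the vertices on the sides of the box; if `|Y| = 18`: one of the two lines is not horizontal,
`rowY f 0` or `rowY f 108`; if `|X| = 18`: one of the two lines is not vertical. -/
theorem farV_sound {f : ℕ → ℕ → ℕ → Bool} (h : farV f = true) {X Y : ℝ} (hX : |X| ≤ 18)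
    (hY : |Y| ≤ 18) (hv : Vtx arr X Y) (hs : |X| = 18 ∨ |Y| = 18) : Hit f X Y := by
  unfold farV at h
  simp only [band_eq, Bool.and_eq_true, forY_iff] at h
  obtain ⟨g1, g2, g3, g4, g5, g6⟩ := h
  rcases hs with hs | hs
  · rcases (abs_eq (by norm_num)).1 hs with h1 | h1
    · have h2 : X = ((72 : ℕ) : ℝ) / 2 - 18 := by
        rw [h1]
        norm_num
      rw [h2] at hv ⊢
      exact v1g_side le_rfl g4 g6 hY hv
    · have h2 : X = ((0 : ℕ) : ℝ) / 2 - 18 := by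
        rw [h1]
        norm_num
      rw [h2] at hv ⊢
      exact v1g_side (by norm_num) g3 g5 hY hv
  · obtain ⟨l, hl, h3, h4⟩ := v1g_nh hv
    rcases (abs_eq (by norm_num)).1 hs with h1 | h1
    · have h2 : Y = ((108 : ℕ) : ℝ) / 3 - 18 := by
        rw [h1]
        norm_num
      rw [h2] at h4 ⊢
      exact v1g_A g2 le_rfl hX hl h3 h4
    · have h2 : Y = ((0 : ℕ) : ℝ) / 3 - 18 := by
        rw [h1]
        norm_num
      rw [h2] at h4 ⊢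
      exact v1g_A g1 (by norm_num) hX hl h3 h4

end H58Q
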