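import Pool.Agent.Lib.H58Q.Defs

/-! H58Q V1H -/

namespace H58Q

open Set Finset MeasureTheory

/-- CHUNK V1H. -/
theorem arr_finite : arr.Finite := by
  refine ((xs.finite_toSet.image fun x0 : ℕ => ((1 : ℝ), (0 : ℝ), (x0 : ℝ) / 2 - 18)).union
    ((ys.finite_toSet.image fun y0 : ℕ => ((0 : ℝ), (1 : ℝ), (y0 : ℝ) / 3 - 18)).union
      (Set.finite_range fun p : Fin 12 × Fin 13 =>
        ((na p.1 : ℝ), (nc p.1 : ℝ), (nh p.1 : ℝ) * (((p.2 : ℕ) : ℝ) - 6))))).subset ?_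
  rintro l (⟨x0, hx, rfl⟩ | ⟨y0, hy, rfl⟩ | ⟨k, _, _, i, hi, rfl⟩)
  · exact Or.inl ⟨x0, hx, rfl⟩
  · exact Or.inr (Or.inl ⟨y0, hy, rfl⟩)
  · exact Or.inr (Or.inr ⟨(k, ⟨i, hi⟩), rfl⟩)

theorem arr_nd : ∀ l ∈ arr, l.1 ≠ 0 ∨ l.2.1 ≠ 0 := by
  rintro l (⟨x0, hx, rfl⟩ | ⟨y0, hy, rfl⟩ | ⟨k, hk, _, i, hi, rfl⟩)
  · exact Or.inl one_ne_zero
  · exact Or.inr one_ne_zero
  · exact Or.inl (Int.cast_ne_zero.2 hk)

/-- `x0 = 72, 0`, `y0 = 108, 0` -/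
theorem arr_box : ((1, 0, 18) : ℝ × ℝ × ℝ) ∈ arr ∧ ((1, 0, -18) : ℝ × ℝ × ℝ) ∈ arr ∧
    ((0, 1, 18) : ℝ × ℝ × ℝ) ∈ arr ∧ ((0, 1, -18) : ℝ × ℝ × ℝ) ∈ arr := by
  refine ⟨Or.inl ⟨72, ?_, ?_⟩, Or.inl ⟨0, ?_, ?_⟩, Or.inr (Or.inl ⟨108, ?_, ?_⟩),
    Or.inr (Or.inl ⟨0, ?_, ?_⟩)⟩
  · simp [xs]
  · norm_num
  · simp [xs]
  · norm_num
  · unfold ys
    refine Finset.mem_union_right _ (Finset.mem_image.2 ⟨9, by simp, rfl⟩)
  · norm_num
  · unfold ys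
    refine Finset.mem_union_left _ (Finset.mem_union_right _ (Finset.mem_image.2 ⟨0, by simp, rfl⟩))
  · norm_num

/-- the node lines of the direction `k` are lines of the arrangement (for `k = 0`, `6` they are the
lines `X = i - 6`, `Y = i - 6`: `x0 = 2 i + 24`, `y0 = 3 i + 36`) -/
theorem arr_node (k : Fin 12) {i : ℕ} (hi : i < 13) :
    ((na k : ℝ), (nc k : ℝ), (nh k : ℝ) * ((i : ℝ) - 6)) ∈ arr := by
  by_cases h0 : k = 0
  · subst h0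
    refine Or.inl ⟨2 * i + 24, ?_, ?_⟩
    · unfold xs
      refine Finset.mem_union_left _ (Finset.mem_union_left _ (Finset.mem_union_left _
        (Finset.mem_image.2 ⟨2 * i, by simp; omega, rfl⟩)))
    · have e1 : na 0 = 1 := rfl
      have e2 : nc 0 = 0 := rfl
      have e3 : nh 0 = 1 := rfl
      rw [e1, e2, e3]
      push_cast
      simp only [Prod.mk.injEq, true_and]
      ring
  by_cases h6 : k = 6
  · subst h6
    refine Or.inr (Or.inl ⟨3 * i + 36, ?_, ?_⟩)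
    · unfold ys
      refine Finset.mem_union_left _ (Finset.mem_union_left _
        (Finset.mem_image.2 ⟨3 * i + 6, by simp; omega, rfl⟩))
    · have e1 : na 6 = 0 := rfl
      have e2 : nc 6 = 1 := rfl
      have e3 : nh 6 = 1 := rfl
      rw [e1, e2, e3]
      push_cast
      simp only [Prod.mk.injEq, true_and]
      ring
  · have h1 : ∀ k : Fin 12, k ≠ 0 → k ≠ 6 → na k ≠ 0 ∧ nc k ≠ 0 := by decide
    exact Or.inr (Or.inr ⟨k, (h1 k h0 h6).1, (h1 k h0 h6).2, i, hi, rfl⟩)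

end H58Q
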