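import Pool.Agent.Lib.H58Q.M1A
import Pool.Agent.Lib.H58Q.M1X
import Pool.Agent.Lib.H58Q.K1C
import Pool.Agent.Lib.H58Q.K2C
import Pool.Agent.Lib.H58Q.K3B
import Pool.Agent.Lib.H58Q.K3C
import Pool.Agent.Lib.H58Q.K4B
import Pool.Agent.Lib.H58Q.K4D
import Pool.Agent.Lib.H58Q.N1G
import Pool.Agent.Lib.H58Q.V1G
import Pool.Agent.Lib.H58Q.V1H

/-! H58Q M1B -/

namespace H58Q

open Set Finset MeasureTheory

/-- the density on a cell -/
theorem PsiR_cell {T : Fin 12 → ℕ} (hT : ∀ k, okT (T k)) (k : Fin 12) {m : ℕ} (θ x y : Fin m → ℝ)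
    (hθ : ∀ i, 0 ≤ θ i) (hs : ∑ i, θ i = 1) {X Y : ℝ} (hX : ∑ i, θ i * x i = X)
    (hY : ∑ i, θ i * y i = Y)
    (hcell : ∀ i, ∀ l ∈ arr,
      (l.1 * X + l.2.1 * Y ≤ l.2.2 → l.1 * x i + l.2.1 * y i ≤ l.2.2) ∧
      (l.2.2 ≤ l.1 * X + l.2.1 * Y → l.2.2 ≤ l.1 * x i + l.2.1 * y i)) :
    PsiR T k X Y ≤ ∑ i, θ i * PsiR T k (x i) (y i) := by
  have hh : 0 < nh k := by fin_cases k <;> decide
  have hP : ∑ i, θ i * PP k (x i) (y i) = PP k X Y := by
    unfold PP
    rw [← hX, ← hY, Finset.mul_sum, Finset.mul_sum, ← Finset.sum_add_distrib]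
    refine Finset.sum_congr rfl fun i _ => ?_
    ring
  refine plf_cell (hT k) (nh k) hh θ hθ hs (PP k X Y) (fun i => PP k (x i) (y i)) hP ?_
  intro j hj
  have ha := arr_node k hj
  refine ⟨fun h i => (hcell i _ ha).2 h, fun h i => (hcell i _ ha).1 h⟩

theorem erF_nonneg (eA eB eC : ℕ) (X Y : ℝ) : 0 ≤ erF eA eB eC X Y := by
  unfold erF
  split_ifs <;> positivity

theorem eF_cell {T M : Fin 12 → ℕ} {l : Fin 7 → ℕ} {LA al mu dl eA eB eC eF : ℕ}
    (hd : DatOK T M l LA al mu dl eA eB eC eF) {m : ℕ} (θ x y : Fin m → ℝ)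
    (hθ : ∀ i, 0 ≤ θ i) (hs : ∑ i, θ i = 1) {X Y : ℝ} (hx : ∑ i, θ i * x i = X)
    (hy : ∑ i, θ i * y i = Y) (hX : |X| ≤ 18) (hY : |Y| ≤ 18) (hy18 : ∀ i, |y i| ≤ 18)
    (hcell : ∀ i, ∀ l ∈ arr,
      (l.1 * X + l.2.1 * Y ≤ l.2.2 → l.1 * x i + l.2.1 * y i ≤ l.2.2) ∧
      (l.2.2 ≤ l.1 * X + l.2.1 * Y → l.2.2 ≤ l.1 * x i + l.2.1 * y i)) :
    eeN al mu l X Y * FF Y ≤ ∑ i, θ i * (eeN al mu l (x i) (y i) * FF (y i)
      + erF eA eB eC (x i) (y i) / 10 ^ 6) := by
  have cellX : ∀ x0 ∈ xs, ((x0 : ℝ) / 2 - 18 ≤ X → ∀ i, (x0 : ℝ) / 2 - 18 ≤ x i) ∧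
      (X ≤ (x0 : ℝ) / 2 - 18 → ∀ i, x i ≤ (x0 : ℝ) / 2 - 18) := by
    intro x0 hx0
    have ha : ((1, 0, (x0 : ℝ) / 2 - 18) : ℝ × ℝ × ℝ) ∈ arr := Or.inl ⟨x0, hx0, rfl⟩
    constructor
    · intro h i
      have := (hcell i _ ha).2 (by simpa using h)
      simpa using this
    · intro h i
      have := (hcell i _ ha).1 (by simpa using h)
      simpa using this
  have cellY : ∀ y0 ∈ ys, ((y0 : ℝ) / 3 - 18 ≤ Y → ∀ i, (y0 : ℝ) / 3 - 18 ≤ y i) ∧
      (Y ≤ (y0 : ℝ) / 3 - 18 → ∀ i, y i ≤ (y0 : ℝ) / 3 - 18) := by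
    intro y0 hy0
    have ha : ((0, 1, (y0 : ℝ) / 3 - 18) : ℝ × ℝ × ℝ) ∈ arr := Or.inr (Or.inl ⟨y0, hy0, rfl⟩)
    constructor
    · intro h i
      have := (hcell i _ ha).2 (by simpa using h)
      simpa using this
    · intro h i
      have := (hcell i _ ha).1 (by simpa using h)
      simpa using this
  rcases le_or_gt 15 |X| with h15 | h15
  · -- far to the side: everything vanishes
    have h0 : eeN al mu l X Y = 0 := eeN_zero al mu hd.al24 hd.mu1 l (by linarith)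
    rw [h0, zero_mul]
    refine Finset.sum_nonneg fun i _ => mul_nonneg (hθ i) ?_
    have hxi : 15 ≤ |x i| := by
      rcases le_or_gt 0 X with hp | hn
      · rw [abs_of_nonneg hp] at h15
        have := (cellX 66 (by decide +kernel)).1 (by norm_num; linarith) i
        norm_num at this
        exact le_trans this (le_abs_self _)
      · rw [abs_of_neg hn] at h15
        have := (cellX 6 (by decide +kernel)).2 (by norm_num; linarith) i
        norm_num at this
        have h2 := neg_le_abs (x i)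
        linarith
    have h1 : eeN al mu l (x i) (y i) = 0 := eeN_zero al mu hd.al24 hd.mu1 l (by
      have := hy18 i; linarith)
    rw [h1, zero_mul, zero_add]
    exact div_nonneg (erF_nonneg _ _ _ _ _) (by positivity)
  · have hF := FF_cell θ hθ hs y hy hY cellY
    have hxs := xs_cell x h15.le cellX
    have he := eeN_cell al mu hd.mu1 l θ x y hθ hs hx hy hcell
    have h1 : eeN al mu l X Y * FF Y ≤
        (∑ i, θ i * eeN al mu l (x i) (y i)) * (∑ i, θ i * FF (y i)) := by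
      rw [← hF.1]
      exact mul_le_mul_of_nonneg_right he (FF_nonneg Y)
    refine h1.trans ?_
    -- Gruess with constants A, B
    have main : ∀ A B : ℝ, (∀ i j, |eeN al mu l (x i) (y i) - eeN al mu l (x j) (y j)| ≤ A) →
        (∀ i j, |FF (y i) - FF (y j)| ≤ B) →
        (∀ i, A * B / 4 ≤ erF eA eB eC (x i) (y i) / 10 ^ 6) →
        (∑ i, θ i * eeN al mu l (x i) (y i)) * (∑ i, θ i * FF (y i)) ≤
        ∑ i, θ i * (eeN al mu l (x i) (y i) * FF (y i) + erF eA eB eC (x i) (y i) / 10 ^ 6) := by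
      intro A B hA hB hAB
      refine (gruss θ _ _ hθ hs hA hB).trans ?_
      refine Finset.sum_le_sum fun i _ => mul_le_mul_of_nonneg_left ?_ (hθ i)
      linarith [hAB i]
    have hG0 : (0 : ℝ) ≤ (G0 l al mu : ℝ) := Nat.cast_nonneg _
    have hG1 : (0 : ℝ) ≤ (G1 l al mu : ℝ) := Nat.cast_nonneg _
    have hosc : ∀ a b : ℝ, (∀ i j, |x i - x j| ≤ a) → (∀ i j, |y i - y j| ≤ b) → ∀ i j,
        |eeN al mu l (x i) (y i) - eeN al mu l (x j) (y j)| ≤
          ((G0 l al mu : ℝ) * a + (G1 l al mu : ℝ) / 2 * b) / (2 * 1920000000) := by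
      intro a b ha hb i j
      refine (eeN_osc al mu hd.mu1 l _ _ _ _).trans ?_
      refine div_le_div_of_nonneg_right ?_ (by norm_num)
      exact add_le_add (mul_le_mul_of_nonneg_left (ha i j) hG0)
        (mul_le_mul_of_nonneg_left (hb i j) (div_nonneg hG1 (by norm_num)))
    have hAB : (eA : ℝ) ≤ eB := by exact_mod_cast hd.hAB
    have hBC : (eB : ℝ) ≤ eC := by exact_mod_cast hd.hBC
    rcases le_or_gt 8 |Y| with h8 | h8
    · have h := hF.2.2 h8
      have hC : (2 * (G0 l al mu : ℝ) + (G1 l al mu : ℝ)) * (LF1 : ℝ) ≤ 30720000000 * eC := by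
        have h := (Nat.cast_le (α := ℝ)).mpr hd.hC
        push_cast at h
        exact h
      refine main _ _ (hosc 1 1 hxs.1 (fun i j => (h i j).2.1)) (fun i j => (h i j).1) ?_
      intro i
      have e1 : erF eA eB eC (x i) (y i) = eC := by
        unfold erF; rw [if_neg (not_lt.mpr (h i i).2.2)]
      rw [e1]
      have e2 : ((G0 l al mu : ℝ) * 1 + (G1 l al mu : ℝ) / 2 * 1) / (2 * 1920000000) *
          ((LF1 : ℝ) / 10 ^ 6) / 4 = (2 * (G0 l al mu : ℝ) + (G1 l al mu : ℝ)) * (LF1 : ℝ) /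
            30720000000 / 10 ^ 6 := by ring
      rw [e2]
      refine div_le_div_of_nonneg_right ?_ (by positivity)
      rw [div_le_iff₀ (by norm_num)]
      linarith
    · have h := hF.2.1 h8
      rcases le_or_gt 6 |X| with h6 | h6
      · have hB : (6 * (G0 l al mu : ℝ) + (G1 l al mu : ℝ)) * (LF3 : ℝ) ≤ 92160000000 * eB := by
          have h := (Nat.cast_le (α := ℝ)).mpr hd.hB
          push_cast at h
          exact h
        refine main _ _ (hosc 1 (1 / 3) hxs.1 (fun i j => (h i j).2)) (fun i j => (h i j).1) ?_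
        intro i
        have e1 : (eB : ℝ) ≤ erF eA eB eC (x i) (y i) := by
          unfold erF
          rw [if_neg (not_lt.mpr (hxs.2.2 h6 i))]
          split_ifs
          · exact le_refl _
          · exact hBC
        have e2 : ((G0 l al mu : ℝ) * 1 + (G1 l al mu : ℝ) / 2 * (1 / 3)) / (2 * 1920000000) *
          ((LF3 : ℝ) / 10 ^ 6) / 4 = (6 * (G0 l al mu : ℝ) + (G1 l al mu : ℝ)) * (LF3 : ℝ) /
            92160000000 / 10 ^ 6 := by ring
        rw [e2]
        refine div_le_div_of_nonneg_right (le_trans ?_ e1) (by positivity)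
        rw [div_le_iff₀ (by norm_num)]
        linarith
      · have hA : (3 * (G0 l al mu : ℝ) + (G1 l al mu : ℝ)) * (LF3 : ℝ) ≤ 92160000000 * eA := by
          have h := (Nat.cast_le (α := ℝ)).mpr hd.hA
          push_cast at h
          exact h
        refine main _ _ (hosc (1 / 2) (1 / 3) (hxs.2.1 h6) (fun i j => (h i j).2))
          (fun i j => (h i j).1) ?_
        intro i
        have e1 : (eA : ℝ) ≤ erF eA eB eC (x i) (y i) := by
          unfold erF
          split_ifs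
          · exact le_refl _
          · exact hAB
          · exact hAB.trans hBC
        have e2 : ((G0 l al mu : ℝ) * (1 / 2) + (G1 l al mu : ℝ) / 2 * (1 / 3)) / (2 * 1920000000) *
          ((LF3 : ℝ) / 10 ^ 6) / 4 = (3 * (G0 l al mu : ℝ) + (G1 l al mu : ℝ)) * (LF3 : ℝ) /
            92160000000 / 10 ^ 6 := by ring
        rw [e2]
        refine div_le_div_of_nonneg_right (le_trans ?_ e1) (by positivity)
        rw [div_le_iff₀ (by norm_num)]
        linarith

/-- CHUNK M1B. The inequality of the certificate in the box. -/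
theorem box_ok {T M : Fin 12 → ℕ} {l : Fin 7 → ℕ} {LA al mu dl eA eB eC eF : ℕ}
    (hd : DatOK T M l LA al mu dl eA eB eC eF) (hc : DatChk T M l LA al mu dl eA eB eC eF)
    {X Y : ℝ} (hX : |X| ≤ 18) (hY : |Y| ≤ 18) : VOK T (eeN al mu l X Y * FF Y) X Y := by
  obtain ⟨m, θ, x, y, hθ, hs, hx, hy, hv, hcl⟩ := vertex_hull arr arr_finite arr_nd arr_box hX hY
  have hcell : ∀ i, ∀ l ∈ arr,
      (l.1 * X + l.2.1 * Y ≤ l.2.2 → l.1 * x i + l.2.1 * y i ≤ l.2.2) ∧
      (l.2.2 ≤ l.1 * X + l.2.1 * Y → l.2.2 ≤ l.1 * x i + l.2.1 * y i) := fun i l hl => hcl i l hl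
  have hbox := (cell_compact arr X Y arr_box hX hY).2
  have h18 : ∀ i, |x i| ≤ 18 ∧ |y i| ≤ 18 := fun i => hbox _ (hcl i)
  have hV : ∀ i, VOK T (eeN al mu l (x i) (y i) * FF (y i) + erF eA eB eC (x i) (y i) / 10 ^ 6)
      (x i) (y i) := by
    intro i
    obtain ⟨X', Y', D, hD, hX', hY', e1, e2, h⟩ := allV_sound hc.1 (h18 i).1 (h18 i).2 (hv i)
    rw [e1, e2]
    exact chk_sound T l LA al mu dl eA eB eC X' Y' D hD hd.mu1 hX' hY' hd.hLA hd.hdl h
  intro p q
  have hE := eF_cell hd θ x y hθ hs hx hy hX hY (fun i => (h18 i).2) hcell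
  have hpq : 0 ≤ |p| + |q| / 2 := by positivity
  calc ∑ k, PsiR T k X Y * |(na k : ℝ) * p + (nc k : ℝ) * q|
        + eeN al mu l X Y * FF Y * (|p| + |q| / 2)
      ≤ ∑ k, (∑ i, θ i * PsiR T k (x i) (y i)) * |(na k : ℝ) * p + (nc k : ℝ) * q|
        + (∑ i, θ i * (eeN al mu l (x i) (y i) * FF (y i)
          + erF eA eB eC (x i) (y i) / 10 ^ 6)) * (|p| + |q| / 2) := by
        refine add_le_add ?_ (mul_le_mul_of_nonneg_right hE hpq)
        refine Finset.sum_le_sum fun k _ => mul_le_mul_of_nonneg_right ?_ (abs_nonneg _)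
        exact PsiR_cell hd.okT k θ x y hθ hs hx hy hcell
    _ = ∑ i, θ i * (∑ k, PsiR T k (x i) (y i) * |(na k : ℝ) * p + (nc k : ℝ) * q|
        + (eeN al mu l (x i) (y i) * FF (y i) + erF eA eB eC (x i) (y i) / 10 ^ 6)
          * (|p| + |q| / 2)) := by
        simp only [mul_add, Finset.sum_add_distrib, Finset.mul_sum, Finset.sum_mul]
        rw [Finset.sum_comm]
        congr 1
        · refine Finset.sum_congr rfl fun i _ => Finset.sum_congr rfl fun k _ => ?_
          ring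
        · simp only [add_mul, Finset.sum_add_distrib, Finset.sum_mul, mul_add]
          simp only [mul_assoc]
    _ ≤ ∑ i, θ i * Real.sqrt (p ^ 2 + q ^ 2) :=
        Finset.sum_le_sum fun i _ => mul_le_mul_of_nonneg_left (hV i p q) (hθ i)
    _ = Real.sqrt (p ^ 2 + q ^ 2) := by rw [← Finset.sum_mul, hs, one_mul]

end H58Q
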