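import Pool.Agent.Lib.H58Q.K1C
import Pool.Agent.Lib.H58Q.K2C
import Pool.Agent.Lib.H58Q.N1G
import Pool.Agent.Lib.H58Q.V1G
import Pool.Agent.Lib.H58Q.V1H

/-! H58Q M1C -/

namespace H58Q

open Set Finset MeasureTheory

theorem m1c_nh (k : Fin 12) : 0 < nh k := by
  revert k
  decide

/-- the density is convex on the cells -/
theorem m1c_psi {T : Fin 12 → ℕ} (k : Fin 12) (hT : okT (T k)) {m : ℕ} {θ x y : Fin m → ℝ} {X Y : ℝ}
    (hθ : ∀ i, 0 ≤ θ i) (hs : ∑ i, θ i = 1) (hx : ∑ i, θ i * x i = X) (hy : ∑ i, θ i * y i = Y)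
    (hcell : ∀ i, (x i, y i) ∈ cell arr X Y) : PsiR T k X Y ≤ ∑ i, θ i * PsiR T k (x i) (y i) := by
  have hP : ∑ i, θ i * PP k (x i) (y i) = PP k X Y := by
    unfold PP
    rw [← hx, ← hy, Finset.mul_sum, Finset.mul_sum, ← Finset.sum_add_distrib]
    exact Finset.sum_congr rfl fun i _ => by ring
  exact plf_cell hT (nh k) (m1c_nh k) θ hθ hs (PP k X Y) (fun i => PP k (x i) (y i)) hP fun j hj =>
    ⟨fun h i => ((hcell i) _ (arr_node k hj)).2 h, fun h i => ((hcell i) _ (arr_node k hj)).1 h⟩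

theorem m1c_ee (X Y : ℝ) : eeN 0 0 (fun _ => 0) X Y = 0 := by
  simp [eeN, ee, Lam]

theorem m1c_er (eF : ℕ) (X Y : ℝ) : erF eF eF eF X Y = eF := by
  unfold erF
  split_ifs <;> rfl

/-- convex combinations -/
theorem m1c_vok {T : Fin 12 → ℕ} (hT : ∀ k, okT (T k)) {m : ℕ} {θ x y : Fin m → ℝ} {X Y E : ℝ}
    (hθ : ∀ i, 0 ≤ θ i) (hs : ∑ i, θ i = 1) (hx : ∑ i, θ i * x i = X) (hy : ∑ i, θ i * y i = Y)
    (hcell : ∀ i, (x i, y i) ∈ cell arr X Y) (hv : ∀ i, VOK T E (x i) (y i)) : VOK T E X Y := by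
  intro p q
  have h1 : ∑ k, PsiR T k X Y * |(na k : ℝ) * p + (nc k : ℝ) * q| ≤
      ∑ k, (∑ i, θ i * PsiR T k (x i) (y i)) * |(na k : ℝ) * p + (nc k : ℝ) * q| :=
    Finset.sum_le_sum fun k _ => mul_le_mul_of_nonneg_right (m1c_psi k (hT k) hθ hs hx hy hcell) (abs_nonneg _)
  have h2 : ∑ k, (∑ i, θ i * PsiR T k (x i) (y i)) * |(na k : ℝ) * p + (nc k : ℝ) * q| =
      ∑ i, θ i * ∑ k, PsiR T k (x i) (y i) * |(na k : ℝ) * p + (nc k : ℝ) * q| := by
    simp_rw [Finset.sum_mul, Finset.mul_sum]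
    rw [Finset.sum_comm]
    exact Finset.sum_congr rfl fun i _ => Finset.sum_congr rfl fun k _ => by ring
  have h3 : ∑ i, θ i * (∑ k, PsiR T k (x i) (y i) * |(na k : ℝ) * p + (nc k : ℝ) * q| + E * (|p| + |q| / 2)) ≤
      ∑ i, θ i * Real.sqrt (p ^ 2 + q ^ 2) :=
    Finset.sum_le_sum fun i _ => mul_le_mul_of_nonneg_left (hv i p q) (hθ i)
  have h4 : ∑ i, θ i * (∑ k, PsiR T k (x i) (y i) * |(na k : ℝ) * p + (nc k : ℝ) * q| + E * (|p| + |q| / 2)) =
      ∑ i, θ i * ∑ k, PsiR T k (x i) (y i) * |(na k : ℝ) * p + (nc k : ℝ) * q| + E * (|p| + |q| / 2) := by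
    have h5 : ∑ i, θ i * (∑ k, PsiR T k (x i) (y i) * |(na k : ℝ) * p + (nc k : ℝ) * q| + E * (|p| + |q| / 2)) =
        ∑ i, (θ i * ∑ k, PsiR T k (x i) (y i) * |(na k : ℝ) * p + (nc k : ℝ) * q| + θ i * (E * (|p| + |q| / 2))) :=
      Finset.sum_congr rfl fun i _ => by ring
    rw [h5, Finset.sum_add_distrib, ← Finset.sum_mul, hs, one_mul]
  rw [← Finset.sum_mul, hs, one_mul] at h3
  linarith

/-- CHUNK M1C. Constant tables on the sides of the box: `vertex_hull` at a point of a side gives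
vertices on the same side (the side is a line of `arr`), `farV_sound`, `chk_sound` with `l = 0`,
`LA = al = mu = dl = 0` (then `eeN = 0`) and `plf_cell`. Here `erF eF eF eF = eF`. -/
theorem side_ok {T M : Fin 12 → ℕ} {l : Fin 7 → ℕ} {LA al mu dl eA eB eC eF : ℕ}
    (hd : DatOK T M l LA al mu dl eA eB eC eF) (hc : DatChk T M l LA al mu dl eA eB eC eF)
    {X Y : ℝ} (hX : |X| ≤ 18) (hY : |Y| ≤ 18) (hs : |X| = 18 ∨ |Y| = 18) :
    VOK M ((eF : ℝ) / 10 ^ 6) X Y := by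
  obtain ⟨m, θ, x, y, hθ, hs1, hx, hy, hvt, hcell⟩ := vertex_hull arr arr_finite arr_nd arr_box hX hY
  have hM : ∀ k, okT (M k) := by
    intro k i hi
    rw [hd.okM' k i hi, mul_zero]
    exact Nat.zero_le _
  have hbd := (cell_compact arr X Y arr_box hX hY).2
  refine m1c_vok hM hθ hs1 hx hy hcell fun i => ?_
  have h1 := hbd _ (hcell i)
  have hside : |x i| = 18 ∨ |y i| = 18 := by
    obtain ⟨b1, b2, b3, b4⟩ := arr_box
    have c1 := (hcell i) _ b1
    have c2 := (hcell i) _ b2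
    have c3 := (hcell i) _ b3
    have c4 := (hcell i) _ b4
    simp only [one_mul, zero_mul, add_zero, zero_add] at c1 c2 c3 c4
    have h1a := abs_le.1 h1.1
    have h1b := abs_le.1 h1.2
    simp only at h1a h1b
    rcases hs with hs | hs
    · left
      rcases (abs_eq (by norm_num)).1 hs with h2 | h2
      · have := c1.2 (by linarith)
        have h3 : x i = 18 := by linarith
        rw [h3]
        norm_num
      · have := c2.1 (by linarith)
        have h3 : x i = -18 := by linarith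
        rw [h3]
        norm_num
    · right
      rcases (abs_eq (by norm_num)).1 hs with h2 | h2
      · have := c3.2 (by linarith)
        have h3 : y i = 18 := by linarith
        rw [h3]
        norm_num
      · have := c4.1 (by linarith)
        have h3 : y i = -18 := by linarith
        rw [h3]
        norm_num
  obtain ⟨X', Y', D, hD, hX', hY', hxi, hyi, hf⟩ := farV_sound hc.2 h1.1 h1.2 (hvt i) hside
  have h2 := chk_sound M (fun _ => 0) 0 0 0 0 eF eF eF X' Y' D hD (Nat.zero_le 1) hX' hY' (by simp) (by simp) hf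
  rw [m1c_ee, m1c_er, zero_mul, zero_add, ← hxi, ← hyi] at h2
  exact h2

end H58Q
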