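import Pool.Agent.Lib.H58Q.M1C
import Pool.Agent.Lib.H58Q.K2D
import Pool.Agent.Lib.H58Q.K2A
import Pool.Agent.Lib.H58Q.K4B
import Pool.Agent.Lib.H58Q.K3B

/-! H58Q M1D -/

namespace H58Q

open Set Finset MeasureTheory

theorem strip_param {h : ℕ} (hh : 0 < h) {P : ℝ} (hP : |P| ≤ 6 * h) :
    0 ≤ (P + 6 * h) / h ∧ (P + 6 * h) / h ≤ 12 := by
  have hh' : (0 : ℝ) < h := by exact_mod_cast hh
  rw [abs_le] at hP
  constructor
  · exact div_nonneg (by linarith [hP.1]) hh'.le
  · rw [div_le_iff₀ hh']; linarith [hP.2]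

theorem PsiR_const_nonneg {M : Fin 12 → ℕ} (h1 : ∀ k, ∀ i < 13, fld (M k) (2 * i) = fld (M k) 0)
    (h2 : ∀ k, ∀ i < 12, fld (M k) (2 * i + 1) = 0) (k : Fin 12) (X Y : ℝ) :
    0 ≤ PsiR M k X Y := by
  have hh : 0 < nh k := by fin_cases k <;> decide
  unfold PsiR
  split_ifs with h
  · unfold psiR
    obtain ⟨e1, e2⟩ := strip_param hh h
    rw [plf_const (h1 k) (h2 k) e1 e2]
    positivity
  · exact le_refl _

theorem far_arith {a b y : ℝ} (ha : 0 ≤ a) (hb : 0 ≤ b) (hy : 18 ≤ y) :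
    (a + b * y) / (40 + y ^ 2) ≤ (a + 18 * b) / 364 := by
  rw [div_le_div_iff₀ (by positivity) (by norm_num)]
  have h1 : 0 ≤ a * (y ^ 2 - 324) := mul_nonneg ha (by nlinarith)
  have h2 : 0 ≤ b * ((y - 18) * (18 * y - 40)) :=
    mul_nonneg hb (mul_nonneg (by linarith) (by linarith))
  nlinarith

/-- CHUNK M1D. Outside of the box. -/
theorem out_ok {T M : Fin 12 → ℕ} {l : Fin 7 → ℕ} {LA al mu dl eA eB eC eF : ℕ}
    (hd : DatOK T M l LA al mu dl eA eB eC eF) (hc : DatChk T M l LA al mu dl eA eB eC eF)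
    {X Y : ℝ} (hXY : ¬(|X| ≤ 18 ∧ |Y| ≤ 18)) : VOK T (eeN al mu l X Y * FF Y) X Y := by
  have hM1 : ∀ k, ∀ i < 13, fld (M k) (2 * i) = fld (M k) 0 := fun k i hi => (hd.okM k i hi).2
  have hM0 : ∀ k, ∀ i < 13, fld (T k) (2 * i) ≤ fld (M k) (2 * i) := fun k i hi => (hd.okM k i hi).1
  have hmax : 18 < max |X| |Y| := by
    by_contra hcon
    push Not at hcon
    exact hXY ⟨(le_max_left _ _).trans hcon, (le_max_right _ _).trans hcon⟩
  set t : ℝ := max |X| |Y| / 18 with ht
  have ht1 : 1 ≤ t := by rw [ht, le_div_iff₀ (by norm_num)]; linarith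
  have ht0 : 0 < t := by linarith
  have hX0 : |X / t| = |X| / t := by rw [abs_div, abs_of_pos ht0]
  have hY0 : |Y / t| = |Y| / t := by rw [abs_div, abs_of_pos ht0]
  have hX18 : |X / t| ≤ 18 := by
    rw [hX0, div_le_iff₀ ht0, ht]; have := le_max_left |X| |Y|; linarith
  have hY18 : |Y / t| ≤ 18 := by
    rw [hY0, div_le_iff₀ ht0, ht]; have := le_max_right |X| |Y|; linarith
  have hside : |X / t| = 18 ∨ |Y / t| = 18 := by
    rcases le_total |X| |Y| with h | h
    · right
      rw [hY0, ht, max_eq_right h]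
      rw [max_eq_right h] at hmax
      have : |Y| ≠ 0 := by linarith
      field_simp
    · left
      rw [hX0, ht, max_eq_left h]
      rw [max_eq_left h] at hmax
      have : |X| ≠ 0 := by linarith
      field_simp
  have hV := side_ok hd hc hX18 hY18 hside
  have hPsi : ∀ k, PsiR T k X Y ≤ PsiR M k (X / t) (Y / t) := by
    intro k
    have hh : 0 < nh k := by fin_cases k <;> decide
    by_cases h : |PP k X Y| ≤ 6 * nh k
    · have hPP : PP k (X / t) (Y / t) = PP k X Y / t := by unfold PP; ring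
      have h0 : |PP k (X / t) (Y / t)| ≤ 6 * nh k := by
        rw [hPP, abs_div, abs_of_pos ht0, div_le_iff₀ ht0]
        have : (0 : ℝ) ≤ 6 * nh k := by positivity
        nlinarith
      unfold PsiR
      rw [if_pos h, if_pos h0]
      unfold psiR
      obtain ⟨e1, e2⟩ := strip_param hh h
      obtain ⟨e3, e4⟩ := strip_param hh h0
      rw [plf_const (hM1 k) (hd.okM' k) e3 e4]
      exact plf_le_const (hM0 k) (hM1 k) e1 e2
    · have : PsiR T k X Y = 0 := by unfold PsiR; rw [if_neg h]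
      rw [this]
      exact PsiR_const_nonneg hM1 hd.okM' k _ _
  have hE : eeN al mu l X Y * FF Y ≤ (eF : ℝ) / 10 ^ 6 := by
    have hF0 : (0 : ℝ) ≤ (eF : ℝ) / 10 ^ 6 := by positivity
    rcases le_or_gt |Y| 18 with hy | hy
    · have hx : 18 < |X| := by
        by_contra hcon
        push Not at hcon
        exact hXY ⟨hcon, hy⟩
      rw [eeN_zero al mu hd.al24 hd.mu1 l (by linarith), zero_mul]
      exact hF0
    · have hFF : FF Y = 80 / (40 + |Y| ^ 2) := by
        unfold FF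
        rw [if_neg (by linarith), if_neg (by linarith), sq_abs]
      have h1 := eeN_far al mu hd.mu1 l X Y
      have h2 : eeN al mu l X Y ≤ ((G2 l al mu : ℝ) / 4 + (G1 l al mu : ℝ) / 2 * |Y|) / (2 * 1920000000) :=
        (le_abs_self _).trans h1
      have hG1 : (0 : ℝ) ≤ (G1 l al mu : ℝ) := Nat.cast_nonneg _
      have hG2 : (0 : ℝ) ≤ (G2 l al mu : ℝ) := Nat.cast_nonneg _
      have h3 := far_arith (a := (G2 l al mu : ℝ) / 4) (b := (G1 l al mu : ℝ) / 2)
        (div_nonneg hG2 (by norm_num)) (div_nonneg hG1 (by norm_num)) hy.le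
      have hFr : ((G2 l al mu : ℝ) + 36 * (G1 l al mu : ℝ)) * 10000000 ≤ 698880000000 * eF := by
        have h := (Nat.cast_le (α := ℝ)).mpr hd.hF
        push_cast at h
        exact h
      rw [hFF]
      have hden : (0 : ℝ) < 40 + |Y| ^ 2 := by positivity
      calc eeN al mu l X Y * (80 / (40 + |Y| ^ 2))
          ≤ ((G2 l al mu : ℝ) / 4 + (G1 l al mu : ℝ) / 2 * |Y|) / (2 * 1920000000) *
            (80 / (40 + |Y| ^ 2)) := mul_le_mul_of_nonneg_right h2 (by positivity)
        _ = (((G2 l al mu : ℝ) / 4 + (G1 l al mu : ℝ) / 2 * |Y|) / (40 + |Y| ^ 2)) *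
            (80 / (2 * 1920000000)) := by ring
        _ ≤ (((G2 l al mu : ℝ) / 4 + 18 * ((G1 l al mu : ℝ) / 2)) / 364) *
            (80 / (2 * 1920000000)) := mul_le_mul_of_nonneg_right h3 (by norm_num)
        _ = (((G2 l al mu : ℝ) + 36 * (G1 l al mu : ℝ)) * 10000000) / 698880000000 / 10 ^ 6 := by ring
        _ ≤ (eF : ℝ) / 10 ^ 6 := by
            refine div_le_div_of_nonneg_right ?_ (by positivity)
            rw [div_le_iff₀ (by norm_num)]
            linarith
  intro p q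
  refine le_trans ?_ (hV p q)
  refine add_le_add (Finset.sum_le_sum fun k _ => mul_le_mul_of_nonneg_right (hPsi k) (abs_nonneg _))
    (mul_le_mul_of_nonneg_right hE (by positivity))

end H58Q
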