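import Pool.Agent.Lib.H58Q.M1B
import Pool.Agent.Lib.H58Q.M1D
import Pool.Agent.Lib.H58Q.K2B

/-! H58Q M1E -/

namespace H58Q

open Set Finset MeasureTheory

/-- CHUNK M1E. Assemble: the densities are the tables `T`, the weights `l i / 10 ^ 7`; the pointwise
inequality by `box_ok` and `out_ok`; the value by `psiR_int`. -/
theorem cert_of_dat {T M : Fin 12 → ℕ} {l : Fin 7 → ℕ} {LA al mu dl eA eB eC eF : ℕ}
    (hd : DatOK T M l LA al mu dl eA eB eC eF) (hc : DatChk T M l LA al mu dl eA eB eC eF)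
    (sn : ℤ) (hv : 24396000000000000 ≤ valA T * 500000000 + valB l al mu sn) :
    Cert (-(al : ℝ) / 4) ((mu : ℝ) / 2) ((sn : ℝ) / 10 ^ 8) := by
  refine ⟨T, fun i => (l i : ℝ) / 10 ^ 7, hd.okT, fun i => by positivity, ?_, ?_⟩
  · intro X Y p q
    by_cases h : |X| ≤ 18 ∧ |Y| ≤ 18
    · exact box_ok hd hc h.1 h.2 p q
    · exact out_ok hd hc h p q
  · have hA : ∑ k, (∫ x in (-6 * (nh k : ℝ))..(6 * (nh k : ℝ)), psiR T k x) =
        ((valA T : ℤ) : ℝ) / (2 * 10 ^ 6) := by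
      have h1 : ∀ k, (∫ x in (-6 * (nh k : ℝ))..(6 * (nh k : ℝ)), psiR T k x) =
          (((nh k : ℤ) * (2 * ∑ i ∈ range 13, (fld (T k) (2 * i) : ℤ) - fld (T k) 0 - fld (T k) 24
            - ∑ i ∈ range 12, (fld (T k) (2 * i + 1) : ℤ)) : ℤ) : ℝ) / (2 * 10 ^ 6) := by
        intro k
        rw [psiR_int T k]
        push_cast
        rw [← Finset.sum_div, ← Finset.sum_div]
        ring
      rw [Finset.sum_congr rfl (fun k _ => h1 k), ← Finset.sum_div]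
      unfold valA
      push_cast
      rfl
    have hB : ∑ i : Fin 7, (l i : ℝ) / 10 ^ 7 * ((-(al : ℝ) / 4) ^ 2 + 40 * ((mu : ℝ) / 2) ^ 2
        - ((i : ℝ) - 3) ^ 2 - (sn : ℝ) / 10 ^ 8) = ((valB l al mu sn : ℤ) : ℝ) / 10 ^ 15 := by
      unfold valB
      push_cast
      rw [Finset.sum_div]
      refine Finset.sum_congr rfl fun i _ => ?_
      ring
    have hv' : (24396000000000000 : ℝ) ≤ ((valA T : ℤ) : ℝ) * 500000000 + ((valB l al mu sn : ℤ) : ℝ) := by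
      exact_mod_cast hv
    show (6099 : ℝ) / 250 ≤ _
    rw [hA]
    have e : (∑ i : Fin 7, (fun i => (l i : ℝ) / 10 ^ 7) i * ((-(al : ℝ) / 4) ^ 2 + 40 * ((mu : ℝ) / 2) ^ 2
        - ((i : ℝ) - 3) ^ 2 - (sn : ℝ) / 10 ^ 8)) = ((valB l al mu sn : ℤ) : ℝ) / 10 ^ 15 := hB
    rw [e]
    have e3 : ((valA T : ℤ) : ℝ) / (2 * 10 ^ 6) + ((valB l al mu sn : ℤ) : ℝ) / 10 ^ 15 =
      (((valA T : ℤ) : ℝ) * 500000000 + ((valB l al mu sn : ℤ) : ℝ)) / 10 ^ 15 := by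
      ring
    rw [e3, le_div_iff₀ (by positivity)]
    norm_num
    linarith

end H58Q
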