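import Pool.Agent.Lib.H58Q.K2A

/-! H58Q N1A -/

namespace H58Q

open Set Finset MeasureTheory

theorem n1a_round (A B den : ℕ) (hd : 0 < den) :
    ((A : ℝ) - B) / den ≤ (((A - B) / den + 1 : ℕ) : ℝ) := by
  have hd' : (0 : ℝ) < den := by exact_mod_cast hd
  rw [div_le_iff₀ hd']
  have h1 : (A - B) < ((A - B) / den + 1) * den := by
    rw [Nat.mul_comm (_ + 1) den]
    exact Nat.lt_mul_div_succ _ hd
  have h2 : A ≤ (A - B) + B := le_tsub_add
  have h3 : A ≤ ((A - B) / den + 1) * den + B := by omega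
  have h4 : (A : ℝ) ≤ (((A - B) / den + 1 : ℕ) : ℝ) * den + B := by exact_mod_cast h3
  linarith

theorem n1a_psi (T num off den : ℕ) (h1 : off ≤ num) (h2 : num - off ≤ 12 * den) :
    psi T num off den = psiC T ((num - off) / den) ((num - off) % den) den := by
  have e1 : Nat.ble off num = true := by rw [Nat.ble_eq]; exact h1
  have e2 : Nat.ble (num - off) (12 * den) = true := by rw [Nat.ble_eq]; exact h2
  have e : psi T num off den = cnd (Nat.ble off num) (cnd (Nat.ble (num - off) (12 * den))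
    (frn ((num - off) / den) fun i =>
      frn ((num - off) % den) fun r => psiC T i r den) 0) 0 := rfl
  rw [e, e1, e2, cnd_eq, cnd_eq, frn_eq, frn_eq]
  simp

theorem n1a_psiC (T i r den : ℕ) : psiC T i r den =
    ((fld T (2 * i) * (den - r) + fld T (2 * i + 2) * r)
      - fld T (2 * i + 1) * (den - ((den - 2 * r) + (2 * r - den)))) / den + 1 := rfl

theorem n1a_main (T i r den : ℕ) (hi : i < 12) (hr : r ≤ den) (hd : 0 < den) :
    (10 : ℝ) ^ 6 * plf T (i + (r : ℝ) / den) ≤ (psiC T i r den : ℝ) := by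
  have hd' : (0 : ℝ) < den := by exact_mod_cast hd
  have hr' : (r : ℝ) ≤ den := by exact_mod_cast hr
  have hr0 : (0 : ℝ) ≤ r := Nat.cast_nonneg r
  have hq0 : 0 ≤ (r : ℝ) / den := by positivity
  have hq1 : (r : ℝ) / den ≤ 1 := by rw [div_le_one hd']; exact hr'
  rw [plf_eq T hi (by linarith) (by linarith), n1a_psiC]
  refine le_trans (le_of_eq ?_) (n1a_round _ _ den hd)
  have c1 : ((den - r : ℕ) : ℝ) = den - r := by rw [Nat.cast_sub hr]
  have c2 : (((den - 2 * r) + (2 * r - den) : ℕ) : ℝ) = |2 * (r : ℝ) - den| := by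
    rcases le_total (2 * r) den with h | h
    · have h0 : 2 * r - den = 0 := Nat.sub_eq_zero_of_le h
      have h' : 2 * (r : ℝ) ≤ den := by exact_mod_cast h
      rw [h0, add_zero, Nat.cast_sub h, abs_of_nonpos (by linarith)]
      push_cast
      ring
    · have h0 : den - 2 * r = 0 := Nat.sub_eq_zero_of_le h
      have h' : (den : ℝ) ≤ 2 * r := by exact_mod_cast h
      rw [h0, zero_add, Nat.cast_sub h, abs_of_nonneg (by linarith)]
      push_cast
      ring
  have c3 : ((den - ((den - 2 * r) + (2 * r - den)) : ℕ) : ℝ) = den - |2 * (r : ℝ) - den| := by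
    rw [Nat.cast_sub (by omega), c2]
  have e : |2 * ((i : ℝ) + r / den - i) - 1| = |2 * (r : ℝ) - den| / den := by
    have e1 : 2 * ((i : ℝ) + r / den - i) - 1 = (2 * (r : ℝ) - den) / den := by
      field_simp
      ring
    rw [e1, abs_div, abs_of_pos hd']
  rw [e, Nat.cast_add, Nat.cast_mul, Nat.cast_mul, Nat.cast_mul, c1, c3]
  field_simp
  ring

/-- CHUNK N1A. Let `s = (P + 6 h) / h = (num - 12 h D) / (h D)`, `den = h D`. If `|P| ≤ 6 h` then
`12 h D ≤ num` and `num - 12 h D ≤ 12 den`; with `i = (num - off) / den`, `r = (num - off) % den` we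
have `s = i + r / den`. If `i < 12` use `plf_eq`: the real value times `10 ^ 6 * den` is
`t_i (den - r) + t_(i+1) r - d_i (den - |den - 2 r|)`, and `psiC` is at least the truncated difference
divided by `den`, rounded up (`Nat.lt_succ_div_mul`...). If `i = 12` then `r = 0`, use `plf_eq` at
`i = 11`, `s = 12`: the value is `t_12`, and `fld T 25` has no influence because `den - |den| = 0`. -/
theorem psi_sound (T h num D : ℕ) (hh : 0 < h) (hD : 0 < D) (P : ℝ)
    (hP : P = (num : ℝ) / D - 18 * h) :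
    (10 : ℝ) ^ 6 * (if |P| ≤ 6 * h then plf T ((P + 6 * h) / h) else 0) ≤
      (psi T num (12 * h * D) (h * D) : ℝ) := by
  split_ifs with hc
  · have hD' : (0 : ℝ) < D := by exact_mod_cast hD
    have hh' : (0 : ℝ) < h := by exact_mod_cast hh
    rw [abs_le] at hc
    obtain ⟨c1, c2⟩ := hc
    rw [hP] at c1 c2
    have d1 : 12 * (h : ℝ) ≤ num / D := by linarith
    have d2 : (num : ℝ) / D ≤ 24 * h := by linarith
    rw [le_div_iff₀ hD'] at d1
    rw [div_le_iff₀ hD'] at d2
    have g1 : 12 * h * D ≤ num := by exact_mod_cast d1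
    have g2 : num ≤ 24 * h * D := by exact_mod_cast d2
    have g3 : num - 12 * h * D ≤ 12 * (h * D) := by
      have : 24 * h * D = 12 * h * D + 12 * (h * D) := by ring
      omega
    have hden : 0 < h * D := Nat.mul_pos hh hD
    have hden' : (0 : ℝ) < ((h * D : ℕ) : ℝ) := by exact_mod_cast hden
    rw [n1a_psi T num _ _ g1 g3]
    obtain ⟨M, hM⟩ : ∃ M, M = num - 12 * h * D := ⟨_, rfl⟩
    rw [← hM] at g3 ⊢
    have hMr : (M : ℝ) = num - 12 * h * D := by
      rw [hM, Nat.cast_sub g1]
      push_cast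
      ring
    have hs : (P + 6 * h) / h = (M : ℝ) / ((h * D : ℕ) : ℝ) := by
      rw [hP, hMr]
      push_cast
      field_simp
      ring
    rw [hs]
    have hdm : h * D * (M / (h * D)) + M % (h * D) = M := Nat.div_add_mod M (h * D)
    have hi : M / (h * D) ≤ 12 := by
      rw [Nat.mul_comm] at g3
      exact Nat.div_le_of_le_mul g3
    rcases Nat.lt_or_ge (M / (h * D)) 12 with hi2 | hi2
    · have e : (M : ℝ) / ((h * D : ℕ) : ℝ)
          = ((M / (h * D) : ℕ) : ℝ) + ((M % (h * D) : ℕ) : ℝ) / ((h * D : ℕ) : ℝ) := by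
        have : (M : ℝ) = ((h * D : ℕ) : ℝ) * ((M / (h * D) : ℕ) : ℝ) + ((M % (h * D) : ℕ) : ℝ) := by
          exact_mod_cast hdm.symm
        rw [eq_comm, ← sub_eq_zero]
        rw [this]
        field_simp
        ring
      rw [e]
      exact n1a_main T _ _ _ hi2 (Nat.mod_lt _ hden).le hden
    · have hi3 : M / (h * D) = 12 := le_antisymm hi hi2
      rw [hi3] at hdm ⊢
      have hr : M % (h * D) = 0 := by
        have : h * D * 12 = 12 * (h * D) := by ring
        omega
      have hM2 : M = 12 * (h * D) := by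
        rw [hr] at hdm
        rw [← hdm]
        ring
      rw [hr]
      have e : (M : ℝ) / ((h * D : ℕ) : ℝ) = ((11 : ℕ) : ℝ) + ((h * D : ℕ) : ℝ) / ((h * D : ℕ) : ℝ) := by
        rw [hM2]
        push_cast
        field_simp
        norm_num
      rw [e]
      refine (n1a_main T 11 (h * D) (h * D) (by norm_num) le_rfl hden).trans ?_
      rw [n1a_psiC, n1a_psiC]
      have f1 : h * D - h * D = 0 := Nat.sub_self _
      have f2 : h * D - 2 * (h * D) = 0 := Nat.sub_eq_zero_of_le (by omega)
      have f3 : 2 * (h * D) - h * D = h * D := by omega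
      rw [f1, f2, f3]
      simp
  · rw [mul_zero]
    exact Nat.cast_nonneg _

end H58Q
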