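import Pool.Agent.Lib.H58Q.Defs

/-! H58Q N1D -/

namespace H58Q

open Set Finset MeasureTheory

theorem sq_cast (a b : ℕ) : ((sq a b : ℕ) : ℤ) = ((a : ℤ) - b) ^ 2 := by
  unfold sq
  show (((a - b) * (a - b) + (b - a) * (b - a) : ℕ) : ℤ) = _
  rcases le_total a b with h | h
  · rw [Nat.sub_eq_zero_of_le h]
    push_cast [Nat.cast_sub h]
    ring
  · rw [Nat.sub_eq_zero_of_le h]
    push_cast [Nat.cast_sub h]
    ring

/-- CHUNK N1D. -/
theorem zon_facts (a : Fin 12 → ℕ)
    (h : zon (a 0) (a 1) (a 2) (a 3) (a 4) (a 5) (a 6) (a 7) (a 8) (a 9) (a 10) (a 11) = true)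
    (j : Fin 12) :
    (∑ k : Fin 12, (if k < j then (a k : ℤ) else -(a k : ℤ)) * na k) ^ 2 +
    (∑ k : Fin 12, (if k < j then (a k : ℤ) else -(a k : ℤ)) * nc k) ^ 2 ≤ 10 ^ 12 := by
  simp only [zon, frc_eq, band_eq, Bool.and_eq_true, Nat.ble_eq, Nat.add_eq, Nat.mul_eq,
    and_true] at h
  obtain ⟨h0, h1, h2, h3, h4, h5, h6, h7, h8, h9, h10, h11⟩ := h
  rw [← Int.ofNat_le] at h0 h1 h2 h3 h4 h5 h6 h7 h8 h9 h10 h11
  push_cast [sq_cast] at h0 h1 h2 h3 h4 h5 h6 h7 h8 h9 h10 h11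
  have hs : ∀ f : Fin 12 → ℤ, ∑ k, f k = f 0 + f 1 + f 2 + f 3 + f 4 + f 5 + f 6 + f 7 + f 8 + f 9
      + f 10 + f 11 := by
    intro f
    simp only [Fin.sum_univ_succ, Fin.sum_univ_zero]
    simp only [Fin.succ_zero_eq_one, Fin.succ_one_eq_two]
    ring_nf
    rfl
  rw [hs, hs]
  have n0 : na 0 = 1 := rfl
  have n1 : na 1 = 3 := rfl
  have n2 : na 2 = 2 := rfl
  have n3 : na 3 = 1 := rfl
  have n4 : na 4 = 1 := rfl
  have n5 : na 5 = 1 := rfl
  have n6 : na 6 = 0 := rfl
  have n7 : na 7 = -1 := rfl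
  have n8 : na 8 = -1 := rfl
  have n9 : na 9 = -1 := rfl
  have n10 : na 10 = -2 := rfl
  have n11 : na 11 = -3 := rfl
  have c0 : nc 0 = 0 := rfl
  have c1 : nc 1 = 1 := rfl
  have c2 : nc 2 = 1 := rfl
  have c3 : nc 3 = 1 := rfl
  have c4 : nc 4 = 2 := rfl
  have c5 : nc 5 = 3 := rfl
  have c6 : nc 6 = 1 := rfl
  have c7 : nc 7 = 3 := rfl
  have c8 : nc 8 = 2 := rfl
  have c9 : nc 9 = 1 := rfl
  have c10 : nc 10 = 1 := rfl
  have c11 : nc 11 = 1 := rfl
  rw [n0, n1, n2, n3, n4, n5, n6, n7, n8, n9, n10, n11, c0, c1, c2, c3, c4, c5, c6, c7, c8, c9, c10, c11]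
  fin_cases j
  · simp +decide only [if_true, if_false]; linarith
  · simp +decide only [if_true, if_false]; linarith
  · simp +decide only [if_true, if_false]; linarith
  · simp +decide only [if_true, if_false]; linarith
  · simp +decide only [if_true, if_false]; linarith
  · simp +decide only [if_true, if_false]; linarith
  · simp +decide only [if_true, if_false]; linarith
  · simp +decide only [if_true, if_false]; linarith
  · simp +decide only [if_true, if_false]; linarith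
  · simp +decide only [if_true, if_false]; linarith
  · simp +decide only [if_true, if_false]; linarith
  · simp +decide only [if_true, if_false]; linarith

end H58Q
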