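import Pool.Agent.Lib.H58Q.K2A

/-! H58Q S1A -/

namespace H58Q

open Set Finset MeasureTheory

theorem s1a_ind {a b P δ c : ℝ} (hab : a ≤ b) (hδ : 0 ≤ δ) (hc : 0 ≤ c) :
    ∫ x in a..b, (Set.Icc (P - δ) (P + δ)).indicator (fun _ => c) x ≤ c * (2 * δ) := by
  have hint : Integrable ((Set.Icc (P - δ) (P + δ)).indicator (fun _ : ℝ => c)) volume := by
    rw [integrable_indicator_iff measurableSet_Icc]
    exact integrableOn_const (by rw [Real.volume_Icc]; exact ENNReal.ofReal_ne_top)
  rw [intervalIntegral.integral_of_le hab]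
  refine (setIntegral_le_integral hint ?_).trans ?_
  · exact Filter.Eventually.of_forall fun x => Set.indicator_nonneg (fun _ _ => hc) x
  · rw [integral_indicator measurableSet_Icc, setIntegral_const, Real.volume_real_Icc_of_le (by linarith),
      smul_eq_mul]
    apply le_of_eq
    ring

theorem s1a_ii {a b P δ c : ℝ} :
    IntervalIntegrable ((Set.Icc (P - δ) (P + δ)).indicator (fun _ : ℝ => c)) volume a b := by
  apply Integrable.intervalIntegrable
  rw [integrable_indicator_iff measurableSet_Icc]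
  exact integrableOn_const (by rw [Real.volume_Icc]; exact ENNReal.ofReal_ne_top)

theorem s1a_nh (k : Fin 12) : 1 ≤ nh k ∧ nh k ≤ 4 ∧ |na k| + |nc k| = nh k ∧ |na k| ≤ 3 ∧ |nc k| ≤ 3 := by
  fin_cases k <;> simp [nh, na, nc]

theorem s1a_lip (T : Fin 12 → ℕ) (k : Fin 12) (x y : ℝ) : |psiR T k x - psiR T k y| ≤ 700 * |x - y| := by
  unfold psiR
  refine (plf_lip _ _ _).trans ?_
  have h1 : (1 : ℝ) ≤ nh k := by exact_mod_cast (s1a_nh k).1
  have h2 : (x + 6 * (nh k : ℝ)) / nh k - (y + 6 * nh k) / nh k = (x - y) / nh k := by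
    rw [← sub_div]
    congr 1
    ring
  rw [h2, abs_div, abs_of_pos (by linarith : (0 : ℝ) < nh k)]
  have h3 : |x - y| / (nh k : ℝ) ≤ |x - y| := div_le_self (abs_nonneg _) h1
  linarith

theorem s1a_cont (T : Fin 12 → ℕ) (k : Fin 12) : Continuous (psiR T k) := by
  have h : LipschitzWith 700 (psiR T k) := by
    apply LipschitzWith.of_dist_le_mul
    intro x y
    rw [Real.dist_eq, Real.dist_eq]
    exact s1a_lip T k x y
  exact h.continuous

theorem s1a_nonneg {T : Fin 12 → ℕ} (hT : ∀ k, okT (T k)) (k : Fin 12) (x : ℝ) : 0 ≤ psiR T k x :=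
  plf_nonneg (hT k) _

theorem s1a_le (T : Fin 12 → ℕ) (k : Fin 12) (x : ℝ) : psiR T k x ≤ 300 := plf_le _ _

theorem s1a_end (T : Fin 12 → ℕ) (k : Fin 12) {a b : ℝ} (hab : a ≤ b) :
    ∫ x in a..b, psiR T k x ≤ 300 * (b - a) := by
  have h1 : ∫ x in a..b, psiR T k x ≤ ∫ _x in a..b, (300 : ℝ) :=
    intervalIntegral.integral_mono_on hab ((s1a_cont T k).intervalIntegrable _ _) intervalIntegrable_const
      fun x _ => s1a_le T k x
  rw [intervalIntegral.integral_const, smul_eq_mul] at h1
  linarith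

/-- CHUNK S1A. Put `h = nh k ≤ 4`, `W = 6 h`, `P_j = PP k X_j Y_j`, `δ_j = |na p_j + nc q_j| / 2 + h r_j ≤ 6 ε`.
For `|x| ≤ W - 6 ε` there is by `COV` (`a = na k`, `c = nc k`, `|a| + |c| = h`) a `j` with `|x - P_j| ≤ δ_j`,
so `|P_j| ≤ W`, and `psiR x ≤ psiR P_j + 700 δ_j`. Hence on `[-W + 6 ε, W - 6 ε]`
`psiR x ≤ sum_(j, |P_j| ≤ W) (psiR P_j + 700 δ_j) 1[|x - P_j| ≤ δ_j]`; integrate: each indicator contributes
at most `2 δ_j = |na p_j + nc q_j| + 2 h r_j`. The errors: `2 h sum r_j * 300 ≤ 2400 ε`,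
`700 δ_j * 2 δ_j ≤ 4200 ε * 2 δ_j`, `sum 2 δ_j ≤ 4 len F + 8 ε`, and the two ends `12 ε * 300`. If
`W < 6 ε` (impossible for `ε ≤ 1 / 100`). -/
theorem strip {T : Fin 12 → ℕ} (hT : ∀ k, okT (T k)) (k : Fin 12) {n : ℕ} {F : Fin n → Tb} {ε : ℝ}
    (hε : 0 < ε) (hε1 : ε ≤ 1 / 100) (hs : Sm F ε) (hc : COV F) :
    ∫ x in (-6 * (nh k : ℝ))..(6 * (nh k : ℝ)), psiR T k x ≤
      ∑ j, PsiR T k (F j).X (F j).Y * |(na k : ℝ) * (F j).p + (nc k : ℝ) * (F j).q|
        + 100000 * ε * (1 + len F) := by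
  obtain ⟨n1, n2, n3, n4, n5⟩ := s1a_nh k
  have h1 : (1 : ℝ) ≤ nh k := by exact_mod_cast n1
  have h4 : (nh k : ℝ) ≤ 4 := by exact_mod_cast n2
  have hac : |(na k : ℝ)| + |(nc k : ℝ)| = nh k := by exact_mod_cast n3
  generalize hh : (nh k : ℝ) = h at *
  set W : ℝ := 6 * h with hW
  have hWn : -6 * h = -W := by rw [hW]; ring
  rw [hWn]
  -- the half lengths
  let v : Fin n → ℝ := fun j => |(na k : ℝ) * (F j).p + (nc k : ℝ) * (F j).q|
  let δ : Fin n → ℝ := fun j => v j / 2 + h * (F j).r
  let P : Fin n → ℝ := fun j => PP k (F j).X (F j).Y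
  let c : Fin n → ℝ := fun j => PsiR T k (F j).X (F j).Y + 700 * δ j
  have hv0 : ∀ j, 0 ≤ v j := fun j => abs_nonneg _
  have hv1 : ∀ j, v j ≤ h * ε := by
    intro j
    calc v j ≤ |(na k : ℝ)| * |(F j).p| + |(nc k : ℝ)| * |(F j).q| := by
          refine (abs_add_le _ _).trans ?_
          rw [abs_mul, abs_mul]
      _ ≤ |(na k : ℝ)| * ε + |(nc k : ℝ)| * ε :=
          add_le_add (mul_le_mul_of_nonneg_left (hs.ple j) (abs_nonneg _))
            (mul_le_mul_of_nonneg_left (hs.qle j) (abs_nonneg _))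
      _ = h * ε := by rw [← add_mul, hac]
  have hv2 : ∀ j, v j ≤ 4 * Real.sqrt ((F j).p ^ 2 + (F j).q ^ 2) := by
    intro j
    have hp : |(F j).p| ≤ Real.sqrt ((F j).p ^ 2 + (F j).q ^ 2) :=
      Real.abs_le_sqrt (by nlinarith [sq_nonneg (F j).q])
    have hq : |(F j).q| ≤ Real.sqrt ((F j).p ^ 2 + (F j).q ^ 2) :=
      Real.abs_le_sqrt (by nlinarith [sq_nonneg (F j).p])
    calc v j ≤ |(na k : ℝ)| * |(F j).p| + |(nc k : ℝ)| * |(F j).q| := by
          refine (abs_add_le _ _).trans ?_
          rw [abs_mul, abs_mul]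
      _ ≤ |(na k : ℝ)| * Real.sqrt ((F j).p ^ 2 + (F j).q ^ 2) + |(nc k : ℝ)| * Real.sqrt ((F j).p ^ 2 + (F j).q ^ 2) :=
          add_le_add (mul_le_mul_of_nonneg_left hp (abs_nonneg _))
            (mul_le_mul_of_nonneg_left hq (abs_nonneg _))
      _ = h * Real.sqrt ((F j).p ^ 2 + (F j).q ^ 2) := by rw [← add_mul, hac]
      _ ≤ 4 * Real.sqrt ((F j).p ^ 2 + (F j).q ^ 2) := mul_le_mul_of_nonneg_right h4 (Real.sqrt_nonneg _)
  have hδ0 : ∀ j, 0 ≤ δ j := fun j => by
    have := hs.rpos j
    have := hv0 j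
    change 0 ≤ v j / 2 + h * (F j).r
    positivity
  have hδ1 : ∀ j, δ j ≤ 6 * ε := by
    intro j
    have a1 := hv1 j
    have a2 : h * (F j).r ≤ h * ε := mul_le_mul_of_nonneg_left (hs.rle j) (by linarith)
    have a3 : h * ε ≤ 4 * ε := mul_le_mul_of_nonneg_right h4 hε.le
    change v j / 2 + h * (F j).r ≤ 6 * ε
    linarith
  have hPsi0 : ∀ j, 0 ≤ PsiR T k (F j).X (F j).Y := by
    intro j
    unfold PsiR
    split_ifs
    · exact s1a_nonneg hT k _
    · exact le_rfl
  have hPsi1 : ∀ j, PsiR T k (F j).X (F j).Y ≤ 300 := by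
    intro j
    unfold PsiR
    split_ifs
    · exact s1a_le T k _
    · norm_num
  have hc0 : ∀ j, 0 ≤ c j := fun j => by
    have := hPsi0 j
    have := hδ0 j
    change 0 ≤ PsiR T k (F j).X (F j).Y + 700 * δ j
    positivity
  have hlen : 0 ≤ len F := Finset.sum_nonneg fun j _ => Real.sqrt_nonneg _
  -- the middle part
  have hmid : ∫ x in (-(W - 6 * ε))..(W - 6 * ε), psiR T k x ≤ ∑ j, c j * (2 * δ j) := by
    have hle : -(W - 6 * ε) ≤ W - 6 * ε := by linarith
    calc ∫ x in (-(W - 6 * ε))..(W - 6 * ε), psiR T k x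
        ≤ ∫ x in (-(W - 6 * ε))..(W - 6 * ε),
            ∑ j, (Set.Icc (P j - δ j) (P j + δ j)).indicator (fun _ => c j) x := by
          apply intervalIntegral.integral_mono_on hle ((s1a_cont T k).intervalIntegrable _ _)
          · have := IntervalIntegrable.sum (μ := volume) (a := -(W - 6 * ε)) (b := W - 6 * ε) Finset.univ
              (f := fun j => (Set.Icc (P j - δ j) (P j + δ j)).indicator (fun _ => c j)) fun j _ => s1a_ii
            have e : (fun x => ∑ j, (Set.Icc (P j - δ j) (P j + δ j)).indicator (fun _ => c j) x) =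
                ∑ j, (Set.Icc (P j - δ j) (P j + δ j)).indicator (fun _ => c j) := by
              funext x
              rw [Finset.sum_apply]
            rw [e]
            exact this
          · intro x hx
            have hx1 : |x| ≤ W - 6 * ε := abs_le.2 hx
            have hne : ((na k : ℝ) ≠ 0 ∨ (nc k : ℝ) ≠ 0) := by
              by_contra hcon
              rw [not_or, not_not, not_not] at hcon
              rw [hcon.1, hcon.2, abs_zero, add_zero] at hac
              linarith
            obtain ⟨j, hj⟩ := hc (na k) (nc k) x hne (by rw [hac]; linarith)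
            have hj' : |x - P j| ≤ δ j := by
              have := hj
              unfold Meets at this
              rw [hac] at this
              exact this
            have hPj : |P j| ≤ 6 * (nh k : ℝ) := by
              rw [hh]
              have a1 := hδ1 j
              have a2 : |P j| ≤ |x| + |x - P j| := by
                have := abs_sub_abs_le_abs_sub (P j) x
                rw [abs_sub_comm] at this
                linarith
              linarith
            have hPsi : PsiR T k (F j).X (F j).Y = psiR T k (P j) := by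
              unfold PsiR
              rw [if_pos hPj]
            have hfx : psiR T k x ≤ c j := by
              have a1 := (abs_le.1 (s1a_lip T k x (P j))).2
              change psiR T k x ≤ PsiR T k (F j).X (F j).Y + 700 * δ j
              rw [hPsi]
              linarith
            have hmem : x ∈ Set.Icc (P j - δ j) (P j + δ j) := by
              have := abs_le.1 hj'
              constructor <;> linarith [this.1, this.2]
            calc psiR T k x ≤ c j := hfx
              _ = (Set.Icc (P j - δ j) (P j + δ j)).indicator (fun _ => c j) x := by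
                  rw [Set.indicator_of_mem hmem]
              _ ≤ ∑ j, (Set.Icc (P j - δ j) (P j + δ j)).indicator (fun _ => c j) x :=
                  Finset.single_le_sum (f := fun j => (Set.Icc (P j - δ j) (P j + δ j)).indicator (fun _ => c j) x)
                    (fun i _ => Set.indicator_nonneg (fun _ _ => hc0 i) x) (Finset.mem_univ j)
      _ = ∑ j, ∫ x in (-(W - 6 * ε))..(W - 6 * ε), (Set.Icc (P j - δ j) (P j + δ j)).indicator (fun _ => c j) x := by
          rw [intervalIntegral.integral_finsetSum]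
          intro j _
          exact s1a_ii
      _ ≤ ∑ j, c j * (2 * δ j) := Finset.sum_le_sum fun j _ => s1a_ind hle (hδ0 j) (hc0 j)
  -- the ends
  have hi : ∀ a b, IntervalIntegrable (psiR T k) volume a b := fun a b => (s1a_cont T k).intervalIntegrable _ _
  have hsplit : ∫ x in (-W)..W, psiR T k x = (∫ x in (-W)..(-(W - 6 * ε)), psiR T k x) +
      (∫ x in (-(W - 6 * ε))..(W - 6 * ε), psiR T k x) + ∫ x in (W - 6 * ε)..W, psiR T k x := by
    rw [intervalIntegral.integral_add_adjacent_intervals (hi _ _) (hi _ _),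
      intervalIntegral.integral_add_adjacent_intervals (hi _ _) (hi _ _)]
  have hend1 := s1a_end T k (show -W ≤ -(W - 6 * ε) by linarith)
  have hend2 := s1a_end T k (show W - 6 * ε ≤ W by linarith)
  have hterm : ∀ j, c j * (2 * δ j) ≤ PsiR T k (F j).X (F j).Y * v j + 2400 * (F j).r +
      16800 * ε * Real.sqrt ((F j).p ^ 2 + (F j).q ^ 2) + 33600 * ε * (F j).r := by
    intro j
    have a0 := hs.rpos j
    have a1 := hv0 j
    have a2 := hv2 j
    have a3 := hδ0 j
    have a4 := hδ1 j
    have a5 := hPsi0 j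
    have a6 := hPsi1 j
    have e1 : c j * (2 * δ j) = PsiR T k (F j).X (F j).Y * v j + PsiR T k (F j).X (F j).Y * (2 * (h * (F j).r)) +
        1400 * (δ j * δ j) := by
      change (PsiR T k (F j).X (F j).Y + 700 * δ j) * (2 * δ j) = _
      have : 2 * δ j = v j + 2 * (h * (F j).r) := by
        change 2 * (v j / 2 + h * (F j).r) = _
        ring
      calc (PsiR T k (F j).X (F j).Y + 700 * δ j) * (2 * δ j)
          = PsiR T k (F j).X (F j).Y * (2 * δ j) + 1400 * (δ j * δ j) := by ring
        _ = _ := by rw [this]; ring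
    have hr4 : h * (F j).r ≤ 4 * (F j).r := mul_le_mul_of_nonneg_right h4 a0.le
    have hr0 : 0 ≤ h * (F j).r := by positivity
    have e2 : PsiR T k (F j).X (F j).Y * (2 * (h * (F j).r)) ≤ 300 * (2 * (4 * (F j).r)) :=
      mul_le_mul a6 (by linarith) (by positivity) (by norm_num)
    have e3 : δ j * δ j ≤ 6 * ε * δ j := mul_le_mul_of_nonneg_right a4 a3
    have e4 : δ j ≤ 2 * Real.sqrt ((F j).p ^ 2 + (F j).q ^ 2) + 4 * (F j).r := by
      change v j / 2 + h * (F j).r ≤ _
      linarith
    have e5 : 6 * ε * δ j ≤ 6 * ε * (2 * Real.sqrt ((F j).p ^ 2 + (F j).q ^ 2) + 4 * (F j).r) :=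
      mul_le_mul_of_nonneg_left e4 (by positivity)
    rw [e1]
    linarith
  have hsum : ∑ j, c j * (2 * δ j) ≤ ∑ j, PsiR T k (F j).X (F j).Y * v j + 2400 * ε + 16800 * ε * len F +
      33600 * ε * ε := by
    refine (Finset.sum_le_sum fun j _ => hterm j).trans ?_
    rw [Finset.sum_add_distrib, Finset.sum_add_distrib, Finset.sum_add_distrib, ← Finset.mul_sum,
      ← Finset.mul_sum, ← Finset.mul_sum]
    have b1 : ∑ j, (F j).r ≤ ε := hs.rsum
    have b2 : 33600 * ε * ∑ j, (F j).r ≤ 33600 * ε * ε := mul_le_mul_of_nonneg_left b1 (by positivity)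
    change ∑ j, PsiR T k (F j).X (F j).Y * v j + 2400 * ∑ j, (F j).r + 16800 * ε * len F + 33600 * ε * ∑ j, (F j).r ≤ _
    linarith
  have hee : ε * ε ≤ ε * (1 / 100) := mul_le_mul_of_nonneg_left hε1 hε.le
  have hel : 0 ≤ ε * len F := mul_nonneg hε.le hlen
  rw [hsplit]
  change _ ≤ ∑ j, PsiR T k (F j).X (F j).Y * v j + 100000 * ε * (1 + len F)
  nlinarith

end H58Q
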