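import Pool.Agent.Lib.H58Q.Defs

/-! H58Q S1B -/

namespace H58Q

open Set Finset MeasureTheory

theorem s1b_rC {n : ℕ} (F : Fin n → Tb) : rC (uF F) =
    ∑ j, kaT (F j) * rC (fun C M => |C + M * (F j).Y - (F j).X|) := by
  unfold rC uF
  simp only [← Finset.sum_sub_distrib, ← Finset.sum_add_distrib, Finset.sum_div]
  refine Finset.sum_congr rfl fun j _ => ?_
  ring

theorem s1b_rM {n : ℕ} (F : Fin n → Tb) : rM (uF F) =
    ∑ j, kaT (F j) * rM (fun C M => |C + M * (F j).Y - (F j).X|) := by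
  unfold rM uF
  simp only [← Finset.sum_sub_distrib, ← Finset.sum_add_distrib, Finset.sum_div]
  refine Finset.sum_congr rfl fun j _ => ?_
  ring

/-- CHUNK S1B. `Lam` is linear: for `u = uF F` it is `sum_j kaT (F j) * 2 * ee a m l X_j Y_j`. -/
theorem Lam_uF {n : ℕ} (F : Fin n → Tb) (a m : ℝ) (l : Fin 7 → ℝ) :
    Lam a m l (uF F) = ∑ j, kaT (F j) * (2 * ee a m l (F j).X (F j).Y) := by
  unfold ee Lam
  simp only [mul_div_cancel₀, Finset.mul_sum]
  rw [s1b_rC, s1b_rM]
  have e : ∀ i : Fin 7, l i * (uF F a m - uF F ((i : ℝ) - 3) 0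
      - (∑ j, kaT (F j) * rC (fun C M => |C + M * (F j).Y - (F j).X|)) * (a - ((i : ℝ) - 3))
      - (∑ j, kaT (F j) * rM (fun C M => |C + M * (F j).Y - (F j).X|)) * m) =
      ∑ j, kaT (F j) * (l i * (|a + m * (F j).Y - (F j).X| - |((i : ℝ) - 3) + 0 * (F j).Y - (F j).X|
        - rC (fun C M => |C + M * (F j).Y - (F j).X|) * (a - ((i : ℝ) - 3))
        - rM (fun C M => |C + M * (F j).Y - (F j).X|) * m)) := by
    intro i
    unfold uF
    rw [← Finset.sum_sub_distrib, Finset.sum_mul, ← Finset.sum_sub_distrib, Finset.sum_mul,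
      ← Finset.sum_sub_distrib, Finset.mul_sum]
    refine Finset.sum_congr rfl fun j _ => ?_
    ring
  rw [Finset.sum_congr rfl fun i _ => e i, Finset.sum_comm]
  refine Finset.sum_congr rfl fun j _ => ?_
  rw [← Finset.mul_sum]
  ring

end H58Q
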