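import Pool.Agent.Lib.H58Q.S1A
import Pool.Agent.Lib.H58Q.S1B
import Pool.Agent.Lib.H58Q.K2A
import Pool.Agent.Lib.H58Q.K3B

/-! H58Q S1C -/

namespace H58Q

open Set Finset MeasureTheory

/-- CHUNK S1C. The hypothesis at the points `(i - 3, 0)` says
`a^2 + 40 m^2 - (i - 3)^2 - s - δ ≤ u(a, m) - u(i - 3, 0) - rC u (a - (i - 3)) - rM u m`; multiply by
`l i ≥ 0` and add: `sum l_i (...) ≤ Lam a m l (uF F) + δ sum l_i`. By `Lam_uF` and
`2 kaT = FF (|p| + |q| / 2) + 4 r FF`, `Lam = sum_j ee FF (|p_j| + |q_j| / 2) + sum_j 4 r_j ee FF`, and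
`ee FF ≤ 1` by the inequality of the certificate for `(p, q) = (1, 0)` (the densities are
nonnegative). Add the twelve strips and the inequality of the certificate at the tubes. -/
theorem class_step {a m s : ℝ} (hC : Cert a m s) : ∃ K : ℝ, 0 < K ∧ ∀ (ε : ℝ), 0 < ε → ε ≤ 1 / 100 →
    ∀ (n : ℕ) (F : Fin n → Tb), Sm F ε → COV F → ∀ δ : ℝ, 0 ≤ δ →
    (∀ C M : ℝ, |C| ≤ 6 → |M| ≤ 1 / 2 → hF F a m ≤ hF F C M + s + δ) →
    6099 / 250 ≤ len F + K * (ε * (1 + len F) + δ) := by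
  obtain ⟨T, l, hT, hl, hin, hval⟩ := hC
  have hΨ0 : ∀ k X Y, 0 ≤ PsiR T k X Y := by
    intro k X Y
    unfold PsiR psiR
    split_ifs
    · exact plf_nonneg (hT k) _
    · exact le_rfl
  have hee : ∀ X Y, ee a m l X Y * FF Y ≤ 1 := by
    intro X Y
    have h := hin X Y 1 0
    have h1 : 0 ≤ ∑ k, PsiR T k X Y * |(na k : ℝ) * 1 + (nc k : ℝ) * 0| :=
      Finset.sum_nonneg fun k _ => mul_nonneg (hΨ0 k X Y) (abs_nonneg _)
    have h2 : Real.sqrt ((1 : ℝ) ^ 2 + 0 ^ 2) = 1 := by norm_num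
    rw [h2, abs_one, abs_zero] at h
    linarith
  have hΛ : 0 ≤ ∑ i, l i := Finset.sum_nonneg fun i _ => hl i
  refine ⟨1200004 + ∑ i, l i, by linarith, ?_⟩
  intro ε hε hε1 n F hs hc δ hδ hmin
  have hlen : 0 ≤ len F := Finset.sum_nonneg fun j _ => Real.sqrt_nonneg _
  -- the functional
  have h1 : ∀ i : Fin 7, l i * (a ^ 2 + 40 * m ^ 2 - ((i : ℝ) - 3) ^ 2 - s) ≤
      l i * (uF F a m - uF F ((i : ℝ) - 3) 0 - rC (uF F) * (a - ((i : ℝ) - 3)) - rM (uF F) * m)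
        + δ * l i := by
    intro i
    have hi : |((i : ℝ) - 3)| ≤ 6 := by
      have h2 : ((i : ℕ) : ℝ) ≤ 6 := by exact_mod_cast Nat.le_of_lt_succ i.2
      have h3 : (0 : ℝ) ≤ ((i : ℕ) : ℝ) := Nat.cast_nonneg _
      rw [abs_le]; constructor <;> linarith
    have h := hmin ((i : ℝ) - 3) 0 hi (by norm_num)
    unfold hF at h
    have h4 : a ^ 2 + 40 * m ^ 2 - ((i : ℝ) - 3) ^ 2 - s ≤
        uF F a m - uF F ((i : ℝ) - 3) 0 - rC (uF F) * (a - ((i : ℝ) - 3)) - rM (uF F) * m + δ := by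
      linarith
    have h5 := mul_le_mul_of_nonneg_left h4 (hl i)
    linarith
  have h2 : ∑ i : Fin 7, l i * (a ^ 2 + 40 * m ^ 2 - ((i : ℝ) - 3) ^ 2 - s) ≤
      Lam a m l (uF F) + δ * ∑ i, l i := by
    unfold Lam
    rw [Finset.mul_sum, ← Finset.sum_add_distrib]
    exact Finset.sum_le_sum fun i _ => h1 i
  rw [Lam_uF] at h2
  -- the strips
  have h3 : ∑ k, (∫ x in (-6 * (nh k : ℝ))..(6 * (nh k : ℝ)), psiR T k x) ≤
      ∑ k : Fin 12, (∑ j, PsiR T k (F j).X (F j).Y * |(na k : ℝ) * (F j).p + (nc k : ℝ) * (F j).q|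
        + 100000 * ε * (1 + len F)) :=
    Finset.sum_le_sum fun k _ => strip hT k hε hε1 hs hc
  rw [Finset.sum_add_distrib, Finset.sum_comm, Finset.sum_const, Finset.card_univ, Fintype.card_fin,
    nsmul_eq_mul] at h3
  -- the tubes
  have h4 : ∀ j, kaT (F j) * (2 * ee a m l (F j).X (F j).Y) ≤
      ee a m l (F j).X (F j).Y * FF (F j).Y * (|(F j).p| + |(F j).q| / 2) + 4 * (F j).r := by
    intro j
    unfold kaT alT
    have h5 := hee (F j).X (F j).Y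
    have h6 := hs.rpos j
    have h7 : (F j).r * (ee a m l (F j).X (F j).Y * FF (F j).Y) ≤ (F j).r * 1 :=
      mul_le_mul_of_nonneg_left h5 h6.le
    nlinarith
  have h5 : ∑ j, (∑ k, PsiR T k (F j).X (F j).Y * |(na k : ℝ) * (F j).p + (nc k : ℝ) * (F j).q|
      + kaT (F j) * (2 * ee a m l (F j).X (F j).Y)) ≤ ∑ j, (Real.sqrt ((F j).p ^ 2 + (F j).q ^ 2)
        + 4 * (F j).r) := by
    refine Finset.sum_le_sum fun j _ => ?_
    have h6 := hin (F j).X (F j).Y (F j).p (F j).q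
    have h7 := h4 j
    linarith
  rw [Finset.sum_add_distrib, Finset.sum_add_distrib, ← Finset.mul_sum] at h5
  have h6 := hs.rsum
  have h7 : ∑ j, Real.sqrt ((F j).p ^ 2 + (F j).q ^ 2) = len F := rfl
  rw [h7] at h5
  have h8 : 0 ≤ ε * len F := mul_nonneg hε.le hlen
  have h9 : 0 ≤ (∑ i, l i) * (ε * (1 + len F)) := mul_nonneg hΛ (mul_nonneg hε.le (by linarith))
  push_cast at h3
  nlinarith

end H58Q
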