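import Pool.Agent.Lib.H58Q.S1C
import Pool.Agent.Lib.H58Q.B1F

/-! H58Q S1D -/

namespace H58Q

open Set Finset MeasureTheory

/-- CHUNK S1D. If `len F ≥ 6099 / 250` there is nothing to prove; otherwise `alternatives` and
`class_step` with `δ = 1000 ε (1 + len F)`, `1 + len F ≤ 26`, and `ε` small depending on `η` and the
five constants. -/
theorem core_of_certs (h : ∀ i : Fin 5, Cert (av i) (mv i) (rv i ^ 2)) : Core := by
  choose K hK0 hK using fun i => class_step (h i)
  have hKs : 0 < ∑ i, K i := Finset.sum_pos (fun i _ => hK0 i) ⟨0, Finset.mem_univ _⟩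
  intro η hη
  refine ⟨min (1 / 100) (η / (26026 * ∑ i, K i)), lt_min (by norm_num) (by positivity), ?_⟩
  intro n F hs hc
  obtain ⟨ε, hεd⟩ : ∃ ε, ε = min (1 / 100) (η / (26026 * ∑ i, K i)) := ⟨_, rfl⟩
  rw [← hεd] at hs
  have hε : 0 < ε := by rw [hεd]; exact lt_min (by norm_num) (by positivity)
  have hε1 : ε ≤ 1 / 100 := by rw [hεd]; exact min_le_left _ _
  have hε2 : ε * (26026 * ∑ i, K i) ≤ η := by
    have : ε ≤ η / (26026 * ∑ i, K i) := by rw [hεd]; exact min_le_right _ _
    rwa [le_div_iff₀ (by positivity)] at this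
  by_cases hlen : 6099 / 250 ≤ len F
  · linarith
  push Not at hlen
  obtain ⟨F', hs', hc', hl', i, hi⟩ := alternatives hε hε1 hs hc
  have hlen0 : 0 ≤ len F := Finset.sum_nonneg fun j _ => Real.sqrt_nonneg _
  have h1 := hK i ε hε hε1 n F' hs' hc' (1000 * ε * (1 + len F)) (by positivity)
    (fun C M hC hM => by have := hi C M hC hM; linarith)
  rw [hl'] at h1
  have h2 : K i ≤ ∑ i, K i := Finset.single_le_sum (fun i _ => (hK0 i).le) (Finset.mem_univ i)
  have h3 : ε * (1 + len F) + 1000 * ε * (1 + len F) ≤ 26026 * ε := by nlinarith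
  have h4 : K i * (ε * (1 + len F) + 1000 * ε * (1 + len F)) ≤ (∑ i, K i) * (26026 * ε) :=
    mul_le_mul h2 h3 (by positivity) hKs.le
  linarith

end H58Q
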