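import Pool.Agent.Lib.H58Q.M1E
import Pool.Agent.Lib.H58Q.S1D
import Pool.Agent.Lib.H58Q.D0
import Pool.Agent.Lib.H58Q.D1
import Pool.Agent.Lib.H58Q.D2
import Pool.Agent.Lib.H58Q.D3
import Pool.Agent.Lib.H58Q.D4

/-! H58Q: the finite core, from the five certificates. -/

namespace H58Q

theorem cert0 : Cert (av 0) (mv 0) (rv 0 ^ 2) := by
  have h := cert_of_dat D0_dat D0_chk 102010000 (by decide +kernel)
  have e1 : av 0 = -((0 : ℕ) : ℝ) / 4 := by show (0 : ℝ) = _; norm_num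
  have e2 : mv 0 = ((1 : ℕ) : ℝ) / 2 := by show (1 / 2 : ℝ) = _; norm_num
  have e3 : rv 0 ^ 2 = ((102010000 : ℤ) : ℝ) / 10 ^ 8 := by show (101 / 100 : ℝ) ^ 2 = _; norm_num
  rw [e1, e2, e3]; exact h

theorem cert1 : Cert (av 1) (mv 1) (rv 1 ^ 2) := by
  have h := cert_of_dat D1_dat D1_chk 54760000 (by decide +kernel)
  have e1 : av 1 = -((7 : ℕ) : ℝ) / 4 := by show (-7 / 4 : ℝ) = _; norm_num
  have e2 : mv 1 = ((1 : ℕ) : ℝ) / 2 := by show (1 / 2 : ℝ) = _; norm_num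
  have e3 : rv 1 ^ 2 = ((54760000 : ℤ) : ℝ) / 10 ^ 8 := by show (74 / 100 : ℝ) ^ 2 = _; norm_num
  rw [e1, e2, e3]; exact h

theorem cert2 : Cert (av 2) (mv 2) (rv 2 ^ 2) := by
  have h := cert_of_dat D2_dat D2_chk 59290000 (by decide +kernel)
  have e1 : av 2 = -((13 : ℕ) : ℝ) / 4 := by show (-13 / 4 : ℝ) = _; norm_num
  have e2 : mv 2 = ((1 : ℕ) : ℝ) / 2 := by show (1 / 2 : ℝ) = _; norm_num
  have e3 : rv 2 ^ 2 = ((59290000 : ℤ) : ℝ) / 10 ^ 8 := by show (77 / 100 : ℝ) ^ 2 = _; norm_num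
  rw [e1, e2, e3]; exact h

theorem cert3 : Cert (av 3) (mv 3) (rv 3 ^ 2) := by
  have h := cert_of_dat D3_dat D3_chk 428490000 (by decide +kernel)
  have e1 : av 3 = -((24 : ℕ) : ℝ) / 4 := by show (-6 : ℝ) = _; norm_num
  have e2 : mv 3 = ((1 : ℕ) : ℝ) / 2 := by show (1 / 2 : ℝ) = _; norm_num
  have e3 : rv 3 ^ 2 = ((428490000 : ℤ) : ℝ) / 10 ^ 8 := by show (207 / 100 : ℝ) ^ 2 = _; norm_num
  rw [e1, e2, e3]; exact h

theorem cert4 : Cert (av 4) (mv 4) (rv 4 ^ 2) := by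
  have h := cert_of_dat D4_dat D4_chk 119311929 (by decide +kernel)
  have e1 : av 4 = -((24 : ℕ) : ℝ) / 4 := by show (-6 : ℝ) = _; norm_num
  have e2 : mv 4 = ((0 : ℕ) : ℝ) / 2 := by show (0 : ℝ) = _; norm_num
  have e3 : rv 4 ^ 2 = ((119311929 : ℤ) : ℝ) / 10 ^ 8 := by show (10923 / 10000 : ℝ) ^ 2 = _; norm_num
  rw [e1, e2, e3]; exact h

theorem core : Core := core_of_certs (fun i => by
  fin_cases i
  · exact cert0
  · exact cert1
  · exact cert2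
  · exact cert3
  · exact cert4)

end H58Q
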