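import Pool.Agent.Lib.H58Q.Defs

/-! H58Q V1A -/

namespace H58Q

open Set Finset MeasureTheory

theorem v1a_succ (n : ℕ) (g : ℕ → Bool) : allB (n + 1) g = band (g n) (allB n g) := rfl

/-- CHUNK V1A. The loops. `allB n g = true ↔ ∀ k < n, g k = true` by induction on `n`
(`allB (n + 1) g = band (g n) (allB n g)` by `rfl`). -/
theorem allB_iff (n : ℕ) (g : ℕ → Bool) : allB n g = true ↔ ∀ k < n, g k = true := by
  induction n with
  | zero => exact ⟨fun _ k hk => absurd hk (Nat.not_lt_zero k), fun _ => rfl⟩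
  | succ n ih =>
    rw [v1a_succ, band_eq, Bool.and_eq_true, ih]
    constructor
    · rintro ⟨h1, h2⟩ k hk
      rcases Nat.lt_succ_iff_lt_or_eq.1 hk with h3 | h3
      · exact h2 k h3
      · rw [h3]
        exact h1
    · intro h
      exact ⟨h n (Nat.lt_succ_self n), fun k hk => h k (Nat.lt_succ_of_lt hk)⟩

theorem forY_iff (g : ℕ → Bool) : forY g = true ↔ ∀ y ∈ ys, g y = true := by
  unfold forY ys
  simp only [band_eq, Bool.and_eq_true, allB_iff, frc_eq, Finset.mem_union, Finset.mem_image,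
    Finset.mem_range]
  constructor
  · rintro ⟨h1, h2, h3⟩ y ((⟨i, hi, rfl⟩ | ⟨i, hi, rfl⟩) | ⟨i, hi, rfl⟩)
    · exact h1 i hi
    · exact h2 i hi
    · exact h3 i hi
  · intro h
    exact ⟨fun i hi => h _ (Or.inl (Or.inl ⟨i, hi, rfl⟩)),
      fun i hi => h _ (Or.inl (Or.inr ⟨i, hi, rfl⟩)), fun i hi => h _ (Or.inr ⟨i, hi, rfl⟩)⟩

theorem forX_iff (g : ℕ → Bool) : forX g = true ↔ ∀ x ∈ xs, g x = true := by
  unfold forX xs
  simp only [band_eq, Bool.and_eq_true, allB_iff, frc_eq, Finset.mem_union, Finset.mem_image,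
    Finset.mem_range, Finset.mem_insert, Finset.mem_singleton]
  constructor
  · rintro ⟨h1, h2, h3, h4, h5⟩ y
      (((⟨i, hi, rfl⟩ | ⟨i, hi, rfl⟩) | ⟨i, hi, rfl⟩) | (rfl | rfl))
    · exact h1 i hi
    · exact h2 i hi
    · exact h3 i hi
    · exact h4
    · exact h5
  · intro h
    exact ⟨fun i hi => h _ (Or.inl (Or.inl (Or.inl ⟨i, hi, rfl⟩))),
      fun i hi => h _ (Or.inl (Or.inl (Or.inr ⟨i, hi, rfl⟩))),
      fun i hi => h _ (Or.inl (Or.inr ⟨i, hi, rfl⟩)), h _ (Or.inr (Or.inl rfl)),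
      h _ (Or.inr (Or.inr rfl))⟩

theorem forP_iff (g : ℕ → ℕ → Bool) : forP g = true ↔
    g 3 1 = true ∧ g 2 1 = true ∧ g 1 1 = true ∧ g 1 2 = true ∧ g 1 3 = true := by
  simp [forP, band_eq]

theorem forO_iff (g : ℕ → ℕ → ℕ → Bool) : forO g = true ↔
    ∀ k : Fin 12, na k ≠ 0 → nc k ≠ 0 → g (tr k).1 (tr k).2.1 (tr k).2.2 = true := by
  unfold forO
  rw [band_eq, Bool.and_eq_true, forP_iff, forP_iff]
  constructor
  · rintro ⟨⟨h1, h2, h3, h4, h5⟩, h6, h7, h8, h9, h10⟩ k hk1 hk2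
    fin_cases k
    · exact absurd rfl hk2
    · exact h1
    · exact h2
    · exact h3
    · exact h4
    · exact h5
    · exact absurd rfl hk1
    · exact h10
    · exact h9
    · exact h8
    · exact h7
    · exact h6
  · intro h
    exact ⟨⟨h 1 (by decide) (by decide), h 2 (by decide) (by decide), h 3 (by decide) (by decide),
      h 4 (by decide) (by decide), h 5 (by decide) (by decide)⟩,
      h 11 (by decide) (by decide), h 10 (by decide) (by decide), h 9 (by decide) (by decide),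
      h 8 (by decide) (by decide), h 7 (by decide) (by decide)⟩

end H58Q
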